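import Pool.Agent.Y603.BR.Conv

/-!
# Circuits of bounded depth: more digits than the logarithm of the Fourier bound

A variant of `Pool.Agent.Y603.BR.real_fool`, `circ_fool`: the Fourier coefficients are at most `1 / M`, and
the number of digits is at most `(log M) ^ T`, for any `T`.
-/

set_option autoImplicit false

namespace Pool.Agent.J6H93.Fam

open Finset MeasureTheory Filter Real
open Pool.Agent.Y933.KD (Leb)
open Pool.Agent.Y603.BR

lemma numericsQ {b : ℕ} (hb : 2 ≤ b) {q : ℕ} (hq : 1 ≤ q) (Q : ℕ) {η : ℝ} (hη : 0 < η) :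
    ∃ x0 : ℝ, 1 ≤ x0 ∧ ∀ x : ℝ, x0 ≤ x → 2 ≤ ⌊x ^ 2⌋₊ ∧ exp x ≤ 2 ^ ⌊x ^ 2⌋₊ ∧
      ((⌊x ^ 2⌋₊ ^ q : ℕ) : ℝ) ≤ x ^ (8 * q) ∧
      ∀ n : ℕ, (n : ℝ) ≤ x ^ Q → (n : ℝ) * ⌊x ^ 2⌋₊ ≤ 2 ^ ⌊x ^ 2⌋₊ ∧
        2 * (n * ((b : ℝ) / 2 ^ ⌊x ^ 2⌋₊)) + (1 / 2) ^ ⌊x ^ 2⌋₊ ≤ exp (-x) / 2 ∧
        (64 * b * (n * ⌊x ^ 2⌋₊ + 1)) ^ (⌊x ^ 2⌋₊ ^ q) *
          exp (-(η * x ^ (8 * q) / (8 * (⌊x ^ 2⌋₊ ^ q : ℕ)))) ≤ exp (-x) / 2 := by
  have hbR : (2 : ℝ) ≤ b := by exact_mod_cast hb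
  have hev : ∀ᶠ x : ℝ in atTop, 64 * b * (x ^ (Q + 2) + 1) ≤ exp x := by
    have h1 := (isLittleO_pow_exp_atTop (n := Q + 2)).def
      (by positivity : (0 : ℝ) < 1 / (2 * (64 * b * 1 + 1)))
    have h2 := (isLittleO_pow_exp_atTop (n := 0)).def
      (by positivity : (0 : ℝ) < 1 / (2 * (64 * b)))
    filter_upwards [h1, h2, eventually_ge_atTop 0] with x h1 h2 h3
    rw [norm_of_nonneg (by positivity), norm_of_nonneg (exp_pos x).le] at h1
    rw [pow_zero, norm_one, norm_of_nonneg (exp_pos x).le] at h2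
    have e1 : 64 * (b : ℝ) * 1 * x ^ (Q + 2) ≤ exp x / 2 := by
      rw [div_mul_eq_mul_div, one_mul, le_div_iff₀ (by positivity)] at h1
      have h4 : 0 ≤ x ^ (Q + 2) := by positivity
      nlinarith
    have e2 : 64 * (b : ℝ) ≤ exp x / 2 := by
      rw [div_mul_eq_mul_div, one_mul, le_div_iff₀ (by positivity)] at h2
      linarith
    nlinarith
  obtain ⟨x1, hx1⟩ := eventually_atTop.1 hev
  refine ⟨max (max x1 4) (24 / η), by
    exact le_trans (by norm_num) ((le_max_right x1 4).trans (le_max_left _ _)), fun x hx => ?_⟩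
  have hF := hx1 x ((le_max_left _ _).trans ((le_max_left _ _).trans hx))
  have hx4 : (4 : ℝ) ≤ x := (le_max_right _ _).trans ((le_max_left _ _).trans hx)
  have hxη : 24 / η ≤ x := (le_max_right _ _).trans hx
  rw [div_le_iff₀ hη] at hxη
  have hx0 : (0 : ℝ) < x := by linarith
  have hx1' : (1 : ℝ) ≤ x := by linarith
  set s := ⌊x ^ 2⌋₊ with hs
  have hs1 : (s : ℝ) ≤ x ^ 2 := Nat.floor_le (by positivity)
  have hs2 : x ^ 2 < s + 1 := Nat.lt_floor_add_one _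
  have hs4 : (2 : ℝ) ≤ s := by nlinarith
  have hs5 : 2 ≤ s := by exact_mod_cast hs4
  have hlog : (0.69 : ℝ) < log 2 := by
    have := Real.log_two_gt_d9
    linarith
  have hexp : exp (2 * x) ≤ 2 ^ s := by
    have h1 : (2 : ℝ) ^ s = exp (s * log 2) := by
      rw [Real.exp_nat_mul, Real.exp_log (by norm_num)]
    rw [h1]
    apply Real.exp_le_exp.2
    have h2 : 4 * x - 1 ≤ s := by nlinarith
    nlinarith
  have hexp' : exp (2 * x) = exp x * exp x := by rw [← Real.exp_add]; congr 1; ring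
  have hex1 : 1 ≤ exp x := Real.one_le_exp hx0.le
  have hexn : exp (-x) = (exp x)⁻¹ := Real.exp_neg x
  have h2s : (0 : ℝ) < 2 ^ s := by positivity
  set k := s ^ q with hk
  have hk1 : (k : ℝ) ≤ x ^ (2 * q) := by
    rw [hk, Nat.cast_pow, pow_mul]
    exact pow_le_pow_left₀ (Nat.cast_nonneg _) hs1 q
  have hkpos : (0 : ℝ) < k := by
    rw [hk, Nat.cast_pow]
    positivity
  refine ⟨hs5, ?_, hk1.trans (pow_le_pow_right₀ hx1' (by omega)), fun n hn => ⟨?_, ?_, ?_⟩⟩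
  · nlinarith
  · have h1 : (n : ℝ) * s ≤ x ^ (Q + 2) := by
      rw [pow_add]
      exact mul_le_mul hn hs1 (Nat.cast_nonneg _) (by positivity)
    nlinarith
  · have h1 : 2 * ((n : ℝ) * ((b : ℝ) / 2 ^ s)) + (1 / 2) ^ s = (2 * n * b + 1) / 2 ^ s := by
      rw [one_div_pow]
      field_simp
    rw [h1, div_le_iff₀ h2s]
    have h3 : (n : ℝ) ≤ x ^ (Q + 2) := hn.trans (pow_le_pow_right₀ hx1' (by omega))
    have h4 : 2 * (n : ℝ) * b + 1 ≤ exp x / 2 := by nlinarith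
    have h5 : exp (-x) / 2 * exp (2 * x) = exp x / 2 := by
      rw [hexp', hexn]
      have : exp x ≠ 0 := (exp_pos x).ne'
      field_simp
    have h6 : exp (-x) / 2 * exp (2 * x) ≤ exp (-x) / 2 * 2 ^ s :=
      mul_le_mul_of_nonneg_left hexp (by positivity)
    linarith
  · have h1 : (n : ℝ) * s ≤ x ^ (Q + 2) := by
      rw [pow_add]
      exact mul_le_mul hn hs1 (Nat.cast_nonneg _) (by positivity)
    have h2 : 64 * (b : ℝ) * (n * s + 1) ≤ exp x := by
      refine le_trans ?_ hF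
      have : 0 ≤ 64 * (b : ℝ) := by positivity
      nlinarith
    have h3 : (64 * (b : ℝ) * (n * s + 1)) ^ k ≤ exp (x ^ (3 * q)) := by
      calc (64 * (b : ℝ) * (n * s + 1)) ^ k ≤ exp x ^ k :=
            pow_le_pow_left₀ (by positivity) h2 k
        _ = exp (k * x) := by rw [Real.exp_nat_mul]
        _ ≤ exp (x ^ (3 * q)) := by
            apply Real.exp_le_exp.2
            calc (k : ℝ) * x ≤ x ^ (2 * q) * x := mul_le_mul_of_nonneg_right hk1 hx0.le
              _ = x ^ (2 * q + 1) := (pow_succ _ _).symm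
              _ ≤ x ^ (3 * q) := pow_le_pow_right₀ hx1' (by omega)
    have h4 : exp (-(η * x ^ (8 * q) / (8 * (k : ℝ)))) ≤ exp (-(η / 8 * x ^ (6 * q))) := by
      apply Real.exp_le_exp.2
      rw [neg_le_neg_iff, le_div_iff₀ (by positivity)]
      have h5 : x ^ (8 * q) = x ^ (6 * q) * x ^ (2 * q) := by
        rw [← pow_add]; congr 1; ring
      rw [h5]
      have h6 : 0 ≤ η * x ^ (6 * q) := by positivity
      nlinarith
    have h5 : x ^ (3 * q) - η / 8 * x ^ (6 * q) ≤ -x - 1 := by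
      have h6 : x ≤ x ^ (3 * q) := by
        calc x = x ^ 1 := (pow_one x).symm
          _ ≤ x ^ (3 * q) := pow_le_pow_right₀ hx1' (by omega)
      have h7 : x ^ (6 * q) = x ^ (3 * q) * x ^ (3 * q) := by
        rw [← pow_add]; congr 1; ring
      have h8 : 3 ≤ η / 8 * x ^ (3 * q) := by nlinarith
      rw [h7]
      have h9 : 3 * x ^ (3 * q) ≤ η / 8 * x ^ (3 * q) * x ^ (3 * q) :=
        mul_le_mul_of_nonneg_right h8 (by positivity)
      nlinarith
    calc (64 * (b : ℝ) * (n * s + 1)) ^ k * exp (-(η * x ^ (8 * q) / (8 * (k : ℝ))))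
        ≤ exp (x ^ (3 * q)) * exp (-(η / 8 * x ^ (6 * q))) :=
          mul_le_mul h3 h4 (exp_pos _).le (exp_pos _).le
      _ = exp (x ^ (3 * q) - η / 8 * x ^ (6 * q)) := by rw [← Real.exp_add]; congr 1
      _ ≤ exp (-x - 1) := Real.exp_le_exp.2 h5
      _ ≤ exp (-x) / 2 := by
          rw [Real.exp_sub]
          have h6 : (2 : ℝ) ≤ exp 1 := by
            have := Real.add_one_le_exp (1 : ℝ)
            linarith
          exact div_le_div_of_nonneg_left (exp_pos _).le (by norm_num) h6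


/-- The digits of a random real number with rather small Fourier coefficients fool the circuits of
constant depth: more digits than the logarithm of the bound for the Fourier coefficients. -/
theorem fool_gen {b : ℕ} (hb : 2 ≤ b) (hb0 : 0 < b) (d : ℕ) (T : ℝ) :
    ∃ c : ℝ, 0 < c ∧ ∃ M0 : ℝ, ∀ M : ℝ, M0 ≤ M → ∀ (P : Measure ℝ) [IsProbabilityMeasure P],
      ∀ n : ℕ, (n : ℝ) ≤ log M ^ T →
      (∀ l : ℤ, l ≠ 0 → |(l : ℝ)| ≤ M ^ (2 : ℝ) * (b : ℝ) ^ n →
        ‖Pool.Agent.Y933.KD.hat P l‖ ≤ M ^ (-(1 : ℝ))) →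
      ∀ C : LC (Fin b) n, (∀ v, C.depth v ≤ d) →
      (Nat.card C.Node : ℝ) ≤ exp (log M ^ c) → ∀ v : C.Node,
      |P.real {y | C.val v (gdig hb0 n y) = true} -
        Leb.real {y | C.val v (gdig hb0 n y) = true}| ≤ exp (-(log M ^ c)) := by
  classical
  obtain ⟨q0, hq0⟩ := PB.ord d
  set q := max q0 1 with hq
  have hq1 : 1 ≤ q := le_max_right _ _
  have hord : ∀ s, 2 ≤ s → ord s s d ≤ s ^ q := fun s hs =>
    (hq0 s hs).trans (Nat.pow_le_pow_right (by omega) (le_max_left _ _))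
  have hqR : (0 : ℝ) < q := by exact_mod_cast hq1
  obtain ⟨η', hη'⟩ : ∃ η' : ℝ, η' = 1 := ⟨_, rfl⟩
  have hη'0 : 0 < η' := by rw [hη']; exact one_pos
  have hη'1 : η' ≤ 1 := hη'.le
  obtain ⟨Q, hQ⟩ : ∃ Q : ℕ, Q = ⌈8 * q * T⌉₊ := ⟨_, rfl⟩
  obtain ⟨x0, hx01, hx0⟩ := numericsQ hb hq1 Q hη'0
  set c : ℝ := 1 / (8 * q) with hc
  have hc0 : 0 < c := by positivity
  -- the threshold
  have htend : Tendsto (fun M : ℝ => log M ^ c) atTop atTop :=
    (tendsto_rpow_atTop hc0).comp Real.tendsto_log_atTop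
  obtain ⟨M1, hM1⟩ := eventually_atTop.1 (htend.eventually_ge_atTop x0)
  refine ⟨c, hc0, max M1 3, fun M hM P _ n hn hP C hCd hCs v => ?_⟩
  have hMM1 : M1 ≤ M := le_of_max_le_left hM
  have hMR : (3 : ℝ) ≤ M := le_of_max_le_right hM
  have hMR1 : (1 : ℝ) ≤ M := by linarith
  have hMp : (0 : ℝ) < M := by linarith
  set X := log (M : ℝ) with hX
  set x := X ^ c with hx
  have hXM : X ≤ M := (Real.log_le_sub_one_of_pos hMp).trans (by linarith)
  have hX1 : 0 ≤ X := Real.log_nonneg hMR1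
  have hxx0 : x0 ≤ x := hM1 M hMM1
  have hxX : x ^ (8 * q) = X := by
    rw [hx, ← Real.rpow_natCast, ← Real.rpow_mul hX1, hc]
    have : 1 / (8 * (q : ℝ)) * ((8 * q : ℕ) : ℝ) = 1 := by
      push_cast
      field_simp
    rw [this, Real.rpow_one]
  obtain ⟨hs2, hsize, hkX, hnum⟩ := hx0 x hxx0
  set s := ⌊x ^ 2⌋₊ with hs
  set k := s ^ q with hk
  have hk1 : 1 ≤ k := Nat.one_le_pow _ _ (by omega)
  have hkR : (1 : ℝ) ≤ k := by exact_mod_cast hk1
  have hx1 : 1 ≤ x := hx01.trans hxx0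
  have hnX : (n : ℝ) ≤ x ^ Q := by
    refine hn.trans ?_
    have h1 : X ^ T = x ^ (8 * q * T : ℝ) := by
      rw [hx, ← Real.rpow_mul hX1, hc]
      congr 1
      field_simp
    rw [h1, ← Real.rpow_natCast]
    apply Real.rpow_le_rpow_of_exponent_le hx1
    rw [hQ]
    exact Nat.le_ceil _
  obtain ⟨hn1, hn2, hn3⟩ := hnum n hnX
  -- the level
  set κ : ℝ := η' / (8 * k) with hκ
  have hκ0 : 0 < κ := by positivity
  have hκ8 : κ ≤ 1 / 8 := by
    rw [hκ, div_le_div_iff₀ (by positivity) (by norm_num)]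
    nlinarith
  have hκk : κ * k = η' / 8 := by
    rw [hκ]; field_simp
  set K : ℕ := ⌊(M : ℝ) ^ κ⌋₊ with hK
  have hMκ : 1 ≤ (M : ℝ) ^ κ := Real.one_le_rpow hMR1 hκ0.le
  have hKpos : 0 < K := Nat.floor_pos.2 hMκ
  have hK1 : (K : ℝ) ≤ (M : ℝ) ^ κ := Nat.floor_le (by linarith)
  have hKR : (0 : ℝ) < K := by exact_mod_cast hKpos
  have hK2 : (M : ℝ) ^ κ ≤ 2 * K := by
    have h1 := Nat.lt_floor_add_one ((M : ℝ) ^ κ)
    have h2 : (1 : ℝ) ≤ K := by exact_mod_cast hKpos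
    rw [← hK] at h1
    linarith
  have hK3 : (K : ℝ) ^ 3 ≤ (M : ℝ) ^ (3 * κ) := by
    calc (K : ℝ) ^ 3 ≤ ((M : ℝ) ^ κ) ^ 3 := pow_le_pow_left₀ hKR.le hK1 3
      _ = (M : ℝ) ^ (3 * κ) := by
          rw [← Real.rpow_natCast, ← Real.rpow_mul hMp.le]
          congr 1
          push_cast
          ring
  set Δ := (M : ℝ) ^ (-η') with hΔ
  have hΔ0 : 0 ≤ Δ := by positivity
  have hPΔ : ∀ l : ℤ, l ≠ 0 → |(l : ℝ)| ≤ k * (K : ℝ) ^ 3 * (b : ℝ) ^ n →
      ‖Pool.Agent.Y933.KD.hat P l‖ ≤ Δ := by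
    intro l hl hle
    refine (hP l hl (hle.trans ?_)).trans
      (Real.rpow_le_rpow_of_exponent_le hMR1 (by rw [hη']))
    have h1 : (k : ℝ) ≤ (M : ℝ) ^ (1 : ℝ) := by
      rw [Real.rpow_one]
      exact (hkX.trans (le_of_eq hxX)).trans hXM
    have h2 : (K : ℝ) ^ 3 ≤ (M : ℝ) ^ (1 : ℝ) :=
      hK3.trans (Real.rpow_le_rpow_of_exponent_le hMR1 (by linarith))
    calc k * (K : ℝ) ^ 3 * (b : ℝ) ^ n ≤ (M : ℝ) ^ (1 : ℝ) * (M : ℝ) ^ (1 : ℝ) * (b : ℝ) ^ n := by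
          gcongr
      _ = (M : ℝ) ^ (2 : ℝ) * (b : ℝ) ^ n := by
          rw [← Real.rpow_add hMp]
          norm_num
  have hbias := law_bias hb0 n P hKpos hΔ0 hPΔ
  set ε := (2 * (K : ℝ) ^ 3 + 1) ^ k * Δ + k * (12 / K + 5 * Δ) with hε
  have hε0 : 0 ≤ ε := by positivity
  -- the bound of `ε`
  have hΔκ : Δ ≤ (M : ℝ) ^ (-κ) := by
    rw [hΔ]
    apply Real.rpow_le_rpow_of_exponent_le hMR1
    have : κ ≤ κ * k := by nlinarith
    linarith
  have hεle : ε ≤ 32 ^ k * (M : ℝ) ^ (-κ) := by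
    have hMk : 0 ≤ (M : ℝ) ^ (-κ) := by positivity
    have h1 : (2 * (K : ℝ) ^ 3 + 1) ^ k * Δ ≤ 3 ^ k * (M : ℝ) ^ (-κ) := by
      have h2 : 2 * (K : ℝ) ^ 3 + 1 ≤ 3 * (M : ℝ) ^ (3 * κ) := by
        have : 1 ≤ (M : ℝ) ^ (3 * κ) := Real.one_le_rpow hMR1 (by positivity)
        linarith
      calc (2 * (K : ℝ) ^ 3 + 1) ^ k * Δ ≤ (3 * (M : ℝ) ^ (3 * κ)) ^ k * Δ := by gcongr
        _ = 3 ^ k * ((M : ℝ) ^ (3 * κ * k) * (M : ℝ) ^ (-η')) := by
            rw [mul_pow, ← Real.rpow_natCast ((M : ℝ) ^ (3 * κ)), ← Real.rpow_mul hMp.le, hΔ]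
            ring
        _ ≤ 3 ^ k * (M : ℝ) ^ (-κ) := by
            rw [← Real.rpow_add hMp]
            refine mul_le_mul_of_nonneg_left ?_ (by positivity)
            apply Real.rpow_le_rpow_of_exponent_le hMR1
            have h3 : 3 * κ * k = 3 * (η' / 8) := by rw [mul_assoc, hκk]
            have h4 : κ ≤ κ * k := by nlinarith
            rw [h3]
            linarith
    have h2 : 12 / (K : ℝ) ≤ 24 * (M : ℝ) ^ (-κ) := by
      rw [Real.rpow_neg hMp.le, div_le_iff₀ hKR]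
      have h3 : 0 < (M : ℝ) ^ κ := by positivity
      have h4 : 24 * ((M : ℝ) ^ κ)⁻¹ * K = 12 * ((2 * K) / (M : ℝ) ^ κ) := by field_simp; ring
      rw [h4]
      have h5 : 1 ≤ 2 * (K : ℝ) / (M : ℝ) ^ κ := by rw [le_div_iff₀ h3]; linarith
      linarith
    have h3 : (k : ℝ) * (12 / K + 5 * Δ) ≤ k * (29 * (M : ℝ) ^ (-κ)) := by
      refine mul_le_mul_of_nonneg_left ?_ (by positivity)
      linarith
    have h4 : (3 : ℝ) ^ k + 29 * k ≤ 32 ^ k := by
      have h5 : (1 : ℝ) + k * 29 ≤ (1 + 29) ^ k := one_add_mul_le_pow (by norm_num) k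
      have h6 : (3 : ℝ) ^ k + 30 ^ k ≤ 32 ^ k + 1 := by
        clear_value k
        induction k with
        | zero => norm_num
        | succ k ih =>
          rcases Nat.eq_zero_or_pos k with rfl | hkp
          · norm_num
          · have h7 : (3 : ℝ) ^ k + 30 ^ k ≤ 32 ^ k + 1 := by
              have e1 : (1 : ℝ) ≤ 3 ^ k := one_le_pow₀ (by norm_num)
              have e2 : ∀ j : ℕ, 1 ≤ j → (3 : ℝ) ^ j + 30 ^ j ≤ 32 ^ j + 1 := by
                intro j hj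
                induction j, hj using Nat.le_induction with
                | base => norm_num
                | succ j hj ihj =>
                  have e3 : (0 : ℝ) < 3 ^ j := by positivity
                  have e4 : (1 : ℝ) ≤ 30 ^ j := one_le_pow₀ (by norm_num)
                  have e5 : (1 : ℝ) ≤ 3 ^ j := one_le_pow₀ (by norm_num)
                  rw [pow_succ, pow_succ, pow_succ]
                  nlinarith
              exact e2 k hkp
            have e3 : (1 : ℝ) ≤ 3 ^ k := one_le_pow₀ (by norm_num)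
            have e4 : (1 : ℝ) ≤ 30 ^ k := one_le_pow₀ (by norm_num)
            rw [pow_succ, pow_succ, pow_succ]
            nlinarith
      norm_num at h5
      nlinarith
    calc ε ≤ 3 ^ k * (M : ℝ) ^ (-κ) + k * (29 * (M : ℝ) ^ (-κ)) := add_le_add h1 h3
      _ = (3 ^ k + 29 * k) * (M : ℝ) ^ (-κ) := by ring
      _ ≤ 32 ^ k * (M : ℝ) ^ (-κ) := mul_le_mul_of_nonneg_right h4 hMk
  -- the circuits
  have hcard : Nat.card C.Node ≤ 2 ^ s := by
    have h1 : (Nat.card C.Node : ℝ) ≤ 2 ^ s := hCs.trans hsize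
    exact_mod_cast h1
  have hnL : n * s ≤ 2 ^ s := by exact_mod_cast hn1
  have hmain := dfool_fin hb0 C (L := s) (by omega) hcard hnL hCd v
    (law_nonneg hb0 n P) (law_sum hb0 n P) (hord s hs2) hε0 (fun J hJ a => hbias J hJ a)
  have e1 : P.real {y | C.val v (gdig hb0 n y) = true} =
      ∑ y, law hb0 n P y * rw' (C.val v) y := by
    rw [law_event hb0 n P fun y => C.val v y = true]
    refine Finset.sum_congr rfl fun y _ => ?_
    unfold rw'
    congr 1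
    split_ifs <;> rfl
  have e2 : Leb.real {y | C.val v (gdig hb0 n y) = true} =
      ∑ y, ((b : ℝ) ^ n)⁻¹ * rw' (C.val v) y := by
    rw [law_event hb0 n Leb fun y => C.val v y = true]
    refine Finset.sum_congr rfl fun y _ => ?_
    rw [law_Leb]
    unfold rw'
    congr 1
    split_ifs <;> rfl
  rw [e1, e2]
  refine hmain.trans ?_
  have h5 : (b : ℝ) ^ k * ε * (2 * (n * s + 1)) ^ k ≤ exp (-x) / 2 := by
    have h6 : (M : ℝ) ^ (-κ) = exp (-(η' * x ^ (8 * q) / (8 * (k : ℝ)))) := by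
      rw [hxX, Real.rpow_def_of_pos hMp]
      congr 1
      rw [hκ, hX]
      ring
    calc (b : ℝ) ^ k * ε * (2 * (n * s + 1)) ^ k
        ≤ (b : ℝ) ^ k * (32 ^ k * (M : ℝ) ^ (-κ)) * (2 * (n * s + 1)) ^ k := by gcongr
      _ = (64 * b * (n * s + 1)) ^ k * (M : ℝ) ^ (-κ) := by
          have h7 : (64 * (b : ℝ) * (n * s + 1)) ^ k =
              (b : ℝ) ^ k * 32 ^ k * (2 * (n * s + 1)) ^ k := by
            rw [← mul_pow, ← mul_pow]
            congr 1
            ring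
          rw [h7]
          ring
      _ ≤ exp (-x) / 2 := by
          rw [h6]
          exact hn3
  linarith


end Pool.Agent.J6H93.Fam
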