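import Pool.Agent.J6H93.Fam.Jb1

/-!
# Values of algebraic functions: joint randomness in all bases, the theorem
-/

set_option autoImplicit false

namespace Pool.Agent.J6H93.Fam

open Finset Filter Topology Polynomial
open Pool.Agent.N586.RT (logpow log_ge)
open Pool.Agent.R485.Mult (sg abs_sg)
open Pool.Agent.J6H30.PV (GoodJ asum criterionJ)
open Pool.Agent.Y933.KD (e norm_e e_add)

open Classical in
/-- **joint randomness in several bases** -/
theorem joint_f {f : ℝ → ℝ} (hf : AlgFun f) (hunb : Unb f) {m : ℕ} (b : Fin m → ℕ)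
    (hb : ∀ l, 2 ≤ b l) (hinj : Function.Injective b) (δ ε : ℝ) (hδ : 0 < δ) (hδ2 : 2 * δ < 1)
    (hε : 0 < ε) (A : ℕ) :
    ∃ M₀ : ℕ, ∀ M : ℕ, M₀ ≤ M → (((Finset.Ioc 0 M).filter (fun n : ℕ => ¬ ∀ (h : ℤ) (a q : ℕ),
      h ≠ 0 → |(h : ℝ)| ≤ (Real.log M) ^ A → 1 ≤ q → (q : ℝ) ≤ (Real.log M) ^ A → a < q →
      GoodJ b ⌊(Real.log M) ^ (1 + δ)⌋₊ ((⌊(Real.log M) ^ (1 + δ)⌋₊ : ℝ) ^ ε)
        ((a + h * f n) / q))).card : ℝ) ≤ M / (Real.log M) ^ A := by
  -- the expansion
  obtain ⟨q₀, p, Φ, hq₀, hΦ, halg, hre, hv, hex⟩ := alg_ex (r := 1) (f := fun _ => f) (fun _ => hf)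
  obtain ⟨R, C, E, hR, hC, hE⟩ := hex p
  obtain ⟨C₁, hC₁, hLB⟩ := unb_lb hq₀ hR hC (hE 0) hunb
  have hex1 : ∀ j : Fin 1, Ex q₀ p p R C ((fun _ : Fin 1 => f) j)
      ((fun (_ : Fin 1) (k : ℕ) => (tc k (Φ 0)).re) j) ((fun _ : Fin 1 => E 0) j) := fun j => by
    exact hE 0
  obtain ⟨β, hβ⟩ : ∃ β : ℝ, β = (1 - 2 * δ) / 4 := ⟨_, rfl⟩
  obtain ⟨δ', hδ'⟩ : ∃ δ' : ℝ, δ' = δ + (1 - 2 * δ) / 8 := ⟨_, rfl⟩
  have hβ0 : 0 < β := by linarith
  have hβ1 : β < 1 := by linarith
  have hδδ : δ < δ' := by linarith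
  have hδβ : 2 * δ' + β < 1 := by linarith
  obtain ⟨N1, hN1⟩ := U1 q₀ p p hq₀ R C hR hC (fun _ : Fin 1 => f) _ _ hex1 0 C₁ le_rfl hC₁ hLB 0
    δ' β (by linarith) hβ0 hδβ
  obtain ⟨A₁, hA₁⟩ : ∃ A₁ : ℕ, A₁ = 4 * A + 2 := ⟨_, rfl⟩
  obtain ⟨σ, N2, hσ, hN2⟩ := criterionJ b hb hinj ε hε A₁
  obtain ⟨B, hB⟩ : ∃ B : ℕ, B = univ.sup b + 1 := ⟨_, rfl⟩
  have hbB : ∀ l, b l ≤ B := fun l => by
    have := le_sup (f := b) (mem_univ l)
    omega
  have hB1 : 1 ≤ B := by omega
  have hBR : (1 : ℝ) ≤ B := by exact_mod_cast hB1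
  obtain ⟨lB, hlB⟩ : ∃ lB : ℝ, lB = Real.log B := ⟨_, rfl⟩
  have hlB0 : 0 ≤ lB := by rw [hlB]; exact Real.log_nonneg hBR
  obtain ⟨lσ, hlσ⟩ : ∃ lσ : ℝ, lσ = Real.log (2 * σ * m + 1) := ⟨_, rfl⟩
  have hm0 : (0 : ℝ) ≤ m := Nat.cast_nonneg _
  have hσ0 : (0 : ℝ) ≤ σ := Nat.cast_nonneg _
  have hσm : (0 : ℝ) ≤ 2 * σ * m := by positivity
  have hlσ0 : 0 ≤ lσ := by rw [hlσ]; exact Real.log_nonneg (by linarith)
  -- growth
  have hloglog : ∀ K : ℝ, ∀ᶠ M : ℕ in atTop, K * Real.log (Real.log M) ≤ (Real.log M) ^ β :=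
    fun K => loglog_le hβ0 K
  obtain ⟨M3, hM3⟩ := eventually_atTop.1 ((hloglog (A + 1)).and ((hloglog (2 * σ * (1 + δ) + 1)).and
    ((log_ge (max 54 (N2 + 1))).and ((logpow hβ1 2).and ((logpow hβ0 4).and
    ((logpow (by linarith : 1 + δ < 1 + δ') (lσ + 2 * lB + A + 1)).and
    (logpow (by linarith : (1 : ℝ) < 1 + δ) 2)))))))
  refine ⟨max N1 (max M3 2), fun M hM => ?_⟩
  obtain ⟨h1, h2, h3, h4, h5, h6, h7⟩ := hM3 M (le_of_max_le_left (le_of_max_le_right hM))
  have hM2 : 2 ≤ M := le_of_max_le_right (le_of_max_le_right hM)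
  have hES := hN1 M (le_of_max_le_left hM)
  have hMR : (2 : ℝ) ≤ M := by exact_mod_cast hM2
  have hM0 : (0 : ℝ) < M := by linarith
  obtain ⟨L, hL⟩ : ∃ L : ℝ, L = Real.log M := ⟨_, rfl⟩
  rw [← hL] at h1 h2 h3 h4 h5 h6 h7 hES ⊢
  rw [Real.rpow_one] at h4 h7
  rw [Real.rpow_zero, mul_one] at h5
  have hL54 : 54 ≤ L := (le_max_left _ _).trans h3
  have hLN2 : (N2 : ℝ) + 1 ≤ L := (le_max_right _ _).trans h3
  have hL0 : 0 < L := by linarith
  have hML : (M : ℝ) = Real.exp L := by rw [hL, Real.exp_log hM0]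
  obtain ⟨ll, hll⟩ : ∃ ll : ℝ, ll = Real.log L := ⟨_, rfl⟩
  rw [← hll] at h1 h2
  have hLl : L = Real.exp ll := by rw [hll, Real.exp_log hL0]
  have hll1 : 1 ≤ ll := by
    rw [hll, Real.le_log_iff_exp_le hL0]
    have := Real.exp_one_lt_d9
    linarith
  obtain ⟨W, hW⟩ : ∃ W : ℝ, W = L ^ β := ⟨_, rfl⟩
  rw [← hW] at h1 h2 h4 h5 hES
  obtain ⟨V, hV⟩ : ∃ V : ℝ, V = L ^ A := ⟨_, rfl⟩
  have hVe : V = Real.exp (A * ll) := by rw [hV, hLl, ← Real.exp_nat_mul]
  have hA0 : (0 : ℝ) ≤ A := Nat.cast_nonneg _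
  have hV1 : 1 ≤ V := by
    rw [hVe]
    exact Real.one_le_exp (by positivity)
  rw [← hV]
  obtain ⟨N, hN⟩ : ∃ N : ℕ, N = ⌊L ^ (1 + δ)⌋₊ := ⟨_, rfl⟩
  rw [← hN]
  have hLδ : 0 ≤ L ^ (1 + δ) := by positivity
  have hNup : (N : ℝ) ≤ L ^ (1 + δ) := by rw [hN]; exact Nat.floor_le hLδ
  have hNlow : L ≤ N := by
    have e1 : L + 1 ≤ L ^ (1 + δ) := by linarith
    have e2 : L ^ (1 + δ) < N + 1 := by rw [hN]; exact Nat.lt_floor_add_one _
    linarith
  have hNN2 : N2 ≤ N := by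
    have : (N2 : ℝ) ≤ N := by linarith
    exact_mod_cast this
  have hN0 : (0 : ℝ) < N := by linarith
  -- the parameters
  have hLge : L ≤ L ^ (1 + δ) := by linarith
  have hWp : (A + 1) * ll ≤ W := h1
  have hWh : W ≤ L / 2 := by linarith
  have hMW : 1 ≤ M * Real.exp (-W) := by
    rw [hML, ← Real.exp_add]
    exact Real.one_le_exp (by linarith)
  have hVW : V * L * Real.exp (-W) ≤ 1 := by
    rw [hVe, hLl, ← Real.exp_add, ← Real.exp_add]
    rw [Real.exp_le_one_iff]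
    linarith
  obtain ⟨A', hA'⟩ : ∃ A' : ℕ, A' = ⌈M * Real.exp (-W)⌉₊ := ⟨_, rfl⟩
  have hA'1 : M * Real.exp (-W) ≤ A' := by rw [hA']; exact Nat.le_ceil _
  have hA'2 : (A' : ℝ) ≤ 2 * (M * Real.exp (-W)) := by
    have : (A' : ℝ) < M * Real.exp (-W) + 1 := by
      rw [hA']
      exact Nat.ceil_lt_add_one (by positivity)
    linarith
  have hA'3 : (A' : ℝ) ≤ 1 / 2 * (M / V) := by
    have h8 : V * Real.exp (-W) ≤ 1 / L := by
      rw [le_div_iff₀ hL0]
      linarith [hVW, mul_right_comm V L (Real.exp (-W))]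
    have h9 : 1 / L ≤ 1 / 4 := one_div_le_one_div_of_le (by norm_num) (by linarith)
    rw [mul_div_assoc', le_div_iff₀ (by linarith)]
    calc (A' : ℝ) * V ≤ 2 * (M * Real.exp (-W)) * V := by gcongr
      _ = 2 * M * (V * Real.exp (-W)) := by ring
      _ ≤ 2 * M * (1 / 4) := by gcongr; linarith
      _ = 1 / 2 * M := by ring
  have hA'M : A' ≤ M := by
    have h8 : (M : ℝ) / V ≤ M := div_le_self hM0.le hV1
    have : (A' : ℝ) ≤ M := by linarith
    exact_mod_cast this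
  have hcardΩ : ((Finset.Ioc A' M).card : ℝ) = M - A' := by
    rw [Nat.card_Ioc, Nat.cast_sub hA'M]
  have hΩ1 : (M : ℝ) / 2 ≤ (Finset.Ioc A' M).card := by
    rw [hcardΩ]
    have h8 : (M : ℝ) / V ≤ M := div_le_self hM0.le hV1
    linarith
  have hΩ2 : ((Finset.Ioc A' M).card : ℝ) ≤ M := by
    rw [hcardΩ]
    have : (0 : ℝ) ≤ A' := Nat.cast_nonneg _
    linarith
  -- powers of N
  have hNpow : Real.exp (-W) * (N : ℝ) ^ (2 * σ) ≤ 1 / L := by
    have h8 : (N : ℝ) ^ (2 * σ) ≤ Real.exp (2 * σ * (1 + δ) * ll) := by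
      calc (N : ℝ) ^ (2 * σ) ≤ (L ^ (1 + δ)) ^ (2 * σ) := by gcongr
        _ = Real.exp (2 * σ * (1 + δ) * ll) := by
          rw [← Real.rpow_natCast, ← Real.rpow_mul hL0.le, Real.rpow_def_of_pos hL0, ← hll]
          congr 1
          push_cast
          ring
    calc Real.exp (-W) * (N : ℝ) ^ (2 * σ) ≤ Real.exp (-W) * Real.exp (2 * σ * (1 + δ) * ll) := by
          gcongr
      _ = Real.exp (-W + 2 * σ * (1 + δ) * ll) := (Real.exp_add _ _).symm
      _ ≤ Real.exp (-ll) := Real.exp_le_exp.2 (by linarith)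
      _ = 1 / L := by rw [Real.exp_neg, ← hLl, one_div]
  -- one triple
  have hone : ∀ (h : ℤ) (a q : ℕ), h ≠ 0 → |(h : ℝ)| ≤ V → 1 ≤ q → (q : ℝ) ≤ V →
      ((((Finset.Ioc A' M).filter (fun n : ℕ => ¬ GoodJ b N ((N : ℝ) ^ ε)
        ((a + h * f n) / q))).card : ℕ) : ℝ) ≤ M / (V ^ 4 * L ^ 2) := by
    intro h a q hh0 hhV hq1 hqV
    have hq0 : (0 : ℝ) < q := by exact_mod_cast hq1
    have hcr := hN2 N hNN2 ℕ (Finset.Ioc A' M) (fun n => (a + h * f n) / q) ?_
    · have hset : {ω | ω ∈ Finset.Ioc A' M ∧ ¬ GoodJ b N ((N : ℝ) ^ ε) ((a + h * f ω) / q)} =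
          (((Finset.Ioc A' M).filter (fun n : ℕ => ¬ GoodJ b N ((N : ℝ) ^ ε)
            ((a + h * f n) / q)) : Finset ℕ) : Set ℕ) := by
        ext n
        simp
      rw [hset, Set.ncard_coe_finset] at hcr
      have h8 : V ^ 4 * L ^ 2 ≤ (N : ℝ) ^ A₁ := by
        calc V ^ 4 * L ^ 2 = L ^ A₁ := by
              rw [hV, hA₁, ← pow_mul, ← pow_add]
              congr 1
              ring
          _ ≤ _ := by gcongr
      rw [le_div_iff₀ (by positivity)]
      exact (mul_le_mul_of_nonneg_left h8 (Nat.cast_nonneg _)).trans (hcr.trans hΩ2)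
    · intro s hs h' hh' p' hp' hne
      obtain ⟨S, hS⟩ : ∃ S : ℤ, S = ∑ t : Fin (2 * σ), sg t * asum b s h' (p' t) := ⟨_, rfl⟩
      have hSle := ssum_le (σ := σ) b s B N hB1 hbB hs h' hh' p' hp'
      rw [← hS] at hne hSle ⊢
      have hS1 : (1 : ℝ) ≤ |(S : ℝ)| := by
        have := Int.one_le_abs hne
        exact_mod_cast this
      have hh1 : (1 : ℝ) ≤ |(h : ℝ)| := by
        have := Int.one_le_abs hh0
        exact_mod_cast this
      have hlam1 : Real.exp (-W) ≤ |(S : ℝ) * h / q| := by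
        rw [abs_div, abs_mul, abs_of_pos hq0]
        have h9 : Real.exp (-W) ≤ 1 / V := by
          rw [le_div_iff₀ (by linarith)]
          have : V * Real.exp (-W) ≤ V * L * Real.exp (-W) := by
            have : V ≤ V * L := le_mul_of_one_le_right (by linarith) (by linarith)
            gcongr
          linarith
        calc Real.exp (-W) ≤ 1 / V := h9
          _ ≤ 1 / q := one_div_le_one_div_of_le hq0 hqV
          _ ≤ _ := by
            gcongr
            nlinarith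
      have hlam2 : |(S : ℝ) * h / q| ≤ Real.exp (L ^ (1 + δ')) := by
        rw [abs_div, abs_mul, abs_of_pos hq0]
        have hq1' : (1 : ℝ) ≤ q := by exact_mod_cast hq1
        have g1 : (2 : ℝ) * σ * m ≤ Real.exp lσ := by
          rw [hlσ, Real.exp_log (by linarith)]
          linarith
        have g2 : (N : ℝ) ≤ Real.exp N := by
          have := Real.add_one_le_exp (N : ℝ)
          linarith
        have g3 : (B : ℝ) ^ (2 * N) = Real.exp (2 * N * lB) := by
          rw [hlB, ← Real.rpow_natCast, Real.rpow_def_of_pos (by linarith)]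
          congr 1
          push_cast
          ring
        have g4 : ll ≤ L := by
          rw [hll]
          have := Real.log_le_sub_one_of_pos hL0
          linarith
        calc |(S : ℝ)| * |(h : ℝ)| / q ≤ |(S : ℝ)| * |(h : ℝ)| :=
              div_le_self (by positivity) hq1'
          _ ≤ (2 * σ * (m * N * (B : ℝ) ^ (2 * N))) * V := by gcongr
          _ = (2 * σ * m) * N * (B : ℝ) ^ (2 * N) * V := by ring
          _ ≤ Real.exp lσ * Real.exp N * Real.exp (2 * N * lB) * Real.exp (A * ll) := by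
            rw [g3, hVe]
            gcongr
          _ = Real.exp (lσ + N + 2 * N * lB + A * ll) := by
            rw [← Real.exp_add, ← Real.exp_add, ← Real.exp_add]
          _ ≤ Real.exp (L ^ (1 + δ')) := by
            rw [Real.exp_le_exp]
            refine le_trans ?_ h6
            have k1 : lσ ≤ lσ * L ^ (1 + δ) := le_mul_of_one_le_right hlσ0 (by linarith)
            have k2 : 2 * N * lB ≤ 2 * lB * L ^ (1 + δ) := by nlinarith
            have k3 : A * ll ≤ A * L ^ (1 + δ) := by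
              have : ll ≤ L ^ (1 + δ) := by linarith
              gcongr
            nlinarith
      have hu := hES A' hA'1 hA'M (fun _ => 1) (fun hc => by
          have := congrFun hc 0
          simp at this) (fun j => by
          simp only [Int.cast_one, abs_one]
          exact Real.one_le_exp (by linarith)) ((S : ℝ) * h / q) (by
          rw [Real.rpow_zero, one_mul]
          exact hlam1) hlam2 0 (by simp)
      have hsum : ‖∑ n ∈ Finset.Ioc A' M, e ((S : ℝ) * ((a + h * f n) / q))‖ ≤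
          M * Real.exp (-W) := by
        have h9 : ∑ n ∈ Finset.Ioc A' M, e ((S : ℝ) * ((a + h * f n) / q)) =
            e (S * a / q) * ∑ n ∈ Finset.Ioc A' M, e ((S : ℝ) * h / q * ((0 : ℝ[X]).eval (n : ℝ) +
              ∑ _j : Fin 1, ((1 : ℤ) : ℝ) * f n)) := by
          rw [Finset.mul_sum]
          refine Finset.sum_congr rfl fun n _ => ?_
          rw [← e_add, Fin.sum_univ_one, eval_zero]
          congr 1
          push_cast
          field_simp
          ring
        rw [h9, norm_mul, norm_e, one_mul]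
        exact hu
      calc _ ≤ (M * Real.exp (-W)) * (N : ℝ) ^ (2 * σ) := by
            refine mul_le_mul_of_nonneg_right ?_ (by positivity)
            exact hsum
        _ = M * (Real.exp (-W) * (N : ℝ) ^ (2 * σ)) := by ring
        _ ≤ M * (1 / L) := by gcongr
        _ ≤ M * (1 / 2) := by
            have : 1 / L ≤ 1 / 2 := one_div_le_one_div_of_le (by norm_num) (by linarith)
            gcongr
        _ ≤ _ := by linarith
  -- the union
  obtain ⟨v, hv'⟩ : ∃ v : ℕ, v = ⌊V⌋₊ := ⟨_, rfl⟩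
  have hvV : (v : ℝ) ≤ V := by rw [hv']; exact Nat.floor_le (by linarith)
  obtain ⟨Bd, hBd⟩ : ∃ Bd : ℤ × ℕ × ℕ → Finset ℕ, Bd = fun x => (Finset.Ioc A' M).filter
      (fun n : ℕ => ¬ GoodJ b N ((N : ℝ) ^ ε) ((x.2.1 + x.1 * f n) / x.2.2)) := ⟨_, rfl⟩
  have hsub : (Finset.Ioc 0 M).filter (fun n : ℕ => ¬ ∀ (h : ℤ) (a q : ℕ),
      h ≠ 0 → |(h : ℝ)| ≤ V → 1 ≤ q → (q : ℝ) ≤ V → a < q →
      GoodJ b N ((N : ℝ) ^ ε) ((a + h * f n) / q)) ⊆ Finset.Ioc 0 A' ∪
      (((Finset.Icc (-(v : ℤ)) v).filter (fun h => h ≠ 0)) ×ˢ (Finset.range (v + 1) ×ˢ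
        Finset.Icc 1 v)).biUnion
      Bd := by
    intro n hn
    rw [Finset.mem_filter, Finset.mem_Ioc] at hn
    obtain ⟨⟨hn1, hn2⟩, hn3⟩ := hn
    rw [Finset.mem_union]
    by_cases hnA : n ≤ A'
    · exact Or.inl (Finset.mem_Ioc.2 ⟨hn1, hnA⟩)
    · right
      push Not at hn3
      obtain ⟨h, a, q, k1, k2, k3, k4, k5, k6⟩ := hn3
      rw [Finset.mem_biUnion]
      refine ⟨(h, (a, q)), ?_, ?_⟩
      · have hhv : |h| ≤ (v : ℤ) := by
          have : h.natAbs ≤ v := by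
            rw [hv']
            apply Nat.le_floor
            rw [Nat.cast_natAbs]
            push_cast
            exact k2
          rw [Int.abs_eq_natAbs]
          exact_mod_cast this
        have hqv : q ≤ v := by
          rw [hv']
          exact Nat.le_floor k4
        rw [abs_le] at hhv
        simp only [Finset.mem_product, Finset.mem_filter, Finset.mem_Icc, Finset.mem_range]
        exact ⟨⟨hhv, k1⟩, by omega, k3, hqv⟩
      · rw [hBd, Finset.mem_filter, Finset.mem_Ioc]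
        exact ⟨⟨by omega, hn2⟩, k6⟩
  have hcount : ((((Finset.Icc (-(v : ℤ)) v).filter (fun h => h ≠ 0)) ×ˢ
      (Finset.range (v + 1) ×ˢ Finset.Icc 1 v)).card : ℝ) ≤ 6 * V ^ 3 := by
    rw [Finset.card_product, Finset.card_product, Finset.card_range, Nat.card_Icc,
      Nat.add_sub_cancel]
    have h8 : ((Finset.Icc (-(v : ℤ)) v).filter (fun h => h ≠ 0)).card ≤ 2 * v + 1 := by
      refine (Finset.card_filter_le _ _).trans ?_
      rw [Int.card_Icc]
      omega
    have h9 : (((Finset.Icc (-(v : ℤ)) v).filter (fun h => h ≠ 0)).card : ℝ) ≤ 2 * v + 1 := by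
      exact_mod_cast h8
    push_cast
    have hv0 : (0 : ℝ) ≤ v := Nat.cast_nonneg _
    calc (((Finset.Icc (-(v : ℤ)) v).filter (fun h => h ≠ 0)).card : ℝ) * ((v + 1) * v)
        ≤ (2 * v + 1) * ((v + 1) * v) := by
          refine mul_le_mul_of_nonneg_right h9 ?_
          positivity
      _ ≤ (3 * V) * ((2 * V) * V) := by
          have : (v : ℝ) + 1 ≤ 2 * V := by linarith
          have : 2 * (v : ℝ) + 1 ≤ 3 * V := by linarith
          gcongr
      _ = 6 * V ^ 3 := by ring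
  calc (((Finset.Ioc 0 M).filter (fun n : ℕ => ¬ ∀ (h : ℤ) (a q : ℕ),
      h ≠ 0 → |(h : ℝ)| ≤ V → 1 ≤ q → (q : ℝ) ≤ V → a < q →
      GoodJ b N ((N : ℝ) ^ ε) ((a + h * f n) / q))).card : ℝ) ≤ ((Finset.Ioc 0 A').card : ℝ) +
      (((((Finset.Icc (-(v : ℤ)) v).filter (fun h => h ≠ 0)) ×ˢ (Finset.range (v + 1) ×ˢ
        Finset.Icc 1 v)).biUnion Bd).card : ℕ) := by
        have := (Finset.card_le_card hsub).trans (Finset.card_union_le _ _)
        exact_mod_cast this
    _ ≤ 1 / 2 * (M / V) + 6 * V ^ 3 * (M / (V ^ 4 * L ^ 2)) := by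
        refine add_le_add ?_ ?_
        · rw [Nat.card_Ioc, Nat.sub_zero]
          exact hA'3
        · have h8 := Finset.card_biUnion_le (s := ((Finset.Icc (-(v : ℤ)) v).filter
            (fun h => h ≠ 0)) ×ˢ (Finset.range (v + 1) ×ˢ Finset.Icc 1 v)) (t := Bd)
          have h9 : (∑ x ∈ ((Finset.Icc (-(v : ℤ)) v).filter
            (fun h => h ≠ 0)) ×ˢ (Finset.range (v + 1) ×ˢ Finset.Icc 1 v),
            (((Bd x).card : ℕ) : ℝ)) ≤
            6 * V ^ 3 * (M / (V ^ 4 * L ^ 2)) := by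
            calc _ ≤ ∑ _x ∈ ((Finset.Icc (-(v : ℤ)) v).filter
                  (fun h => h ≠ 0)) ×ˢ (Finset.range (v + 1) ×ˢ Finset.Icc 1 v),
                  (M : ℝ) / (V ^ 4 * L ^ 2) := by
                  refine Finset.sum_le_sum fun x hx => ?_
                  simp only [Finset.mem_product, Finset.mem_filter, Finset.mem_Icc,
                    Finset.mem_range] at hx
                  obtain ⟨⟨⟨y1, y2⟩, y3⟩, y4, y5, y6⟩ := hx
                  rw [hBd]
                  refine hone x.1 x.2.1 x.2.2 y3 ?_ y5 ?_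
                  · refine le_trans ?_ hvV
                    rw [abs_le]
                    exact ⟨by exact_mod_cast y1, by exact_mod_cast y2⟩
                  · refine le_trans ?_ hvV
                    exact_mod_cast y6
              _ ≤ _ := by
                  rw [Finset.sum_const, nsmul_eq_mul]
                  refine mul_le_mul_of_nonneg_right hcount (by positivity)
          have h10 := (Nat.cast_le (α := ℝ)).2 h8
          push_cast at h10 h9
          exact h10.trans h9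
    _ ≤ M / V := by
        have hV0 : 0 < V := by linarith
        have h8 : 6 * V ^ 3 * (M / (V ^ 4 * L ^ 2)) = (M / V) * (6 / L ^ 2) := by
          field_simp
        have h9 : 6 / L ^ 2 ≤ 1 / 2 := by
          rw [div_le_div_iff₀ (by positivity) (by norm_num)]
          nlinarith
        rw [h8]
        have h10 : (M / V) * (6 / L ^ 2) ≤ (M / V) * (1 / 2) := by
          have : 0 ≤ (M : ℝ) / V := by positivity
          gcongr
        linarith

end Pool.Agent.J6H93.Fam
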