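import Pool.Agent.J6H93.Fam.Ac1
import Pool.Agent.J6H93.Fam.Vp7
import Pool.Agent.J6H93.Fam.Jb2

/-!
# Values of algebraic functions at integers and at primes fool the circuits of bounded depth
-/

set_option autoImplicit false

namespace Pool.Agent.J6H93.Fam

open Finset MeasureTheory Filter
open Pool.Agent.N586.RT (logpow log_ge)
open Pool.Agent.Y933.KD (Leb unif unif_prob integral_unif real_unif e norm_e e_add)
open Pool.Agent.Y603.BR (digit Circuit measurableSet_val gdig toLC_val)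

theorem circ_gen {b : ℕ} (hb : 2 ≤ b) (d : ℕ) (T : ℝ) :
    ∃ c : ℝ, 0 < c ∧ ∃ M0 : ℝ, ∀ M : ℝ, M0 ≤ M → ∀ (P : Measure ℝ) [IsProbabilityMeasure P],
      ∀ n : ℕ, (n : ℝ) ≤ Real.log M ^ T →
      (∀ l : ℤ, l ≠ 0 → |(l : ℝ)| ≤ M ^ (2 : ℝ) * (b : ℝ) ^ n →
        ‖Pool.Agent.Y933.KD.hat P l‖ ≤ M ^ (-(1 : ℝ))) →
      ∀ C : Circuit (Set.Icc 1 n), (∀ v, C.depth v ≤ d) →
      (Nat.card C.Node : ℝ) ≤ Real.exp (Real.log M ^ c) → ∀ v : C.Node,
      |P.real {y | C.val v (digit b y) = true} -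
        volume.real {y | y ∈ Set.Ico (0 : ℝ) 1 ∧ C.val v (digit b y) = true}| ≤
          Real.exp (-(Real.log M ^ c)) := by
  have hb0 : 0 < b := by omega
  obtain ⟨c, hc, M0, hM0⟩ := fool_gen hb hb0 d T
  refine ⟨c, hc, M0, fun M hM P _ n hn hP C hCd hCs v => ?_⟩
  have h := hM0 M hM P n hn hP (C.toLC b) hCd hCs v
  have h1 : {y : ℝ | (C.toLC b).val v (gdig hb0 n y) = true} =
      {y : ℝ | C.val v (digit b y) = true} := by
    ext y
    simp only [Set.mem_ofPred_eq]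
    rw [← toLC_val hb0]
  have h2 : Leb.real {y : ℝ | C.val v (digit b y) = true} =
      volume.real {y | y ∈ Set.Ico (0 : ℝ) 1 ∧ C.val v (digit b y) = true} := by
    unfold Leb
    rw [measureReal_restrict_apply (measurableSet_val hb0 C v)]
    congr 1
    ext y
    simp only [Set.mem_inter_iff, Set.mem_ofPred_eq]
    exact and_comm
  rw [← h2, ← h1]
  exact h

theorem circ_set {b : ℕ} (hb : 2 ≤ b) (D : ℕ) {δ δ' β : ℝ} (hδ : 0 < δ) (hδδ : δ < δ')
    (hβ0 : 0 < β) (hβ1 : β < 1) : ∃ c : ℝ, 0 < c ∧ ∃ M₀ : ℕ, ∀ M : ℕ, M₀ ≤ M →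
      ∀ (Ω : Finset ℕ) (g : ℕ → ℝ), M / (2 * Real.log M) ≤ (Ω.card : ℝ) →
      (∀ lam : ℝ, Real.exp (-(Real.log M) ^ β) ≤ |lam| → |lam| ≤ Real.exp ((Real.log M) ^ (1 + δ')) →
        ‖∑ n ∈ Ω, e (lam * g n)‖ ≤ 3 * (M * Real.exp (-(Real.log M) ^ β))) →
      ∀ α θ : ℝ, Real.exp (-(Real.log M) ^ c) ≤ |θ| → |θ| ≤ Real.exp ((Real.log M) ^ (1 + δ)) →
      ∀ n : ℕ, (n : ℝ) ≤ (Real.log M) ^ (1 + δ) → ∀ C : Circuit (Set.Icc 1 n),
      (∀ v, C.depth v ≤ D) → (Nat.card C.Node : ℝ) ≤ Real.exp ((Real.log M) ^ c) → ∀ v : C.Node,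
      |((Ω.filter fun m => C.val v (digit b (α + θ * g m)) = true).card : ℝ) / Ω.card -
        volume.real {y | y ∈ Set.Ico (0 : ℝ) 1 ∧ C.val v (digit b y) = true}| ≤
          Real.exp (-(Real.log M) ^ c) := by
  have hb0 : 0 < b := by omega
  have hbR : (2 : ℝ) ≤ b := by exact_mod_cast hb
  obtain ⟨β1, hβ1'⟩ : ∃ β1 : ℝ, β1 = β / 2 := ⟨_, rfl⟩
  have hβ10 : 0 < β1 := by linarith
  have hβ1β : β1 < β := by linarith
  obtain ⟨T, hT⟩ : ∃ T : ℝ, T = (1 + δ) / β1 := ⟨_, rfl⟩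
  have hT' : β1 * T = 1 + δ := by rw [hT]; field_simp
  obtain ⟨c0, hc0, M0, hM0⟩ := circ_gen hb D T
  obtain ⟨c, hc⟩ : ∃ c : ℝ, c = β1 * min c0 1 := ⟨_, rfl⟩
  have hmin0 : 0 < min c0 1 := lt_min hc0 one_pos
  have hcpos : 0 < c := by rw [hc]; positivity
  have hcβ1 : c ≤ β1 := by
    rw [hc]
    calc β1 * min c0 1 ≤ β1 * 1 := by gcongr; exact min_le_right _ _
      _ = β1 := mul_one _
  obtain ⟨lb, hlb⟩ : ∃ lb : ℝ, lb = Real.log b := ⟨_, rfl⟩
  have hlb0 : 0 ≤ lb := by rw [hlb]; exact Real.log_nonneg (by linarith)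
  obtain ⟨M3, hM3⟩ := eventually_atTop.1 ((loglog_le hβ10 1).and ((log_ge 3).and
    ((logpow hβ1β 4).and ((logpow (by linarith : 1 + δ < 1 + δ') (3 + lb)).and
    ((logpow (by linarith : β1 < 1 + δ) 1).and ((logpow hβ10 (max 4 (Real.log (max M0 1)))).and
    (logpow (by linarith : (0 : ℝ) < 1 + δ) 4)))))))
  refine ⟨c, hcpos, max M3 2, fun M hM Ω g hΩ hES α θ hθ1 hθ2 n hn C hCd hCs v => ?_⟩
  obtain ⟨h1, h2, h3, h4, h5, h6, h7⟩ := hM3 M (le_of_max_le_left hM)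
  have hM2 : 2 ≤ M := le_of_max_le_right hM
  have hMR : (2 : ℝ) ≤ M := by exact_mod_cast hM2
  have hMpos : (0 : ℝ) < M := by linarith
  obtain ⟨X, hX⟩ : ∃ X : ℝ, X = Real.log M := ⟨_, rfl⟩
  rw [← hX] at h1 h2 h3 h4 h5 h6 h7 hΩ hES hθ1 hθ2 hn hCs ⊢
  rw [Real.rpow_zero, mul_one] at h6 h7
  rw [one_mul] at h1 h5
  have hX0 : 0 < X := by linarith
  have hX1 : 1 ≤ X := by linarith
  have hMX : (M : ℝ) = Real.exp X := by rw [hX, Real.exp_log hMpos]
  obtain ⟨Y, hY⟩ : ∃ Y : ℝ, Y = Real.exp (X ^ β1) := ⟨_, rfl⟩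
  have hlogY : Real.log Y = X ^ β1 := by rw [hY, Real.log_exp]
  have hYM0 : M0 ≤ Y := by
    have e1 : Real.log (max M0 1) ≤ X ^ β1 := (le_max_right _ _).trans h6
    have e2 : max M0 1 ≤ Y := by
      rw [hY, ← Real.log_le_iff_le_exp (by positivity)]
      exact e1
    exact (le_max_left _ _).trans e2
  have hβ14 : 4 ≤ X ^ β1 := (le_max_left _ _).trans h6
  have hYT : Real.log Y ^ T = X ^ (1 + δ) := by
    rw [hlogY, ← Real.rpow_mul hX0.le, hT']
  have hXβ1 : 1 ≤ X ^ β1 := by linarith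
  have hcle : X ^ c ≤ (Real.log Y) ^ c0 := by
    rw [hlogY, ← Real.rpow_mul hX0.le, hc]
    apply Real.rpow_le_rpow_of_exponent_le hX1
    gcongr
    exact min_le_left _ _
  have hcard0 : (0 : ℝ) < Ω.card := lt_of_lt_of_le (by positivity) hΩ
  have hne : Ω.Nonempty := by
    rw [← Finset.card_pos]
    exact_mod_cast hcard0
  have hprob := unif_prob hne fun m : ℕ => α + θ * g m
  have key := hM0 Y hYM0 (unif Ω fun m : ℕ => α + θ * g m) n (by rw [hYT]; exact hn) (by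
    intro l hl hle
    have hl1 : (1 : ℝ) ≤ |(l : ℝ)| := by
      have : (1 : ℤ) ≤ |l| := Int.one_le_abs hl
      exact_mod_cast this
    have k1 : Real.exp (-X ^ β) ≤ |(l : ℝ) * θ| := by
      rw [abs_mul]
      calc Real.exp (-X ^ β) ≤ Real.exp (-X ^ c) := by
            apply Real.exp_le_exp.2
            have : X ^ c ≤ X ^ β := Real.rpow_le_rpow_of_exponent_le hX1 (by linarith)
            linarith
        _ ≤ |θ| := hθ1
        _ ≤ |(l : ℝ)| * |θ| := le_mul_of_one_le_left (abs_nonneg _) hl1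
    have k2 : |(l : ℝ) * θ| ≤ Real.exp (X ^ (1 + δ')) := by
      rw [abs_mul]
      have g1 : Y ^ (2 : ℝ) = Real.exp (2 * X ^ β1) := by
        rw [hY, ← Real.exp_mul]
        congr 1
        ring
      have g2 : (b : ℝ) ^ n = Real.exp (n * lb) := by
        rw [hlb, ← Real.rpow_natCast, Real.rpow_def_of_pos (by linarith)]
        congr 1
        ring
      have hY0 : 0 < Y := by rw [hY]; exact Real.exp_pos _
      have g3 : 0 ≤ Y ^ (2 : ℝ) * (b : ℝ) ^ n := by positivity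
      calc |(l : ℝ)| * |θ| ≤ (Y ^ (2 : ℝ) * (b : ℝ) ^ n) * Real.exp (X ^ (1 + δ)) :=
            mul_le_mul hle hθ2 (abs_nonneg _) g3
        _ = Real.exp (2 * X ^ β1 + n * lb + X ^ (1 + δ)) := by
            rw [g1, g2, ← Real.exp_add, ← Real.exp_add]
        _ ≤ Real.exp (X ^ (1 + δ')) := by
            rw [Real.exp_le_exp]
            refine le_trans ?_ h4
            have q1 : n * lb ≤ X ^ (1 + δ) * lb := by gcongr
            linarith
    have k3 := hES _ k1 k2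
    unfold Pool.Agent.Y933.KD.hat
    rw [integral_unif]
    have e1 : ∑ m ∈ Ω, e (l * (α + θ * g m)) = e (l * α) * ∑ m ∈ Ω, e ((l : ℝ) * θ * g m) := by
      rw [Finset.mul_sum]
      refine Finset.sum_congr rfl fun m _ => ?_
      rw [← e_add]
      congr 1
      ring
    rw [e1, norm_mul, norm_mul, norm_e, one_mul, norm_div, norm_one, Complex.norm_natCast, one_div,
      inv_mul_le_iff₀ hcard0]
    refine k3.trans ?_
    have e2 : 3 * (M * Real.exp (-X ^ β)) = (M / (2 * X)) * (6 * X * Real.exp (-X ^ β)) := by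
      field_simp
      norm_num
    have e3 : 6 * X * Real.exp (-X ^ β) ≤ Y ^ (-(1 : ℝ)) := by
      have g1 : Y ^ (-(1 : ℝ)) = Real.exp (-X ^ β1) := by
        rw [hY, ← Real.exp_mul]
        congr 1
        ring
      have g2 : X ≤ Real.exp (X ^ β1) := by
        rwa [Real.log_le_iff_le_exp hX0] at h1
      have g3 : (6 : ℝ) ≤ Real.exp 2 := by
        have q1 := Real.exp_one_gt_d9
        have q2 : Real.exp 2 = Real.exp 1 * Real.exp 1 := by
          rw [← Real.exp_add]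
          norm_num
        rw [q2]
        nlinarith
      rw [g1]
      calc 6 * X * Real.exp (-X ^ β) ≤ Real.exp 2 * Real.exp (X ^ β1) * Real.exp (-X ^ β) := by
            gcongr
        _ = Real.exp (2 + X ^ β1 + -X ^ β) := by rw [← Real.exp_add, ← Real.exp_add]
        _ ≤ Real.exp (-X ^ β1) := Real.exp_le_exp.2 (by linarith)
    rw [e2]
    exact mul_le_mul hΩ e3 (by positivity) hcard0.le) C hCd (hCs.trans (Real.exp_le_exp.2 hcle)) v
  rw [real_unif _ _ (measurableSet_val hb0 C v)] at key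
  refine le_trans ?_ (key.trans (Real.exp_le_exp.2 (neg_le_neg hcle)))
  rfl

end Pool.Agent.J6H93.Fam
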