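import Pool.Agent.J6H93.Fam.Ac2

/-!
# Values of algebraic functions at integers and at primes fool the circuits of bounded depth:
the applications
-/

set_option autoImplicit false

namespace Pool.Agent.J6H93.Fam

open Finset MeasureTheory Filter Polynomial
open Pool.Agent.N586.RT (logpow log_ge)
open Pool.Agent.Y933.KD (e norm_e e_add)
open Pool.Agent.Y603.BR (digit Circuit)

/-- `Ω` fools the circuits -/
def Fools (b D : ℕ) (δ c : ℝ) (f : ℝ → ℝ) (M : ℕ) (Ω : Finset ℕ) : Prop :=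
  ∀ α θ : ℝ, Real.exp (-(Real.log M) ^ c) ≤ |θ| → |θ| ≤ Real.exp ((Real.log M) ^ (1 + δ)) →
      ∀ n : ℕ, (n : ℝ) ≤ (Real.log M) ^ (1 + δ) → ∀ C : Circuit (Set.Icc 1 n),
      (∀ v, C.depth v ≤ D) → (Nat.card C.Node : ℝ) ≤ Real.exp ((Real.log M) ^ c) → ∀ v : C.Node,
      |((Ω.filter fun m : ℕ => C.val v (digit b (α + θ * f m)) = true).card : ℝ) / Ω.card -
        volume.real {y | y ∈ Set.Ico (0 : ℝ) 1 ∧ C.val v (digit b y) = true}| ≤
          Real.exp (-(Real.log M) ^ c)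

lemma cut {M : ℕ} {W : ℝ} (hMW : 1 ≤ M * Real.exp (-W)) (hW2 : 2 * Real.exp (-W) ≤ 1) :
    ∃ A : ℕ, M * Real.exp (-W) ≤ A ∧ (A : ℝ) ≤ 2 * (M * Real.exp (-W)) ∧ A ≤ M := by
  have hA2 : ((⌈M * Real.exp (-W)⌉₊ : ℕ) : ℝ) ≤ 2 * (M * Real.exp (-W)) := by
    have : ((⌈M * Real.exp (-W)⌉₊ : ℕ) : ℝ) < M * Real.exp (-W) + 1 :=
      Nat.ceil_lt_add_one (by positivity)
    linarith
  refine ⟨⌈M * Real.exp (-W)⌉₊, Nat.le_ceil _, hA2, ?_⟩
  have h1 : ((⌈M * Real.exp (-W)⌉₊ : ℕ) : ℝ) ≤ M := by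
    refine hA2.trans ?_
    have : (0 : ℝ) ≤ M := Nat.cast_nonneg _
    nlinarith
  exact_mod_cast h1

lemma sum_cut (P : ℕ → Prop) [DecidablePred P] {A M : ℕ} (hAM : A ≤ M) (z : ℕ → ℂ)
    (hz : ∀ n, ‖z n‖ = 1) : ‖∑ n ∈ (Finset.Ioc 0 M).filter P, z n‖ ≤
      A + ‖∑ n ∈ (Finset.Ioc A M).filter P, z n‖ := by
  have h1 : (Finset.Ioc 0 M).filter P = (Finset.Ioc 0 A).filter P ∪ (Finset.Ioc A M).filter P := by
    rw [← Finset.filter_union, Finset.Ioc_union_Ioc_eq_Ioc (Nat.zero_le _) hAM]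
  have h2 : Disjoint ((Finset.Ioc 0 A).filter P) ((Finset.Ioc A M).filter P) := by
    apply Finset.disjoint_filter_filter
    rw [Finset.disjoint_left]
    intro n hn hn'
    rw [Finset.mem_Ioc] at hn hn'
    omega
  rw [h1, Finset.sum_union h2]
  refine (norm_add_le _ _).trans ?_
  gcongr
  refine (norm_sum_le _ _).trans ?_
  simp only [hz]
  rw [Finset.sum_const, nsmul_eq_mul, mul_one]
  have h3 := Finset.card_filter_le (Finset.Ioc 0 A) P
  rw [Nat.card_Ioc, Nat.sub_zero] at h3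
  exact_mod_cast h3

theorem fools_both {f : ℝ → ℝ} (hf : AlgFun f) (hunb : Unb f) {b : ℕ} (hb : 2 ≤ b) (D : ℕ) {δ : ℝ}
    (hδ : 0 < δ) (hδ2 : 2 * δ < 1) : ∃ c : ℝ, 0 < c ∧ ∃ M₀ : ℕ, ∀ M : ℕ, M₀ ≤ M →
      Fools b D δ c f M (Finset.Ioc 0 M) ∧ Fools b D δ c f M ((Finset.Ioc 0 M).filter Nat.Prime) := by
  classical
  obtain ⟨q₀, p, Φ, hq₀, hΦ, halg, hre, hv, hex⟩ := alg_ex (r := 1) (f := fun _ => f) (fun _ => hf)
  obtain ⟨R, C, E, hR, hC, hE⟩ := hex p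
  obtain ⟨C₁, hC₁, hLB⟩ := unb_lb hq₀ hR hC (hE 0) hunb
  have hex1 : ∀ j : Fin 1, Ex q₀ p p R C ((fun _ : Fin 1 => f) j)
      ((fun (_ : Fin 1) (k : ℕ) => (tc k (Φ 0)).re) j) ((fun _ : Fin 1 => E 0) j) := fun j => by
    exact hE 0
  obtain ⟨β, hβ⟩ : ∃ β : ℝ, β = (1 - 2 * δ) / 4 := ⟨_, rfl⟩
  obtain ⟨δ', hδ'⟩ : ∃ δ' : ℝ, δ' = δ + (1 - 2 * δ) / 8 := ⟨_, rfl⟩
  have hβ0 : 0 < β := by linarith
  have hβ1 : β < 1 := by linarith
  have hδδ : δ < δ' := by linarith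
  have hδβ : 2 * δ' + β < 1 := by linarith
  obtain ⟨N1, hN1⟩ := U1 q₀ p p hq₀ R C hR hC (fun _ : Fin 1 => f) _ _ hex1 0 C₁ le_rfl hC₁ hLB 0
    δ' β (by linarith) hβ0 hδβ
  obtain ⟨N2, hN2⟩ := es_prime hf hunb δ' β (by linarith) hβ0 hδβ
  obtain ⟨N3, hN3⟩ := prime_count
  obtain ⟨c, hc, N4, hN4⟩ := circ_set hb D hδ hδδ hβ0 hβ1
  obtain ⟨M3, hM3⟩ := eventually_atTop.1 ((log_ge 2).and ((logpow hβ1 2).and (logpow hβ0 4)))
  refine ⟨c, hc, max (max (max N1 N2) (max N3 N4)) (max M3 2), fun M hM => ?_⟩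
  obtain ⟨h1, h2, h3⟩ := hM3 M (le_of_max_le_left (le_of_max_le_right hM))
  have hM2 : 2 ≤ M := le_of_max_le_right (le_of_max_le_right hM)
  have hI := hN1 M (le_of_max_le_left (le_of_max_le_left (le_of_max_le_left hM)))
  have hP := hN2 M (le_of_max_le_right (le_of_max_le_left (le_of_max_le_left hM)))
  have hPC := hN3 M (le_of_max_le_left (le_of_max_le_right (le_of_max_le_left hM)))
  have hF := hN4 M (le_of_max_le_right (le_of_max_le_right (le_of_max_le_left hM)))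
  have hMR : (2 : ℝ) ≤ M := by exact_mod_cast hM2
  have hM0 : (0 : ℝ) < M := by linarith
  obtain ⟨L, hL⟩ : ∃ L : ℝ, L = Real.log M := ⟨_, rfl⟩
  have hFI := hF (Finset.Ioc 0 M) (fun n => f n)
  have hFP := hF ((Finset.Ioc 0 M).filter Nat.Prime) (fun n => f n)
  rw [← hL] at h1 h2 h3 hI hP hPC hFI hFP
  rw [Real.rpow_one] at h2
  rw [Real.rpow_zero, mul_one] at h3
  have hL0 : 0 < L := by linarith
  have hML : (M : ℝ) = Real.exp L := by rw [hL, Real.exp_log hM0]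
  obtain ⟨W, hW⟩ : ∃ W : ℝ, W = L ^ β := ⟨_, rfl⟩
  rw [← hW] at h2 h3 hI hP hFI hFP
  have hMW : 1 ≤ M * Real.exp (-W) := by
    rw [hML, ← Real.exp_add]
    exact Real.one_le_exp (by linarith)
  have hW2 : 2 * Real.exp (-W) ≤ 1 := by
    have q1 := Real.add_one_le_exp W
    rw [Real.exp_neg, ← div_eq_mul_inv, div_le_one (Real.exp_pos _)]
    linarith
  obtain ⟨A, hA1, hA2, hA3⟩ := cut hMW hW2
  have hAsq : (M : ℝ) ^ ((1 : ℝ) / 2) ≤ A := by
    refine le_trans ?_ hA1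
    rw [hML, ← Real.exp_mul, ← Real.exp_add]
    exact Real.exp_le_exp.2 (by linarith)
  constructor
  · unfold Fools
    rw [← hL]
    refine hFI ?_ ?_
    · rw [Nat.card_Ioc, Nat.sub_zero, div_le_iff₀ (by positivity)]
      nlinarith
    · intro lam k1 k2
      have hu := hI A hA1 hA3 (fun _ => 1) (fun hc => by
          have := congrFun hc 0
          simp at this) (fun j => by
          simp only [Int.cast_one, abs_one]
          exact Real.one_le_exp (by linarith)) lam (by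
          rw [Real.rpow_zero, one_mul]
          exact k1) k2 0 (by simp)
      have e1 : ∑ n ∈ Finset.Ioc A M, e (lam * ((0 : ℝ[X]).eval (n : ℝ) +
              ∑ _j : Fin 1, ((1 : ℤ) : ℝ) * f n)) = ∑ n ∈ Finset.Ioc A M, e (lam * f n) := by
        refine Finset.sum_congr rfl fun n _ => ?_
        rw [Fin.sum_univ_one, eval_zero]
        congr 1
        push_cast
        ring
      rw [e1] at hu
      have h5 := sum_cut (fun _ => True) hA3 (fun n => e (lam * f n)) (fun n => norm_e _)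
      simp only [Finset.filter_true] at h5
      linarith
  · unfold Fools
    rw [← hL]
    refine hFP hPC ?_
    intro lam k1 k2
    have h5 := sum_cut Nat.Prime hA3 (fun n => e (lam * f n)) (fun n => norm_e _)
    have h6 := hP A hAsq hA3 lam k1 k2
    linarith

end Pool.Agent.J6H93.Fam
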