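import Pool.Agent.J6H93.Fam.Gm5
import Mathlib.Analysis.Calculus.InverseFunctionTheorem.Analytic

/-!
# Germs of Puiseux type
-/

set_option autoImplicit false

namespace Pool.Agent.J6H93.Fam

open Finset Filter Topology

lemma an_dslope {Φ : ℂ → ℂ} (h : AnalyticAt ℂ Φ 0) : AnalyticAt ℂ (dslope Φ 0) 0 := by
  obtain ⟨p, hp⟩ := h
  exact ⟨_, hp.has_fpower_series_dslope_fslope⟩

lemma dslope_eq (Φ : ℂ → ℂ) (s : ℂ) : Φ s = Φ 0 + s * dslope Φ 0 s := by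
  have := sub_smul_dslope Φ 0 s
  rw [sub_zero, smul_eq_mul] at this
  rw [this]
  ring

/-- the Taylor expansion -/
lemma taylor_an (K : ℕ) : ∀ (Φ : ℂ → ℂ), AnalyticAt ℂ Φ 0 → ∃ (a : ℕ → ℂ) (Ψ : ℂ → ℂ),
    AnalyticAt ℂ Ψ 0 ∧ a 0 = Φ 0 ∧
    ∀ s, Φ s = ∑ k ∈ Finset.range (K + 1), a k * s ^ k + s ^ (K + 1) * Ψ s := by
  induction K with
  | zero =>
    intro Φ hΦ
    refine ⟨fun _ => Φ 0, dslope Φ 0, an_dslope hΦ, rfl, fun s => ?_⟩
    rw [dslope_eq Φ s]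
    simp
  | succ K ih =>
    intro Φ hΦ
    obtain ⟨a, Ψ, hΨ, _, h2⟩ := ih (dslope Φ 0) (an_dslope hΦ)
    refine ⟨fun k => if k = 0 then Φ 0 else a (k - 1), Ψ, hΨ, by simp, fun s => ?_⟩
    rw [dslope_eq Φ s, h2 s, Finset.sum_range_succ' _ (K + 1)]
    simp only [Nat.add_one_ne_zero, if_false, Nat.add_sub_cancel, if_true, pow_zero, mul_one]
    rw [mul_add, Finset.mul_sum]
    have e1 : ∀ k, s * (a k * s ^ k) = a k * s ^ (k + 1) := fun k => by ring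
    simp only [e1]
    ring

/-- a germ in a neighbourhood -/
lemma an_nhds {Φ : ℂ → ℂ} (h : AnalyticAt ℂ Φ 0) : ∃ η > 0, ∃ C > 0,
    DifferentiableOn ℂ Φ (Metric.ball 0 η) ∧ ∀ s ∈ Metric.ball (0 : ℂ) η, ‖Φ s‖ ≤ C := by
  obtain ⟨η₁, h1, h2⟩ := Metric.eventually_nhds_iff_ball.1 h.eventually_analyticAt
  have h3 : ∀ᶠ s in 𝓝 (0 : ℂ), ‖Φ s‖ < ‖Φ 0‖ + 1 :=
    (h.continuousAt.norm).eventually_lt_const (by linarith)
  obtain ⟨η₂, h4, h5⟩ := Metric.eventually_nhds_iff_ball.1 h3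
  refine ⟨min η₁ η₂, lt_min h1 h4, ‖Φ 0‖ + 1, by positivity, ?_, ?_⟩
  · intro s hs
    exact (h2 s (Metric.ball_subset_ball (min_le_left _ _) hs)).differentiableAt.differentiableWithinAt
  · intro s hs
    exact (h5 s (Metric.ball_subset_ball (min_le_right _ _) hs)).le

/-- the values of a Puiseux germ -/
noncomputable def pv (q p : ℕ) (Φ : ℂ → ℂ) (t : ℝ) : ℂ :=
  (t : ℂ) ^ (((p : ℝ) / q : ℝ) : ℂ) * Φ ((t : ℂ) ^ ((-(1 / (q : ℝ)) : ℝ) : ℂ))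

lemma small_root {q : ℕ} (hq : 1 ≤ q) {η : ℝ} (hη : 0 < η) {x : ℝ} (hx : η⁻¹ ^ q < x) :
    x ^ (-(1 / (q : ℝ))) < η := by
  have hq0 : (0 : ℝ) < q := by exact_mod_cast hq
  have h1 : (0 : ℝ) < η⁻¹ ^ q := by positivity
  have hx0 : 0 < x := lt_trans h1 hx
  rw [Real.rpow_neg hx0.le, inv_lt_comm₀ (by positivity) hη]
  have h2 : η⁻¹ = (η⁻¹ ^ q) ^ (1 / (q : ℝ)) := by
    rw [← Real.rpow_natCast, ← Real.rpow_mul (by positivity), mul_one_div_cancel hq0.ne',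
      Real.rpow_one]
  rw [h2]
  exact Real.rpow_lt_rpow h1.le hx (by positivity)

/-- the expansion of a Puiseux germ -/
lemma germ_ex {q : ℕ} (hq : 1 ≤ q) (p K : ℕ) {Φ : ℂ → ℂ} (hΦ : AnalyticAt ℂ Φ 0) :
    ∃ (R C : ℝ) (φ : ℕ → ℝ) (E : ℂ → ℂ), 1 ≤ R ∧ 0 ≤ C ∧ φ 0 = (Φ 0).re ∧
      Ex q p K R C (fun t => (pv q p Φ t).re) φ E := by
  have hq0 : (0 : ℝ) < q := by exact_mod_cast hq
  obtain ⟨a, Ψ, hΨ, ha, hexp⟩ := taylor_an K Φ hΦ
  obtain ⟨η, hη, C, hC, h1, h2⟩ := an_nhds hΨ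
  refine ⟨max 1 (η⁻¹ ^ q), C, fun k => (a k).re, fun z => z ^ ((((p : ℝ) - K - 1) / q : ℝ) : ℂ) *
    Ψ (z ^ ((-(1 / (q : ℝ)) : ℝ) : ℂ)), le_max_left _ _, hC.le, by simp only [ha], ?_, ?_, ?_⟩
  · refine (cpow_diff (by positivity) _).mul ?_
    refine h1.comp (cpow_diff (by positivity) _) ?_
    intro z hz
    rw [Metric.mem_ball, dist_zero_right, Complex.norm_cpow_real]
    exact small_root hq hη (lt_of_le_of_lt (le_max_right _ _) (Hp_norm hz))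
  · intro z hz
    rw [norm_mul, Complex.norm_cpow_real, mul_comm]
    refine mul_le_mul_of_nonneg_right (h2 _ ?_) (by positivity)
    rw [Metric.mem_ball, dist_zero_right, Complex.norm_cpow_real]
    exact small_root hq hη (lt_of_le_of_lt (le_max_right _ _) (Hp_norm hz))
  · intro t ht
    have ht0 : 0 < t := by
      have := le_max_left 1 (η⁻¹ ^ q)
      linarith
    unfold pv
    simp only
    rw [hexp, mul_add, Finset.mul_sum, Complex.add_re, Complex.re_sum]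
    have e0 : ∀ x y : ℝ, (t : ℂ) ^ (x : ℂ) * ((t : ℂ) ^ (y : ℂ)) = ((t ^ (x + y) : ℝ) : ℂ) := by
      intro x y
      rw [← Complex.ofReal_cpow ht0.le, ← Complex.ofReal_cpow ht0.le, ← Complex.ofReal_mul,
        ← Real.rpow_add ht0]
    have e1 : ∀ k : ℕ, ((t : ℂ) ^ ((-(1 / (q : ℝ)) : ℝ) : ℂ)) ^ k =
        (t : ℂ) ^ ((-((k : ℝ) / q) : ℝ) : ℂ) := by
      intro k
      rw [← Complex.ofReal_cpow ht0.le, ← Complex.ofReal_cpow ht0.le, ← Complex.ofReal_pow,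
        ← Real.rpow_natCast, ← Real.rpow_mul ht0.le]
      congr 2
      ring
    congr 1
    · refine Finset.sum_congr rfl fun k _ => ?_
      rw [e1, mul_left_comm, e0, Complex.re_mul_ofReal]
      congr 2
      ring
    · rw [e1, ← mul_assoc, e0]
      have e3 : (p : ℝ) / q + -(((K + 1 : ℕ) : ℝ) / q) = ((p : ℝ) - K - 1) / q := by
        push_cast
        ring
      rw [e3, Complex.ofReal_cpow ht0.le]

/-- shifting the origin of the exponents -/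
lemma ex_shift {q p K : ℕ} {R C : ℝ} {y : ℝ → ℝ} {φ : ℕ → ℝ} {E : ℂ → ℂ} (m : ℕ)
    (h : Ex q p K R C y φ E) :
    Ex q (p + m) (K + m) R C y (fun k => if k < m then 0 else φ (k - m)) E := by
  refine ⟨h.1, ?_, ?_⟩
  · intro z hz
    have e1 : (((p + m : ℕ) : ℝ) - ((K + m : ℕ) : ℝ) - 1) / q = ((p : ℝ) - K - 1) / q := by
      push_cast
      ring
    rw [e1]
    exact h.2.1 z hz
  · intro t ht
    rw [h.2.2 t ht]
    congr 1
    have e1 : K + m + 1 = m + (K + 1) := by ring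
    rw [e1, Finset.sum_range_add _ m (K + 1)]
    simp only
    have e2 : ∑ x ∈ Finset.range m, (if x < m then 0 else φ (x - m)) *
        t ^ ((((p + m : ℕ) : ℝ) - x) / q) = 0 := by
      apply Finset.sum_eq_zero
      intro k hk
      rw [if_pos (Finset.mem_range.1 hk), zero_mul]
    rw [e2, zero_add]
    refine Finset.sum_congr rfl fun k _ => ?_
    rw [if_neg (by omega), Nat.add_sub_cancel_left]
    congr 2
    push_cast
    ring

/-- enlarging the constants -/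
lemma ex_mono {q p K : ℕ} {R C R' C' : ℝ} {y : ℝ → ℝ} {φ : ℕ → ℝ} {E : ℂ → ℂ} (hR : R ≤ R')
    (hC : C ≤ C') (h : Ex q p K R C y φ E) : Ex q p K R' C' y φ E := by
  have hsub : Hp R' ⊆ Hp R := fun z hz => lt_of_le_of_lt hR hz
  refine ⟨h.1.mono hsub, fun z hz => ?_, fun t ht => h.2.2 t (lt_of_le_of_lt hR ht)⟩
  exact (h.2.1 z (hsub hz)).trans (mul_le_mul_of_nonneg_right hC (by positivity))

/-- **the inverse of a function with a pole or a zero** -/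
lemma inv_germ {d : ℕ} (hd : 1 ≤ d) {H : ℂ → ℂ} (hH : AnalyticAt ℂ H 0) {h₀ : ℝ} (hh₀ : 0 < h₀)
    (h0 : H 0 = h₀) : ∃ Θ : ℂ → ℂ, AnalyticAt ℂ Θ 0 ∧ Θ 0 = ((h₀ ^ (1 / (d : ℝ)) : ℝ) : ℂ) ∧
      ∃ η > 0, ∀ u t : ℝ, 0 < u → u < η → 0 < t → (u : ℂ) ^ d * H u = ((1 / t : ℝ) : ℂ) →
        ((1 / u : ℝ) : ℂ) = pv d 1 Θ t := by
  have hd0 : (0 : ℝ) < d := by exact_mod_cast hd
  obtain ⟨g, hg⟩ : ∃ g : ℂ → ℂ, g = fun u => u * (H u) ^ ((1 / (d : ℝ) : ℝ) : ℂ) := ⟨_, rfl⟩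
  have hslit : H 0 ∈ Complex.slitPlane := by
    rw [h0, Complex.mem_slitPlane_iff]
    left
    simpa using hh₀
  have hgan : AnalyticAt ℂ g 0 := by
    rw [hg]
    exact analyticAt_id.mul (hH.cpow analyticAt_const hslit)
  have hg0 : g 0 = 0 := by rw [hg]; simp
  have hgd : deriv g 0 = ((h₀ ^ (1 / (d : ℝ)) : ℝ) : ℂ) := by
    have h1 : HasDerivAt g ((H 0) ^ ((1 / (d : ℝ) : ℝ) : ℂ)) 0 := by
      have h2 := (hasDerivAt_id (0 : ℂ)).mul
        ((hH.cpow (analyticAt_const (v := ((1 / (d : ℝ) : ℝ) : ℂ))) hslit).differentiableAt.hasDerivAt)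
      rw [hg]
      refine h2.congr_deriv ?_
      simp
    rw [h1.deriv, h0, ← Complex.ofReal_cpow hh₀.le]
  have hg1 : deriv g 0 ≠ 0 := by
    rw [hgd]
    have : (0 : ℝ) < h₀ ^ (1 / (d : ℝ)) := by positivity
    exact_mod_cast this.ne'
  obtain ⟨ψ, hψ⟩ : ∃ ψ : ℂ → ℂ, ψ = hgan.hasStrictDerivAt.localInverse _ _ _ hg1 := ⟨_, rfl⟩
  have hψan : AnalyticAt ℂ ψ 0 := by
    have := hgan.analyticAt_localInverse hg1
    rw [hg0] at this
    rw [hψ]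
    exact this
  have hψl : ∀ᶠ u in 𝓝 (0 : ℂ), ψ (g u) = u := by
    rw [hψ]
    exact HasStrictDerivAt.eventually_left_inverse hgan.hasStrictDerivAt hg1
  have hψ0 : ψ 0 = 0 := by
    have := hψl.self_of_nhds
    rwa [hg0] at this
  have hψd : deriv ψ 0 = (deriv g 0)⁻¹ := by
    have := (hgan.hasStrictDerivAt.to_localInverse hg1).hasDerivAt.deriv
    rw [hg0] at this
    rw [hψ]
    exact this
  obtain ⟨χ, hχ⟩ : ∃ χ : ℂ → ℂ, χ = dslope ψ 0 := ⟨_, rfl⟩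
  have hχan : AnalyticAt ℂ χ 0 := by rw [hχ]; exact an_dslope hψan
  have hχ0 : χ 0 = (deriv g 0)⁻¹ := by rw [hχ, dslope_same, hψd]
  have hχne : χ 0 ≠ 0 := by rw [hχ0]; exact inv_ne_zero hg1
  have hψχ : ∀ s, ψ s = s * χ s := by
    intro s
    rw [hχ, dslope_eq ψ s, hψ0, zero_add]
  refine ⟨fun s => (χ s)⁻¹, hχan.inv hχne, by
    simp only [hχ0, inv_inv]
    exact hgd, ?_⟩
  obtain ⟨η, hη, hηl⟩ := Metric.eventually_nhds_iff_ball.1 hψl
  refine ⟨η, hη, fun u t hu huη ht hut => ?_⟩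
  have hub : (u : ℂ) ∈ Metric.ball (0 : ℂ) η := by
    rw [Metric.mem_ball, dist_zero_right, Complex.norm_real, Real.norm_eq_abs, abs_of_pos hu]
    exact huη
  have h1 := hηl _ hub
  have hHu : H u = ((1 / (t * u ^ d) : ℝ) : ℂ) := by
    have hud : (u : ℂ) ^ d ≠ 0 := pow_ne_zero _ (by exact_mod_cast hu.ne')
    have ht' : (t : ℂ) ≠ 0 := by exact_mod_cast ht.ne'
    have : H u = ((1 / t : ℝ) : ℂ) / (u : ℂ) ^ d := by
      rw [eq_div_iff hud, mul_comm]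
      exact hut
    rw [this]
    push_cast
    field_simp
  have hgu : g u = ((t ^ (-(1 / (d : ℝ))) : ℝ) : ℂ) := by
    rw [hg]
    simp only
    rw [hHu, ← Complex.ofReal_cpow (by positivity), ← Complex.ofReal_mul]
    congr 1
    rw [one_div (t * u ^ d), Real.inv_rpow (by positivity), Real.mul_rpow ht.le (by positivity),
      ← Real.rpow_natCast u d, ← Real.rpow_mul hu.le, mul_one_div_cancel hd0.ne', Real.rpow_one,
      Real.rpow_neg ht.le]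
    field_simp
  rw [hgu, hψχ] at h1
  unfold pv
  obtain ⟨s, hs⟩ : ∃ s : ℝ, s = t ^ (-(1 / (d : ℝ))) := ⟨_, rfl⟩
  have hs0 : 0 < s := by rw [hs]; positivity
  have e1 : (t : ℂ) ^ ((-(1 / (d : ℝ)) : ℝ) : ℂ) = (s : ℂ) := by
    rw [hs, Complex.ofReal_cpow ht.le]
  have e2 : (t : ℂ) ^ ((((1 : ℕ) : ℝ) / d : ℝ) : ℂ) = (s : ℂ)⁻¹ := by
    rw [← Complex.ofReal_cpow ht.le, hs, Real.rpow_neg ht.le]
    push_cast
    rw [inv_inv]
  rw [e1, e2, ← mul_inv]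
  rw [← hs] at h1
  rw [h1]
  push_cast
  rw [one_div]

end Pool.Agent.J6H93.Fam
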