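import Pool.Agent.J6H93.Fam.Pz4
import Pool.Agent.J6H93.Fam.Br1

/-!
# Real algebraic functions near infinity are Puiseux germs
-/

set_option autoImplicit false

namespace Pool.Agent.J6H93.Fam

open Finset Filter Topology Polynomial

/-- `f` is continuous near `+∞` and satisfies there an equation `∑_{i ≤ n} A_i(t) f(t) ^ i = 0` with
integral polynomials `A_i`, which are not all zero -/
def AlgFun (f : ℝ → ℝ) : Prop := ∃ (t₀ : ℝ) (n : ℕ) (A : ℕ → ℤ[X]), ContinuousOn f (Set.Ioi t₀) ∧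
  (∃ i ≤ n, A i ≠ 0) ∧ ∀ t : ℝ, t₀ < t → ∑ i ∈ Finset.range (n + 1), aeval t (A i) * f t ^ i = 0

/-- the reversed polynomial: `rv m B (s) = s ^ m B(1 / s)` if `deg B ≤ m` -/
noncomputable def rv (m : ℕ) (B : ℤ[X]) : ℂ[X] := (B.map (Int.castRingHom ℂ)).reflect m

lemma rv_eval {m : ℕ} {B : ℤ[X]} (hB : B.natDegree ≤ m) {s : ℝ} (hs : s ≠ 0) :
    (rv m B).eval (s : ℂ) = ((s ^ m * aeval s⁻¹ B : ℝ) : ℂ) := by
  have hs' : (s : ℂ) ≠ 0 := by exact_mod_cast hs
  unfold rv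
  have : Invertible ((s : ℂ)⁻¹) := invertibleOfNonzero (inv_ne_zero hs')
  have h1 := eval₂_reflect_mul_pow (RingHom.id ℂ) ((s : ℂ)⁻¹) m (B.map (Int.castRingHom ℂ))
    (natDegree_map_le.trans hB)
  rw [invOf_eq_inv, inv_inv, eval₂_id, eval₂_id] at h1
  have h2 : (B.map (Int.castRingHom ℂ)).eval ((s : ℂ)⁻¹) = ((aeval s⁻¹ B : ℝ) : ℂ) := by
    rw [eval_map, aeval_def, ← Complex.ofReal_inv]
    have e1 : (Int.castRingHom ℂ) = (algebraMap ℝ ℂ).comp (algebraMap ℤ ℝ) := RingHom.ext_int _ _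
    rw [e1]
    exact (hom_eval₂ B (algebraMap ℤ ℝ) (algebraMap ℝ ℂ) s⁻¹).symm
  rw [h2, inv_pow, ← div_eq_mul_inv, div_eq_iff (pow_ne_zero _ hs')] at h1
  rw [h1]
  push_cast
  ring

lemma rv_eval_zero {B : ℤ[X]} : (rv B.natDegree B).eval 0 = (B.leadingCoeff : ℂ) := by
  unfold rv
  rw [← coeff_zero_eq_eval_zero, coeff_reflect, revAt_le (Nat.zero_le _), Nat.sub_zero, coeff_map]
  rfl

lemma inv_tendsto : Tendsto (fun t : ℝ => t⁻¹) atTop (𝓝[>] 0) := tendsto_inv_atTop_nhdsGT_zero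

/-- **real algebraic functions near infinity are Puiseux germs** -/
theorem alg_germ {f : ℝ → ℝ} (hf : AlgFun f) : ∃ (q p : ℕ) (Ψ : ℂ → ℂ), 1 ≤ q ∧
    AnalyticAt ℂ Ψ 0 ∧ ∀ᶠ t : ℝ in atTop, (f t : ℂ) = pv q p Ψ t := by
  obtain ⟨t₀, n', A, hcont, hne, heq⟩ := hf
  classical
  -- the degree
  obtain ⟨n, hn, hAn, hAmax⟩ : ∃ n ≤ n', A n ≠ 0 ∧ ∀ i, n < i → i ≤ n' → A i = 0 := by
    have hne' : ((Finset.range (n' + 1)).filter (fun i => A i ≠ 0)).Nonempty := by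
      obtain ⟨i, hi, hi2⟩ := hne
      exact ⟨i, Finset.mem_filter.2 ⟨Finset.mem_range.2 (by omega), hi2⟩⟩
    obtain ⟨n, hn, hmax⟩ := Finset.exists_max_image _ (fun i : ℕ => i) hne'
    rw [Finset.mem_filter, Finset.mem_range] at hn
    refine ⟨n, by omega, hn.2, fun i hi hi' => ?_⟩
    by_contra hcon
    have := hmax i (Finset.mem_filter.2 ⟨Finset.mem_range.2 (by omega), hcon⟩)
    omega
  have heq2 : ∀ t : ℝ, t₀ < t → ∑ i ∈ Finset.range (n + 1), aeval t (A i) * f t ^ i = 0 := by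
    intro t ht
    rw [← heq t ht]
    apply Finset.sum_subset (fun i hi => Finset.mem_range.2 (by
      have := Finset.mem_range.1 hi
      omega))
    intro i hi hi2
    rw [Finset.mem_range] at hi hi2
    rw [hAmax i (by omega) (by omega)]
    simp
  -- the size of the polynomials
  obtain ⟨m, hm⟩ : ∃ m : ℕ, m = ∑ i ∈ Finset.range (n + 1), (A i).natDegree * (n + 1) := ⟨_, rfl⟩
  have hmi : ∀ i ≤ n, (A i).natDegree * (n + 1) ≤ m := by
    intro i hi
    rw [hm]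
    exact Finset.single_le_sum (f := fun i => (A i).natDegree * (n + 1)) (fun _ _ => Nat.zero_le _)
      (Finset.mem_range.2 (by omega))
  have hmi' : ∀ i ≤ n, (A i).natDegree ≤ m := fun i hi =>
    (Nat.le_mul_of_pos_right _ (by omega)).trans (hmi i hi)
  obtain ⟨d, hd⟩ : ∃ d : ℕ, d = (A n).natDegree := ⟨_, rfl⟩
  have hdm : d ≤ m := by rw [hd]; exact hmi' n le_rfl
  -- the monic family: `z = s ^ m A_n(1 / s) f(1 / s)`
  obtain ⟨a, ha⟩ : ∃ a : ℕ → ℂ → ℂ, a = fun i s =>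
    (rv m (A i)).eval s * ((rv m (A n)).eval s) ^ (n - 1 - i) := ⟨_, rfl⟩
  have haan : ∀ i, AnalyticAt ℂ (a i) 0 := by
    intro i
    rw [ha]
    exact ((rv m (A i)).differentiable.analyticAt 0).mul
      (((rv m (A n)).differentiable.analyticAt 0).fun_pow _)
  obtain ⟨t₁, ht₁⟩ : ∃ t₁ : ℝ, t₁ = max t₀ 1 := ⟨_, rfl⟩
  have ht₁0 : 0 < t₁ := by rw [ht₁]; positivity
  have ht₁t₀ : t₀ ≤ t₁ := by rw [ht₁]; exact le_max_left _ _
  have hinv : ∀ s ∈ Set.Ioo 0 t₁⁻¹, t₀ < s⁻¹ := by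
    intro s hs
    have : t₁ < s⁻¹ := by
      rw [lt_inv_comm₀ ht₁0 hs.1]
      exact hs.2
    linarith
  have hyc : ContinuousOn (fun s : ℝ => (rv m (A n)).eval (s : ℂ) * (f s⁻¹ : ℂ)) (Set.Ioo 0 t₁⁻¹) := by
    refine ContinuousOn.mul ?_ ?_
    · exact ((rv m (A n)).continuous.comp Complex.continuous_ofReal).continuousOn
    · refine Complex.continuous_ofReal.comp_continuousOn ?_
      refine hcont.comp (continuousOn_inv₀.mono fun s hs => ?_) fun s hs => hinv s hs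
      exact hs.1.ne'
  have hroot : ∀ s ∈ Set.Ioo 0 t₁⁻¹, (mq n (fun i => a i (s : ℂ))).eval
      ((rv m (A n)).eval (s : ℂ) * (f s⁻¹ : ℂ)) = 0 := by
    intro s hs
    have hs0 : s ≠ 0 := hs.1.ne'
    have h1 := heq2 s⁻¹ (hinv s hs)
    have h2 : ∑ i ∈ Finset.range (n + 1), (rv m (A i)).eval (s : ℂ) * (f s⁻¹ : ℂ) ^ i = 0 := by
      have h3 : ∑ i ∈ Finset.range (n + 1), (rv m (A i)).eval (s : ℂ) * (f s⁻¹ : ℂ) ^ i =
          ((s ^ m * ∑ i ∈ Finset.range (n + 1), aeval s⁻¹ (A i) * f s⁻¹ ^ i : ℝ) : ℂ) := by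
        rw [Finset.mul_sum]
        push_cast
        refine Finset.sum_congr rfl fun i hi => ?_
        rw [rv_eval (hmi' i (by
          have := Finset.mem_range.1 hi
          omega)) hs0]
        push_cast
        ring
      rw [h3, h1, mul_zero, Complex.ofReal_zero]
    rcases Nat.eq_zero_or_pos n with hn0 | hn0
    · subst hn0
      exfalso
      simp only [zero_add, Finset.range_one, Finset.sum_singleton, pow_zero, mul_one] at heq2
      have hA0 : (A 0).map (Int.castRingHom ℝ) = 0 := by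
        apply Polynomial.eq_zero_of_infinite_isRoot
        refine (Set.Ioi_infinite t₀).mono ?_
        intro t ht
        show ((A 0).map (Int.castRingHom ℝ)).eval t = 0
        rw [eval_map]
        exact heq2 t ht
      exact hAn ((Polynomial.map_eq_zero_iff (RingHom.injective_int _)).1 hA0)
    rw [mq_eval]
    obtain ⟨x, hx⟩ : ∃ x : ℂ, x = (rv m (A n)).eval (s : ℂ) := ⟨_, rfl⟩
    obtain ⟨y, hy⟩ : ∃ y : ℂ, y = (f s⁻¹ : ℂ) := ⟨_, rfl⟩
    rw [Finset.sum_range_succ] at h2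
    rw [ha]
    simp only
    rw [← hx, ← hy] at h2 ⊢
    have h4 : ∑ i ∈ Finset.range n, (rv m (A i)).eval (s : ℂ) * x ^ (n - 1 - i) * (x * y) ^ i =
        x ^ (n - 1) * ∑ i ∈ Finset.range n, (rv m (A i)).eval (s : ℂ) * y ^ i := by
      rw [Finset.mul_sum]
      refine Finset.sum_congr rfl fun i hi => ?_
      have h5 := Finset.mem_range.1 hi
      have h6 : x ^ (n - 1) = x ^ (n - 1 - i) * x ^ i := by
        rw [← pow_add]
        congr 1
        omega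
      rw [h6, mul_pow]
      ring
    rw [h4]
    have h7 : (x * y) ^ n = x ^ (n - 1) * (x * y ^ n) := by
      rw [mul_pow]
      have : x ^ n = x ^ (n - 1) * x := by
        rw [← pow_succ]
        congr 1
        omega
      rw [this]
      ring
    rw [h7, ← mul_add, add_comm (x * y ^ n), h2, mul_zero]
  obtain ⟨q, hq, Φ, hΦ, hΦ2⟩ := newton_puiseux n a haan t₁⁻¹ (by positivity) _ hyc hroot
  -- the division by the leading coefficient
  have hlead : (rv d (A n)).eval 0 ≠ 0 := by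
    rw [hd, rv_eval_zero]
    exact_mod_cast leadingCoeff_ne_zero.2 hAn
  refine ⟨q, q * (m - d), fun u => Φ u * ((rv d (A n)).eval (u ^ q))⁻¹, hq, ?_, ?_⟩
  · refine hΦ.mul ?_
    have h1 : AnalyticAt ℂ (fun z => ((rv d (A n)).eval z)⁻¹) 0 :=
      ((rv d (A n)).differentiable.analyticAt 0).inv hlead
    exact an_comp_pow h1 hq
  · have h1 := inv_tendsto.eventually hΦ2
    have h2 : ∀ᶠ t : ℝ in atTop, aeval t (A n) ≠ 0 := by
      have h3 : (A n).map (Int.castRingHom ℝ) ≠ 0 :=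
        (Polynomial.map_ne_zero_iff (RingHom.injective_int _)).2 hAn
      have h4 := ((A n).map (Int.castRingHom ℝ)).roots.toFinset.finite_toSet.bddAbove
      obtain ⟨M, hM⟩ := h4
      filter_upwards [eventually_gt_atTop M] with t ht hcon
      have h5 : t ∈ ((A n).map (Int.castRingHom ℝ)).roots.toFinset := by
        rw [Multiset.mem_toFinset, mem_roots h3, IsRoot, eval_map]
        exact hcon
      exact absurd (hM h5) (not_le.2 ht)
    filter_upwards [h1, h2, eventually_gt_atTop 0] with t ht1 ht2 ht0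
    rw [inv_inv] at ht1
    have hs0 : t⁻¹ ≠ 0 := inv_ne_zero ht0.ne'
    rw [rv_eval (by rw [← hd]; exact hdm) hs0, inv_inv] at ht1
    have hq0 : (0 : ℝ) < q := by exact_mod_cast hq
    -- the variables
    obtain ⟨u, hu⟩ : ∃ u : ℝ, u = t ^ (-(1 / (q : ℝ))) := ⟨_, rfl⟩
    have hu' : (t⁻¹) ^ (1 / (q : ℝ)) = u := by rw [hu, Real.rpow_neg ht0.le, Real.inv_rpow ht0.le]
    have huq : u ^ q = t⁻¹ := by rw [← hu', root_pow hq (by positivity)]
    rw [hu'] at ht1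
    unfold pv
    have e1 : (t : ℂ) ^ ((-(1 / (q : ℝ)) : ℝ) : ℂ) = (u : ℂ) := by
      rw [hu, Complex.ofReal_cpow ht0.le]
    have e2 : (t : ℂ) ^ ((((q * (m - d) : ℕ) : ℝ) / q : ℝ) : ℂ) = ((t ^ (m - d) : ℝ) : ℂ) := by
      rw [← Complex.ofReal_cpow ht0.le]
      congr 1
      rw [← Real.rpow_natCast]
      congr 1
      push_cast
      field_simp
    rw [e1, e2]
    show (f t : ℂ) = ((t ^ (m - d) : ℝ) : ℂ) * (Φ (u : ℂ) * ((rv d (A n)).eval ((u : ℂ) ^ q))⁻¹)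
    rw [← ht1, ← Complex.ofReal_pow u, huq, rv_eval (le_of_eq hd.symm) hs0, inv_inv]
    have hval : (aeval t (A n) : ℝ) ≠ 0 := ht2
    have h6 : (t ^ (m - d) * ((t⁻¹ ^ m * aeval t (A n)) * f t) * (t⁻¹ ^ d * aeval t (A n))⁻¹ : ℝ) =
        f t := by
      have h7 : t ^ (m - d) * t⁻¹ ^ m = t⁻¹ ^ d := by
        have h8 : t⁻¹ ^ m = t⁻¹ ^ (m - d) * t⁻¹ ^ d := by
          rw [← pow_add, Nat.sub_add_cancel hdm]
        rw [h8, ← mul_assoc, ← mul_pow, mul_inv_cancel₀ ht0.ne', one_pow, one_mul]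
      have h9 : t⁻¹ ^ d ≠ 0 := pow_ne_zero _ hs0
      calc (t ^ (m - d) * ((t⁻¹ ^ m * aeval t (A n)) * f t) * (t⁻¹ ^ d * aeval t (A n))⁻¹ : ℝ) =
          (t ^ (m - d) * t⁻¹ ^ m) * (aeval t (A n) * f t) * (t⁻¹ ^ d * aeval t (A n))⁻¹ := by ring
        _ = _ := by
          rw [h7]
          field_simp
    refine (congrArg (fun x : ℝ => (x : ℂ)) h6).symm.trans ?_
    push_cast
    ring

end Pool.Agent.J6H93.Fam
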