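import Pool.Agent.J6H93.Fam.Al1

/-!
# The coefficients of algebraic Puiseux germs are algebraic numbers
-/

set_option autoImplicit false

namespace Pool.Agent.J6H93.Fam

open Finset Filter Topology Polynomial

/-- the field of complex algebraic numbers -/
noncomputable abbrev Kc : IntermediateField ℚ ℂ := algebraicClosure ℚ ℂ

/-- the evaluation of a polynomial in two variables -/
noncomputable def ev (u y : ℂ) : Polynomial (Polynomial Kc) →+* ℂ :=
  eval₂RingHom (eval₂RingHom (algebraMap Kc ℂ) u) y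

/-- there is a polynomial relation with algebraic coefficients -/
def Rel (Ψ : ℂ → ℂ) : Prop :=
  ∃ G : Polynomial (Polynomial Kc), G ≠ 0 ∧ ∀ᶠ u in 𝓝 (0 : ℂ), ev u (Ψ u) G = 0

lemma ev_C_X (u y : ℂ) : ev u y (C X) = u := by
  simp [ev]

lemma ev_cont {Ψ : ℂ → ℂ} (hΨ : ContinuousAt Ψ 0) (G : Polynomial (Polynomial Kc)) :
    ContinuousAt (fun u => ev u (Ψ u) G) 0 := by
  have h1 : (fun u => ev u (Ψ u) G) = fun u => ∑ i ∈ Finset.range (G.natDegree + 1),
      ((G.coeff i).map (algebraMap Kc ℂ)).eval u * Ψ u ^ i := by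
    funext u
    unfold ev
    rw [coe_eval₂RingHom, eval₂_eq_sum_range]
    refine Finset.sum_congr rfl fun i _ => ?_
    rw [coe_eval₂RingHom, eval_map]
  rw [h1]
  refine tendsto_finsetSum _ fun i _ => ?_
  exact ((Polynomial.continuous _).continuousAt).mul (hΨ.pow i)

lemma rel_zero {Ψ : ℂ → ℂ} (hΨ : AnalyticAt ℂ Ψ 0) (h : Rel Ψ) : IsAlgebraic ℚ (Ψ 0) := by
  obtain ⟨G, hG, hG2⟩ := h
  have hnu : ¬ IsUnit (C X : Polynomial (Polynomial Kc)) := by
    rw [isUnit_C]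
    exact not_isUnit_X
  have hfin : FiniteMultiplicity (C X : Polynomial (Polynomial Kc)) G :=
    FiniteMultiplicity.of_not_isUnit hnu hG
  obtain ⟨G₁, hG₁, hG₁2⟩ := hfin.exists_eq_pow_mul_and_not_dvd
  have h1 : ∀ᶠ u in 𝓝[≠] (0 : ℂ), ev u (Ψ u) G₁ = 0 := by
    filter_upwards [hG2.filter_mono nhdsWithin_le_nhds, self_mem_nhdsWithin] with u hu hu0
    rw [hG₁, map_mul, map_pow, ev_C_X] at hu
    rcases mul_eq_zero.1 hu with h | h
    · exact absurd h (pow_ne_zero _ hu0)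
    · exact h
  have h2 : ev 0 (Ψ 0) G₁ = 0 := by
    have h3 := (ev_cont hΨ.continuousAt G₁).tendsto.mono_left (nhdsWithin_le_nhds (s := {0}ᶜ))
    have h4 : Tendsto (fun _ : ℂ => (0 : ℂ)) (𝓝[≠] 0) (𝓝 0) := tendsto_const_nhds
    exact tendsto_nhds_unique (h3.congr' (h1.mono fun u hu => hu)) h4
  -- the specialisation
  obtain ⟨g, hg⟩ : ∃ g : Polynomial Kc, g = G₁.map (evalRingHom 0) := ⟨_, rfl⟩
  have hg0 : g ≠ 0 := by
    intro h0
    apply hG₁2
    rw [C_dvd_iff_dvd_coeff]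
    intro i
    rw [X_dvd_iff, coeff_zero_eq_eval_zero]
    have : g.coeff i = 0 := by rw [h0, coeff_zero]
    rw [hg, coeff_map] at this
    exact this
  have hge : aeval (Ψ 0) g = 0 := by
    rw [hg, aeval_def, eval₂_map]
    refine Eq.trans ?_ h2
    unfold ev
    rw [coe_eval₂RingHom]
    have e1 : (algebraMap Kc ℂ).comp (evalRingHom 0) = eval₂RingHom (algebraMap Kc ℂ) 0 := by
      refine Polynomial.ringHom_ext (fun a => ?_) ?_
      · simp
      · simp
    rw [e1]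
  have hK : IsAlgebraic Kc (Ψ 0) := ⟨g, hg0, hge⟩
  have : Algebra.IsAlgebraic ℚ Kc := algebraicClosure.isAlgebraic ℚ ℂ
  exact IsAlgebraic.restrictScalars ℚ hK

lemma rel_dslope {Ψ : ℂ → ℂ} (hΨ : AnalyticAt ℂ Ψ 0) (h : Rel Ψ) : Rel (dslope Ψ 0) := by
  have halg := rel_zero hΨ h
  obtain ⟨G, hG, hG2⟩ := h
  obtain ⟨c, hc⟩ : ∃ c : Kc, (c : ℂ) = Ψ 0 := ⟨⟨Ψ 0, mem_algebraicClosure_iff.2 halg⟩, rfl⟩
  refine ⟨G.comp (C (C c) + C X * X), ?_, ?_⟩
  · rw [Ne, comp_eq_zero_iff]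
    rintro (h | h)
    · exact hG h
    · have h1 := congrArg (fun P => P.coeff 1) h.2
      simp [coeff_C] at h1
  · filter_upwards [hG2] with u hu
    refine Eq.trans ?_ hu
    unfold ev
    rw [coe_eval₂RingHom, coe_eval₂RingHom, eval₂_comp]
    have e1 : eval₂ (eval₂RingHom (algebraMap Kc ℂ) u) (dslope Ψ 0 u) (C (C c) + C X * X) =
        Ψ u := by
      rw [dslope_eq Ψ u, eval₂_add, eval₂_mul, eval₂_C, eval₂_C, eval₂_X, coe_eval₂RingHom,
        eval₂_C, eval₂_X]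
      congr 1
    rw [e1]

/-- the Taylor coefficients -/
noncomputable def tc : ℕ → (ℂ → ℂ) → ℂ
  | 0, Φ => Φ 0
  | k + 1, Φ => tc k (dslope Φ 0)

/-- the Taylor remainders -/
noncomputable def trem : ℕ → (ℂ → ℂ) → (ℂ → ℂ)
  | 0, Φ => Φ
  | k + 1, Φ => trem k (dslope Φ 0)

lemma trem_an (K : ℕ) : ∀ {Φ : ℂ → ℂ}, AnalyticAt ℂ Φ 0 → AnalyticAt ℂ (trem K Φ) 0 := by
  induction K with
  | zero => intro Φ h; exact h
  | succ K ih => intro Φ h; exact ih (an_dslope h)

lemma trem_zero (K : ℕ) : ∀ (Φ : ℂ → ℂ), trem K Φ 0 = tc K Φ := by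
  induction K with
  | zero => intro Φ; rfl
  | succ K ih => intro Φ; exact ih _

lemma taylor_tc (K : ℕ) : ∀ (Φ : ℂ → ℂ) (s : ℂ),
    Φ s = ∑ k ∈ Finset.range K, tc k Φ * s ^ k + s ^ K * trem K Φ s := by
  induction K with
  | zero =>
    intro Φ s
    simp [trem]
  | succ K ih =>
    intro Φ s
    rw [dslope_eq Φ s, ih (dslope Φ 0) s, Finset.sum_range_succ']
    rw [mul_add, Finset.mul_sum]
    have e1 : ∀ k, s * (tc k (dslope Φ 0) * s ^ k) = tc (k + 1) Φ * s ^ (k + 1) := fun k => by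
      rw [show tc (k + 1) Φ = tc k (dslope Φ 0) from rfl]
      ring
    simp only [e1]
    rw [show tc 0 Φ = Φ 0 from rfl, show trem (K + 1) Φ = trem K (dslope Φ 0) from rfl]
    ring

lemma rel_tc (K : ℕ) : ∀ {Φ : ℂ → ℂ}, AnalyticAt ℂ Φ 0 → Rel Φ → IsAlgebraic ℚ (tc K Φ) := by
  induction K with
  | zero => intro Φ h h'; exact rel_zero h h'
  | succ K ih => intro Φ h h'; exact ih (an_dslope h) (rel_dslope h h')

/-- if all Taylor coefficients from the `n`-th on vanish then the remainder vanishes -/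
lemma trem_eq_zero {n : ℕ} {Φ : ℂ → ℂ} (h : AnalyticAt ℂ Φ 0) (h0 : ∀ k, n ≤ k → tc k Φ = 0) :
    ∀ᶠ s in 𝓝 (0 : ℂ), trem n Φ s = 0 := by
  -- shift
  have key : ∀ {Θ : ℂ → ℂ}, AnalyticAt ℂ Θ 0 → (∀ k, tc k Θ = 0) → ∀ᶠ s in 𝓝 (0 : ℂ), Θ s = 0 := by
    intro Θ hΘ hk
    by_contra hcon
    obtain ⟨m, g, hg, hg0, hgm⟩ := (hΘ.exists_eventuallyEq_pow_smul_nonzero_iff).2 hcon
    have h1 : ∀ s, Θ s = s ^ m * trem m Θ s := by
      intro s
      have := taylor_tc m Θ s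
      rw [Finset.sum_eq_zero (fun k _ => by rw [hk k, zero_mul]), zero_add] at this
      exact this
    have h2 : ∀ᶠ s in 𝓝[≠] (0 : ℂ), trem m Θ s = g s := by
      filter_upwards [hgm.filter_mono nhdsWithin_le_nhds, self_mem_nhdsWithin] with s hs hs0
      rw [h1 s, sub_zero, smul_eq_mul] at hs
      exact mul_left_cancel₀ (pow_ne_zero m hs0) hs
    have h3 : trem m Θ 0 = g 0 := by
      have a1 := ((trem_an m hΘ).continuousAt.tendsto).mono_left (nhdsWithin_le_nhds (s := {0}ᶜ))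
      have a2 := (hg.continuousAt.tendsto).mono_left (nhdsWithin_le_nhds (s := {(0 : ℂ)}ᶜ))
      exact tendsto_nhds_unique (a1.congr' h2) a2
    rw [trem_zero, hk m] at h3
    exact hg0 h3.symm
  have hsh : ∀ (n k : ℕ) (Φ : ℂ → ℂ), tc k (trem n Φ) = tc (n + k) Φ := by
    intro n
    induction n with
    | zero => intro k Φ; rw [Nat.zero_add]; rfl
    | succ n ih =>
      intro k Φ
      rw [show trem (n + 1) Φ = trem n (dslope Φ 0) from rfl, ih,
        show n + 1 + k = (n + k) + 1 by ring]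
      rfl
  exact key (trem_an n h) fun k => by rw [hsh]; exact h0 _ (Nat.le_add_right _ _)

/-- the Taylor coefficients of a function which is real for small positive arguments are real -/
lemma tc_real (K : ℕ) : ∀ {Φ : ℂ → ℂ}, AnalyticAt ℂ Φ 0 →
    (∀ᶠ u : ℝ in 𝓝[>] 0, (Φ u).im = 0) → (tc K Φ).im = 0 := by
  have h0 : ∀ {Φ : ℂ → ℂ}, AnalyticAt ℂ Φ 0 → (∀ᶠ u : ℝ in 𝓝[>] 0, (Φ u).im = 0) → (Φ 0).im = 0 := by
    intro Φ h h1
    have h2 : Tendsto (fun u : ℝ => (Φ u).im) (𝓝[>] 0) (𝓝 (Φ 0).im) := by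
      have h3 : ContinuousAt (fun u : ℝ => (Φ u).im) 0 := by
        have h4 : ContinuousAt (fun u : ℝ => Φ (u : ℂ)) 0 := by
          refine ContinuousAt.comp (f := fun u : ℝ => (u : ℂ)) (g := Φ) ?_
            Complex.continuous_ofReal.continuousAt
          rw [Complex.ofReal_zero]
          exact h.continuousAt
        exact Complex.continuous_im.continuousAt.comp h4
      have := h3.tendsto.mono_left (nhdsWithin_le_nhds (s := Set.Ioi 0))
      simpa using this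
    exact tendsto_nhds_unique (h2.congr' h1) tendsto_const_nhds
  induction K with
  | zero => intro Φ h h1; exact h0 h h1
  | succ K ih =>
    intro Φ h h1
    refine ih (an_dslope h) ?_
    have h2 := h0 h h1
    filter_upwards [h1, self_mem_nhdsWithin] with u hu hu0
    have hu0' : u ≠ 0 := ne_of_gt hu0
    have hu0'' : (u : ℂ) ≠ 0 := by exact_mod_cast hu0'
    have e1 : dslope Φ 0 (u : ℂ) = (Φ u - Φ 0) / (u : ℂ) := by
      rw [eq_div_iff hu0'', dslope_eq Φ u]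
      ring
    rw [e1, ← Complex.ofReal_inj.2 rfl, Complex.div_ofReal_im, Complex.sub_im, hu, h2]
    simp

end Pool.Agent.J6H93.Fam
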