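import Pool.Agent.J6H93.Fam.Al2

/-!
# Real algebraic functions: common exponents, algebraic coefficients, expansions
-/

set_option autoImplicit false

namespace Pool.Agent.J6H93.Fam

open Finset Filter Topology Polynomial

lemma ev_an {Ψ : ℂ → ℂ} (hΨ : AnalyticAt ℂ Ψ 0) (G : Polynomial (Polynomial Kc)) :
    AnalyticAt ℂ (fun u => ev u (Ψ u) G) 0 := by
  have h1 : (fun u => ev u (Ψ u) G) = fun u => ∑ i ∈ Finset.range (G.natDegree + 1),
      ((G.coeff i).map (algebraMap Kc ℂ)).eval u * Ψ u ^ i := by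
    funext u
    unfold ev
    rw [coe_eval₂RingHom, eval₂_eq_sum_range]
    refine Finset.sum_congr rfl fun i _ => ?_
    rw [coe_eval₂RingHom, eval_map]
  rw [h1]
  refine Finset.analyticAt_fun_sum _ fun i _ => ?_
  exact ((Polynomial.differentiable _).analyticAt 0).mul (hΨ.fun_pow i)

/-- the real positive numbers -/
lemma real_tendsto : Tendsto (fun u : ℝ => (u : ℂ)) (𝓝[>] 0) (𝓝[≠] 0) := by
  rw [tendsto_nhdsWithin_iff]
  refine ⟨?_, ?_⟩
  · have h1 : Tendsto (fun u : ℝ => (u : ℂ)) (𝓝 0) (𝓝 ((0 : ℝ) : ℂ)) :=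
      Complex.continuous_ofReal.tendsto 0
    rw [Complex.ofReal_zero] at h1
    exact h1.mono_left nhdsWithin_le_nhds
  · filter_upwards [self_mem_nhdsWithin] with u hu
    simpa using ne_of_gt hu

/-- the identity theorem -/
lemma ident {Θ : ℂ → ℂ} (h : AnalyticAt ℂ Θ 0) (h0 : ∀ᶠ u : ℝ in 𝓝[>] 0, Θ u = 0) :
    ∀ᶠ s in 𝓝 (0 : ℂ), Θ s = 0 :=
  h.frequently_zero_iff_eventually_zero.1 (real_tendsto.frequently h0.frequently)

/-- large arguments and small parameters -/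
lemma pow_tendsto {q : ℕ} (hq : 1 ≤ q) : Tendsto (fun u : ℝ => (u ^ q)⁻¹) (𝓝[>] 0) atTop := by
  apply Filter.Tendsto.inv_tendsto_nhdsGT_zero
  rw [tendsto_nhdsWithin_iff]
  refine ⟨?_, ?_⟩
  · have h1 : Tendsto (fun u : ℝ => u ^ q) (𝓝 0) (𝓝 ((0 : ℝ) ^ q)) := (continuous_pow q).tendsto 0
    rw [zero_pow (by omega)] at h1
    exact h1.mono_left nhdsWithin_le_nhds
  · filter_upwards [self_mem_nhdsWithin] with u hu
    exact pow_pos (Set.mem_Ioi.1 hu) q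

/-- the value at `t = u ^ (- q)` -/
lemma pv_small {q p : ℕ} (hq : 1 ≤ q) (Ψ : ℂ → ℂ) {u : ℝ} (hu : 0 < u) :
    pv q p Ψ (u ^ q)⁻¹ * (u : ℂ) ^ p = Ψ u := by
  have hq0 : (0 : ℝ) < q := by exact_mod_cast hq
  have ht : 0 < (u ^ q)⁻¹ := by positivity
  unfold pv
  rw [← Complex.ofReal_cpow ht.le, ← Complex.ofReal_cpow ht.le]
  have e1 : ((u ^ q)⁻¹ : ℝ) ^ (-(1 / (q : ℝ))) = u := by
    rw [Real.inv_rpow (by positivity), Real.rpow_neg (by positivity), inv_inv,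
      ← Real.rpow_natCast, ← Real.rpow_mul hu.le, mul_one_div_cancel hq0.ne', Real.rpow_one]
  have e2 : ((u ^ q)⁻¹ : ℝ) ^ ((p : ℝ) / q) = (u ^ p)⁻¹ := by
    rw [Real.inv_rpow (by positivity), ← Real.rpow_natCast u q, ← Real.rpow_mul hu.le,
      mul_div_cancel₀ _ hq0.ne', Real.rpow_natCast]
  rw [e1, e2]
  have hu' : (u : ℂ) ≠ 0 := by exact_mod_cast hu.ne'
  push_cast
  field_simp

/-- **the germ of an algebraic function satisfies a polynomial relation** -/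
lemma alg_rel {f : ℝ → ℝ} (hf : AlgFun f) {q p : ℕ} (hq : 1 ≤ q) {Ψ : ℂ → ℂ}
    (hΨ : AnalyticAt ℂ Ψ 0) (h : ∀ᶠ t : ℝ in atTop, (f t : ℂ) = pv q p Ψ t) : Rel Ψ := by
  obtain ⟨t₀, n, A, -, ⟨i₀, hi₀, hA₀⟩, heq⟩ := hf
  obtain ⟨m, hm⟩ : ∃ m : ℕ, m = ∑ i ∈ Finset.range (n + 1), (A i).natDegree := ⟨_, rfl⟩
  have hmi : ∀ i ≤ n, (A i).natDegree ≤ m := by
    intro i hi
    rw [hm]
    exact Finset.single_le_sum (f := fun i => (A i).natDegree) (fun _ _ => Nat.zero_le _)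
      (Finset.mem_range.2 (by omega))
  obtain ⟨cf, hcf⟩ : ∃ cf : ℕ → Polynomial Kc, cf = fun i =>
    expand Kc q (((A i).map (Int.castRingHom Kc)).reflect m) * X ^ (p * (n - i)) := ⟨_, rfl⟩
  obtain ⟨G, hG⟩ : ∃ G : Polynomial (Polynomial Kc), G = ∑ i ∈ Finset.range (n + 1),
    C (cf i) * X ^ i := ⟨_, rfl⟩
  have hGc : G.coeff i₀ = cf i₀ := by
    rw [hG, finsetSum_coeff]
    simp only [coeff_C_mul, coeff_X_pow, mul_ite, mul_one, mul_zero]
    rw [Finset.sum_ite_eq, if_pos (Finset.mem_range.2 (by omega))]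
  have hG0 : G ≠ 0 := by
    intro h0
    rw [h0, coeff_zero, hcf] at hGc
    rcases mul_eq_zero.1 hGc.symm with h1 | h1
    · rw [expand_eq_zero (by omega), reflect_eq_zero_iff,
        Polynomial.map_eq_zero_iff (RingHom.injective_int _)] at h1
      exact hA₀ h1
    · exact pow_ne_zero _ X_ne_zero h1
  refine ⟨G, hG0, ident (ev_an hΨ G) ?_⟩
  have h1 := (pow_tendsto hq).eventually (h.and (eventually_gt_atTop t₀))
  filter_upwards [h1, self_mem_nhdsWithin] with u hu hu0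
  have hu0' : (0 : ℝ) < u := hu0
  obtain ⟨hu1, hu2⟩ := hu
  have hev : ev u (Ψ u) G = ∑ i ∈ Finset.range (n + 1),
      ((rv m (A i)).eval (((u ^ q : ℝ)) : ℂ) * (u : ℂ) ^ (p * (n - i))) * Ψ u ^ i := by
    rw [hG, map_sum]
    refine Finset.sum_congr rfl fun i _ => ?_
    unfold ev
    rw [coe_eval₂RingHom, eval₂_mul, eval₂_C, eval₂_pow, eval₂_X, coe_eval₂RingHom, hcf]
    simp only
    rw [eval₂_mul, eval₂_pow, eval₂_X]
    congr 2
    rw [← aeval_def, expand_aeval, aeval_def, ← eval_map, ← reflect_map, Polynomial.map_map]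
    unfold rv
    rw [RingHom.ext_int ((algebraMap Kc ℂ).comp (Int.castRingHom Kc)) (Int.castRingHom ℂ)]
    push_cast
    rfl
  rw [hev]
  have hs : (u ^ q : ℝ) ≠ 0 := by positivity
  have hrel := heq _ hu2
  have hΨu : Ψ u = (f (u ^ q)⁻¹ : ℂ) * (u : ℂ) ^ p := by
    rw [hu1, pv_small hq Ψ hu0']
  have hterm : ∀ i ∈ Finset.range (n + 1),
      ((rv m (A i)).eval (((u ^ q : ℝ)) : ℂ) * (u : ℂ) ^ (p * (n - i))) * Ψ u ^ i =
      (((u ^ q) ^ m * u ^ (p * n) * (aeval (u ^ q)⁻¹ (A i) * f (u ^ q)⁻¹ ^ i) : ℝ) : ℂ) := by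
    intro i hi
    have hi' : i ≤ n := by
      have := Finset.mem_range.1 hi
      omega
    rw [rv_eval (hmi i hi') hs, hΨu]
    have e1 : p * n = p * (n - i) + p * i := by
      rw [← mul_add]
      congr 1
      omega
    rw [e1]
    push_cast
    ring
  rw [Finset.sum_congr rfl hterm, ← Complex.ofReal_sum, ← Finset.mul_sum, hrel]
  simp

lemma alg_re {z : ℂ} (hz : IsAlgebraic ℚ z) : IsAlgebraic ℚ z.re := by
  have h1 : IsAlgebraic ℚ ((starRingEnd ℂ) z) := by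
    have := hz.algHom (Complex.conjAe.toAlgHom.restrictScalars ℚ)
    exact this
  have h2 : IsAlgebraic ℚ ((z + (starRingEnd ℂ) z) * ((2 : ℚ)⁻¹ : ℚ)) := by
    refine (hz.add h1).mul ?_
    exact isAlgebraic_algebraMap (A := ℂ) ((2 : ℚ)⁻¹)
  have h3 : ((z + (starRingEnd ℂ) z) * ((2 : ℚ)⁻¹ : ℚ)) = algebraMap ℝ ℂ z.re := by
    rw [Complex.add_conj]
    push_cast
    rw [Complex.coe_algebraMap]
    ring
  rw [h3] at h2
  exact (isAlgebraic_algebraMap_iff (algebraMap ℝ ℂ).injective).1 h2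

/-- changing the denominator of the exponents -/
lemma pv_root {q p q' : ℕ} (hq : 1 ≤ q) (hq' : 1 ≤ q') (Ψ : ℂ → ℂ) {t : ℝ} (ht : 0 < t) :
    pv (q * q') (p * q') (fun s => Ψ (s ^ q')) t = pv q p Ψ t := by
  have hq0 : (0 : ℝ) < q := by exact_mod_cast hq
  have hq0' : (0 : ℝ) < q' := by exact_mod_cast hq'
  unfold pv
  have e1 : ((t : ℂ) ^ ((-(1 / ((q * q' : ℕ) : ℝ)) : ℝ) : ℂ)) ^ q' =
      (t : ℂ) ^ ((-(1 / (q : ℝ)) : ℝ) : ℂ) := by
    rw [← Complex.ofReal_cpow ht.le, ← Complex.ofReal_cpow ht.le, ← Complex.ofReal_pow,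
      ← Real.rpow_natCast, ← Real.rpow_mul ht.le]
    congr 2
    push_cast
    field_simp
  have e2 : (((p * q' : ℕ) : ℝ) / ((q * q' : ℕ) : ℝ) : ℝ) = (p : ℝ) / q := by
    push_cast
    field_simp
  simp only [e1, e2]

/-- changing the origin of the exponents -/
lemma pv_shift {q p m : ℕ} (hq : 1 ≤ q) (Ψ : ℂ → ℂ) {t : ℝ} (ht : 0 < t) :
    pv q (p + m) (fun s => s ^ m * Ψ s) t = pv q p Ψ t := by
  have hq0 : (0 : ℝ) < q := by exact_mod_cast hq
  unfold pv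
  simp only
  rw [← mul_assoc]
  congr 1
  rw [← Complex.ofReal_cpow ht.le, ← Complex.ofReal_cpow ht.le, ← Complex.ofReal_cpow ht.le,
    ← Complex.ofReal_pow, ← Complex.ofReal_mul]
  congr 1
  rw [← Real.rpow_natCast, ← Real.rpow_mul ht.le, ← Real.rpow_add ht]
  congr 1
  push_cast
  field_simp
  ring

/-- **common exponents** -/
lemma common {r : ℕ} {f : Fin r → ℝ → ℝ} (hf : ∀ j, AlgFun (f j)) :
    ∃ (q p : ℕ) (Φ : Fin r → ℂ → ℂ), 1 ≤ q ∧ (∀ j, AnalyticAt ℂ (Φ j) 0) ∧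
      (∀ j, ∀ᶠ t : ℝ in atTop, (f j t : ℂ) = pv q p (Φ j) t) := by
  classical
  have h := fun j => alg_germ (hf j)
  choose q p Ψ hq hΨ hv using h
  obtain ⟨Q, hQ⟩ : ∃ Q : Fin r → ℕ, Q = fun j => ∏ i ∈ Finset.univ.erase j, q i := ⟨_, rfl⟩
  have hQ1 : ∀ j, 1 ≤ Q j := by
    intro j
    rw [hQ]
    exact Finset.prod_pos fun i _ => Nat.lt_of_lt_of_le Nat.zero_lt_one (hq i)
  have hqQ : ∀ j, q j * Q j = ∏ i, q i := by
    intro j
    rw [hQ]
    exact Finset.mul_prod_erase Finset.univ q (Finset.mem_univ j)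
  obtain ⟨P, hP⟩ : ∃ P : ℕ, P = ∑ j, p j * Q j := ⟨_, rfl⟩
  have hPj : ∀ j, p j * Q j ≤ P := by
    intro j
    rw [hP]
    exact Finset.single_le_sum (f := fun j => p j * Q j) (fun _ _ => Nat.zero_le _)
      (Finset.mem_univ j)
  have hq1 : 1 ≤ ∏ i, q i :=
    Finset.prod_pos fun i _ => Nat.lt_of_lt_of_le Nat.zero_lt_one (hq i)
  refine ⟨∏ i, q i, P, fun j s => s ^ (P - p j * Q j) * Ψ j (s ^ Q j), hq1, ?_, ?_⟩
  · intro j
    exact (analyticAt_id.pow _).mul (an_comp_pow (hΨ j) (hQ1 j))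
  · intro j
    filter_upwards [hv j, eventually_gt_atTop 0] with t ht ht0
    rw [ht, ← pv_root (hq j) (hQ1 j) (Ψ j) ht0, hqQ j]
    have := pv_shift (q := ∏ i, q i) (p := p j * Q j) (m := P - p j * Q j) hq1
      (fun s => Ψ j (s ^ Q j)) ht0
    rw [Nat.add_sub_cancel' (hPj j)] at this
    exact this.symm

/-- the expansion, with the Taylor coefficients -/
lemma germ_tc {q : ℕ} (hq : 1 ≤ q) (p K : ℕ) {Φ : ℂ → ℂ} (hΦ : AnalyticAt ℂ Φ 0) :
    ∃ (R C : ℝ) (E : ℂ → ℂ), 1 ≤ R ∧ 0 ≤ C ∧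
      Ex q p K R C (fun t => (pv q p Φ t).re) (fun k => (tc k Φ).re) E := by
  have hq0 : (0 : ℝ) < q := by exact_mod_cast hq
  obtain ⟨η, hη, C, hC, h1, h2⟩ := an_nhds (trem_an (K + 1) hΦ)
  refine ⟨max 1 (η⁻¹ ^ q), C, fun z => z ^ ((((p : ℝ) - K - 1) / q : ℝ) : ℂ) *
    trem (K + 1) Φ (z ^ ((-(1 / (q : ℝ)) : ℝ) : ℂ)), le_max_left _ _, hC.le, ?_, ?_, ?_⟩
  · refine (cpow_diff (by positivity) _).mul ?_
    refine h1.comp (cpow_diff (by positivity) _) ?_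
    intro z hz
    rw [Metric.mem_ball, dist_zero_right, Complex.norm_cpow_real]
    exact small_root hq hη (lt_of_le_of_lt (le_max_right _ _) (Hp_norm hz))
  · intro z hz
    rw [norm_mul, Complex.norm_cpow_real, mul_comm]
    refine mul_le_mul_of_nonneg_right (h2 _ ?_) (by positivity)
    rw [Metric.mem_ball, dist_zero_right, Complex.norm_cpow_real]
    exact small_root hq hη (lt_of_le_of_lt (le_max_right _ _) (Hp_norm hz))
  · intro t ht
    have ht0 : 0 < t := by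
      have := le_max_left 1 (η⁻¹ ^ q)
      linarith
    unfold pv
    simp only
    rw [taylor_tc (K + 1) Φ, mul_add, Finset.mul_sum, Complex.add_re, Complex.re_sum]
    have e0 : ∀ x y : ℝ, (t : ℂ) ^ (x : ℂ) * ((t : ℂ) ^ (y : ℂ)) = ((t ^ (x + y) : ℝ) : ℂ) := by
      intro x y
      rw [← Complex.ofReal_cpow ht0.le, ← Complex.ofReal_cpow ht0.le, ← Complex.ofReal_mul,
        ← Real.rpow_add ht0]
    have e1 : ∀ k : ℕ, ((t : ℂ) ^ ((-(1 / (q : ℝ)) : ℝ) : ℂ)) ^ k =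
        (t : ℂ) ^ ((-((k : ℝ) / q) : ℝ) : ℂ) := by
      intro k
      rw [← Complex.ofReal_cpow ht0.le, ← Complex.ofReal_cpow ht0.le, ← Complex.ofReal_pow,
        ← Real.rpow_natCast, ← Real.rpow_mul ht0.le]
      congr 2
      ring
    congr 1
    · refine Finset.sum_congr rfl fun k _ => ?_
      rw [e1, mul_left_comm, e0, Complex.re_mul_ofReal]
      congr 2
      ring
    · rw [e1, ← mul_assoc, e0]
      have e3 : (p : ℝ) / q + -(((K + 1 : ℕ) : ℝ) / q) = ((p : ℝ) - K - 1) / q := by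
        push_cast
        ring
      rw [e3, Complex.ofReal_cpow ht0.le]

/-- **common expansions of finitely many algebraic functions** -/
theorem alg_ex {r : ℕ} {f : Fin r → ℝ → ℝ} (hf : ∀ j, AlgFun (f j)) :
    ∃ (q p : ℕ) (Φ : Fin r → ℂ → ℂ), 1 ≤ q ∧ (∀ j, AnalyticAt ℂ (Φ j) 0) ∧
      (∀ j k, IsAlgebraic ℚ ((tc k (Φ j)).re)) ∧
      (∀ j, ∀ᶠ u : ℝ in 𝓝[>] 0, (Φ j u).im = 0) ∧
      (∀ j, ∀ᶠ t : ℝ in atTop, (f j t : ℂ) = pv q p (Φ j) t) ∧
      ∀ K : ℕ, ∃ (R C : ℝ) (E : Fin r → ℂ → ℂ), 1 ≤ R ∧ 0 ≤ C ∧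
        ∀ j, Ex q p K R C (f j) (fun k => (tc k (Φ j)).re) (E j) := by
  classical
  obtain ⟨q, p, Φ, hq, hΦ, hv⟩ := common hf
  refine ⟨q, p, Φ, hq, hΦ, fun j k => alg_re (rel_tc k (hΦ j) (alg_rel (hf j) hq (hΦ j) (hv j))),
    ?_, hv, ?_⟩
  · intro j
    have h1 := (pow_tendsto hq).eventually (hv j)
    filter_upwards [h1, self_mem_nhdsWithin] with u hu hu0
    have hu0' : (0 : ℝ) < u := hu0
    rw [← pv_small hq (Φ j) hu0' (p := p), ← hu, ← Complex.ofReal_pow, ← Complex.ofReal_mul,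
      Complex.ofReal_im]
  · intro K
    have h := fun j => germ_tc hq p K (hΦ j)
    choose R C E hR hC hE using h
    have hv' := fun j => eventually_atTop.1 (hv j)
    choose T hT using hv'
    obtain ⟨R', hR'⟩ : ∃ R' : ℝ, R' = 1 + ∑ j, (|R j| + |T j|) := ⟨_, rfl⟩
    have hRj : ∀ j, R j ≤ R' ∧ T j ≤ R' := by
      intro j
      have h1 : |R j| + |T j| ≤ ∑ j, (|R j| + |T j|) :=
        Finset.single_le_sum (f := fun j => |R j| + |T j|) (fun _ _ => by positivity)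
          (Finset.mem_univ j)
      have h2 := le_abs_self (R j)
      have h3 := le_abs_self (T j)
      have h4 := abs_nonneg (R j)
      have h5 := abs_nonneg (T j)
      constructor <;> linarith
    obtain ⟨C', hC'⟩ : ∃ C' : ℝ, C' = ∑ j, C j := ⟨_, rfl⟩
    have hCj : ∀ j, C j ≤ C' := by
      intro j
      rw [hC']
      exact Finset.single_le_sum (f := C) (fun i _ => hC i) (Finset.mem_univ j)
    refine ⟨R', C', E, ?_, ?_, ?_⟩
    · rw [hR']
      have : 0 ≤ ∑ j, (|R j| + |T j|) := Finset.sum_nonneg fun j _ => by positivity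
      linarith
    · rw [hC']
      exact Finset.sum_nonneg fun j _ => hC j
    · intro j
      have h1 := ex_mono (hRj j).1 (hCj j) (hE j)
      refine ⟨h1.1, h1.2.1, fun t ht => ?_⟩
      have h2 := hT j t ((hRj j).2.trans ht.le)
      have h3 := h1.2.2 t ht
      rw [← h3]
      have h4 := congrArg Complex.re h2
      rw [Complex.ofReal_re] at h4
      exact h4

end Pool.Agent.J6H93.Fam
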