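import Pool.Agent.N586.JT.Nt
import Pool.Agent.N586.JT.Bt
import Pool.Agent.N586.JT.Bw

/-!
# Joint normality of the members of a family from exponential sums
-/

set_option autoImplicit false

namespace Pool.Agent.J6H93.Fam

open Finset Real Filter MeasureTheory
open Pool.Agent.Y933.KD (e wd)
open Pool.Agent.Y951.TU (hat lin lin_apply unif unif_prob integral_unif real_unif)
open Pool.Agent.N586.RT (logpow log_ge)
open Pool.Agent.N586.JT (NwT nt_shift nt_pw bt bw)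

lemma loglog_le {a : ℝ} (ha : 0 < a) (K : ℝ) : ∀ᶠ N : ℕ in atTop,
    K * Real.log (Real.log N) ≤ (Real.log N) ^ a := by
  have hlog : Tendsto (fun N : ℕ => Real.log (N : ℝ)) atTop atTop :=
    Real.tendsto_log_atTop.comp tendsto_natCast_atTop_atTop
  have h1 := (isLittleO_log_rpow_atTop ha).bound (by positivity : (0 : ℝ) < 1 / (|K| + 1))
  filter_upwards [hlog.eventually h1, log_ge 1] with M h2 h3
  rw [Real.norm_eq_abs, Real.norm_eq_abs] at h2
  rw [abs_of_nonneg (Real.rpow_nonneg (by linarith) _)] at h2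
  have h4 : 0 ≤ Real.log (Real.log M) := Real.log_nonneg h3
  rw [abs_of_nonneg h4, one_div, inv_mul_eq_div, le_div_iff₀ (by positivity)] at h2
  have h5 : K ≤ |K| := le_abs_self K
  nlinarith

open Classical in
/-- one base -/
theorem nf_one (δ δ' β' A₀ : ℝ) (hδ : 0 < δ) (hδδ : δ < δ') (hβ' : 0 < β') (hβ1 : β' < 1)
    (hA : 0 ≤ A₀) (w r : ℕ) (hr : 1 ≤ r) (ε : ℝ) (hε : 0 < ε) (b : ℕ) (hb : 2 ≤ b) :
    ∃ c : ℝ, 0 < c ∧ ∃ N0 : ℕ, ∀ N : ℕ, N0 ≤ N → ∀ (ι : Type) (s : Finset ι) (y : ι → Fin r → ℝ),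
    s.Nonempty →
    (∀ h : Fin r → ℤ, h ≠ 0 → (∀ j, |(h j : ℝ)| ≤ Real.exp ((Real.log N) ^ β')) → ∀ θ : ℝ,
      (N : ℝ) ^ A₀ ≤ |θ| → |θ| ≤ Real.exp ((Real.log N) ^ (1 + δ')) →
      ‖∑ i ∈ s, e (θ * ∑ j, h j * y i j)‖ ≤ s.card * Real.exp (-(Real.log N) ^ β')) →
    ((s.filter (fun i => ¬ NwT b w ((Real.log N) ^ (1 + δ)) ε
      ((A₀ / Real.log 2 + ε) * Real.log N) (y i))).card : ℝ) ≤
        s.card * Real.exp (-(c * (Real.log N) ^ β')) := by
  have hl2 : 0 < Real.log 2 := Real.log_pos (by norm_num)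
  obtain ⟨c0, hc0, τ0, hτ0⟩ := bt bw b w r ε hb hr hε
  have hbR : (2 : ℝ) ≤ b := by exact_mod_cast hb
  obtain ⟨lB, hlB⟩ : ∃ lB : ℝ, lB = Real.log b := ⟨_, rfl⟩
  have hlB0 : 0 ≤ lB := by rw [hlB]; exact Real.log_nonneg (by linarith)
  obtain ⟨N1, hN1⟩ := eventually_atTop.1 ((((((logpow hβ' (τ0)).and
    (logpow (by linarith : β' < 1) (2 / ε))).and
    (logpow (by linarith : (1 + δ : ℝ) < 1 + δ') (lB + (A₀ / Real.log 2 + 1) * lB))).and
    (log_ge 1)).and (log_ge (2 / ε))).and ((loglog_le hβ' ((1 + δ) * (2 / c0))).and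
    (eventually_ge_atTop 2)))
  refine ⟨c0 / 2, by positivity, N1, ?_⟩
  intro N hN ι s y hs hsum
  obtain ⟨⟨⟨⟨⟨h1, h2⟩, h3⟩, h4⟩, h5⟩, hll, h6⟩ := hN1 N hN
  have hHR : (2 : ℝ) ≤ N := by exact_mod_cast h6
  have hHp : (0 : ℝ) < N := by linarith
  obtain ⟨L, hL⟩ : ∃ L : ℝ, L = Real.log N := ⟨_, rfl⟩
  rw [← hL] at h1 h2 h3 h4 h5 hll hsum ⊢
  rw [Real.rpow_zero, mul_one] at h1
  rw [Real.rpow_one] at h2
  have hL0 : 0 < L := by linarith
  obtain ⟨τ, hτ⟩ : ∃ τ : ℝ, τ = L ^ β' := ⟨_, rfl⟩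
  rw [← hτ] at h1 h2 hll hsum ⊢
  have hτ0' : 0 ≤ τ := by rw [hτ]; exact Real.rpow_nonneg hL0.le _
  obtain ⟨T, hT⟩ : ∃ T : ℝ, T = L ^ (1 + δ) := ⟨_, rfl⟩
  rw [← hT] at h3 ⊢
  have hT1 : 1 ≤ T := by rw [hT]; exact Real.one_le_rpow h4 (by positivity)
  have hTL : L ≤ T := by
    rw [hT]
    calc L = L ^ (1 : ℝ) := (Real.rpow_one L).symm
      _ ≤ _ := Real.rpow_le_rpow_of_exponent_le h4 (by linarith)
  obtain ⟨n0, hn0⟩ : ∃ n0 : ℕ, n0 = ⌈A₀ / Real.log 2 * L⌉₊ := ⟨_, rfl⟩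
  have hn0a : A₀ / Real.log 2 * L ≤ n0 := by rw [hn0]; exact Nat.le_ceil _
  have hn0b : (n0 : ℝ) ≤ A₀ / Real.log 2 * L + 1 := by
    rw [hn0]
    exact (Nat.ceil_lt_add_one (by positivity)).le
  have hcard0 : (0 : ℝ) < (s.card : ℝ) := by exact_mod_cast hs.card_pos
  obtain ⟨U, hU, hPU, hx⟩ := hτ0 τ h1 T hT1
    (unif s (fun i j => (b : ℝ) ^ n0 * y i j))
    (unif_prob hs _)
    (fun n h hn hh hh2 => by
      have hb0 : (1 : ℝ) ≤ (b : ℝ) ^ n := one_le_pow₀ (by linarith)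
      have hθ : |(b : ℝ) ^ n * (b : ℝ) ^ n0| = (b : ℝ) ^ n * (b : ℝ) ^ n0 :=
        abs_of_nonneg (by positivity)
      have hθ1 : (N : ℝ) ^ A₀ ≤ |(b : ℝ) ^ n * (b : ℝ) ^ n0| := by
        rw [hθ]
        have e1 : (N : ℝ) ^ A₀ = (2 : ℝ) ^ (A₀ / Real.log 2 * L) := by
          rw [Real.rpow_def_of_pos hHp, Real.rpow_def_of_pos (by norm_num), hL]
          congr 1
          field_simp
        have e2 : (2 : ℝ) ^ (A₀ / Real.log 2 * L) ≤ (b : ℝ) ^ n0 := by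
          calc (2 : ℝ) ^ (A₀ / Real.log 2 * L) ≤ (2 : ℝ) ^ ((n0 : ℕ) : ℝ) :=
                Real.rpow_le_rpow_of_exponent_le (by norm_num) hn0a
            _ = (2 : ℝ) ^ n0 := Real.rpow_natCast _ _
            _ ≤ _ := by gcongr
        rw [e1]
        refine e2.trans ?_
        have e4 : (0 : ℝ) ≤ (b : ℝ) ^ n0 := by positivity
        nlinarith
      have hθ2 : |(b : ℝ) ^ n * (b : ℝ) ^ n0| ≤ Real.exp (L ^ (1 + δ')) := by
        rw [hθ, nt_pw n hb, nt_pw n0 hb, ← hlB, ← Real.exp_add]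
        apply Real.exp_le_exp.2
        have g1 : (n : ℝ) * lB ≤ T * lB := by gcongr
        have g2 : (n0 : ℝ) * lB ≤ ((A₀ / Real.log 2 + 1) * T) * lB := by
          refine mul_le_mul_of_nonneg_right ?_ hlB0
          have g3 : A₀ / Real.log 2 * L ≤ A₀ / Real.log 2 * T := by gcongr
          linarith
        have g3 : (lB + (A₀ / Real.log 2 + 1) * lB) * T =
            T * lB + ((A₀ / Real.log 2 + 1) * T) * lB := by
          ring
        linarith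
      have h7 := hsum h hh hh2 _ hθ1 hθ2
      unfold hat
      rw [integral_unif]
      have e1 : ∑ i ∈ s, e (lin r (fun j => h j * (b : ℤ) ^ n)
          (fun j => (b : ℝ) ^ n0 * y i j)) =
          ∑ i ∈ s, e ((b : ℝ) ^ n * (b : ℝ) ^ n0 * ∑ j, h j * y i j) := by
        refine sum_congr rfl fun p _ => ?_
        congr 1
        rw [lin_apply, mul_sum]
        refine sum_congr rfl fun j _ => ?_
        push_cast
        ring
      rw [e1, norm_mul, norm_div, norm_one, Complex.norm_natCast, one_div,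
        inv_mul_le_iff₀ hcard0]
      exact h7)
  rw [real_unif _ _ hU, div_le_iff₀ hcard0, mul_comm _ (s.card : ℝ)] at hPU
  have hfin : T * Real.exp (-(c0 * τ)) ≤ Real.exp (-(c0 / 2 * τ)) := by
    have e2 : T = Real.exp ((1 + δ) * Real.log L) := by
      rw [hT, Real.rpow_def_of_pos hL0]
      congr 1
      ring
    rw [e2, ← Real.exp_add]
    apply Real.exp_le_exp.2
    have e3 : (1 + δ) * Real.log L ≤ c0 / 2 * τ := by
      calc (1 + δ) * Real.log L = c0 / 2 * ((1 + δ) * (2 / c0) * Real.log L) := by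
            field_simp
        _ ≤ _ := by gcongr
    linarith
  refine le_trans ?_ (hPU.trans (mul_le_mul_of_nonneg_left hfin hcard0.le))
  refine Nat.cast_le.2 (Finset.card_le_card fun p hp => ?_)
  rw [Finset.mem_filter] at hp ⊢
  refine ⟨hp.1, ?_⟩
  by_contra hpU
  apply hp.2
  have h10 := nt_shift (y := y p) (by omega) hn0b hε.le (hx _ hpU) hτ0'
  intro k s N D hk hkw hD hsN
  refine (h10 k s N D hk hkw hD hsN).trans ?_
  have h12 : τ ≤ ε / 2 * L := by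
    have e1 : ε / 2 * (2 / ε * τ) = τ := by field_simp
    have e2 := mul_le_mul_of_nonneg_left h2 (by positivity : 0 ≤ ε / 2)
    linarith
  have h13 : 1 ≤ ε / 2 * L := by
    rw [div_le_iff₀ hε] at h5
    linarith
  linarith

open Classical in
/-- **all bases** -/
theorem nf (δ δ' β' A₀ : ℝ) (hδ : 0 < δ) (hδδ : δ < δ') (hβ' : 0 < β') (hβ1 : β' < 1)
    (hA : 0 ≤ A₀) (w r : ℕ) (hr : 1 ≤ r) (ε : ℝ) (hε : 0 < ε) (B : ℕ) :
    ∃ c : ℝ, 0 < c ∧ ∃ N0 : ℕ, ∀ N : ℕ, N0 ≤ N → ∀ b : ℕ, 2 ≤ b → b ≤ B →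
    ∀ (ι : Type) (s : Finset ι) (y : ι → Fin r → ℝ), s.Nonempty →
    (∀ h : Fin r → ℤ, h ≠ 0 → (∀ j, |(h j : ℝ)| ≤ Real.exp ((Real.log N) ^ β')) → ∀ θ : ℝ,
      (N : ℝ) ^ A₀ ≤ |θ| → |θ| ≤ Real.exp ((Real.log N) ^ (1 + δ')) →
      ‖∑ i ∈ s, e (θ * ∑ j, h j * y i j)‖ ≤ s.card * Real.exp (-(Real.log N) ^ β')) →
    ((s.filter (fun i => ¬ NwT b w ((Real.log N) ^ (1 + δ)) ε
      ((A₀ / Real.log 2 + ε) * Real.log N) (y i))).card : ℝ) ≤
        s.card * Real.exp (-(c * (Real.log N) ^ β')) := by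
  induction B with
  | zero => exact ⟨1, one_pos, 0, fun H _ b hb hb0 => by omega⟩
  | succ B ih =>
    obtain ⟨c, hc, H0, hH0⟩ := ih
    rcases Nat.lt_or_ge (B + 1) 2 with hB | hB
    · exact ⟨1, one_pos, 0, fun H _ b hb hb0 => by omega⟩
    · obtain ⟨c', hc', H0', hH0'⟩ := nf_one δ δ' β' A₀ hδ hδδ hβ' hβ1 hA w r hr ε hε (B + 1) hB
      refine ⟨min c c', lt_min hc hc', max H0 H0', fun H hH b hb hbB ι s y hs hsum => ?_⟩
      have hlog : (0 : ℝ) ≤ Real.log H := Real.log_natCast_nonneg H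
      have hmono : ∀ c'' : ℝ, min c c' ≤ c'' →
          (s.card : ℝ) * Real.exp (-(c'' * (Real.log H) ^ β')) ≤
          s.card * Real.exp (-(min c c' * (Real.log H) ^ β')) := by
        intro c'' hc''
        have e1 : (0 : ℝ) ≤ (Real.log H) ^ β' := Real.rpow_nonneg hlog _
        refine mul_le_mul_of_nonneg_left ?_ (Nat.cast_nonneg _)
        apply Real.exp_le_exp.2
        have := mul_le_mul_of_nonneg_right hc'' e1
        linarith
      rcases Nat.lt_or_ge b (B + 1) with hlt | hge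
      · exact (hH0 H (le_of_max_le_left hH) b hb (by omega) ι s y hs hsum).trans
          (hmono c (min_le_left _ _))
      · obtain rfl : b = B + 1 := by omega
        exact (hH0' H (le_of_max_le_right hH) ι s y hs hsum).trans (hmono c' (min_le_right _ _))

end Pool.Agent.J6H93.Fam
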