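import Pool.Agent.J6H93.Fam.Gm6
import Pool.Agent.J6H93.Fam.Nf
import Pool.Agent.N586.RT.Fin

/-!
# Expansions in fractional powers: joint normality, uniformly in the family
-/

set_option autoImplicit false

namespace Pool.Agent.J6H93.Fam

open Finset Filter Polynomial
open Pool.Agent.N586.RT (ff logpow log_ge Fs mem_Fs card_Fs)
open Pool.Agent.Y933.KD (e norm_e)
open Pool.Agent.N586.JT (NwT)

/-- the parameters are at most `V`, the degrees at most `D`, and the rows are linearly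
independent -/
def SmlU (D : ℕ) (V : ℝ) {r s : ℕ} (H : Fin s → Fin r → ℤ) (g : Fin s → ℤ[X]) (m : Fin s → ℕ) :
    Prop :=
  (∀ i j, |(H i j : ℝ)| ≤ V) ∧ (∀ i, (g i).natDegree ≤ D) ∧ (∀ i l, |((g i).coeff l : ℝ)| ≤ V) ∧
    (∀ i, 1 ≤ m i) ∧ (∀ i, (m i : ℝ) ≤ V) ∧
    ∀ c : Fin s → ℤ, c ≠ 0 → (fun j => ∑ i, c i * H i j) ≠ 0

/-- clearing denominators -/
lemma clear_den {s : ℕ} {V : ℝ} {m : Fin s → ℕ} (hm1 : ∀ j, 1 ≤ m j) (hm2 : ∀ j, (m j : ℝ) ≤ V)
    (h : Fin s → ℤ) (hh : h ≠ 0) : ∃ (M : ℝ) (c : Fin s → ℤ), 1 ≤ M ∧ M ≤ V ^ s ∧ c ≠ 0 ∧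
      (∀ i, (c i : ℝ) = h i / m i * M) ∧ ∀ i, |(c i : ℝ)| ≤ |(h i : ℝ)| * V ^ s := by
  classical
  have hm0 : ∀ j, (0 : ℝ) < m j := fun j => by exact_mod_cast (hm1 j)
  have hm1' : ∀ j, (1 : ℝ) ≤ m j := fun j => by exact_mod_cast (hm1 j)
  obtain ⟨M, hM⟩ : ∃ M : ℝ, M = ∏ j, (m j : ℝ) := ⟨_, rfl⟩
  have hM0 : 1 ≤ M := by
    rw [hM]
    exact_mod_cast (Finset.prod_pos fun j _ => hm1 j : 0 < ∏ j, m j)
  have hMV : M ≤ V ^ s := by
    rw [hM]
    calc ∏ j, (m j : ℝ) ≤ ∏ _j : Fin s, V := prod_le_prod (fun j _ => (hm0 j).le) fun j _ => hm2 j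
      _ = V ^ s := by rw [prod_const, card_univ, Fintype.card_fin]
  obtain ⟨c, hcd⟩ : ∃ c : Fin s → ℤ, c = fun j => h j * ∏ i ∈ univ.erase j, (m i : ℤ) := ⟨_, rfl⟩
  have hcj : ∀ j, (c j : ℝ) = h j / m j * M := by
    intro j
    have e1 : M = m j * ∏ i ∈ univ.erase j, (m i : ℝ) := by
      rw [hM, mul_prod_erase univ (fun i => (m i : ℝ)) (mem_univ j)]
    have e2 := (hm0 j).ne'
    rw [hcd, e1]
    push_cast
    field_simp
  refine ⟨M, c, hM0, hMV, ?_, hcj, ?_⟩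
  · obtain ⟨j, hj⟩ := Function.ne_iff.1 hh
    intro h0
    have e1 := hcj j
    rw [h0] at e1
    simp only [Pi.zero_apply, Int.cast_zero] at e1
    have e2 : (h j : ℝ) / m j * M ≠ 0 := by
      refine mul_ne_zero (div_ne_zero ?_ (hm0 j).ne') (by linarith)
      exact_mod_cast hj
    exact e2 e1.symm
  · intro i
    rw [hcj i, abs_mul, abs_div, abs_of_pos (hm0 i), abs_of_pos (by linarith : (0 : ℝ) < M)]
    have h1 : |(h i : ℝ)| / m i ≤ |(h i : ℝ)| := div_le_self (abs_nonneg _) (hm1' i)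
    exact mul_le_mul h1 hMV (by linarith) (abs_nonneg _)

lemma comb_y {r s D : ℕ} {V : ℝ} {H : Fin s → Fin r → ℤ} {g : Fin s → ℤ[X]} {m : Fin s → ℕ}
    (hs : SmlU D V H g m) (y : Fin r → ℝ) {M : ℝ} {h c : Fin s → ℤ} (hM : 1 ≤ M)
    (hc : ∀ i, (c i : ℝ) = h i / m i * M) (t : ℝ) :
    ∑ i, (h i : ℝ) * ((∑ j, (H i j : ℝ) * y j + aeval t (g i)) / m i) =
      1 / M * ((∑ i, Polynomial.C (c i : ℝ) * (g i).map (Int.castRingHom ℝ)).eval t +
        ∑ j, (((∑ i, c i * H i j : ℤ)) : ℝ) * y j) := by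
  have hM0 : M ≠ 0 := by linarith
  have hm0 : ∀ i, (m i : ℝ) ≠ 0 := fun i => by
    have := hs.2.2.2.1 i
    positivity
  rw [one_div, eq_inv_mul_iff_mul_eq₀ hM0, Finset.mul_sum, eval_finsetSum]
  have e1 : ∑ j, (((∑ i, c i * H i j : ℤ)) : ℝ) * y j = ∑ i, (c i : ℝ) * ∑ j, (H i j : ℝ) * y j := by
    push_cast
    simp only [Finset.sum_mul, Finset.mul_sum]
    rw [Finset.sum_comm]
    refine Finset.sum_congr rfl fun i _ => Finset.sum_congr rfl fun j _ => ?_
    ring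
  rw [e1, ← Finset.sum_add_distrib]
  refine Finset.sum_congr rfl fun i _ => ?_
  rw [hc i, eval_mul, eval_C, eval_map]
  have e2 : aeval t (g i) = eval₂ (Int.castRingHom ℝ) t (g i) := rfl
  rw [e2]
  have := hm0 i
  field_simp
  ring

open Classical in
/-- **joint normality, uniformly in the family** -/
theorem U2 {r : ℕ} (q p K : ℕ) (hq : 1 ≤ q) (R C : ℝ) (hR : 1 ≤ R) (hC : 0 ≤ C)
    (y : Fin r → ℝ → ℝ) (φ : Fin r → ℕ → ℝ) (E : Fin r → ℂ → ℂ)
    (hex : ∀ j, Ex q p K R C (y j) (φ j) (E j)) (A₀ C₁ : ℝ) (hA₀ : 0 ≤ A₀) (hC₁ : 0 < C₁)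
    (hLB : LB q p K φ A₀ C₁) (D s : ℕ) (hs : 1 ≤ s) (δ β : ℝ) (hδ : 0 < δ) (hβ : 0 < β)
    (hδβ : 2 * δ + β < 1) (B w : ℕ) (ε : ℝ) (hε : 0 < ε) :
    ∃ n₀ : ℕ, ∀ n : ℕ, n₀ ≤ n →
      (((Finset.Ioc 0 n).filter (fun t : ℕ => ¬ ∀ (b : ℕ) (H : Fin s → Fin r → ℤ)
        (g : Fin s → ℤ[X]) (m : Fin s → ℕ), 2 ≤ b → b ≤ B →
        SmlU D (Real.exp ((Real.log n) ^ β)) H g m →
        NwT b w ((Real.log n) ^ (1 + δ)) ε ((A₀ / Real.log 2 + ε) * Real.log n)
          (fun i => (∑ j, (H i j : ℝ) * y j t + aeval (t : ℝ) (g i)) / m i))).card : ℝ) ≤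
        n * Real.exp (-(Real.log n) ^ β) := by
  obtain ⟨γ, hγ⟩ : ∃ γ : ℝ, γ = (1 - 2 * δ - β) / 8 := ⟨_, rfl⟩
  have hγ0 : 0 < γ := by rw [hγ]; linarith
  obtain ⟨β', hβ'⟩ : ∃ β' : ℝ, β' = β + γ := ⟨_, rfl⟩
  obtain ⟨β2, hβ2⟩ : ∃ β2 : ℝ, β2 = β + 2 * γ := ⟨_, rfl⟩
  have hββ : β < β' := by linarith
  have hββ2 : β' < β2 := by linarith
  have hβ2δ : 2 * (δ + γ) + β2 < 1 := by rw [hβ2, hγ]; linarith
  obtain ⟨c0, hc0, M1, hM1⟩ := nf δ (δ + γ) β' A₀ hδ (by linarith) (by linarith)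
    (by linarith) hA₀ w s hs ε hε B
  obtain ⟨M4, hM4⟩ := U1 q p K hq R C hR hC y φ E hex A₀ C₁ hA₀ hC₁ hLB D (δ + γ) β2 (by linarith)
    (by linarith) hβ2δ
  have hsR : (1 : ℝ) ≤ s := by exact_mod_cast hs
  obtain ⟨K0, hK0⟩ : ∃ K0 : ℝ, K0 = Real.log (B + 1) := ⟨_, rfl⟩
  have hB0 : (0 : ℝ) ≤ B := Nat.cast_nonneg _
  have hK0b : 0 ≤ K0 := by rw [hK0]; exact Real.log_nonneg (by linarith)
  obtain ⟨Q, hQ⟩ : ∃ Q : ℕ, Q = 2 * r * s + (2 * D + 3) * s := ⟨_, rfl⟩
  obtain ⟨M2, hM2⟩ := eventually_atTop.1 ((logpow hββ ((K0 + Q + 3) / c0)).and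
    ((log_ge 1).and ((eventually_ge_atTop 2).and
    ((logpow hβ 2).and ((logpow hββ2 (2 * s + 3)).and ((logpow (by linarith : β < β2) (s + 4)).and
    ((logpow (by linarith : β2 < 1) 2).and (logpow (by linarith : 0 < β2) 3))))))))
  refine ⟨max (max M1 M2) M4, fun n hn => ?_⟩
  obtain ⟨hb, hL1, hn2, hv, hu, hu2, hu3, hu4⟩ := hM2 n (le_of_max_le_right (le_of_max_le_left hn))
  have hNF := hM1 n (le_of_max_le_left (le_of_max_le_left hn))
  have hES := hM4 n (le_of_max_le_right hn)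
  have hnR : (2 : ℝ) ≤ n := by exact_mod_cast hn2
  have hn0 : (0 : ℝ) < n := by linarith
  obtain ⟨L, hL⟩ : ∃ L : ℝ, L = Real.log n := ⟨_, rfl⟩
  rw [← hL] at hb hL1 hv hu hu2 hu3 hu4 hNF hES ⊢
  rw [Real.rpow_zero, mul_one] at hv hu4
  rw [Real.rpow_one] at hu3
  have hL0 : 0 < L := by linarith
  have hnL : (n : ℝ) = Real.exp L := by rw [hL, Real.exp_log hn0]
  obtain ⟨V, hV⟩ : ∃ V : ℝ, V = Real.exp (L ^ β) := ⟨_, rfl⟩
  have hLL : L ^ β ≤ L ^ β' := Real.rpow_le_rpow_of_exponent_le hL1 hββ.le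
  rw [← hV]
  have hV1 : 1 ≤ V := by
    rw [hV]
    exact Real.one_le_exp (by positivity)
  have hV0 : 0 < V := by linarith
  have h3V : 3 * V ≤ V ^ 2 := by
    have h1 : (3 : ℝ) ≤ V := by
      rw [hV]
      have := Real.add_one_le_exp (L ^ β)
      linarith
    nlinarith
  obtain ⟨τ, hτ⟩ : ∃ τ : ℝ, τ = L ^ β' := ⟨_, rfl⟩
  rw [← hτ] at hNF hb hu hLL
  have hτ1 : 1 ≤ τ := by rw [hτ]; exact Real.one_le_rpow hL1 (by linarith)
  have hLβ1 : (1 : ℝ) ≤ L ^ β := Real.one_le_rpow hL1 hβ.le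
  obtain ⟨W, hW⟩ : ∃ W : ℝ, W = L ^ β2 := ⟨_, rfl⟩
  rw [← hW] at hu hu2 hu3 hu4 hES
  -- the interval
  obtain ⟨A, hA⟩ : ∃ A : ℕ, A = ⌈(n : ℝ) * Real.exp (-W)⌉₊ := ⟨_, rfl⟩
  have hA1 : (n : ℝ) * Real.exp (-W) ≤ A := by rw [hA]; exact Nat.le_ceil _
  have hA2 : (A : ℝ) ≤ n * Real.exp (-W) + 1 := by
    rw [hA]
    exact (Nat.ceil_lt_add_one (by positivity)).le
  have hnW : 1 ≤ n * Real.exp (-W) := by
    rw [hnL, ← Real.exp_add]
    apply Real.one_le_exp
    linarith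
  have hA3 : (A : ℝ) ≤ n * (2 * Real.exp (-W)) := by linarith
  have hW4 : 4 * Real.exp (-W) ≤ 1 := by
    rw [Real.exp_neg, ← div_eq_mul_inv, div_le_one (Real.exp_pos _)]
    have := Real.add_one_le_exp W
    linarith
  have hA4 : (A : ℝ) ≤ n / 2 := by
    refine hA3.trans ?_
    have : (n : ℝ) * (4 * Real.exp (-W)) ≤ n * 1 := by gcongr
    linarith
  have hAn : A ≤ n := by
    have : (A : ℝ) ≤ n := by linarith
    exact_mod_cast this
  obtain ⟨I, hI⟩ : ∃ I : Finset ℕ, I = Finset.Ioc A n := ⟨_, rfl⟩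
  have hIcard : ((I.card : ℕ) : ℝ) = n - A := by
    rw [hI, Nat.card_Ioc, Nat.cast_sub hAn]
  have hI2 : (n : ℝ) / 2 ≤ I.card := by rw [hIcard]; linarith
  have hI3 : ((I.card : ℕ) : ℝ) ≤ n := by
    rw [hIcard]
    have : (0 : ℝ) ≤ A := Nat.cast_nonneg _
    linarith
  have hIne : I.Nonempty := by
    rw [← Finset.card_pos]
    have : (0 : ℝ) < (I.card : ℝ) := by linarith
    exact_mod_cast this
  obtain ⟨RR, hRR⟩ : ∃ RR : ℝ, RR = n * Real.exp (-(c0 * τ)) := ⟨_, rfl⟩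
  have hR0 : 0 ≤ RR := by rw [hRR]; positivity
  obtain ⟨S, hS⟩ : ∃ S : Finset ((((Fin s → Fin r → ℤ) × (Fin s → ℤ[X])) × (Fin s → ℕ)) × ℕ), S =
    (((Fintype.piFinset fun _ => Fintype.piFinset fun _ => Finset.Icc (-⌊V⌋) ⌊V⌋) ×ˢ
      (Fintype.piFinset fun _ => Fs D ⌊V⌋)) ×ˢ
      (Fintype.piFinset fun _ => Finset.Icc 1 ⌊V⌋₊)) ×ˢ Finset.range (B + 1) := ⟨_, rfl⟩
  obtain ⟨bad, hbad⟩ : ∃ bad : (((Fin s → Fin r → ℤ) × (Fin s → ℤ[X])) × (Fin s → ℕ)) × ℕ →
    Finset ℕ, bad = fun z => I.filter (fun t : ℕ =>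
      SmlU D V z.1.1.1 z.1.1.2 z.1.2 ∧ 2 ≤ z.2 ∧ z.2 ≤ B ∧
      ¬ NwT z.2 w (L ^ (1 + δ)) ε ((A₀ / Real.log 2 + ε) * L)
        (fun i => (∑ j, (z.1.1.1 i j : ℝ) * y j t + aeval (t : ℝ) (z.1.1.2 i)) / z.1.2 i)) :=
    ⟨_, rfl⟩
  have hsub : (Finset.Ioc 0 n).filter (fun t : ℕ => ¬ ∀ (b : ℕ) (H : Fin s → Fin r → ℤ)
        (g : Fin s → ℤ[X]) (m : Fin s → ℕ), 2 ≤ b → b ≤ B → SmlU D V H g m →
        NwT b w (L ^ (1 + δ)) ε ((A₀ / Real.log 2 + ε) * L)
          (fun i => (∑ j, (H i j : ℝ) * y j t + aeval (t : ℝ) (g i)) / m i)) ⊆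
        Finset.Ioc 0 A ∪ S.biUnion bad := by
    intro t ht
    rw [Finset.mem_filter] at ht
    obtain ⟨ht1, ht2⟩ := ht
    rw [Finset.mem_union]
    rcases Nat.lt_or_ge A t with hAt | hAt
    · right
      simp only [not_forall] at ht2
      obtain ⟨b, H, g, m, hb2, hbB, hsml, hno⟩ := ht2
      rw [Finset.mem_biUnion]
      refine ⟨(((H, g), m), b), ?_, ?_⟩
      · rw [hS, Finset.mem_product, Finset.mem_product, Finset.mem_product]
        refine ⟨⟨⟨?_, ?_⟩, ?_⟩, ?_⟩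
        · rw [Fintype.mem_piFinset]
          intro i
          rw [Fintype.mem_piFinset]
          intro j
          rw [Finset.mem_Icc]
          have h1 := abs_le.1 (hsml.1 i j)
          constructor
          · have : -(H i j) ≤ ⌊V⌋ := by
              rw [Int.le_floor]
              push_cast
              linarith
            simp only
            omega
          · exact Int.le_floor.2 h1.2
        · rw [Fintype.mem_piFinset]
          intro i
          refine mem_Fs (hsml.2.1 i) fun l => Int.le_floor.2 ?_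
          push_cast
          exact hsml.2.2.1 i l
        · rw [Fintype.mem_piFinset]
          intro i
          rw [Finset.mem_Icc]
          exact ⟨hsml.2.2.2.1 i, Nat.le_floor (hsml.2.2.2.2.1 i)⟩
        · rw [Finset.mem_range]
          simp only
          omega
      · rw [hbad]
        simp only [Finset.mem_filter]
        refine ⟨?_, hsml, hb2, hbB, hno⟩
        rw [hI, Finset.mem_Ioc]
        exact ⟨hAt, (Finset.mem_Ioc.1 ht1).2⟩
    · left
      rw [Finset.mem_Ioc]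
      exact ⟨(Finset.mem_Ioc.1 ht1).1, hAt⟩
  have hone : ∀ z ∈ S, ((bad z).card : ℝ) ≤ RR := by
    intro z _
    by_cases hz : SmlU D V z.1.1.1 z.1.1.2 z.1.2 ∧ 2 ≤ z.2 ∧ z.2 ≤ B
    · obtain ⟨hz1, hz6, hz7⟩ := hz
      have key := hNF z.2 hz6 hz7 ℕ I
        (fun t i => (∑ j, (z.1.1.1 i j : ℝ) * y j t + aeval (t : ℝ) (z.1.1.2 i)) / z.1.2 i) hIne
        (by
          intro h hh hhW θ hθ1 hθ2
          obtain ⟨M, c, hM1, hMV, hcne, hc, hcabs⟩ := clear_den hz1.2.2.2.1 hz1.2.2.2.2.1 h hh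
          have hM0 : 0 < M := by linarith
          have hVs : V ^ s = Real.exp (s * L ^ β) := by rw [hV, ← Real.exp_nat_mul]
          have hup : (s : ℝ) * ((Real.exp τ * V ^ s) * V) ≤ Real.exp W := by
            have e1 : (s : ℝ) ≤ Real.exp s := by
              have := Real.add_one_le_exp (s : ℝ)
              linarith
            calc (s : ℝ) * ((Real.exp τ * V ^ s) * V) ≤ Real.exp s * ((Real.exp τ * V ^ s) * V) := by
                  gcongr
              _ = Real.exp (s + (τ + s * L ^ β + L ^ β)) := by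
                rw [hVs, hV, Real.exp_add, Real.exp_add, Real.exp_add]
              _ ≤ _ := by
                apply Real.exp_le_exp.2
                have e2 : (s : ℝ) ≤ s * τ := le_mul_of_one_le_right (by linarith) hτ1
                have e3 : (s : ℝ) * L ^ β ≤ s * τ := by gcongr
                linarith
          have h7 := hES A hA1 hAn (fun j => ∑ i, c i * z.1.1.1 i j) (hz1.2.2.2.2.2 c hcne)
            (by
              intro j
              refine le_trans ?_ hup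
              push_cast
              refine (Finset.abs_sum_le_sum_abs _ _).trans ?_
              calc ∑ i, |(c i : ℝ) * (z.1.1.1 i j : ℝ)| ≤ ∑ _i : Fin s, (Real.exp τ * V ^ s) * V := by
                    refine Finset.sum_le_sum fun i _ => ?_
                    rw [abs_mul]
                    refine mul_le_mul ((hcabs i).trans ?_) (hz1.1 i j) (abs_nonneg _) (by positivity)
                    have := hhW i
                    gcongr
                _ = _ := by rw [sum_const, card_univ, Fintype.card_fin, nsmul_eq_mul])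
            (θ / M)
            (by
              rw [abs_div, abs_of_pos hM0, le_div_iff₀ hM0]
              refine le_trans ?_ hθ1
              have e1 : Real.exp (-W) * M ≤ 1 := by
                calc Real.exp (-W) * M ≤ Real.exp (-W) * Real.exp (s * L ^ β) := by
                      rw [← hVs]
                      gcongr
                  _ = Real.exp (-W + s * L ^ β) := by rw [Real.exp_add]
                  _ ≤ 1 := by
                      rw [Real.exp_le_one_iff]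
                      linarith
              calc (n : ℝ) ^ A₀ * Real.exp (-W) * M = (n : ℝ) ^ A₀ * (Real.exp (-W) * M) := by ring
                _ ≤ (n : ℝ) ^ A₀ * 1 := by gcongr
                _ = _ := mul_one _)
            (by
              rw [abs_div, abs_of_pos hM0]
              exact (div_le_self (abs_nonneg _) hM1).trans hθ2)
            (∑ i, Polynomial.C (c i : ℝ) * (z.1.1.2 i).map (Int.castRingHom ℝ))
            (by
              refine natDegree_sum_le_of_forall_le _ _ fun i _ => ?_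
              refine (natDegree_C_mul_le _ _).trans ?_
              exact natDegree_map_le.trans (hz1.2.1 i))
          rw [← hI] at h7
          have h8 : ∀ t : ℕ, θ * ∑ i, (h i : ℝ) * ((∑ j, (z.1.1.1 i j : ℝ) * y j t +
              aeval (t : ℝ) (z.1.1.2 i)) / z.1.2 i) = θ / M * ((∑ i, Polynomial.C (c i : ℝ) *
              (z.1.1.2 i).map (Int.castRingHom ℝ)).eval (t : ℝ) +
              ∑ j, (((∑ i, c i * z.1.1.1 i j : ℤ)) : ℝ) * y j t) := by
            intro t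
            rw [comb_y hz1 (fun j => y j t) hM1 hc]
            ring
          simp only [h8]
          refine h7.trans ?_
          calc (n : ℝ) * Real.exp (-W) ≤ (n : ℝ) / 2 * Real.exp (-τ) := by
                have e1 : 2 * Real.exp (-W) ≤ Real.exp (-τ) := by
                  have e2 : (2 : ℝ) ≤ Real.exp 1 := by
                    have := Real.add_one_le_exp (1 : ℝ)
                    linarith
                  calc 2 * Real.exp (-W) ≤ Real.exp 1 * Real.exp (-W) := by gcongr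
                    _ = Real.exp (1 + -W) := by rw [Real.exp_add]
                    _ ≤ _ := by
                        apply Real.exp_le_exp.2
                        have h0 : 0 ≤ (s : ℝ) * τ := by positivity
                        linarith
                have := mul_le_mul_of_nonneg_left e1 hn0.le
                linarith
            _ ≤ _ := by gcongr)
      refine le_trans (Nat.cast_le.2 (Finset.card_le_card fun t ht => ?_)) (key.trans ?_)
      · rw [hbad] at ht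
        simp only [Finset.mem_filter] at ht
        rw [Finset.mem_filter]
        exact ⟨ht.1, ht.2.2.2.2⟩
      · rw [hRR]
        gcongr
    · have h1 : bad z = ∅ := by
        rw [hbad]
        simp only
        rw [Finset.filter_eq_empty_iff]
        rintro t _ ⟨h2, h3, h4, _⟩
        exact hz ⟨h2, h3, h4⟩
      rw [h1, Finset.card_empty, Nat.cast_zero]
      exact hR0
  have hScard : ((S.card : ℕ) : ℝ) ≤ (B + 1) * V ^ Q := by
    rw [hS, Finset.card_product, Finset.card_product, Finset.card_product,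
      Fintype.card_piFinset_const, Fintype.card_piFinset_const, Fintype.card_piFinset_const,
      Fintype.card_piFinset_const, Nat.card_Icc,
      Nat.add_sub_cancel, Finset.card_range, Int.card_Icc]
    push_cast
    have h1 := card_Fs D (Int.floor_nonneg.2 (by linarith : (0 : ℝ) ≤ V))
    have h2 := Nat.floor_le (by linarith : (0 : ℝ) ≤ V)
    have h3 := Int.floor_le V
    have h00 : 0 ≤ ⌊V⌋ := Int.floor_nonneg.2 (by linarith : (0 : ℝ) ≤ V)
    have h0 : (0 : ℝ) ≤ (⌊V⌋ : ℝ) := by exact_mod_cast h00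
    have h5 : 2 * (⌊V⌋ : ℝ) + 1 ≤ V ^ 2 := by linarith
    have h4 : ((Fs D ⌊V⌋).card : ℝ) ≤ (V ^ 2) ^ (D + 1) := by
      refine h1.trans ?_
      gcongr
    have h6 : (((⌊V⌋ + 1 - -⌊V⌋).toNat : ℕ) : ℝ) ≤ V ^ 2 := by
      have e1 : (((⌊V⌋ + 1 - -⌊V⌋).toNat : ℕ) : ℤ) = ⌊V⌋ + 1 - -⌊V⌋ := Int.toNat_of_nonneg (by omega)
      have e2 : (((⌊V⌋ + 1 - -⌊V⌋).toNat : ℕ) : ℝ) = ((⌊V⌋ + 1 - -⌊V⌋ : ℤ) : ℝ) := by
        rw [← e1]
        norm_cast
      rw [e2]
      push_cast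
      linarith
    have p1 : (0 : ℝ) ≤ (((⌊V⌋ + 1 - -⌊V⌋).toNat : ℕ) : ℝ) := Nat.cast_nonneg _
    have p2 : (0 : ℝ) ≤ ((Fs D ⌊V⌋).card : ℝ) := Nat.cast_nonneg _
    have p3 : (0 : ℝ) ≤ (⌊V⌋₊ : ℝ) := Nat.cast_nonneg _
    generalize (((⌊V⌋ + 1 - -⌊V⌋).toNat : ℕ) : ℝ) = X at h6 p1 ⊢
    generalize ((Fs D ⌊V⌋).card : ℝ) = Y at h4 p2 ⊢
    generalize (⌊V⌋₊ : ℝ) = Z at h2 p3 ⊢
    calc (X ^ r) ^ s * Y ^ s * Z ^ s * (B + 1)
        ≤ ((V ^ 2) ^ r) ^ s * ((V ^ 2) ^ (D + 1)) ^ s * V ^ s * (B + 1) := by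
          gcongr
      _ = _ := by
        rw [hQ]
        ring
  have hfin : 2 * ((B + 1) * V ^ Q * Real.exp (-(c0 * τ))) ≤ Real.exp (-L ^ β) := by
    have e1 : V ^ Q = Real.exp (Q * L ^ β) := by
      rw [hV, ← Real.exp_nat_mul]
    have e3 : ((B : ℝ) + 1) = Real.exp K0 := by
      rw [hK0, Real.exp_log (by linarith)]
    have e2 : (2 : ℝ) ≤ Real.exp 1 := by
      have := Real.add_one_le_exp (1 : ℝ)
      linarith
    have e0 : 0 ≤ (B + 1) * V ^ Q * Real.exp (-(c0 * τ)) := by positivity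
    refine (mul_le_mul_of_nonneg_right e2 e0).trans ?_
    rw [e1, e3, ← Real.exp_add, ← Real.exp_add, ← Real.exp_add]
    apply Real.exp_le_exp.2
    have h2 : (K0 + Q + 3) * L ^ β ≤ c0 * τ := by
      have h3 : (K0 + Q + 3) * L ^ β =
          c0 * ((K0 + Q + 3) / c0 * L ^ β) := by
        field_simp
      rw [h3]
      exact mul_le_mul_of_nonneg_left hb hc0.le
    have h5 : K0 ≤ K0 * L ^ β := le_mul_of_one_le_right hK0b hLβ1
    linarith
  have hA5 : 2 * (A : ℝ) ≤ n * Real.exp (-L ^ β) := by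
    have e1 : 4 * Real.exp (-W) ≤ Real.exp (-L ^ β) := by
      have e2 : (4 : ℝ) ≤ Real.exp 3 := by
        have := Real.add_one_le_exp (3 : ℝ)
        linarith
      calc 4 * Real.exp (-W) ≤ Real.exp 3 * Real.exp (-W) := by gcongr
        _ = Real.exp (3 + -W) := by rw [Real.exp_add]
        _ ≤ _ := by
            apply Real.exp_le_exp.2
            have : 0 ≤ (s : ℝ) * L ^ β := by positivity
            linarith
    have := mul_le_mul_of_nonneg_left e1 hn0.le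
    linarith
  have hfin2 : 2 * ((B + 1) * V ^ Q * RR) ≤ n * Real.exp (-L ^ β) := by
    have := mul_le_mul_of_nonneg_left hfin hn0.le
    rw [hRR]
    linarith
  calc _ ≤ (((Finset.Ioc 0 A ∪ S.biUnion bad).card : ℕ) : ℝ) := by
        exact_mod_cast Finset.card_le_card hsub
    _ ≤ (((Finset.Ioc 0 A).card : ℕ) : ℝ) + ((S.biUnion bad).card : ℝ) := by
        exact_mod_cast Finset.card_union_le _ _
    _ ≤ (A : ℝ) + ∑ z ∈ S, ((bad z).card : ℝ) := by
        refine add_le_add ?_ (by exact_mod_cast Finset.card_biUnion_le)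
        rw [Nat.card_Ioc, Nat.sub_zero]
    _ ≤ (A : ℝ) + ∑ _z ∈ S, RR := by
        have := sum_le_sum hone
        linarith
    _ = (A : ℝ) + (S.card : ℝ) * RR := by rw [sum_const, nsmul_eq_mul]
    _ ≤ (A : ℝ) + ((B + 1) * V ^ Q) * RR := by gcongr
    _ ≤ _ := by linarith

end Pool.Agent.J6H93.Fam
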