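import Mathlib

/-!
# Lower bounds for integral linear forms in algebraic numbers (Liouville)
-/

set_option autoImplicit false

namespace Pool.Agent.J6H93.Fam

open Finset

/-- finitely many algebraic numbers have integral multiples in a finitely generated subring -/
lemma exists_ord {n : ℕ} (ξ : Fin n → ℝ) (hξ : ∀ k, IsAlgebraic ℚ (ξ k)) :
    ∃ (A : Subalgebra ℤ ℝ) (d : ℤ), d ≠ 0 ∧ Module.Finite ℤ A ∧ ∀ k, (d : ℝ) * ξ k ∈ A := by
  classical
  have h1 : ∀ k, ∃ d : ℤ, d ≠ 0 ∧ IsIntegral ℤ ((d : ℝ) * ξ k) := by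
    intro k
    obtain ⟨d, hd, hint⟩ :=
      IsAlgebraic.exists_integral_multiple ((IsFractionRing.isAlgebraic_iff ℤ ℚ ℝ).2 (hξ k))
    rw [zsmul_eq_mul] at hint
    exact ⟨d, hd, hint⟩
  choose d hd hint using h1
  have h2 : ∀ k, IsIntegral ℤ (((∏ j, d j : ℤ) : ℝ) * ξ k) := by
    intro k
    rw [← Finset.mul_prod_erase Finset.univ d (Finset.mem_univ k)]
    have h3 : (((d k * ∏ j ∈ Finset.univ.erase k, d j : ℤ)) : ℝ) * ξ k =
        ((∏ j ∈ Finset.univ.erase k, d j : ℤ) : ℝ) * ((d k : ℝ) * ξ k) := by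
      push_cast; ring
    rw [h3]
    refine IsIntegral.mul ?_ (hint k)
    exact isIntegral_algebraMap (R := ℤ) (A := ℝ) (x := ∏ j ∈ Finset.univ.erase k, d j)
  refine ⟨Algebra.adjoin ℤ (Set.range fun k => ((∏ j, d j : ℤ) : ℝ) * ξ k), ∏ j, d j,
    Finset.prod_ne_zero_iff.2 fun j _ => hd j, ?_, ?_⟩
  · refine Module.Finite.iff_fg.2 (fg_adjoin_of_finite (Set.finite_range _) ?_)
    rintro _ ⟨k, rfl⟩
    exact h2 k
  · intro k
    exact Algebra.subset_adjoin ⟨k, rfl⟩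

/-- **Liouville's inequality for linear forms** -/
theorem liou {r : ℕ} (α : Fin r → ℝ) (halg : ∀ j, IsAlgebraic ℚ (α j)) :
    ∃ C : ℝ, 0 < C ∧ ∀ (h : Fin r → ℤ) (W : ℝ), (∀ j, |(h j : ℝ)| ≤ W) →
      ∑ j, (h j : ℝ) * α j ≠ 0 → (C * W ^ C)⁻¹ ≤ |∑ j, (h j : ℝ) * α j| := by
  classical
  obtain ⟨A, d, hd, hfin, hmem⟩ := exists_ord α halg
  let b := Module.Free.chooseBasis ℤ A
  obtain ⟨β, hβ⟩ : ∃ β : Fin r → A, β = fun j => ⟨(d : ℝ) * α j, hmem j⟩ := ⟨_, rfl⟩
  obtain ⟨S, hS⟩ : ∃ S : ℝ, S = ∑ j, ∑ i, ∑ k, |((Algebra.leftMulMatrix b (β j) i k : ℤ) : ℝ)| :=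
    ⟨_, rfl⟩
  have hS0 : 0 ≤ S := by rw [hS]; positivity
  have hSle : ∀ j i k, |((Algebra.leftMulMatrix b (β j) i k : ℤ) : ℝ)| ≤
      ∑ i, ∑ k, |((Algebra.leftMulMatrix b (β j) i k : ℤ) : ℝ)| := by
    intro j i k
    refine (Finset.single_le_sum (f := fun k => |((Algebra.leftMulMatrix b (β j) i k : ℤ) : ℝ)|)
      (fun _ _ => abs_nonneg _) (mem_univ k)).trans ?_
    exact Finset.single_le_sum (f := fun i => ∑ k, |((Algebra.leftMulMatrix b (β j) i k : ℤ) : ℝ)|)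
      (fun _ _ => Finset.sum_nonneg fun _ _ => abs_nonneg _) (mem_univ i)
  obtain ⟨n, hn⟩ : ∃ n : ℕ, n = Fintype.card (Module.Free.ChooseBasisIndex ℤ A) := ⟨_, rfl⟩
  -- a basis element
  have hne : Nonempty (Module.Free.ChooseBasisIndex ℤ A) := b.index_nonempty
  obtain ⟨k₀⟩ := hne
  have hk₀ : ((b k₀ : A) : ℝ) ≠ 0 := by
    intro h
    exact b.ne_zero k₀ (Subtype.ext h)
  obtain ⟨T, hT⟩ : ∃ T : ℝ, T = ∑ i, |((b i : A) : ℝ)| := ⟨_, rfl⟩
  have hT0 : 0 < T := by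
    rw [hT]
    refine lt_of_lt_of_le (abs_pos.2 hk₀) ?_
    exact Finset.single_le_sum (f := fun i => |((b i : A) : ℝ)|) (fun _ _ => abs_nonneg _)
      (mem_univ k₀)
  have hd0 : (0 : ℝ) < |(d : ℝ)| := abs_pos.2 (by exact_mod_cast hd)
  obtain ⟨Q, hQ⟩ : ∃ Q : ℝ, Q = |(d : ℝ)| * T * (n.factorial * (1 + S) ^ n) / |((b k₀ : A) : ℝ)| :=
    ⟨_, rfl⟩
  have hQ0 : 0 < Q := by
    rw [hQ]
    have := abs_pos.2 hk₀
    positivity
  refine ⟨max Q n, lt_of_lt_of_le hQ0 (le_max_left _ _), ?_⟩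
  intro h W hW hne0
  obtain ⟨Λ, hΛ⟩ : ∃ Λ : ℝ, Λ = ∑ j, (h j : ℝ) * α j := ⟨_, rfl⟩
  rw [← hΛ] at hne0 ⊢
  have hW1 : 1 ≤ W := by
    by_contra hcon
    push Not at hcon
    apply hne0
    rw [hΛ]
    apply Finset.sum_eq_zero
    intro j _
    have h1 : |(h j : ℝ)| < 1 := lt_of_le_of_lt (hW j) hcon
    have h2 : |h j| < 1 := by exact_mod_cast h1
    have h3 : h j = 0 := Int.abs_lt_one_iff.1 h2
    rw [h3]
    simp
  have hW0 : 0 < W := by linarith
  obtain ⟨x, hx⟩ : ∃ x : A, x = ∑ j, h j • β j := ⟨_, rfl⟩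
  have hxr : (x : ℝ) = d * Λ := by
    rw [hx, hΛ, Finset.mul_sum]
    push_cast
    refine Finset.sum_congr rfl fun j _ => ?_
    rw [hβ]
    simp only [zsmul_eq_mul]
    ring
  have hx0 : x ≠ 0 := by
    intro h0
    rw [h0] at hxr
    have : (d : ℝ) * Λ ≠ 0 := mul_ne_zero (by exact_mod_cast hd) hne0
    exact this hxr.symm
  obtain ⟨M, hM⟩ : ∃ M : Matrix (Module.Free.ChooseBasisIndex ℤ A) (Module.Free.ChooseBasisIndex ℤ A) ℤ,
    M = Algebra.leftMulMatrix b x := ⟨_, rfl⟩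
  have hMe : ∀ i k, |((M i k : ℤ) : ℝ)| ≤ W * S := by
    intro i k
    have e1 : M i k = ∑ j, h j * Algebra.leftMulMatrix b (β j) i k := by
      rw [hM, hx, map_sum, Matrix.sum_apply]
      refine Finset.sum_congr rfl fun j _ => ?_
      rw [map_zsmul, Matrix.smul_apply, smul_eq_mul]
    rw [e1]
    push_cast
    refine (Finset.abs_sum_le_sum_abs _ _).trans ?_
    rw [hS, Finset.mul_sum]
    refine Finset.sum_le_sum fun j _ => ?_
    rw [abs_mul]
    exact mul_le_mul (hW j) (hSle j i k) (abs_nonneg _) hW0.le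
  have hdet : (1 : ℝ) ≤ |((M.det : ℤ) : ℝ)| := by
    have e1 : M.det ≠ 0 := by
      rw [hM, ← Algebra.norm_eq_matrix_det]
      exact (Algebra.norm_ne_zero_iff_of_basis b).2 hx0
    have := Int.one_le_abs e1
    exact_mod_cast this
  -- the adjugate
  have hadj : ∀ i k, |((M.adjugate i k : ℤ) : ℝ)| ≤ n.factorial * (1 + W * S) ^ n := by
    intro i k
    rw [Matrix.adjugate_apply]
    have e1 : ∀ i' k', |(((M.updateRow k (Pi.single i 1)) i' k' : ℤ) : ℝ)| ≤ 1 + W * S := by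
      intro i' k'
      have hWS : 0 ≤ W * S := by positivity
      by_cases hik : i' = k
      · subst hik
        rw [Matrix.updateRow_self]
        by_cases hik2 : k' = i
        · subst hik2
          simp
          exact hWS
        · rw [Pi.single_eq_of_ne hik2]
          simp
          linarith
      · rw [Matrix.updateRow_ne hik]
        have := hMe i' k'
        linarith
    have e2 : (((M.updateRow k (Pi.single i 1)).det : ℤ) : ℝ) =
        ((M.updateRow k (Pi.single i 1)).map (Int.castRingHom ℝ)).det := by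
      rw [← RingHom.mapMatrix_apply, ← RingHom.map_det]
      rfl
    rw [e2]
    have e3 := Matrix.det_le (A := (M.updateRow k (Pi.single i 1)).map (Int.castRingHom ℝ))
      (abv := AbsoluteValue.abs) (x := 1 + W * S) (fun i' k' => e1 i' k')
    rw [nsmul_eq_mul, ← hn] at e3
    exact e3
  -- the relation
  have hrel : ∀ k, (x : ℝ) * ((b k : A) : ℝ) = ∑ i, ((M i k : ℤ) : ℝ) * ((b i : A) : ℝ) := by
    intro k
    have e1 : x * b k = ∑ i, M i k • b i := by
      conv_lhs => rw [← b.sum_repr (x * b k)]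
      refine Finset.sum_congr rfl fun i _ => ?_
      rw [hM, Algebra.leftMulMatrix_eq_repr_mul]
    have e2 : ((x * b k : A) : ℝ) = ((∑ i, M i k • b i : A) : ℝ) := congrArg Subtype.val e1
    have e3 : ((x * b k : A) : ℝ) = (x : ℝ) * ((b k : A) : ℝ) := rfl
    rw [← e3, e2, AddSubmonoidClass.coe_finset_sum]
    refine Finset.sum_congr rfl fun i _ => ?_
    have e4 : ((M i k • b i : A) : ℝ) = (M i k : ℤ) • ((b i : A) : ℝ) := rfl
    rw [e4, zsmul_eq_mul]
  have hkey : ((M.det : ℤ) : ℝ) * ((b k₀ : A) : ℝ) =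
      (x : ℝ) * ∑ i, ((M.adjugate i k₀ : ℤ) : ℝ) * ((b i : A) : ℝ) := by
    have e1 : ∀ i, ∑ k, M i k * M.adjugate k k₀ = if i = k₀ then M.det else 0 := by
      intro i
      have := congrFun (congrFun (Matrix.mul_adjugate M) i) k₀
      rw [Matrix.mul_apply] at this
      rw [this, Matrix.smul_apply, Matrix.one_apply, smul_eq_mul, mul_ite, mul_one, mul_zero]
    calc ((M.det : ℤ) : ℝ) * ((b k₀ : A) : ℝ) =
        ∑ i, ((if i = k₀ then M.det else 0 : ℤ) : ℝ) * ((b i : A) : ℝ) := by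
          rw [Finset.sum_eq_single k₀]
          · rw [if_pos rfl]
          · intro i _ hi
            rw [if_neg hi]
            simp
          · intro hcon
            exact absurd (mem_univ _) hcon
      _ = ∑ i, ∑ k, ((M i k : ℤ) : ℝ) * ((M.adjugate k k₀ : ℤ) : ℝ) * ((b i : A) : ℝ) := by
          refine Finset.sum_congr rfl fun i _ => ?_
          rw [← e1 i]
          push_cast
          rw [Finset.sum_mul]
      _ = ∑ k, ∑ i, ((M i k : ℤ) : ℝ) * ((M.adjugate k k₀ : ℤ) : ℝ) * ((b i : A) : ℝ) :=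
          Finset.sum_comm
      _ = ∑ k, ((M.adjugate k k₀ : ℤ) : ℝ) * ((x : ℝ) * ((b k : A) : ℝ)) := by
          refine Finset.sum_congr rfl fun k _ => ?_
          rw [hrel, Finset.mul_sum]
          refine Finset.sum_congr rfl fun i _ => ?_
          ring
      _ = _ := by
          rw [Finset.mul_sum]
          refine Finset.sum_congr rfl fun k _ => ?_
          ring
  have hb0 : 0 < |((b k₀ : A) : ℝ)| := abs_pos.2 hk₀
  have hmain : |((b k₀ : A) : ℝ)| ≤ |(d : ℝ)| * |Λ| * (T * (n.factorial * (1 + W * S) ^ n)) := by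
    calc |((b k₀ : A) : ℝ)| = 1 * |((b k₀ : A) : ℝ)| := (one_mul _).symm
      _ ≤ |((M.det : ℤ) : ℝ)| * |((b k₀ : A) : ℝ)| := by gcongr
      _ = |(x : ℝ)| * |∑ i, ((M.adjugate i k₀ : ℤ) : ℝ) * ((b i : A) : ℝ)| := by
          rw [← abs_mul, hkey, abs_mul]
      _ ≤ |(x : ℝ)| * (T * (n.factorial * (1 + W * S) ^ n)) := by
          refine mul_le_mul_of_nonneg_left ?_ (abs_nonneg _)
          refine (Finset.abs_sum_le_sum_abs _ _).trans ?_
          rw [hT, Finset.sum_mul]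
          refine Finset.sum_le_sum fun i _ => ?_
          rw [abs_mul, mul_comm]
          exact mul_le_mul_of_nonneg_left (hadj i k₀) (abs_nonneg _)
      _ = _ := by rw [hxr, abs_mul]
  have hWn : (1 + W * S) ^ n ≤ W ^ n * (1 + S) ^ n := by
    rw [← mul_pow]
    gcongr
    nlinarith
  have hWC : W ^ n ≤ W ^ (max Q (n : ℝ)) := by
    rw [← Real.rpow_natCast]
    exact Real.rpow_le_rpow_of_exponent_le hW1 (le_max_right _ _)
  have hΛ0 : 0 ≤ |Λ| := abs_nonneg _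
  have hfin : 1 ≤ |Λ| * (Q * W ^ n) := by
    have e1 : |((b k₀ : A) : ℝ)| ≤ |(d : ℝ)| * |Λ| * (T * (n.factorial * (W ^ n * (1 + S) ^ n))) := by
      refine hmain.trans ?_
      gcongr
    rw [hQ]
    rw [← mul_le_mul_iff_of_pos_left hb0]
    calc |((b k₀ : A) : ℝ)| * 1 ≤ |(d : ℝ)| * |Λ| * (T * (n.factorial * (W ^ n * (1 + S) ^ n))) := by
          rw [mul_one]
          exact e1
      _ = _ := by
          field_simp
  rw [inv_le_iff_one_le_mul₀ (by positivity)]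
  refine hfin.trans ?_
  refine mul_le_mul_of_nonneg_left ?_ hΛ0
  exact mul_le_mul (le_max_left _ _) hWC (by positivity) (by positivity)

end Pool.Agent.J6H93.Fam
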