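import Pool.Agent.J6H93.Fam.Al3
import Pool.Agent.J6H93.Fam.Lf
import Pool.Agent.J6H93.Fam.Gm7

/-!
# Real algebraic functions: the leading coefficients of integral combinations
-/

set_option autoImplicit false

namespace Pool.Agent.J6H93.Fam

open Finset Filter Topology Polynomial

/-- no nontrivial integral combination of the functions is a real polynomial near infinity -/
def IndepP {r : ℕ} (f : Fin r → ℝ → ℝ) : Prop :=
  ∀ h : Fin r → ℤ, h ≠ 0 → ∀ P : ℝ[X], ¬ ∀ᶠ t : ℝ in atTop, ∑ j, (h j : ℝ) * f j t = P.eval t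

lemma dslope_sum {r : ℕ} {Φ : Fin r → ℂ → ℂ} (hΦ : ∀ j, AnalyticAt ℂ (Φ j) 0) (c : Fin r → ℂ) :
    dslope (fun u => ∑ j, c j * Φ j u) 0 = fun u => ∑ j, c j * dslope (Φ j) 0 u := by
  funext u
  by_cases hu : u = 0
  · subst hu
    rw [dslope_same]
    simp only [dslope_same]
    rw [deriv_fun_sum fun j _ => ((hΦ j).differentiableAt.const_mul (c j))]
    refine Finset.sum_congr rfl fun j _ => ?_
    rw [deriv_const_mul _ (hΦ j).differentiableAt]
  · rw [dslope_of_ne _ hu, slope_def_field]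
    rw [← Finset.sum_sub_distrib, Finset.sum_div]
    refine Finset.sum_congr rfl fun j _ => ?_
    rw [dslope_of_ne _ hu, slope_def_field]
    ring

lemma tc_sum (K : ℕ) : ∀ {r : ℕ} {Φ : Fin r → ℂ → ℂ}, (∀ j, AnalyticAt ℂ (Φ j) 0) →
    ∀ c : Fin r → ℂ, tc K (fun u => ∑ j, c j * Φ j u) = ∑ j, c j * tc K (Φ j) := by
  induction K with
  | zero => intro r Φ _ c; rfl
  | succ K ih =>
    intro r Φ hΦ c
    have h1 := ih (fun j => an_dslope (hΦ j)) c
    rw [← dslope_sum hΦ c] at h1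
    exact h1

lemma inv_root_tendsto {q : ℕ} (hq : 1 ≤ q) :
    Tendsto (fun t : ℝ => (t : ℂ) ^ ((-(1 / (q : ℝ)) : ℝ) : ℂ)) atTop (𝓝 0) := by
  have hq0 : (0 : ℝ) < q := by exact_mod_cast hq
  have h1 : Tendsto (fun t : ℝ => t ^ (-(1 / (q : ℝ)))) atTop (𝓝 0) :=
    tendsto_rpow_neg_atTop (by positivity)
  have h2 : Tendsto (fun t : ℝ => ((t ^ (-(1 / (q : ℝ))) : ℝ) : ℂ)) atTop (𝓝 ((0 : ℝ) : ℂ)) :=
    (Complex.continuous_ofReal.tendsto 0).comp h1
  rw [Complex.ofReal_zero] at h2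
  refine h2.congr' ?_
  filter_upwards [eventually_ge_atTop 0] with t ht
  rw [Complex.ofReal_cpow ht]

open Classical in
/-- if all coefficients with exponents which are not natural numbers vanish then the combination is
a polynomial -/
lemma is_poly {r q p : ℕ} (hq : 1 ≤ q) {f : Fin r → ℝ → ℝ} {Φ : Fin r → ℂ → ℂ}
    (hΦ : ∀ j, AnalyticAt ℂ (Φ j) 0) (hre : ∀ j, ∀ᶠ u : ℝ in 𝓝[>] 0, (Φ j u).im = 0)
    (hv : ∀ j, ∀ᶠ t : ℝ in atTop, (f j t : ℂ) = pv q p (Φ j) t) (h : Fin r → ℤ)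
    (h0 : ∀ k, NP q p k → ∑ j, (h j : ℝ) * (tc k (Φ j)).re = 0) :
    ∃ P : ℝ[X], ∀ᶠ t : ℝ in atTop, ∑ j, (h j : ℝ) * f j t = P.eval t := by
  have hq0 : (0 : ℝ) < q := by exact_mod_cast hq
  obtain ⟨Θ, hΘ⟩ : ∃ Θ : ℂ → ℂ, Θ = fun u => ∑ j, (h j : ℂ) * Φ j u := ⟨_, rfl⟩
  have hΘan : AnalyticAt ℂ Θ 0 := by
    rw [hΘ]
    exact Finset.analyticAt_fun_sum _ fun j _ => analyticAt_const.mul (hΦ j)
  have htc : ∀ k, tc k Θ = ((∑ j, (h j : ℝ) * (tc k (Φ j)).re : ℝ) : ℂ) := by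
    intro k
    rw [hΘ, tc_sum k hΦ]
    push_cast
    refine Finset.sum_congr rfl fun j _ => ?_
    congr 1
    apply Complex.ext
    · rw [Complex.ofReal_re]
    · rw [Complex.ofReal_im, tc_real k (hΦ j) (hre j)]
  have hrem : ∀ᶠ s in 𝓝 (0 : ℂ), trem (p + 1) Θ s = 0 := by
    refine trem_eq_zero hΘan fun k hk => ?_
    rw [htc k, h0 k (fun h => by omega), Complex.ofReal_zero]
  have h1 := (inv_root_tendsto hq).eventually hrem
  have h2 : ∀ᶠ t : ℝ in atTop, ∀ j, (f j t : ℂ) = pv q p (Φ j) t := eventually_all.2 hv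
  refine ⟨∑ k ∈ (Finset.range (p + 1)).filter (fun k => ¬ NP q p k),
    Polynomial.C (∑ j, (h j : ℝ) * (tc k (Φ j)).re) * X ^ ((p - k) / q), ?_⟩
  filter_upwards [h1, h2, eventually_gt_atTop 0] with t ht1 ht2 ht0
  have e1 : ((∑ j, (h j : ℝ) * f j t : ℝ) : ℂ) = pv q p Θ t := by
    push_cast
    unfold pv
    rw [hΘ]
    simp only
    rw [Finset.mul_sum]
    refine Finset.sum_congr rfl fun j _ => ?_
    rw [ht2 j]
    unfold pv
    ring
  have e2 : pv q p Θ t = ((∑ k ∈ (Finset.range (p + 1)).filter (fun k => ¬ NP q p k),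
      (∑ j, (h j : ℝ) * (tc k (Φ j)).re) * t ^ ((p - k) / q) : ℝ) : ℂ) := by
    unfold pv
    rw [taylor_tc (p + 1) Θ, ht1, mul_zero, add_zero, Finset.mul_sum, Finset.sum_filter,
      Complex.ofReal_sum]
    refine Finset.sum_congr rfl fun k _ => ?_
    rw [htc k]
    by_cases hk : NP q p k
    · rw [if_neg (not_not.2 hk), h0 k hk]
      simp
    · rw [if_pos hk]
      have e5 : (t : ℂ) ^ (((p : ℝ) / q : ℝ) : ℂ) * ((t : ℂ) ^ ((-(1 / (q : ℝ)) : ℝ) : ℂ)) ^ k =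
          ((t ^ ((p - k) / q) : ℝ) : ℂ) := by
        rw [← Complex.ofReal_cpow ht0.le, ← Complex.ofReal_cpow ht0.le, ← Complex.ofReal_pow,
          ← Real.rpow_natCast (t ^ (-(1 / (q : ℝ)))), ← Real.rpow_mul ht0.le,
          ← Complex.ofReal_mul, ← Real.rpow_add ht0]
        congr 1
        rw [← Real.rpow_natCast t, ← np_not hq hk]
        congr 1
        ring
      rw [mul_left_comm, e5, Complex.ofReal_mul]
  have e3 := e1.trans e2
  have e4 : ∑ j, (h j : ℝ) * f j t = ∑ k ∈ (Finset.range (p + 1)).filter (fun k => ¬ NP q p k),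
      (∑ j, (h j : ℝ) * (tc k (Φ j)).re) * t ^ ((p - k) / q) := Complex.ofReal_injective e3
  rw [e4, eval_finsetSum]
  refine Finset.sum_congr rfl fun k _ => ?_
  rw [eval_mul, eval_C, eval_pow, eval_X]

/-- the rational combinations whose first coefficients vanish -/
def VK (q p : ℕ) {r : ℕ} (φ : Fin r → ℕ → ℝ) (K : ℕ) : Submodule ℚ (Fin r → ℚ) where
  carrier := {x | ∀ k < K, NP q p k → ∑ j, ((x j : ℚ) : ℝ) * φ j k = 0}
  add_mem' := by
    intro x y hx hy k hk hnp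
    have h1 := hx k hk hnp
    have h2 := hy k hk hnp
    have h3 : ∑ j, (((x + y) j : ℚ) : ℝ) * φ j k =
        ∑ j, ((x j : ℚ) : ℝ) * φ j k + ∑ j, ((y j : ℚ) : ℝ) * φ j k := by
      rw [← Finset.sum_add_distrib]
      refine Finset.sum_congr rfl fun j _ => ?_
      rw [Pi.add_apply]
      push_cast
      ring
    rw [h3, h1, h2, add_zero]
  zero_mem' := by
    intro k _ _
    simp
  smul_mem' := by
    intro c x hx k hk hnp
    have h1 := hx k hk hnp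
    have h3 : ∑ j, (((c • x) j : ℚ) : ℝ) * φ j k = (c : ℝ) * ∑ j, ((x j : ℚ) : ℝ) * φ j k := by
      rw [Finset.mul_sum]
      refine Finset.sum_congr rfl fun j _ => ?_
      rw [Pi.smul_apply, smul_eq_mul]
      push_cast
      ring
    rw [h3, h1, mul_zero]

/-- the chain stabilizes -/
lemma chain_stab (q p : ℕ) {r : ℕ} (φ : Fin r → ℕ → ℝ) :
    ∃ K, ∀ h : Fin r → ℤ, (∀ k < K, NP q p k → ∑ j, (h j : ℝ) * φ j k = 0) →
      ∀ k, NP q p k → ∑ j, (h j : ℝ) * φ j k = 0 := by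
  have hanti : ∀ m n : ℕ, m ≤ n → VK q p φ n ≤ VK q p φ m := fun m n hmn x hx k hk hnp =>
    hx k (lt_of_lt_of_le hk hmn) hnp
  obtain ⟨K, hK⟩ := IsArtinian.monotone_stabilizes (R := ℚ) (M := Fin r → ℚ)
    ⟨fun K => OrderDual.toDual (VK q p φ K), fun m n hmn => hanti m n hmn⟩
  refine ⟨K, fun h hh k hnp => ?_⟩
  have h1 : (fun j => (h j : ℚ)) ∈ VK q p φ K := by
    intro k hk hnp
    have := hh k hk hnp
    simpa using this
  have h2 : VK q p φ K = VK q p φ (max K (k + 1)) := hK (max K (k + 1)) (le_max_left _ _)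
  rw [h2] at h1
  have h3 := h1 k (lt_of_lt_of_le (Nat.lt_succ_self k) (le_max_right _ _)) hnp
  simpa using h3

/-- **the lower bounds of the leading coefficients** -/
theorem lb_exists {r q p : ℕ} (hq : 1 ≤ q) {f : Fin r → ℝ → ℝ} {Φ : Fin r → ℂ → ℂ}
    (hΦ : ∀ j, AnalyticAt ℂ (Φ j) 0) (halg : ∀ j k, IsAlgebraic ℚ ((tc k (Φ j)).re))
    (hre : ∀ j, ∀ᶠ u : ℝ in 𝓝[>] 0, (Φ j u).im = 0)
    (hv : ∀ j, ∀ᶠ t : ℝ in atTop, (f j t : ℂ) = pv q p (Φ j) t) (hind : IndepP f) :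
    ∃ (K : ℕ) (A₀ C₁ : ℝ), 0 ≤ A₀ ∧ 0 < C₁ ∧ LB q p K (fun j k => (tc k (Φ j)).re) A₀ C₁ := by
  classical
  have hq0 : (0 : ℝ) < q := by exact_mod_cast hq
  have hq1 : (1 : ℝ) ≤ q := by exact_mod_cast hq
  obtain ⟨K, hK⟩ := chain_stab q p (fun j k => (tc k (Φ j)).re)
  have hl := fun k => liou (fun j => (tc k (Φ j)).re) (fun j => halg j k)
  choose C hC0 hC using hl
  obtain ⟨C₁, hC₁⟩ : ∃ C₁ : ℝ, C₁ = 1 + ∑ k ∈ Finset.range (K + 1), C k := ⟨_, rfl⟩
  have hCk : ∀ k ≤ K, C k ≤ C₁ := by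
    intro k hk
    have := Finset.single_le_sum (f := C) (fun i _ => (hC0 i).le)
      (Finset.mem_range.2 (by omega : k < K + 1))
    linarith
  have hC₁0 : 0 < C₁ := by
    have : 0 ≤ ∑ k ∈ Finset.range (K + 1), C k := Finset.sum_nonneg fun i _ => (hC0 i).le
    linarith
  refine ⟨K, K + 1, C₁, by positivity, hC₁0, ?_⟩
  intro h hh W hW
  have hex : ∃ k, NP q p k ∧ ∑ j, (h j : ℝ) * (tc k (Φ j)).re ≠ 0 ∧ k ≤ K := by
    by_contra hcon
    push Not at hcon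
    have h1 := hK h (fun k hk hnp => by
      by_contra h2
      have := hcon k hnp h2
      omega)
    obtain ⟨P, hP⟩ := is_poly hq hΦ hre hv h h1
    exact hind h hh P hP
  obtain ⟨hk1, hk2, hk3⟩ := Nat.find_spec hex
  have hmin := fun k' (hk' : k' < Nat.find hex) => Nat.find_min hex hk'
  obtain ⟨k, hk⟩ : ∃ k, k = Nat.find hex := ⟨_, rfl⟩
  rw [← hk] at hk1 hk2 hk3 hmin
  refine ⟨k, hk3, hk1, ?_, ?_, ?_⟩
  · have h1 : (k : ℝ) ≤ K := by exact_mod_cast hk3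
    have h2 : -(k : ℝ) ≤ ((p : ℝ) - k) / q := by
      rw [le_div_iff₀ hq0]
      have h3 : (0 : ℝ) ≤ p := Nat.cast_nonneg _
      have h4 : (0 : ℝ) ≤ k := Nat.cast_nonneg _
      nlinarith
    linarith
  · intro k' hk' hnp
    by_contra h2
    exact hmin k' hk' ⟨hnp, h2, by omega⟩
  · refine le_trans ?_ (hC k h W hW hk2)
    have hW1 : 1 ≤ W := by
      obtain ⟨j, hj⟩ := Function.ne_iff.1 hh
      refine le_trans ?_ (hW j)
      have : (1 : ℤ) ≤ |h j| := Int.one_le_abs hj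
      exact_mod_cast this
    have hW0 : 0 < W := by linarith
    have h1 : 0 < C k * W ^ C k := mul_pos (hC0 k) (by positivity)
    apply inv_anti₀ h1
    exact mul_le_mul (hCk k hk3) (Real.rpow_le_rpow_of_exponent_le hW1 (hCk k hk3)) (by positivity)
      hC₁0.le

end Pool.Agent.J6H93.Fam
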