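import Pool.Agent.J6H93.Fam.Gm6

/-!
# Short intervals: exponential sums
-/

set_option autoImplicit false

namespace Pool.Agent.J6H93.Fam

open Finset Filter Polynomial
open Pool.Agent.N586.RT (ff logpow log_ge)
open Pool.Agent.Y933.KD (e norm_e)

/-- the number of integers in a window -/
lemma card_window {a b : ℝ} {m : ℕ} (ha : 0 < a) (hbm : b ≤ m) :
    b - a - 1 ≤ (((Finset.Icc 1 m).filter fun j : ℕ => a ≤ j ∧ (j : ℝ) ≤ b + 0).card : ℝ) := by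
  rcases lt_or_ge b a with hab | hab
  · have : (0 : ℝ) ≤ (((Finset.Icc 1 m).filter fun j : ℕ => a ≤ j ∧ (j : ℝ) ≤ b + 0).card : ℝ) :=
      Nat.cast_nonneg _
    linarith
  have hb0 : 0 < b := lt_of_lt_of_le ha hab
  have hsub : Finset.Icc ⌈a⌉₊ ⌊b⌋₊ ⊆
      (Finset.Icc 1 m).filter fun j : ℕ => a ≤ j ∧ (j : ℝ) ≤ b + 0 := by
    intro j hj
    rw [Finset.mem_Icc] at hj
    rw [Finset.mem_filter, Finset.mem_Icc]
    have h1 : a ≤ j := (Nat.le_ceil a).trans (by exact_mod_cast hj.1)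
    have h2 : (j : ℝ) ≤ b := (Nat.cast_le.2 hj.2).trans (Nat.floor_le hb0.le)
    refine ⟨⟨?_, ?_⟩, h1, by linarith⟩
    · have : (0 : ℝ) < j := lt_of_lt_of_le ha h1
      exact_mod_cast this
    · have : (j : ℝ) ≤ m := h2.trans hbm
      exact_mod_cast this
  refine le_trans ?_ (Nat.cast_le.2 (Finset.card_le_card hsub))
  rw [Nat.card_Icc]
  have h3 : b - 1 < ⌊b⌋₊ := by
    have := Nat.lt_floor_add_one b
    linarith
  have h4 : (⌈a⌉₊ : ℝ) < a + 1 := Nat.ceil_lt_add_one ha.le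
  have h5 : (⌊b⌋₊ : ℝ) + 1 - ⌈a⌉₊ ≤ ((⌊b⌋₊ + 1 - ⌈a⌉₊ : ℕ) : ℝ) := by
    have : (⌊b⌋₊ + 1 : ℕ) ≤ (⌊b⌋₊ + 1 - ⌈a⌉₊) + ⌈a⌉₊ := by omega
    have h6 : ((⌊b⌋₊ + 1 : ℕ) : ℝ) ≤ (((⌊b⌋₊ + 1 - ⌈a⌉₊) + ⌈a⌉₊ : ℕ) : ℝ) := by exact_mod_cast this
    push_cast at h6
    linarith
  linarith

/-- **short intervals** -/
theorem es_short (μ : ℝ) (hμ0 : 0 < μ) (hμ : μ ≤ 2 / 5) (D : ℕ) : ∃ κ₀ : ℝ, 1 / 2 ≤ κ₀ ∧
    ∀ (θ₀ θ₁ R δ β C₀ : ℝ), (∀ k : ℕ, θ₀ ≠ k) → θ₁ < θ₀ → 0 ≤ R → 0 < δ → 0 < β → 2 * δ + β < 1 →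
    0 < C₀ → ∃ N0 : ℕ, ∀ N : ℕ, N0 ≤ N → ∀ κ : ℝ, κ₀ ≤ κ → κ ≤ C₀ * (Real.log N) ^ δ →
      ∀ A B : ℕ, N * Real.exp (-(Real.log N) ^ β) ≤ A → A ≤ B → B + (N : ℝ) ^ (2 * μ) ≤ 3 * N →
      ∀ (c lam : ℝ), |lam| * (|c| * (N : ℝ) ^ θ₀) = (N : ℝ) ^ κ → ∀ G : ℝ[X], G.natDegree ≤ D →
      ∀ E : ℂ → ℂ, DifferentiableOn ℂ E (Hp R) →
      (∀ z ∈ Hp R, ‖E z‖ ≤ |c| * (N : ℝ) ^ ((θ₀ - θ₁) / 4) * ‖z‖ ^ θ₁) →
      ‖∑ n ∈ Finset.Ioc A B, e (lam * (G.eval (n : ℝ) + c * (n : ℝ) ^ θ₀ + (E n).re))‖ ≤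
        ((B - A : ℕ) : ℝ) * Real.exp (-(Real.log N) ^ β) + 2 * (N : ℝ) ^ (2 * μ) := by
  have hD0 : (0 : ℝ) ≤ D := Nat.cast_nonneg _
  obtain ⟨g, hg⟩ : ∃ g : ℝ, g = μ / 20 := ⟨_, rfl⟩
  have h1μ : 0 < 1 - μ := by linarith
  have h2μ : 0 < 1 - 2 * μ := by linarith
  obtain ⟨w₁, hw₁⟩ : ∃ w₁ : ℝ, w₁ = (1 + 3 * g) / (1 - μ) := ⟨_, rfl⟩
  obtain ⟨w₂, hw₂⟩ : ∃ w₂ : ℝ, w₂ = (1 - 2 * g) / (1 - 2 * μ) := ⟨_, rfl⟩
  have hw₁e : w₁ * (1 - μ) = 1 + 3 * g := by rw [hw₁, div_mul_cancel₀ _ h1μ.ne']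
  have hw₂e : w₂ * (1 - 2 * μ) = 1 - 2 * g := by rw [hw₂, div_mul_cancel₀ _ h2μ.ne']
  have hw₁1 : 1 ≤ w₁ := by
    rw [hw₁, le_div_iff₀ h1μ]
    linarith
  have hw₂5 : w₂ ≤ 5 := by
    rw [hw₂, div_le_iff₀ h2μ]
    linarith
  have hw₂0 : 0 ≤ w₂ := by
    rw [hw₂]
    apply div_nonneg _ h2μ.le
    rw [hg]
    linarith
  have hgap : 3 * μ / 4 ≤ w₂ - w₁ := by
    have e1 : 3 * μ / 4 ≤ (w₂ - w₁) * ((1 - μ) * (1 - 2 * μ)) := by
      have e2 : (w₂ - w₁) * ((1 - μ) * (1 - 2 * μ)) =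
          (w₂ * (1 - 2 * μ)) * (1 - μ) - (w₁ * (1 - μ)) * (1 - 2 * μ) := by ring
      rw [e2, hw₁e, hw₂e, hg]
      nlinarith
    have e3 : 0 ≤ w₂ - w₁ := by
      by_contra hcon
      push Not at hcon
      have := mul_neg_of_neg_of_pos hcon (mul_pos h1μ h2μ)
      linarith
    have e4 : (1 - μ) * (1 - 2 * μ) ≤ 1 := by nlinarith
    nlinarith
  obtain ⟨κ₀, hκ₀⟩ : ∃ κ₀ : ℝ, κ₀ = 4 / μ + D + 1 := ⟨_, rfl⟩
  have h4μ : 0 < 4 / μ := by positivity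
  refine ⟨κ₀, by rw [hκ₀]; linarith, ?_⟩
  intro θ₀ θ₁ R δ β C₀ hθ₀ hθ hR hδ hβ hδβ hC₀
  refine es_germ (μ := μ) (g₀ := g) (γ := μ / 4) (κ₀ := κ₀) (w₁ := w₁) (w₂ := w₂) (w₃ := 0) hμ0 hμ
    (by rw [hg]; positivity) (by positivity) (by rw [hκ₀]; linarith) (by linarith) hw₂0
    (by linarith) (by norm_num) ?_ ?_ D ?_ ?_ θ₀ θ₁ R hθ₀ hθ hR δ β C₀ hδ hβ hδβ hC₀
  · intro κ hκ
    have hκμ : 4 / μ ≤ κ := by rw [hκ₀] at hκ; linarith
    have hκ0 : 0 < κ := lt_of_lt_of_le h4μ hκμ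
    have h1 := card_window (a := w₁ * κ) (b := w₂ * κ) (m := ⌈5 * κ⌉₊ + 5) (by positivity) (by
      push_cast
      have := Nat.le_ceil (5 * κ)
      nlinarith)
    refine le_trans ?_ h1
    have h2 : 3 * μ / 4 * κ ≤ (w₂ - w₁) * κ := by gcongr
    have h3 : 4 ≤ μ * κ := by
      rw [div_le_iff₀ hμ0] at hκμ
      linarith
    linarith
  · intro κ j hκ h1 h2
    have hκ0 : 0 < κ := by rw [hκ₀] at hκ; linarith
    rw [add_zero] at h2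
    refine ⟨?_, ?_, ?_⟩
    · calc κ + 3 * (g * κ) = (w₁ * (1 - μ)) * κ := by rw [hw₁e]; ring
        _ = (1 - μ) * (w₁ * κ) := by ring
        _ ≤ _ := by gcongr
    · have e1 : (1 - 2 * μ) * j ≤ (1 - 2 * μ) * (w₂ * κ) := by gcongr
      have e2 : (1 - 2 * μ) * (w₂ * κ) = (w₂ * (1 - 2 * μ)) * κ := by ring
      rw [e2, hw₂e] at e1
      linarith
    · have e1 : κ ≤ w₁ * κ := by nlinarith
      have e2 : μ * κ ≤ μ * j := by gcongr; linarith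
      have e3 : g * κ ≤ μ * κ := by
        rw [hg]
        have : 0 ≤ μ * κ := by positivity
        linarith
      linarith
  · rw [hκ₀]
    nlinarith
  · rw [hκ₀]
    linarith

/-- **short intervals, uniformly in the combination** -/
theorem U1s {r : ℕ} (q p K : ℕ) (hq : 1 ≤ q) (R C : ℝ) (hR : 1 ≤ R) (hC : 0 ≤ C)
    (y : Fin r → ℝ → ℝ) (φ : Fin r → ℕ → ℝ) (E : Fin r → ℂ → ℂ)
    (hex : ∀ j, Ex q p K R C (y j) (φ j) (E j)) (A₀ C₁ : ℝ) (hC₁ : 0 < C₁)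
    (hLB : LB q p K φ A₀ C₁) (D : ℕ) (μ : ℝ) (hμ0 : 0 < μ) (hμ : μ ≤ 2 / 5) :
    ∃ κ₀ : ℝ, 1 / 2 ≤ κ₀ ∧ ∀ δ β : ℝ, 0 < δ → 0 < β → 2 * δ + β < 1 →
    ∃ N0 : ℕ, ∀ N : ℕ, N0 ≤ N → ∀ B : ℕ, N ≤ B → B + (N : ℝ) ^ (2 * μ) ≤ 3 * N →
      ∀ h : Fin r → ℤ, h ≠ 0 → (∀ j, |(h j : ℝ)| ≤ Real.exp ((Real.log N) ^ β)) → ∀ lam : ℝ,
      (N : ℝ) ^ (A₀ + κ₀) * Real.exp (-(Real.log N) ^ β) ≤ |lam| →
      |lam| ≤ Real.exp ((Real.log N) ^ (1 + δ)) → ∀ G : ℝ[X], G.natDegree ≤ D →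
      ‖∑ n ∈ Finset.Ioc N B, e (lam * (G.eval (n : ℝ) + ∑ j, (h j : ℝ) * y j n))‖ ≤
        ((B - N : ℕ) : ℝ) * Real.exp (-(Real.log N) ^ β) + 2 * (N : ℝ) ^ (2 * μ) := by
  have hq0 : (0 : ℝ) < q := by exact_mod_cast hq
  obtain ⟨κ₀, hκ₀, hes⟩ := es_short μ hμ0 hμ (max D p)
  refine ⟨κ₀, hκ₀, ?_⟩
  intro δ β hδ hβ hδβ
  have hall : ∀ k : ℕ, ∀ᶠ N : ℕ in atTop, NP q p k → 0 < A₀ + ((p : ℝ) - k) / q →
      (∀ κ : ℝ, κ₀ ≤ κ → κ ≤ 3 * (Real.log N) ^ δ →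
      ∀ A B : ℕ, N * Real.exp (-(Real.log N) ^ β) ≤ A → A ≤ B → B + (N : ℝ) ^ (2 * μ) ≤ 3 * N →
      ∀ (c lam : ℝ), |lam| * (|c| * (N : ℝ) ^ (((p : ℝ) - k) / q)) = (N : ℝ) ^ κ → ∀ G : ℝ[X],
      G.natDegree ≤ max D p → ∀ E : ℂ → ℂ, DifferentiableOn ℂ E (Hp R) →
      (∀ z ∈ Hp R, ‖E z‖ ≤ |c| * (N : ℝ) ^ ((((p : ℝ) - k) / q - ((p : ℝ) - k - 1) / q) / 4) *
        ‖z‖ ^ (((p : ℝ) - k - 1) / q)) →
      ‖∑ n ∈ Finset.Ioc A B, e (lam * (G.eval (n : ℝ) + c * (n : ℝ) ^ (((p : ℝ) - k) / q) +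
        (E n).re))‖ ≤ ((B - A : ℕ) : ℝ) * Real.exp (-(Real.log N) ^ β) +
          2 * (N : ℝ) ^ (2 * μ)) ∧
      (1 + C₁) * (Real.log N) ^ β + |Real.log C₁| ≤ (A₀ + ((p : ℝ) - k) / q) / 2 * Real.log N := by
    intro k
    by_cases hk : NP q p k ∧ 0 < A₀ + ((p : ℝ) - k) / q
    · obtain ⟨hk1, hk2⟩ := hk
      obtain ⟨N0, hN0⟩ := hes (((p : ℝ) - k) / q) (((p : ℝ) - k - 1) / q) R δ β 3 (np_ne hq hk1)
        (div_lt_div_of_pos_right (by linarith) hq0) (by linarith) hδ hβ hδβ (by norm_num)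
      filter_upwards [eventually_ge_atTop N0, logpow (by linarith : β < 1)
        ((1 + C₁ + |Real.log C₁|) / ((A₀ + ((p : ℝ) - k) / q) / 2)), logpow hβ 1] with N h1 h2 h3
      intro _ _
      refine ⟨hN0 N h1, ?_⟩
      rw [Real.rpow_one] at h2
      rw [Real.rpow_zero, mul_one] at h3
      obtain ⟨a, ha⟩ : ∃ a : ℝ, a = (A₀ + ((p : ℝ) - k) / q) / 2 := ⟨_, rfl⟩
      have ha0 : 0 < a := by linarith
      rw [← ha] at h2 ⊢
      have e1 : (1 + C₁) * (Real.log N) ^ β + |Real.log C₁| ≤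
          (1 + C₁ + |Real.log C₁|) * (Real.log N) ^ β := by
        have : |Real.log C₁| ≤ |Real.log C₁| * (Real.log N) ^ β :=
          le_mul_of_one_le_right (abs_nonneg _) h3
        linarith
      refine e1.trans ?_
      have e2 : (1 + C₁ + |Real.log C₁|) * (Real.log N) ^ β = a *
          ((1 + C₁ + |Real.log C₁|) / a * (Real.log N) ^ β) := by
        field_simp
      rw [e2]
      gcongr
    · filter_upwards with N h1 h2
      exact absurd ⟨h1, h2⟩ hk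
  obtain ⟨Φ, hΦ⟩ : ∃ Φ : ℝ, Φ = ∑ k ∈ Finset.range (K + 1), ∑ j, |φ j k| := ⟨_, rfl⟩
  have hΦ0 : 0 ≤ Φ := by rw [hΦ]; positivity
  obtain ⟨C₂, hC₂⟩ : ∃ C₂ : ℝ, C₂ = Φ + r * C + 1 := ⟨_, rfl⟩
  have hr0 : (0 : ℝ) ≤ r := Nat.cast_nonneg _
  have hrC : 0 ≤ (r : ℝ) * C := by positivity
  have hC₂1 : 1 ≤ C₂ := by rw [hC₂]; linarith
  have hp0 : (0 : ℝ) ≤ p := Nat.cast_nonneg _
  obtain ⟨N1, hN1⟩ := eventually_atTop.1 (((Finset.eventually_all (Finset.range (K + 1))).2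
    fun k _ => hall k).and ((logpow (by linarith : β < 1)
      ((1 + C₁ + Real.log C₂ + |Real.log C₁|) * (4 * q))).and
    ((log_ge 1).and ((logpow hδ (p + 2)).and ((logpow hβ 1).and
    ((log_ge (Real.log C₂)).and ((log_ge (Real.log R * 2)).and
    (logpow (by linarith : β < 1) 2))))))))
  refine ⟨max N1 2, ?_⟩
  intro N hN B hNB hB h hh hhV lam hlam1 hlam2 G hG
  obtain ⟨c1, c2, c3, c4, c5, c6, c7, c8⟩ := hN1 N (le_of_max_le_left hN)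
  have hn2 : 2 ≤ N := le_of_max_le_right hN
  have hNR : (2 : ℝ) ≤ N := by exact_mod_cast hn2
  have hN0 : (0 : ℝ) < N := by linarith
  have hN1r : (1 : ℝ) ≤ N := by linarith
  obtain ⟨L, hL⟩ : ∃ L : ℝ, L = Real.log N := ⟨_, rfl⟩
  rw [← hL] at c1 c2 c3 c4 c5 c6 c7 c8 hhV hlam1 hlam2 ⊢
  rw [Real.rpow_one] at c2 c8
  rw [Real.rpow_zero, mul_one] at c4 c5
  have hL0 : 0 < L := by linarith
  have hexp : ∀ a : ℝ, (N : ℝ) ^ a = Real.exp (a * L) := by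
    intro a
    rw [Real.rpow_def_of_pos hN0, hL, mul_comm]
  obtain ⟨v, hv⟩ : ∃ v : ℝ, v = L ^ β := ⟨_, rfl⟩
  rw [← hv] at c1 c2 c5 c8 hhV hlam1 ⊢
  have hv0 : 0 ≤ v := by linarith
  have hA : (N : ℝ) * Real.exp (-v) ≤ (N : ℝ) :=
    mul_le_of_le_one_right hN0.le (by rw [Real.exp_le_one_iff]; linarith)
  obtain ⟨k, hkK, hnp, hpos, hzero, hlow⟩ := hLB h hh _ hhV
  obtain ⟨d1, d2⟩ := c1 k (Finset.mem_range.2 (by omega)) hnp hpos
  have hcomb := ex_comb hex (fun j => (h j : ℝ))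
  have habs : ∀ j, |(h j : ℝ)| ≤ Real.exp v := hhV
  have hsumabs : ∑ j, |(h j : ℝ)| ≤ r * Real.exp v := by
    calc ∑ j, |(h j : ℝ)| ≤ ∑ _j : Fin r, Real.exp v := Finset.sum_le_sum fun j _ => habs j
      _ = _ := by rw [sum_const, card_univ, Fintype.card_fin, nsmul_eq_mul]
  obtain ⟨G', E', hG', hE', hEb', hy⟩ := ex_split hq hR
    (mul_nonneg (Finset.sum_nonneg fun j _ => abs_nonneg _) hC) hcomb hkK hnp hzero
  obtain ⟨c, hc⟩ : ∃ c : ℝ, c = ∑ j, (h j : ℝ) * φ j k := ⟨_, rfl⟩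
  rw [← hc] at hlow
  simp only [← hc] at hy
  -- the constants
  have hS : ∑ k ∈ Finset.range (K + 1), |∑ j, (h j : ℝ) * φ j k| ≤ Real.exp v * Φ := by
    rw [hΦ, Finset.mul_sum]
    refine Finset.sum_le_sum fun k _ => ?_
    refine (Finset.abs_sum_le_sum_abs _ _).trans ?_
    rw [Finset.mul_sum]
    refine Finset.sum_le_sum fun j _ => ?_
    rw [abs_mul]
    exact mul_le_mul_of_nonneg_right (habs j) (abs_nonneg _)
  have hcE : ∑ k ∈ Finset.range (K + 1), |∑ j, (h j : ℝ) * φ j k| + (∑ j, |(h j : ℝ)|) * C ≤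
      Real.exp v * C₂ := by
    have e1 : (∑ j, |(h j : ℝ)|) * C ≤ r * Real.exp v * C := by gcongr
    have e2 : Real.exp v * C₂ = Real.exp v * Φ + r * Real.exp v * C + Real.exp v := by
      rw [hC₂]
      ring
    have e3 := Real.exp_pos v
    linarith
  have hcup : |c| ≤ Real.exp v * C₂ := by
    have e1 : |c| ≤ ∑ k ∈ Finset.range (K + 1), |∑ j, (h j : ℝ) * φ j k| := by
      rw [hc]
      exact Finset.single_le_sum (f := fun k => |∑ j, (h j : ℝ) * φ j k|)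
        (fun k _ => abs_nonneg _) (Finset.mem_range.2 (by omega : k < K + 1))
    have e2 : 0 ≤ (∑ j, |(h j : ℝ)|) * C := by positivity
    linarith
  have hclow : Real.exp (-(|Real.log C₁| + C₁ * v)) ≤ |c| := by
    refine le_trans ?_ hlow
    rw [Real.exp_neg]
    have e1 : C₁ * (Real.exp v) ^ C₁ ≤ Real.exp (|Real.log C₁| + C₁ * v) := by
      rw [← Real.exp_mul, Real.exp_add, mul_comm v]
      refine mul_le_mul_of_nonneg_right ?_ (Real.exp_pos _).le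
      calc C₁ = Real.exp (Real.log C₁) := (Real.exp_log hC₁).symm
        _ ≤ _ := Real.exp_le_exp.2 (le_abs_self _)
    have e2 : 0 < C₁ * (Real.exp v) ^ C₁ := by positivity
    gcongr
  have hc0 : 0 < |c| := lt_of_lt_of_le (Real.exp_pos _) hclow
  have hlam0 : 0 < |lam| := lt_of_lt_of_le (by positivity) hlam1
  obtain ⟨θ, hθ⟩ : ∃ θ : ℝ, θ = ((p : ℝ) - k) / q := ⟨_, rfl⟩
  rw [← hθ] at d1 d2 hpos
  obtain ⟨κ, hκ⟩ : ∃ κ : ℝ, κ = (Real.log |lam| + Real.log |c|) / L + θ := ⟨_, rfl⟩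
  have hκL : κ * L = Real.log |lam| + Real.log |c| + θ * L := by
    rw [hκ, add_mul, div_mul_cancel₀ _ hL0.ne']
  have hlogc1 : -(|Real.log C₁| + C₁ * v) ≤ Real.log |c| := by
    rw [Real.le_log_iff_exp_le hc0]
    exact hclow
  have hlogc2 : Real.log |c| ≤ v + Real.log C₂ := by
    rw [Real.log_le_iff_le_exp hc0, Real.exp_add, Real.exp_log (by linarith)]
    exact hcup
  have hlogl1 : (A₀ + κ₀) * L - v ≤ Real.log |lam| := by
    rw [Real.le_log_iff_exp_le hlam0, sub_eq_add_neg, Real.exp_add, ← hexp]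
    exact hlam1
  have hlogl2 : Real.log |lam| ≤ L ^ (1 + δ) := by
    rw [Real.log_le_iff_le_exp hlam0]
    exact hlam2
  have hθp : θ ≤ p := by
    rw [hθ]
    have hk0 : (0 : ℝ) ≤ k := Nat.cast_nonneg _
    rw [div_le_iff₀ hq0]
    have hq1 : (1 : ℝ) ≤ q := by exact_mod_cast hq
    nlinarith
  have key := d1 κ
    (by
      have e1 : κ₀ * L ≤ κ * L := by
        rw [hκL]
        have e2 : 0 ≤ (A₀ + θ) * L := by positivity
        linarith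
      exact le_of_mul_le_mul_right e1 hL0)
    (by
      have e1 : κ * L ≤ 3 * L ^ δ * L := by
        rw [hκL]
        have e2 : L ^ δ * L = L ^ (1 + δ) := by
          rw [add_comm, Real.rpow_add hL0, Real.rpow_one]
        have e3 : ((p : ℝ) + 2) * L ≤ L ^ δ * L := by gcongr
        have e4 : θ * L ≤ p * L := by gcongr
        have e5 : 0 ≤ L ^ δ * L := by positivity
        have e6 : 3 * L ^ δ * L = 3 * (L ^ δ * L) := by ring
        rw [e6]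
        rw [← e2] at hlogl2
        linarith
      exact le_of_mul_le_mul_right e1 hL0)
    N B hA hNB hB c lam
    (by
      rw [hexp κ, hκL, Real.exp_add, Real.exp_add, Real.exp_log hlam0, Real.exp_log hc0, ← hexp]
      ring)
    (G + G') ((natDegree_add_le _ _).trans (max_le_max hG hG')) E' hE'
    (by
      intro z hz
      refine (hEb' z hz).trans (mul_le_mul_of_nonneg_right (hcE.trans ?_) (by positivity))
      have e0 : (θ - ((p : ℝ) - k - 1) / q) / 4 = 1 / (4 * q) := by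
        rw [hθ]
        field_simp
        ring
      rw [e0, hexp]
      calc Real.exp v * C₂ = Real.exp (v + Real.log C₂) := by
            rw [Real.exp_add, Real.exp_log (by linarith)]
        _ ≤ Real.exp (-(|Real.log C₁| + C₁ * v) + 1 / (4 * q) * L) := by
            apply Real.exp_le_exp.2
            have e1 : (1 + C₁ + Real.log C₂ + |Real.log C₁|) * v ≤ 1 / (4 * q) * L := by
              have e2 : (1 + C₁ + Real.log C₂ + |Real.log C₁|) * v = 1 / (4 * q) *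
                  ((1 + C₁ + Real.log C₂ + |Real.log C₁|) * (4 * q) * v) := by
                field_simp
              rw [e2]
              gcongr
            have e3 : Real.log C₂ ≤ Real.log C₂ * v :=
              le_mul_of_one_le_right (Real.log_nonneg hC₂1) c5
            have e4 : |Real.log C₁| ≤ |Real.log C₁| * v :=
              le_mul_of_one_le_right (abs_nonneg _) c5
            linarith
        _ = Real.exp (-(|Real.log C₁| + C₁ * v)) * Real.exp (1 / (4 * q) * L) := Real.exp_add _ _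
        _ ≤ _ := by gcongr)
  refine le_trans (le_of_eq ?_) key
  congr 1
  refine Finset.sum_congr rfl fun n hn => ?_
  rw [Finset.mem_Ioc] at hn
  have hnR : R < (n : ℝ) := by
    have e1 : (N : ℝ) < n := by exact_mod_cast hn.1
    refine lt_of_le_of_lt ?_ e1
    have e2 : (N : ℝ) = Real.exp L := by rw [hL, Real.exp_log hN0]
    rw [e2]
    calc R = Real.exp (Real.log R) := (Real.exp_log (by linarith)).symm
      _ ≤ _ := by
        apply Real.exp_le_exp.2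
        have : 0 ≤ Real.log R := Real.log_nonneg hR
        linarith
  have := hy n hnR
  congr 1
  rw [this, eval_add, hθ]
  push_cast
  ring

end Pool.Agent.J6H93.Fam
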