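import Pool.Agent.J6H93.Fam.Gm7
import Pool.Agent.J6H93.Fam.Sh1

/-!
# Joint normality over an arbitrary finite set of arguments
-/

set_option autoImplicit false

namespace Pool.Agent.J6H93.Fam

open Finset Filter Polynomial
open Pool.Agent.N586.RT (ff logpow log_ge Fs mem_Fs card_Fs)
open Pool.Agent.Y933.KD (e norm_e)
open Pool.Agent.N586.JT (NwT)

open Classical in
/-- **joint normality from exponential sums, uniformly in the family** -/
theorem ug {r : ℕ} (A₀ : ℝ) (hA₀ : 0 ≤ A₀) (D s : ℕ) (hs : 1 ≤ s) (δ β γ : ℝ) (hδ : 0 < δ)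
    (hβ : 0 < β) (hδβ : 2 * δ + β < 1) (hγ : γ = (1 - 2 * δ - β) / 8) (B w : ℕ) (ε : ℝ)
    (hε : 0 < ε) :
    ∃ n₀ : ℕ, ∀ n : ℕ, n₀ ≤ n → ∀ (I : Finset ℕ) (y : Fin r → ℕ → ℝ), I.Nonempty →
      (∀ h : Fin r → ℤ, h ≠ 0 → (∀ j, |(h j : ℝ)| ≤ Real.exp ((Real.log n) ^ (β + 2 * γ))) →
        ∀ lam : ℝ, (n : ℝ) ^ A₀ * Real.exp (-(Real.log n) ^ (β + 2 * γ)) ≤ |lam| →
        |lam| ≤ Real.exp ((Real.log n) ^ (1 + (δ + γ))) → ∀ G : ℝ[X], G.natDegree ≤ D →
        ‖∑ t ∈ I, e (lam * (G.eval (t : ℝ) + ∑ j, (h j : ℝ) * y j t))‖ ≤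
          2 * I.card * Real.exp (-(Real.log n) ^ (β + 2 * γ))) →
      ((I.filter (fun t : ℕ => ¬ ∀ (b : ℕ) (H : Fin s → Fin r → ℤ)
        (g : Fin s → ℤ[X]) (m : Fin s → ℕ), 2 ≤ b → b ≤ B →
        SmlU D (Real.exp ((Real.log n) ^ β)) H g m →
        NwT b w ((Real.log n) ^ (1 + δ)) ε ((A₀ / Real.log 2 + ε) * Real.log n)
          (fun i => (∑ j, (H i j : ℝ) * y j t + aeval (t : ℝ) (g i)) / m i))).card : ℝ) ≤
        I.card * Real.exp (-(Real.log n) ^ β) := by
  have hγ0 : 0 < γ := by rw [hγ]; linarith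
  obtain ⟨β', hβ'⟩ : ∃ β' : ℝ, β' = β + γ := ⟨_, rfl⟩
  obtain ⟨β2, hβ2⟩ : ∃ β2 : ℝ, β2 = β + 2 * γ := ⟨_, rfl⟩
  have hββ : β < β' := by linarith
  have hββ2 : β' < β2 := by linarith
  have hβ2δ : 2 * (δ + γ) + β2 < 1 := by rw [hβ2, hγ]; linarith
  rw [← hβ2]
  obtain ⟨c0, hc0, M1, hM1⟩ := nf δ (δ + γ) β' A₀ hδ (by linarith) (by linarith)
    (by linarith) hA₀ w s hs ε hε B
  have hsR : (1 : ℝ) ≤ s := by exact_mod_cast hs
  obtain ⟨K0, hK0⟩ : ∃ K0 : ℝ, K0 = Real.log (B + 1) := ⟨_, rfl⟩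
  have hB0 : (0 : ℝ) ≤ B := Nat.cast_nonneg _
  have hK0b : 0 ≤ K0 := by rw [hK0]; exact Real.log_nonneg (by linarith)
  obtain ⟨Q, hQ⟩ : ∃ Q : ℕ, Q = 2 * r * s + (2 * D + 3) * s := ⟨_, rfl⟩
  obtain ⟨M2, hM2⟩ := eventually_atTop.1 ((logpow hββ ((K0 + Q + 3) / c0)).and
    ((log_ge 1).and ((eventually_ge_atTop 2).and
    ((logpow hβ 2).and ((logpow hββ2 (2 * s + 3)).and ((logpow (by linarith : β < β2) (s + 4)).and
    ((logpow (by linarith : β2 < 1) 2).and (logpow (by linarith : 0 < β2) 3))))))))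
  refine ⟨max M1 M2, fun n hn I y hIne hES => ?_⟩
  obtain ⟨hb, hL1, hn2, hv, hu, hu2, hu3, hu4⟩ := hM2 n (le_of_max_le_right hn)
  have hNF := hM1 n (le_of_max_le_left hn)
  have hnR : (2 : ℝ) ≤ n := by exact_mod_cast hn2
  have hn0 : (0 : ℝ) < n := by linarith
  obtain ⟨L, hL⟩ : ∃ L : ℝ, L = Real.log n := ⟨_, rfl⟩
  rw [← hL] at hb hL1 hv hu hu2 hu3 hu4 hNF hES ⊢
  rw [Real.rpow_zero, mul_one] at hv hu4
  rw [Real.rpow_one] at hu3
  have hL0 : 0 < L := by linarith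
  have hnL : (n : ℝ) = Real.exp L := by rw [hL, Real.exp_log hn0]
  obtain ⟨V, hV⟩ : ∃ V : ℝ, V = Real.exp (L ^ β) := ⟨_, rfl⟩
  have hLL : L ^ β ≤ L ^ β' := Real.rpow_le_rpow_of_exponent_le hL1 hββ.le
  rw [← hV]
  have hV1 : 1 ≤ V := by
    rw [hV]
    exact Real.one_le_exp (by positivity)
  have hV0 : 0 < V := by linarith
  have h3V : 3 * V ≤ V ^ 2 := by
    have h1 : (3 : ℝ) ≤ V := by
      rw [hV]
      have := Real.add_one_le_exp (L ^ β)
      linarith
    nlinarith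
  obtain ⟨τ, hτ⟩ : ∃ τ : ℝ, τ = L ^ β' := ⟨_, rfl⟩
  rw [← hτ] at hNF hb hu hLL
  have hτ1 : 1 ≤ τ := by rw [hτ]; exact Real.one_le_rpow hL1 (by linarith)
  have hLβ1 : (1 : ℝ) ≤ L ^ β := Real.one_le_rpow hL1 hβ.le
  obtain ⟨W, hW⟩ : ∃ W : ℝ, W = L ^ β2 := ⟨_, rfl⟩
  rw [← hW] at hu hu2 hu3 hu4 hES
  have hI0 : (0 : ℝ) < (I.card : ℝ) := by exact_mod_cast hIne.card_pos
  obtain ⟨RR, hRR⟩ : ∃ RR : ℝ, RR = I.card * Real.exp (-(c0 * τ)) := ⟨_, rfl⟩
  have hR0 : 0 ≤ RR := by rw [hRR]; exact mul_nonneg hI0.le (Real.exp_pos _).le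
  obtain ⟨S, hS⟩ : ∃ S : Finset ((((Fin s → Fin r → ℤ) × (Fin s → ℤ[X])) × (Fin s → ℕ)) × ℕ), S =
    (((Fintype.piFinset fun _ => Fintype.piFinset fun _ => Finset.Icc (-⌊V⌋) ⌊V⌋) ×ˢ
      (Fintype.piFinset fun _ => Fs D ⌊V⌋)) ×ˢ
      (Fintype.piFinset fun _ => Finset.Icc 1 ⌊V⌋₊)) ×ˢ Finset.range (B + 1) := ⟨_, rfl⟩
  obtain ⟨bad, hbad⟩ : ∃ bad : (((Fin s → Fin r → ℤ) × (Fin s → ℤ[X])) × (Fin s → ℕ)) × ℕ →
    Finset ℕ, bad = fun z => I.filter (fun t : ℕ =>
      SmlU D V z.1.1.1 z.1.1.2 z.1.2 ∧ 2 ≤ z.2 ∧ z.2 ≤ B ∧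
      ¬ NwT z.2 w (L ^ (1 + δ)) ε ((A₀ / Real.log 2 + ε) * L)
        (fun i => (∑ j, (z.1.1.1 i j : ℝ) * y j t + aeval (t : ℝ) (z.1.1.2 i)) / z.1.2 i)) :=
    ⟨_, rfl⟩
  have hsub : I.filter (fun t : ℕ => ¬ ∀ (b : ℕ) (H : Fin s → Fin r → ℤ)
        (g : Fin s → ℤ[X]) (m : Fin s → ℕ), 2 ≤ b → b ≤ B → SmlU D V H g m →
        NwT b w (L ^ (1 + δ)) ε ((A₀ / Real.log 2 + ε) * L)
          (fun i => (∑ j, (H i j : ℝ) * y j t + aeval (t : ℝ) (g i)) / m i)) ⊆ S.biUnion bad := by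
    intro t ht
    rw [Finset.mem_filter] at ht
    obtain ⟨ht1, ht2⟩ := ht
    simp only [not_forall] at ht2
    obtain ⟨b, H, g, m, hb2, hbB, hsml, hno⟩ := ht2
    rw [Finset.mem_biUnion]
    refine ⟨(((H, g), m), b), ?_, ?_⟩
    · rw [hS, Finset.mem_product, Finset.mem_product, Finset.mem_product]
      refine ⟨⟨⟨?_, ?_⟩, ?_⟩, ?_⟩
      · rw [Fintype.mem_piFinset]
        intro i
        rw [Fintype.mem_piFinset]
        intro j
        rw [Finset.mem_Icc]
        have h1 := abs_le.1 (hsml.1 i j)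
        constructor
        · have : -(H i j) ≤ ⌊V⌋ := by
            rw [Int.le_floor]
            push_cast
            linarith
          simp only
          omega
        · exact Int.le_floor.2 h1.2
      · rw [Fintype.mem_piFinset]
        intro i
        refine mem_Fs (hsml.2.1 i) fun l => Int.le_floor.2 ?_
        push_cast
        exact hsml.2.2.1 i l
      · rw [Fintype.mem_piFinset]
        intro i
        rw [Finset.mem_Icc]
        exact ⟨hsml.2.2.2.1 i, Nat.le_floor (hsml.2.2.2.2.1 i)⟩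
      · rw [Finset.mem_range]
        simp only
        omega
    · rw [hbad]
      simp only [Finset.mem_filter]
      exact ⟨ht1, hsml, hb2, hbB, hno⟩
  have hone : ∀ z ∈ S, ((bad z).card : ℝ) ≤ RR := by
    intro z _
    by_cases hz : SmlU D V z.1.1.1 z.1.1.2 z.1.2 ∧ 2 ≤ z.2 ∧ z.2 ≤ B
    · obtain ⟨hz1, hz6, hz7⟩ := hz
      have key := hNF z.2 hz6 hz7 ℕ I
        (fun t i => (∑ j, (z.1.1.1 i j : ℝ) * y j t + aeval (t : ℝ) (z.1.1.2 i)) / z.1.2 i) hIne
        (by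
          intro h hh hhW θ hθ1 hθ2
          obtain ⟨M, c, hM1, hMV, hcne, hc, hcabs⟩ := clear_den hz1.2.2.2.1 hz1.2.2.2.2.1 h hh
          have hM0 : 0 < M := by linarith
          have hVs : V ^ s = Real.exp (s * L ^ β) := by rw [hV, ← Real.exp_nat_mul]
          have hup : (s : ℝ) * ((Real.exp τ * V ^ s) * V) ≤ Real.exp W := by
            have e1 : (s : ℝ) ≤ Real.exp s := by
              have := Real.add_one_le_exp (s : ℝ)
              linarith
            calc (s : ℝ) * ((Real.exp τ * V ^ s) * V) ≤ Real.exp s * ((Real.exp τ * V ^ s) * V) := by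
                  gcongr
              _ = Real.exp (s + (τ + s * L ^ β + L ^ β)) := by
                rw [hVs, hV, Real.exp_add, Real.exp_add, Real.exp_add]
              _ ≤ _ := by
                apply Real.exp_le_exp.2
                have e2 : (s : ℝ) ≤ s * τ := le_mul_of_one_le_right (by linarith) hτ1
                have e3 : (s : ℝ) * L ^ β ≤ s * τ := by gcongr
                linarith
          have h7 := hES (fun j => ∑ i, c i * z.1.1.1 i j) (hz1.2.2.2.2.2 c hcne)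
            (by
              intro j
              refine le_trans ?_ hup
              push_cast
              refine (Finset.abs_sum_le_sum_abs _ _).trans ?_
              calc ∑ i, |(c i : ℝ) * (z.1.1.1 i j : ℝ)| ≤ ∑ _i : Fin s, (Real.exp τ * V ^ s) * V := by
                    refine Finset.sum_le_sum fun i _ => ?_
                    rw [abs_mul]
                    refine mul_le_mul ((hcabs i).trans ?_) (hz1.1 i j) (abs_nonneg _) (by positivity)
                    have := hhW i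
                    gcongr
                _ = _ := by rw [sum_const, card_univ, Fintype.card_fin, nsmul_eq_mul])
            (θ / M)
            (by
              rw [abs_div, abs_of_pos hM0, le_div_iff₀ hM0]
              refine le_trans ?_ hθ1
              have e1 : Real.exp (-W) * M ≤ 1 := by
                calc Real.exp (-W) * M ≤ Real.exp (-W) * Real.exp (s * L ^ β) := by
                      rw [← hVs]
                      gcongr
                  _ = Real.exp (-W + s * L ^ β) := by rw [Real.exp_add]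
                  _ ≤ 1 := by
                      rw [Real.exp_le_one_iff]
                      linarith
              calc (n : ℝ) ^ A₀ * Real.exp (-W) * M = (n : ℝ) ^ A₀ * (Real.exp (-W) * M) := by ring
                _ ≤ (n : ℝ) ^ A₀ * 1 := by gcongr
                _ = _ := mul_one _)
            (by
              rw [abs_div, abs_of_pos hM0]
              exact (div_le_self (abs_nonneg _) hM1).trans hθ2)
            (∑ i, Polynomial.C (c i : ℝ) * (z.1.1.2 i).map (Int.castRingHom ℝ))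
            (by
              refine natDegree_sum_le_of_forall_le _ _ fun i _ => ?_
              refine (natDegree_C_mul_le _ _).trans ?_
              exact natDegree_map_le.trans (hz1.2.1 i))
          have h8 : ∀ t : ℕ, θ * ∑ i, (h i : ℝ) * ((∑ j, (z.1.1.1 i j : ℝ) * y j t +
              aeval (t : ℝ) (z.1.1.2 i)) / z.1.2 i) = θ / M * ((∑ i, Polynomial.C (c i : ℝ) *
              (z.1.1.2 i).map (Int.castRingHom ℝ)).eval (t : ℝ) +
              ∑ j, (((∑ i, c i * z.1.1.1 i j : ℤ)) : ℝ) * y j t) := by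
            intro t
            rw [comb_y hz1 (fun j => y j t) hM1 hc]
            ring
          simp only [h8]
          refine h7.trans ?_
          have e1 : 2 * Real.exp (-W) ≤ Real.exp (-τ) := by
            have e2 : (2 : ℝ) ≤ Real.exp 1 := by
              have := Real.add_one_le_exp (1 : ℝ)
              linarith
            calc 2 * Real.exp (-W) ≤ Real.exp 1 * Real.exp (-W) := by gcongr
              _ = Real.exp (1 + -W) := by rw [Real.exp_add]
              _ ≤ _ := by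
                  apply Real.exp_le_exp.2
                  have h0 : 0 ≤ (s : ℝ) * τ := by positivity
                  linarith
          calc 2 * (I.card : ℝ) * Real.exp (-W) = I.card * (2 * Real.exp (-W)) := by ring
            _ ≤ _ := mul_le_mul_of_nonneg_left e1 hI0.le)
      refine le_trans (Nat.cast_le.2 (Finset.card_le_card fun t ht => ?_)) (key.trans ?_)
      · rw [hbad] at ht
        simp only [Finset.mem_filter] at ht
        rw [Finset.mem_filter]
        exact ⟨ht.1, ht.2.2.2.2⟩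
      · rw [hRR]
    · have h1 : bad z = ∅ := by
        rw [hbad]
        simp only
        rw [Finset.filter_eq_empty_iff]
        rintro t _ ⟨h2, h3, h4, _⟩
        exact hz ⟨h2, h3, h4⟩
      rw [h1, Finset.card_empty, Nat.cast_zero]
      exact hR0
  have hScard : ((S.card : ℕ) : ℝ) ≤ (B + 1) * V ^ Q := by
    rw [hS, Finset.card_product, Finset.card_product, Finset.card_product,
      Fintype.card_piFinset_const, Fintype.card_piFinset_const, Fintype.card_piFinset_const,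
      Fintype.card_piFinset_const, Nat.card_Icc,
      Nat.add_sub_cancel, Finset.card_range, Int.card_Icc]
    push_cast
    have h1 := card_Fs D (Int.floor_nonneg.2 (by linarith : (0 : ℝ) ≤ V))
    have h2 := Nat.floor_le (by linarith : (0 : ℝ) ≤ V)
    have h3 := Int.floor_le V
    have h00 : 0 ≤ ⌊V⌋ := Int.floor_nonneg.2 (by linarith : (0 : ℝ) ≤ V)
    have h0 : (0 : ℝ) ≤ (⌊V⌋ : ℝ) := by exact_mod_cast h00
    have h5 : 2 * (⌊V⌋ : ℝ) + 1 ≤ V ^ 2 := by linarith
    have h4 : ((Fs D ⌊V⌋).card : ℝ) ≤ (V ^ 2) ^ (D + 1) := by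
      refine h1.trans ?_
      gcongr
    have h6 : (((⌊V⌋ + 1 - -⌊V⌋).toNat : ℕ) : ℝ) ≤ V ^ 2 := by
      have e1 : (((⌊V⌋ + 1 - -⌊V⌋).toNat : ℕ) : ℤ) = ⌊V⌋ + 1 - -⌊V⌋ := Int.toNat_of_nonneg (by omega)
      have e2 : (((⌊V⌋ + 1 - -⌊V⌋).toNat : ℕ) : ℝ) = ((⌊V⌋ + 1 - -⌊V⌋ : ℤ) : ℝ) := by
        rw [← e1]
        norm_cast
      rw [e2]
      push_cast
      linarith
    have p1 : (0 : ℝ) ≤ (((⌊V⌋ + 1 - -⌊V⌋).toNat : ℕ) : ℝ) := Nat.cast_nonneg _
    have p2 : (0 : ℝ) ≤ ((Fs D ⌊V⌋).card : ℝ) := Nat.cast_nonneg _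
    have p3 : (0 : ℝ) ≤ (⌊V⌋₊ : ℝ) := Nat.cast_nonneg _
    generalize (((⌊V⌋ + 1 - -⌊V⌋).toNat : ℕ) : ℝ) = X at h6 p1 ⊢
    generalize ((Fs D ⌊V⌋).card : ℝ) = Y at h4 p2 ⊢
    generalize (⌊V⌋₊ : ℝ) = Z at h2 p3 ⊢
    calc (X ^ r) ^ s * Y ^ s * Z ^ s * (B + 1)
        ≤ ((V ^ 2) ^ r) ^ s * ((V ^ 2) ^ (D + 1)) ^ s * V ^ s * (B + 1) := by
          gcongr
      _ = _ := by
        rw [hQ]
        ring
  have hfin : ((B + 1) * V ^ Q * Real.exp (-(c0 * τ))) ≤ Real.exp (-L ^ β) := by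
    have e1 : V ^ Q = Real.exp (Q * L ^ β) := by
      rw [hV, ← Real.exp_nat_mul]
    have e3 : ((B : ℝ) + 1) = Real.exp K0 := by
      rw [hK0, Real.exp_log (by linarith)]
    rw [e1, e3, ← Real.exp_add, ← Real.exp_add]
    apply Real.exp_le_exp.2
    have h2 : (K0 + Q + 3) * L ^ β ≤ c0 * τ := by
      have h3 : (K0 + Q + 3) * L ^ β =
          c0 * ((K0 + Q + 3) / c0 * L ^ β) := by
        field_simp
      rw [h3]
      exact mul_le_mul_of_nonneg_left hb hc0.le
    have h5 : K0 ≤ K0 * L ^ β := le_mul_of_one_le_right hK0b hLβ1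
    linarith
  have hfin2 : (B + 1) * V ^ Q * RR ≤ I.card * Real.exp (-L ^ β) := by
    have := mul_le_mul_of_nonneg_left hfin hI0.le
    rw [hRR]
    linarith
  calc _ ≤ (((S.biUnion bad).card : ℕ) : ℝ) := by
        exact_mod_cast Finset.card_le_card hsub
    _ ≤ ∑ z ∈ S, ((bad z).card : ℝ) := by exact_mod_cast Finset.card_biUnion_le
    _ ≤ ∑ _z ∈ S, RR := sum_le_sum hone
    _ = (S.card : ℝ) * RR := by rw [sum_const, nsmul_eq_mul]
    _ ≤ ((B + 1) * V ^ Q) * RR := by gcongr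
    _ ≤ _ := by linarith

end Pool.Agent.J6H93.Fam
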