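import Pool.Agent.J6H93.Fam.Al4
import Pool.Agent.J6H93.Fam.Sh2

/-!
# The values of real algebraic functions at the integers of short intervals
-/

set_option autoImplicit false

namespace Pool.Agent.J6H93.Fam

open Finset Filter Topology Polynomial
open Pool.Agent.N586.RT (logpow log_ge)
open Pool.Agent.N586.JT (NwT)
open Pool.Agent.Y933.KD (e norm_e)

open Classical in
/-- **tuples of values of algebraic functions, short intervals** -/
theorem alg_short {r : ℕ} {f : Fin r → ℝ → ℝ} (hf : ∀ j, AlgFun (f j)) (hind : IndepP f) (η : ℝ)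
    (hη : 0 < η) : ∃ A : ℝ, 0 < A ∧ ∀ s : ℕ, 1 ≤ s → ∀ δ β : ℝ, 0 < δ → 0 < β → 2 * δ + β < 1 →
    ∀ (B w : ℕ) (ε : ℝ), 0 < ε → ∃ u₀ : ℕ, ∀ u : ℕ, u₀ ≤ u → ∀ l : ℕ, (u : ℝ) ^ η ≤ l → l ≤ u →
      (((Finset.Ioc u (u + l)).filter (fun t : ℕ => ¬ ∀ (b : ℕ) (H : Fin s → Fin r → ℤ)
        (g : Fin s → ℤ[X]) (m : Fin s → ℕ), 2 ≤ b → b ≤ B →
        SmlU 0 (Real.exp ((Real.log u) ^ β)) H g m →
        NwT b w ((Real.log u) ^ (1 + δ)) ε (A * Real.log u)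
          (fun i => (∑ j, (H i j : ℝ) * f j t + aeval (t : ℝ) (g i)) / m i))).card : ℝ) ≤
        l * Real.exp (-(Real.log u) ^ β) := by
  obtain ⟨q, p, Φ, hq, hΦ, halg, hre, hv, hex⟩ := alg_ex hf
  obtain ⟨K, A₀, C₁, hA₀, hC₁, hLB⟩ := lb_exists hq hΦ halg hre hv hind
  obtain ⟨R, C, E, hR, hC, hE⟩ := hex K
  obtain ⟨μ, hμ⟩ : ∃ μ : ℝ, μ = min (η / 4) (2 / 5) := ⟨_, rfl⟩
  have hμ0 : 0 < μ := by rw [hμ]; positivity
  have hμ1 : μ ≤ η / 4 := by rw [hμ]; exact min_le_left _ _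
  have hμ2 : μ ≤ 2 / 5 := by rw [hμ]; exact min_le_right _ _
  obtain ⟨κ₀, hκ₀, hU⟩ := U1s q p K hq R C hR hC f _ E hE A₀ C₁ hC₁ hLB 0 μ hμ0 hμ2
  have hl2 : 0 < Real.log 2 := Real.log_pos (by norm_num)
  obtain ⟨A', hA'⟩ : ∃ A' : ℝ, A' = A₀ + κ₀ := ⟨_, rfl⟩
  have hA'0 : 0 ≤ A' := by rw [hA']; linarith
  refine ⟨A' / Real.log 2 + 1, by positivity, ?_⟩
  intro s hs δ β hδ hβ hδβ B w ε hε
  obtain ⟨γ, hγ⟩ : ∃ γ : ℝ, γ = (1 - 2 * δ - β) / 8 := ⟨_, rfl⟩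
  have hγ0 : 0 < γ := by rw [hγ]; linarith
  obtain ⟨β2, hβ2⟩ : ∃ β2 : ℝ, β2 = β + 2 * γ := ⟨_, rfl⟩
  have hβ20 : 0 < β2 := by linarith
  have hβ2δ : 2 * (δ + γ) + β2 < 1 := by rw [hβ2, hγ]; linarith
  obtain ⟨N1, hN1⟩ := hU (δ + γ) β2 (by linarith) hβ20 hβ2δ
  obtain ⟨N2, hN2⟩ := ug (r := r) A' hA'0 0 s hs δ β γ hδ hβ hδβ hγ B w (min ε 1)
    (lt_min hε one_pos)
  rw [← hβ2] at hN2
  obtain ⟨N3, hN3⟩ := eventually_atTop.1 (((logpow (by linarith : β2 < 1) (4 / η)).and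
    (log_ge (4 / η))).and ((eventually_ge_atTop 2).and (log_ge 1)))
  refine ⟨max (max N1 N2) N3, fun u hu l hl1 hl2 => ?_⟩
  have h1 := hN1 u (le_of_max_le_left (le_of_max_le_left hu))
  have h2 := hN2 u (le_of_max_le_right (le_of_max_le_left hu))
  obtain ⟨⟨h3, h4⟩, h5, h6⟩ := hN3 u (le_of_max_le_right hu)
  have huR : (2 : ℝ) ≤ u := by exact_mod_cast h5
  have hu0 : (0 : ℝ) < u := by linarith
  have hu1 : (1 : ℝ) ≤ u := by linarith
  have hlu : (l : ℝ) ≤ u := by exact_mod_cast hl2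
  have hl0 : (0 : ℝ) < l := lt_of_lt_of_le (by positivity) hl1
  have hl0' : 0 < l := by exact_mod_cast hl0
  have hcard : (Finset.Ioc u (u + l)).card = l := by
    rw [Nat.card_Ioc, Nat.add_sub_cancel_left]
  have hIne : (Finset.Ioc u (u + l)).Nonempty := by
    rw [← Finset.card_pos, hcard]
    exact hl0'
  obtain ⟨L, hL⟩ : ∃ L : ℝ, L = Real.log u := ⟨_, rfl⟩
  rw [← hL] at h1 h2 h3 h4 h6 ⊢
  rw [Real.rpow_one] at h3
  have hL0 : 0 < L := by linarith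
  have hexp : ∀ a : ℝ, (u : ℝ) ^ a = Real.exp (a * L) := by
    intro a
    rw [Real.rpow_def_of_pos hu0, hL, mul_comm]
  have hμu : (u : ℝ) ^ (2 * μ) ≤ u := by
    calc (u : ℝ) ^ (2 * μ) ≤ (u : ℝ) ^ (1 : ℝ) :=
          Real.rpow_le_rpow_of_exponent_le hu1 (by linarith)
      _ = u := Real.rpow_one _
  have hsmall : 2 * (u : ℝ) ^ (2 * μ) ≤ l * Real.exp (-L ^ β2) := by
    have e1 : (2 : ℝ) ≤ Real.exp (η / 4 * L) := by
      have e2 := Real.add_one_le_exp (η / 4 * L)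
      have e3 : 1 ≤ η / 4 * L := by
        rw [div_le_iff₀ hη] at h4
        linarith
      linarith
    calc 2 * (u : ℝ) ^ (2 * μ) ≤ Real.exp (η / 4 * L) * Real.exp (2 * μ * L) := by
          rw [hexp]
          gcongr
      _ = Real.exp (η / 4 * L + 2 * μ * L) := by rw [Real.exp_add]
      _ ≤ Real.exp (η * L + -L ^ β2) := by
          apply Real.exp_le_exp.2
          have e2 : L ^ β2 ≤ η / 4 * L := by
            rw [div_mul_eq_mul_div, div_le_iff₀ hη] at h3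
            linarith
          have e3 : 2 * μ * L ≤ 2 * (η / 4) * L := by gcongr
          linarith
      _ = (u : ℝ) ^ η * Real.exp (-L ^ β2) := by rw [Real.exp_add, hexp]
      _ ≤ _ := by gcongr
  have key := h2 (Finset.Ioc u (u + l)) (fun j t => f j t) hIne (by
    intro h hh hhV lam hlam1 hlam2 G hG
    have h7 := h1 (u + l) (Nat.le_add_right _ _) (by push_cast; linarith) h hh hhV lam
      (by rw [← hA']; exact hlam1) hlam2 G hG
    refine h7.trans ?_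
    rw [hcard, Nat.add_sub_cancel_left]
    linarith)
  rw [hcard] at key
  refine le_trans (Nat.cast_le.2 (Finset.card_le_card ?_)) key
  intro t ht
  rw [Finset.mem_filter] at ht ⊢
  refine ⟨ht.1, fun hcon => ht.2 ?_⟩
  intro b H g m hb hbB hsml k s' N D hk hkw hD hsN
  refine (hcon b H g m hb hbB hsml k s' N D hk hkw hD hsN).trans ?_
  have e1 : min ε 1 * (N : ℝ) ≤ ε * N := by
    have := min_le_left ε 1
    gcongr
  have e2 : (A' / Real.log 2 + min ε 1) * L ≤ (A' / Real.log 2 + 1) * L := by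
    have := min_le_right ε 1
    gcongr
  linarith

end Pool.Agent.J6H93.Fam
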