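import Pool.Agent.J6H93.Fam.Br1
import Pool.Agent.J6H93.Fam.Gm7

/-!
# The real roots of `P(x) = n`
-/

set_option autoImplicit false

namespace Pool.Agent.J6H93.Fam

open Finset Filter Topology Polynomial
open Pool.Agent.N586.JT (NwT)
open Pool.Agent.N586.RT (logpow log_ge)

/-- powers of germs -/
lemma pv_pow {q p : ℕ} {Φ : ℂ → ℂ} {t : ℝ} (ht : 0 < t) (i : ℕ) :
    (pv q p Φ t) ^ i = pv q (p * i) (fun s => Φ s ^ i) t := by
  have e1 : (t ^ ((p : ℝ) / q)) ^ i = t ^ (((p * i : ℕ) : ℝ) / q) := by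
    rw [← Real.rpow_natCast, ← Real.rpow_mul ht.le]
    congr 1
    push_cast
    ring
  unfold pv
  rw [mul_pow, ← Complex.ofReal_cpow ht.le ((p : ℝ) / q), ← Complex.ofReal_pow, e1,
    Complex.ofReal_cpow ht.le]

/-- the large roots of a polynomial -/
lemma poly_branch (P : ℝ[X]) (hd : 1 ≤ P.natDegree) (hlc : 0 < P.leadingCoeff) :
    ∃ Θ : ℂ → ℂ, AnalyticAt ℂ Θ 0 ∧
      Θ 0 = (((P.leadingCoeff⁻¹) ^ (1 / (P.natDegree : ℝ)) : ℝ) : ℂ) ∧
      ∃ X₀ > 0, ∀ x t : ℝ, X₀ < x → 0 < t → P.eval x = t →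
        (x : ℂ) = pv P.natDegree 1 Θ t := by
  obtain ⟨Q, hQ⟩ : ∃ Q : ℂ[X], Q = (P.reverse).map (algebraMap ℝ ℂ) := ⟨_, rfl⟩
  have hQ0 : Q.eval 0 = (P.leadingCoeff : ℂ) := by
    rw [hQ, ← coeff_zero_eq_eval_zero, coeff_map, coeff_zero_reverse]
    rfl
  have hQne : Q.eval 0 ≠ 0 := by
    rw [hQ0]
    exact_mod_cast hlc.ne'
  have hQan : AnalyticAt ℂ (fun u => (Q.eval u)⁻¹) 0 :=
    (Q.differentiable.analyticAt 0).inv hQne
  obtain ⟨Θ, h1, h2, η, hη, h3⟩ := inv_germ hd hQan (h₀ := P.leadingCoeff⁻¹) (by positivity)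
    (by rw [hQ0]; push_cast; rfl)
  refine ⟨Θ, h1, h2, η⁻¹, by positivity, fun x t hx ht hxt => ?_⟩
  have hx0 : 0 < x := lt_trans (by positivity) hx
  have h4 := h3 x⁻¹ t (by positivity) (by rwa [inv_lt_comm₀ hx0 hη]) ht (by
    have : Invertible x := invertibleOfNonzero hx0.ne'
    have e1 := eval₂_reverse_mul_pow (RingHom.id ℝ) x P
    rw [invOf_eq_inv] at e1
    have e2 : Q.eval ((x⁻¹ : ℝ) : ℂ) = (((P.reverse).eval x⁻¹ : ℝ) : ℂ) := by
      rw [hQ, eval_map]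
      exact eval₂_at_apply (algebraMap ℝ ℂ) x⁻¹
    have e3 : (P.reverse).eval x⁻¹ * x ^ P.natDegree = t := by
      rw [← hxt]
      simpa [eval₂_id] using e1
    rw [e2]
    have hxd : x ^ P.natDegree ≠ 0 := by positivity
    have e4 : (P.reverse).eval x⁻¹ = t / x ^ P.natDegree := by
      rw [eq_div_iff hxd]
      exact e3
    rw [e4]
    push_cast
    have hx' : (x : ℂ) ^ P.natDegree ≠ 0 := pow_ne_zero _ (by exact_mod_cast hx0.ne')
    have ht' : (t : ℂ) ≠ 0 := by exact_mod_cast ht.ne'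
    rw [inv_pow]
    generalize (x : ℂ) ^ P.natDegree = X at hx' ⊢
    field_simp)
  rw [one_div, inv_inv] at h4
  exact h4

end Pool.Agent.J6H93.Fam
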