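import Pool.Agent.J6H93.Fam.Br2

/-!
# The real roots of `P(x) = n`: the expansions of the powers, and normality
-/

set_option autoImplicit false

namespace Pool.Agent.J6H93.Fam

open Finset Filter Topology Polynomial
open Pool.Agent.N586.JT (NwT)
open Pool.Agent.N586.RT (logpow log_ge)

/-- the expansions of the powers of the large root -/
lemma poly_ex (P : ℝ[X]) (hd : 2 ≤ P.natDegree) (hlc : 0 < P.leadingCoeff) :
    ∃ (R C : ℝ) (y : Fin (P.natDegree - 1) → ℝ → ℝ) (φ : Fin (P.natDegree - 1) → ℕ → ℝ)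
      (E : Fin (P.natDegree - 1) → ℂ → ℂ) (C₁ X₀ : ℝ), 1 ≤ R ∧ 0 ≤ C ∧ 0 < C₁ ∧ 0 < X₀ ∧
      (∀ j, Ex P.natDegree (P.natDegree - 1) (P.natDegree - 2) R C (y j) (φ j) (E j)) ∧
      LB P.natDegree (P.natDegree - 1) (P.natDegree - 2) φ 0 C₁ ∧
      ∀ x t : ℝ, X₀ < x → 0 < t → P.eval x = t → ∀ j : Fin (P.natDegree - 1),
        x ^ ((j : ℕ) + 1) = y j t := by
  classical
  obtain ⟨d, hdd⟩ : ∃ d : ℕ, d = P.natDegree := ⟨_, rfl⟩
  obtain ⟨Θ, hΘ, hΘ0, X₀, hX₀, hroot⟩ := poly_branch P (by omega) hlc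
  rw [← hdd] at hd hΘ0 hroot ⊢
  have hd0 : (0 : ℝ) < d := by exact_mod_cast (by omega : 0 < d)
  obtain ⟨ρ, hρ⟩ : ∃ ρ : ℝ, ρ = (P.leadingCoeff⁻¹) ^ (1 / (d : ℝ)) := ⟨_, rfl⟩
  have hρ0 : 0 < ρ := by rw [hρ]; positivity
  rw [← hρ] at hΘ0
  have hj : ∀ j : Fin (d - 1), ∃ (R C : ℝ) (φ : ℕ → ℝ) (E : ℂ → ℂ), 1 ≤ R ∧ 0 ≤ C ∧
      (∀ k < d - 2 - (j : ℕ), φ k = 0) ∧ φ (d - 2 - j) = ρ ^ ((j : ℕ) + 1) ∧
      Ex d (d - 1) (d - 2) R C (fun t => (pv d (j + 1) (fun s => Θ s ^ ((j : ℕ) + 1)) t).re) φ E := by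
    intro j
    have hjd := j.2
    obtain ⟨R, C, φ, E, h1, h2, h3, h4⟩ := germ_ex (q := d) (by omega) ((j : ℕ) + 1) (j : ℕ)
      (hΘ.fun_pow ((j : ℕ) + 1))
    refine ⟨R, C, fun k => if k < d - 2 - (j : ℕ) then 0 else φ (k - (d - 2 - (j : ℕ))), E, h1, h2,
      ?_, ?_, ?_⟩
    rotate_left 2
    · have h5 := ex_shift (d - 2 - (j : ℕ)) h4
      have e1 : (j : ℕ) + 1 + (d - 2 - (j : ℕ)) = d - 1 := by omega
      have e2 : (j : ℕ) + (d - 2 - (j : ℕ)) = d - 2 := by omega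
      rw [e1, e2] at h5
      exact h5
    · intro k hk
      simp only
      rw [if_pos hk]
    · simp only
      rw [if_neg (by omega), Nat.sub_self, h3, hΘ0, ← Complex.ofReal_pow, Complex.ofReal_re]
  choose Rj Cj φ E h1 h2 h3 h4 h5 using hj
  have hR : ∀ j, Rj j ≤ 1 + ∑ i, Rj i := fun j => by
    have := Finset.single_le_sum (f := Rj) (fun i _ => (zero_le_one.trans (h1 i))) (mem_univ j)
    linarith
  have hC : ∀ j, Cj j ≤ ∑ i, Cj i := fun j =>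
    Finset.single_le_sum (f := Cj) (fun i _ => h2 i) (mem_univ j)
  obtain ⟨σ, hσ⟩ : ∃ σ : ℝ, σ = min 1 ρ := ⟨_, rfl⟩
  have hσ0 : 0 < σ := by rw [hσ]; exact lt_min one_pos hρ0
  have hσ1 : σ ≤ 1 := by rw [hσ]; exact min_le_left _ _
  have hσρ : σ ≤ ρ := by rw [hσ]; exact min_le_right _ _
  refine ⟨1 + ∑ i, Rj i, ∑ i, Cj i, _, φ, E, (σ ^ d)⁻¹, X₀, ?_, ?_, by positivity, hX₀,
    fun j => ex_mono (hR j) (hC j) (h5 j), ?_, ?_⟩
  · have := Finset.sum_nonneg fun i (_ : i ∈ (univ : Finset (Fin (d - 1)))) =>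
      (zero_le_one.trans (h1 i))
    linarith
  · exact Finset.sum_nonneg fun i _ => h2 i
  · intro h hh W hW
    have hne : (univ.filter fun j => h j ≠ 0).Nonempty := by
      obtain ⟨j, hj⟩ := Function.ne_iff.1 hh
      exact ⟨j, by simpa using hj⟩
    obtain ⟨j₀, hj₀, hmax⟩ := Finset.exists_max_image _ (fun j : Fin (d - 1) => (j : ℕ)) hne
    rw [Finset.mem_filter] at hj₀
    have hj₀d := j₀.2
    have hz : ∀ k' ≤ d - 2 - (j₀ : ℕ), ∀ j, j ≠ j₀ ∨ k' ≠ d - 2 - (j₀ : ℕ) →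
        (h j : ℝ) * φ j k' = 0 := by
      intro k' hk' j hjj
      by_cases hj0 : h j = 0
      · rw [hj0]
        simp
      · have hle := hmax j (by simpa using hj0)
        have hjd := j.2
        rw [h3 j k', mul_zero]
        rcases hjj with hjj | hjj
        · have : (j : ℕ) ≠ (j₀ : ℕ) := fun h => hjj (Fin.ext h)
          omega
        · omega
    refine ⟨d - 2 - (j₀ : ℕ), Nat.sub_le _ _, ?_, ?_, ?_, ?_⟩
    · rintro ⟨_, h7⟩
      have h8 : d - 1 - (d - 2 - (j₀ : ℕ)) = (j₀ : ℕ) + 1 := by omega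
      rw [h8] at h7
      have := Nat.le_of_dvd (by omega) h7
      omega
    · rw [zero_add]
      apply div_pos _ hd0
      rw [sub_pos]
      exact_mod_cast (by omega : d - 2 - (j₀ : ℕ) < d - 1)
    · intro k' hk' _
      exact Finset.sum_eq_zero fun j _ => hz k' hk'.le j (Or.inr hk'.ne)
    · rw [Finset.sum_eq_single j₀ (fun j _ hj => hz _ le_rfl j (Or.inl hj))
        (fun h9 => absurd (mem_univ _) h9), h4, abs_mul, abs_of_pos (by positivity : 0 < ρ ^ ((j₀ : ℕ) + 1))]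
      have h10 : (1 : ℝ) ≤ |(h j₀ : ℝ)| := by
        have := Int.one_le_abs hj₀.2
        exact_mod_cast this
      have hW1 : 1 ≤ W := h10.trans (hW j₀)
      have h11 : 1 ≤ W ^ (σ ^ d)⁻¹ := Real.one_le_rpow hW1 (by positivity)
      calc ((σ ^ d)⁻¹ * W ^ (σ ^ d)⁻¹)⁻¹ ≤ ((σ ^ d)⁻¹ * 1)⁻¹ := by gcongr
        _ = σ ^ d := by rw [mul_one, inv_inv]
        _ ≤ σ ^ ((j₀ : ℕ) + 1) := pow_le_pow_of_le_one hσ0.le hσ1 (by omega)
        _ ≤ ρ ^ ((j₀ : ℕ) + 1) := by gcongr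
        _ = 1 * ρ ^ ((j₀ : ℕ) + 1) := (one_mul _).symm
        _ ≤ _ := by gcongr
  · intro x t hx ht hxt j
    have h6 := hroot x t hx ht hxt
    have h7 : ((x ^ ((j : ℕ) + 1) : ℝ) : ℂ) =
        pv d (j + 1) (fun s => Θ s ^ ((j : ℕ) + 1)) t := by
      rw [Complex.ofReal_pow, h6, pv_pow ht, one_mul]
    show x ^ ((j : ℕ) + 1) = (pv d (j + 1) (fun s => Θ s ^ ((j : ℕ) + 1)) t).re
    rw [← h7, Complex.ofReal_re]

/-- the value of an integral polynomial of small degree -/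
lemma val_eq {d : ℕ} (f : ℤ[X]) (hf : f.natDegree < d) (x : ℝ) :
    aeval x f = ∑ j : Fin (d - 1), (f.coeff ((j : ℕ) + 1) : ℝ) * x ^ ((j : ℕ) + 1) + f.coeff 0 := by
  rw [aeval_eq_sum_range' (n := d) hf]
  obtain ⟨e, rfl⟩ : ∃ e, d = e + 1 := ⟨d - 1, by omega⟩
  rw [Finset.sum_range_succ', Nat.add_sub_cancel]
  rw [Fin.sum_univ_eq_sum_range (fun j => (f.coeff (j + 1) : ℝ) * x ^ (j + 1)) e]
  simp

open Classical in
/-- **the large roots of `P(x) = n`** -/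
theorem poly_main (P : ℝ[X]) (hd : 2 ≤ P.natDegree) (hlc : 0 < P.leadingCoeff) (δ β : ℝ)
    (hδ : 0 < δ) (hβ : 0 < β) (hδβ : 2 * δ + β < 1) (B w : ℕ) (ε : ℝ) (hε : 0 < ε) :
    ∃ X₀ : ℝ, 0 < X₀ ∧ ∃ n₀ : ℕ, ∀ n : ℕ, n₀ ≤ n → ∃ S : Finset ℕ,
      (S.card : ℝ) ≤ n * Real.exp (-(Real.log n) ^ β) ∧
      ∀ t : ℕ, 0 < t → t ≤ n → t ∉ S → ∀ x : ℝ, X₀ < x → P.eval x = t → ∀ (f : ℤ[X]) (m : ℕ),
      1 ≤ f.natDegree → f.natDegree < P.natDegree →
      (∀ i, |(f.coeff i : ℝ)| ≤ Real.exp ((Real.log n) ^ β)) → 1 ≤ m →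
      (m : ℝ) ≤ Real.exp ((Real.log n) ^ β) → ∀ b : ℕ, 2 ≤ b → b ≤ B →
      NwT b w ((Real.log n) ^ (1 + δ)) ε (ε * Real.log n) (fun _ : Fin 1 => aeval x f / m) := by
  obtain ⟨R, C, y, φ, E, C₁, X₀, hR, hC, hC₁, hX₀, hex, hLB, hroot⟩ := poly_ex P hd hlc
  obtain ⟨n₀, hn₀⟩ := U2 P.natDegree (P.natDegree - 1) (P.natDegree - 2) (by omega) R C hR hC y φ E
    hex 0 C₁ le_rfl hC₁ hLB 0 1 le_rfl δ β hδ hβ hδβ B w ε hε
  refine ⟨X₀, hX₀, n₀, fun n hn => ⟨_, hn₀ n hn, ?_⟩⟩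
  intro t ht htn htS x hx hxt f m hf1 hf2 hfc hm1 hm2 b hb hbB
  rw [Finset.mem_filter, not_and, not_not] at htS
  have htS' := htS (Finset.mem_Ioc.2 ⟨ht, htn⟩)
  have key := htS' b (fun _ j => f.coeff ((j : ℕ) + 1)) (fun _ => Polynomial.C (f.coeff 0))
    (fun _ => m) hb hbB
    (by
      refine ⟨fun _ j => hfc _, fun _ => by simp, fun _ l => ?_, fun _ => hm1, fun _ => hm2, ?_⟩
      · rw [coeff_C]
        split_ifs with h0
        · exact hfc 0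
        · simp only [Int.cast_zero, abs_zero]
          exact (Real.exp_pos _).le
      · intro c hc hcon
        have hc0 : c 0 ≠ 0 := by
          intro h
          apply hc
          funext i
          rw [Subsingleton.elim i 0, h]
          rfl
        have h1 := congrFun hcon ⟨f.natDegree - 1, by omega⟩
        simp only [Fin.sum_univ_one, Pi.zero_apply, mul_eq_zero] at h1
        rcases h1 with h1 | h1
        · exact hc0 h1
        · have h2 : f.natDegree - 1 + 1 = f.natDegree := by omega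
          rw [h2] at h1
          have h3 : f ≠ 0 := by
            rintro rfl
            simp at hf1
          exact h3 (leadingCoeff_eq_zero.1 h1))
  have ht' : (0 : ℝ) < (t : ℝ) := by exact_mod_cast ht
  have e1 : ∀ j, y j t = x ^ ((j : ℕ) + 1) := fun j => (hroot x t hx ht' hxt j).symm
  simp only [e1] at key
  have e2 : (fun _ : Fin 1 => (∑ j : Fin (P.natDegree - 1), (f.coeff ((j : ℕ) + 1) : ℝ) *
      x ^ ((j : ℕ) + 1) + aeval (t : ℝ) (Polynomial.C (f.coeff 0))) / (m : ℝ)) =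
      fun _ : Fin 1 => aeval x f / m := by
    funext _
    rw [val_eq f hf2 x]
    simp
  rw [e2, zero_div, zero_add] at key
  exact key

end Pool.Agent.J6H93.Fam
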