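import Pool.Agent.J6H93.Fam.Br3

/-!
# The real roots of `P(x) = n`: all signs
-/

set_option autoImplicit false

namespace Pool.Agent.J6H93.Fam

open Finset Filter Topology Polynomial
open Pool.Agent.N586.JT (NwT)
open Pool.Agent.N586.RT (logpow log_ge)

/-- the polynomial `f` is not constant, of degree less than `d`, and the coefficients and `m ≥ 1` are
at most `V` -/
def SmlP (d : ℕ) (V : ℝ) (f : ℤ[X]) (m : ℕ) : Prop :=
  1 ≤ f.natDegree ∧ f.natDegree < d ∧ (∀ i, |(f.coeff i : ℝ)| ≤ V) ∧ 1 ≤ m ∧ (m : ℝ) ≤ V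

lemma smlP_mono {d : ℕ} {V V' : ℝ} {f : ℤ[X]} {m : ℕ} (h : SmlP d V f m) (hV : V ≤ V') :
    SmlP d V' f m :=
  ⟨h.1, h.2.1, fun i => (h.2.2.1 i).trans hV, h.2.2.2.1, h.2.2.2.2.trans hV⟩

lemma comp_deg {R : Type*} [CommRing R] [IsDomain R] {τ : R} (hτ : τ ≠ 0) (f : R[X]) :
    (f.comp (Polynomial.C τ * X)).natDegree = f.natDegree := by
  rw [natDegree_comp, natDegree_C_mul_X τ hτ, mul_one]

lemma comp_small {d : ℕ} {V : ℝ} {f : ℤ[X]} {m : ℕ} {τ : ℤ} (hτ : τ = 1 ∨ τ = -1)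
    (h : SmlP d V f m) : SmlP d V (f.comp (Polynomial.C τ * X)) m := by
  have hτ0 : τ ≠ 0 := by rcases hτ with rfl | rfl <;> norm_num
  refine ⟨?_, ?_, fun i => ?_, h.2.2.2.1, h.2.2.2.2⟩
  · rw [comp_deg hτ0]; exact h.1
  · rw [comp_deg hτ0]; exact h.2.1
  · rw [comp_C_mul_X_coeff]
    push_cast
    rw [abs_mul]
    have h1 : |((τ : ℝ)) ^ i| = 1 := by
      rcases hτ with rfl | rfl <;> simp
    rw [h1, mul_one]
    exact h.2.2.1 i

open Classical in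
/-- one sign of the number and of the root -/
lemma one_sign (P : ℝ[X]) (hd : 2 ≤ P.natDegree) (σ τ : ℤ) (hσ : σ = 1 ∨ σ = -1)
    (hτ : τ = 1 ∨ τ = -1) (δ β : ℝ) (hδ : 0 < δ) (hβ : 0 < β) (hδβ : 2 * δ + β < 1) (B w : ℕ)
    (ε : ℝ) (hε : 0 < ε) :
    ∃ X₀ : ℝ, 0 < X₀ ∧ ∃ n₀ : ℕ, ∀ n : ℕ, n₀ ≤ n → ∃ S : Finset ℕ,
      (S.card : ℝ) ≤ n * Real.exp (-(Real.log n) ^ β) ∧
      ∀ t : ℕ, 0 < t → t ≤ n → t ∉ S → ∀ x : ℝ, X₀ < x → (σ : ℝ) * P.eval ((τ : ℝ) * x) = t →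
      ∀ (f : ℤ[X]) (m : ℕ), SmlP P.natDegree (Real.exp ((Real.log n) ^ β)) f m →
      ∀ b : ℕ, 2 ≤ b → b ≤ B →
      NwT b w ((Real.log n) ^ (1 + δ)) ε (ε * Real.log n)
        (fun _ : Fin 1 => aeval ((τ : ℝ) * x) f / m) := by
  have hσ0 : (σ : ℝ) ≠ 0 := by rcases hσ with rfl | rfl <;> norm_num
  have hτ0 : (τ : ℝ) ≠ 0 := by rcases hτ with rfl | rfl <;> norm_num
  obtain ⟨Q, hQ⟩ : ∃ Q : ℝ[X], Q = Polynomial.C (σ : ℝ) *
    P.comp (Polynomial.C (τ : ℝ) * X) := ⟨_, rfl⟩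
  have hQd : Q.natDegree = P.natDegree := by
    rw [hQ, natDegree_C_mul hσ0, comp_deg hτ0]
  have hQe : ∀ x : ℝ, Q.eval x = (σ : ℝ) * P.eval ((τ : ℝ) * x) := by
    intro x
    rw [hQ]
    simp
  have hQ0 : Q ≠ 0 := by
    rintro rfl
    rw [natDegree_zero] at hQd
    omega
  rcases lt_or_gt_of_ne (leadingCoeff_ne_zero.2 hQ0) with hneg | hpos
  · have h1 := Polynomial.tendsto_atBot_of_leadingCoeff_nonpos Q
      (natDegree_pos_iff_degree_pos.1 (by omega)) hneg.le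
    obtain ⟨X₁, hX₁⟩ := eventually_atTop.1 (h1.eventually_lt_atBot 0)
    refine ⟨max 1 X₁, by positivity, 0, fun n _ => ⟨∅, ?_, ?_⟩⟩
    · simp only [Finset.card_empty, Nat.cast_zero]
      positivity
    · intro t _ _ _ x hx hxt
      have h2 := hX₁ x ((le_max_right _ _).trans hx.le)
      rw [hQe, hxt] at h2
      exact absurd h2 (not_lt.2 (Nat.cast_nonneg _))
  · obtain ⟨X₀, hX₀, n₀, hn₀⟩ := poly_main Q (by omega) hpos δ β hδ hβ hδβ B w ε hε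
    refine ⟨X₀, hX₀, n₀, fun n hn => ?_⟩
    obtain ⟨S, hS1, hS2⟩ := hn₀ n hn
    refine ⟨S, hS1, fun t ht htn htS x hx hxt f m hf b hb hbB => ?_⟩
    have hf' := comp_small hτ hf
    rw [← hQd] at hf'
    have key := hS2 t ht htn htS x hx (by rw [hQe, hxt]) (f.comp (Polynomial.C τ * X)) m hf'.1
      hf'.2.1 hf'.2.2.1 hf'.2.2.2.1 hf'.2.2.2.2 b hb hbB
    have e1 : aeval x (f.comp (Polynomial.C τ * X)) = aeval ((τ : ℝ) * x) f := by
      rw [aeval_comp]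
      simp
    rw [e1] at key
    exact key

lemma pm_cases (σ : ({1, -1} : Finset ℤ)) : (σ : ℤ) = 1 ∨ (σ : ℤ) = -1 := by
  have := σ.2
  rw [Finset.mem_insert, Finset.mem_singleton] at this
  exact this

lemma pm_card : (((univ : Finset ({1, -1} : Finset ℤ)).card : ℕ) : ℝ) = 2 := by
  rw [Finset.card_univ, Fintype.card_coe]
  have : ({1, -1} : Finset ℤ).card = 2 := by decide
  rw [this]
  norm_num

/-- **all roots and all integers** -/
theorem poly_all (P : ℝ[X]) (hd : 2 ≤ P.natDegree) (δ β : ℝ)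
    (hδ : 0 < δ) (hβ : 0 < β) (hδβ : 2 * δ + β < 1) (B w : ℕ) (ε : ℝ) (hε : 0 < ε) :
    ∃ M₀ : ℕ, ∀ M : ℕ, M₀ ≤ M →
      (({n : ℤ | |n| ≤ M ∧ ¬ ∀ x : ℝ, P.eval x = n → ∀ (f : ℤ[X]) (m : ℕ),
        SmlP P.natDegree (Real.exp ((Real.log M) ^ β)) f m → ∀ b : ℕ, 2 ≤ b → b ≤ B →
        NwT b w ((Real.log M) ^ (1 + δ)) ε (ε * Real.log M)
          (fun _ : Fin 1 => aeval x f / m)}.ncard : ℕ) : ℝ) ≤
        M * Real.exp (-(Real.log M) ^ β) := by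
  classical
  obtain ⟨β1, hβ1⟩ : ∃ β1 : ℝ, β1 = β + (1 - 2 * δ - β) / 2 := ⟨_, rfl⟩
  have hββ : β < β1 := by linarith
  have hδβ1 : 2 * δ + β1 < 1 := by linarith
  have hone : ∀ σ τ : ({1, -1} : Finset ℤ), ∃ X₀ : ℝ, 0 < X₀ ∧ ∃ n₀ : ℕ, ∀ n : ℕ, n₀ ≤ n →
      ∃ S : Finset ℕ, (S.card : ℝ) ≤ n * Real.exp (-(Real.log n) ^ β1) ∧
      ∀ t : ℕ, 0 < t → t ≤ n → t ∉ S → ∀ x : ℝ, X₀ < x →
      ((σ : ℤ) : ℝ) * P.eval (((τ : ℤ) : ℝ) * x) = t →
      ∀ (f : ℤ[X]) (m : ℕ), SmlP P.natDegree (Real.exp ((Real.log n) ^ β1)) f m →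
      ∀ b : ℕ, 2 ≤ b → b ≤ B →
      NwT b w ((Real.log n) ^ (1 + δ)) ε (ε * Real.log n)
        (fun _ : Fin 1 => aeval (((τ : ℤ) : ℝ) * x) f / m) := fun σ τ =>
    one_sign P hd σ τ (pm_cases σ) (pm_cases τ) δ β1 hδ (by linarith) hδβ1 B w ε hε
  choose X₀ hX₀ n₀ hn₀ using hone
  obtain ⟨XX, hXX⟩ : ∃ XX : ℝ, XX = ∑ σ, ∑ τ, X₀ σ τ := ⟨_, rfl⟩
  have hXle : ∀ σ τ, X₀ σ τ ≤ XX := by
    intro σ τ
    rw [hXX]
    calc X₀ σ τ ≤ ∑ τ, X₀ σ τ :=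
          Finset.single_le_sum (f := fun τ => X₀ σ τ) (fun i _ => (hX₀ σ i).le) (mem_univ τ)
      _ ≤ _ := Finset.single_le_sum (f := fun σ => ∑ τ, X₀ σ τ)
          (fun i _ => Finset.sum_nonneg fun j _ => (hX₀ i j).le) (mem_univ σ)
  obtain ⟨C₀, hC₀⟩ : ∃ C₀ : ℝ, ∀ x : ℝ, |x| ≤ XX → |P.eval x| ≤ C₀ := by
    obtain ⟨C, hC⟩ := (isCompact_Icc (a := -XX) (b := XX)).exists_bound_of_continuousOn
      (f := fun x => P.eval x) P.continuous.continuousOn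
    exact ⟨C, fun x hx => hC x (abs_le.1 hx)⟩
  obtain ⟨c₀, hc₀⟩ : ∃ c₀ : ℕ, C₀ ≤ c₀ := exists_nat_ge C₀
  obtain ⟨N0, hN0⟩ : ∃ N0 : ℕ, N0 = ∑ σ, ∑ τ, n₀ σ τ := ⟨_, rfl⟩
  have hNle : ∀ σ τ, n₀ σ τ ≤ N0 := by
    intro σ τ
    rw [hN0]
    calc n₀ σ τ ≤ ∑ τ, n₀ σ τ :=
          Finset.single_le_sum (f := fun τ => n₀ σ τ) (fun i _ => Nat.zero_le _) (mem_univ τ)
      _ ≤ _ := Finset.single_le_sum (f := fun σ => ∑ τ, n₀ σ τ)
          (fun i _ => Nat.zero_le _) (mem_univ σ)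
  obtain ⟨M1, hM1⟩ := eventually_atTop.1 ((logpow hββ 5).and ((log_ge 1).and
    ((eventually_ge_atTop 2).and ((logpow (by linarith : β1 < 1) 2).and
    ((exp_ge_ev (1 / 2) (2 * c₀ + 1) (by norm_num)).and (logpow hβ 1))))))
  refine ⟨max N0 M1, fun M hM => ?_⟩
  obtain ⟨a1, a2, a3, a4, a5, a6⟩ := hM1 M (le_of_max_le_right hM)
  have hNM := le_of_max_le_left hM
  have hS := fun σ τ => hn₀ σ τ M ((hNle σ τ).trans hNM)
  choose S hS1 hS2 using hS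
  have hMR : (2 : ℝ) ≤ M := by exact_mod_cast a3
  have hM0 : (0 : ℝ) < M := by linarith
  obtain ⟨L, hL⟩ : ∃ L : ℝ, L = Real.log M := ⟨_, rfl⟩
  rw [← hL] at a1 a2 a4 a5 a6 hS1 hS2 ⊢
  rw [Real.rpow_one] at a4
  rw [Real.rpow_zero, mul_one] at a6
  have hML : (M : ℝ) = Real.exp L := by rw [hL, Real.exp_log hM0]
  have hLL : L ^ β ≤ L ^ β1 := Real.rpow_le_rpow_of_exponent_le a2 hββ.le
  obtain ⟨T, hT⟩ : ∃ T : Finset ℤ, T = Finset.Icc (-(c₀ : ℤ)) c₀ ∪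
    (univ : Finset ({1, -1} : Finset ℤ)).biUnion fun σ => (univ : Finset ({1, -1} : Finset ℤ)).biUnion
      fun τ => (S σ τ).image (fun t : ℕ => (σ : ℤ) * (t : ℤ)) := ⟨_, rfl⟩
  have hsub : {n : ℤ | |n| ≤ M ∧ ¬ ∀ x : ℝ, P.eval x = n → ∀ (f : ℤ[X]) (m : ℕ),
        SmlP P.natDegree (Real.exp (L ^ β)) f m → ∀ b : ℕ, 2 ≤ b → b ≤ B →
        NwT b w (L ^ (1 + δ)) ε (ε * L) (fun _ : Fin 1 => aeval x f / m)} ⊆ (T : Set ℤ) := by
    rintro n ⟨hnM, hn⟩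
    rw [Finset.mem_coe, hT, Finset.mem_union]
    by_contra hcon
    rw [not_or] at hcon
    obtain ⟨h1, h2⟩ := hcon
    apply hn
    intro x hx f m hf b hb hbB
    have hnc : (c₀ : ℤ) < |n| := by
      by_contra h3
      rw [not_lt, abs_le] at h3
      exact h1 (Finset.mem_Icc.2 h3)
    have hn0 : n ≠ 0 := by
      rintro rfl
      rw [abs_zero] at hnc
      have : (0 : ℤ) ≤ c₀ := Int.natCast_nonneg _
      omega
    have hxX : XX < |x| := by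
      by_contra h3
      rw [not_lt] at h3
      have h4 := hC₀ x h3
      rw [hx] at h4
      have h5 : (|n| : ℝ) ≤ c₀ := h4.trans hc₀
      have h6 : |n| ≤ (c₀ : ℤ) := by exact_mod_cast h5
      omega
    have hXX0 : 0 ≤ XX := by
      rw [hXX]
      exact Finset.sum_nonneg fun i _ => Finset.sum_nonneg fun j _ => (hX₀ i j).le
    have hx0 : x ≠ 0 := by
      rintro rfl
      rw [abs_zero] at hxX
      linarith
    -- the signs
    obtain ⟨σ, hσ⟩ : ∃ σ : ({1, -1} : Finset ℤ), (σ : ℤ) * |n| = n ∧ (σ : ℤ) * (σ : ℤ) = 1 := by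
      rcases lt_or_gt_of_ne hn0 with h | h
      · exact ⟨⟨-1, by simp⟩, by simp [abs_of_neg h]⟩
      · exact ⟨⟨1, by simp⟩, by simp [abs_of_pos h]⟩
    obtain ⟨τ, hτ⟩ : ∃ τ : ({1, -1} : Finset ℤ), ((τ : ℤ) : ℝ) * |x| = x := by
      rcases lt_or_gt_of_ne hx0 with h | h
      · exact ⟨⟨-1, by simp⟩, by simp [abs_of_neg h]⟩
      · exact ⟨⟨1, by simp⟩, by simp [abs_of_pos h]⟩
    obtain ⟨t, ht⟩ : ∃ t : ℕ, (t : ℤ) = |n| := ⟨n.natAbs, by simp⟩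
    have ht0 : 0 < t := by
      have := abs_pos.2 hn0
      omega
    have htM : t ≤ M := by
      rw [← ht] at hnM
      exact_mod_cast hnM
    have htS : t ∉ S σ τ := by
      intro h3
      apply h2
      rw [Finset.mem_biUnion]
      refine ⟨σ, mem_univ _, ?_⟩
      rw [Finset.mem_biUnion]
      refine ⟨τ, mem_univ _, ?_⟩
      rw [Finset.mem_image]
      exact ⟨t, h3, by rw [ht]; exact hσ.1⟩
    have key := hS2 σ τ t ht0 htM htS |x| (lt_of_le_of_lt (hXle σ τ) hxX)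
      (by
        rw [hτ, hx]
        have e1 : ((σ : ℤ) : ℝ) * (n : ℝ) = (((σ : ℤ) * n : ℤ) : ℝ) := by push_cast; ring
        have e2 : (σ : ℤ) * n = t := by
          rw [ht]
          nth_rw 1 [← hσ.1]
          rw [← mul_assoc, hσ.2, one_mul]
        rw [e1, e2]
        norm_cast) f m
      (smlP_mono hf (Real.exp_le_exp.2 hLL)) b hb hbB
    rw [hτ] at key
    exact key
  have hTcard : ((T.card : ℕ) : ℝ) ≤ (2 * c₀ + 1) + 4 * (M * Real.exp (-L ^ β1)) := by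
    rw [hT]
    refine le_trans (Nat.cast_le.2 (Finset.card_union_le _ _)) ?_
    push_cast
    refine add_le_add ?_ ?_
    · rw [Int.card_Icc]
      have : ((c₀ : ℤ) + 1 - -(c₀ : ℤ)).toNat = 2 * c₀ + 1 := by omega
      rw [this]
      push_cast
      linarith
    · refine le_trans (Nat.cast_le.2 Finset.card_biUnion_le) ?_
      push_cast
      have h1 : ∀ σ : ({1, -1} : Finset ℤ), ((((univ : Finset ({1, -1} : Finset ℤ)).biUnion
          fun τ => (S σ τ).image (fun t : ℕ => (σ : ℤ) * (t : ℤ))).card : ℕ) : ℝ) ≤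
          2 * (M * Real.exp (-L ^ β1)) := by
        intro σ
        refine le_trans (Nat.cast_le.2 Finset.card_biUnion_le) ?_
        push_cast
        calc ∑ τ : ({1, -1} : Finset ℤ), (((S σ τ).image (fun t : ℕ => (σ : ℤ) * (t : ℤ))).card : ℝ)
            ≤ ∑ _τ : ({1, -1} : Finset ℤ), M * Real.exp (-L ^ β1) := by
              refine Finset.sum_le_sum fun τ _ => ?_
              exact le_trans (Nat.cast_le.2 Finset.card_image_le) (hS1 σ τ)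
          _ = _ := by
              rw [Finset.sum_const, nsmul_eq_mul, pm_card]
      calc _ ≤ ∑ _σ : ({1, -1} : Finset ℤ), 2 * (M * Real.exp (-L ^ β1)) :=
            Finset.sum_le_sum fun σ _ => h1 σ
        _ = _ := by
            rw [Finset.sum_const, nsmul_eq_mul, pm_card]
            ring
  have hfin : (2 * (c₀ : ℝ) + 1) ≤ M * Real.exp (-L ^ β1) := by
    refine a5.trans ?_
    rw [hML, ← Real.exp_add]
    apply Real.exp_le_exp.2
    linarith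
  calc (({n : ℤ | |n| ≤ M ∧ ¬ ∀ x : ℝ, P.eval x = n → ∀ (f : ℤ[X]) (m : ℕ),
        SmlP P.natDegree (Real.exp (L ^ β)) f m → ∀ b : ℕ, 2 ≤ b → b ≤ B →
        NwT b w (L ^ (1 + δ)) ε (ε * L) (fun _ : Fin 1 => aeval x f / m)}.ncard : ℕ) : ℝ) ≤
      ((T.card : ℕ) : ℝ) := by
        have := Set.ncard_le_ncard hsub (Finset.finite_toSet T)
        rw [Set.ncard_coe_finset] at this
        exact_mod_cast this
    _ ≤ 5 * (M * Real.exp (-L ^ β1)) := by linarith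
    _ ≤ M * Real.exp (-L ^ β) := by
        have e1 : 5 * Real.exp (-L ^ β1) ≤ Real.exp (-L ^ β) := by
          have e2 : (5 : ℝ) ≤ Real.exp 4 := by
            have := Real.add_one_le_exp (4 : ℝ)
            linarith
          calc 5 * Real.exp (-L ^ β1) ≤ Real.exp 4 * Real.exp (-L ^ β1) := by gcongr
            _ = Real.exp (4 + -L ^ β1) := by rw [Real.exp_add]
            _ ≤ _ := by
                apply Real.exp_le_exp.2
                linarith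
        have := mul_le_mul_of_nonneg_left e1 hM0.le
        linarith

end Pool.Agent.J6H93.Fam
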