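import Pool.Agent.J6H93.Fam.Trig2
import Pool.Agent.J6H93.Fam.Nf

/-!
# Real and imaginary parts of polynomials in roots of unity: the exponential sums
-/

set_option autoImplicit false

namespace Pool.Agent.J6H93.Fam

open Finset Filter Polynomial
open Pool.Agent.Y933.KD (e norm_e e_add e_zero norm_e_sub_one)
open Pool.Agent.N586.RT (logpow log_ge)

lemma sum_Icc_symm {E : Type*} [AddCommMonoid E] (f : ℤ → E) (D : ℕ) :
    ∑ k ∈ Finset.Icc (-(D : ℤ)) D, f k =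
      f 0 + ∑ k ∈ Finset.range D, (f ((k : ℤ) + 1) + f (-((k : ℤ) + 1))) := by
  induction D with
  | zero => simp
  | succ D ih =>
    have h1 : Finset.Icc (-((D + 1 : ℕ) : ℤ)) ((D + 1 : ℕ) : ℤ) =
        insert (((D : ℤ) + 1)) (insert (-((D : ℤ) + 1)) (Finset.Icc (-(D : ℤ)) D)) := by
      ext k
      simp only [Finset.mem_Icc, Finset.mem_insert]
      push_cast
      omega
    rw [h1, Finset.sum_insert, Finset.sum_insert, ih, Finset.sum_range_succ]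
    · abel
    · rw [Finset.mem_Icc]
      omega
    · rw [Finset.mem_insert, Finset.mem_Icc]
      omega

/-- real trigonometric polynomials -/
noncomputable def TR (D : ℕ) (α β : ℕ → ℝ) (x : ℝ) : ℝ :=
  ∑ k ∈ Finset.range (D + 1), (α k * Real.cos (2 * Real.pi * k * x) +
    β k * Real.sin (2 * Real.pi * k * x))

/-- the complex coefficients -/
noncomputable def qq (α β : ℕ → ℝ) (k : ℤ) : ℂ :=
  if k = 0 then (α 0 : ℂ) else
    ((α k.natAbs : ℂ) - ((k.sign : ℝ) * β k.natAbs : ℝ) * Complex.I) / 2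

lemma e_re_im (x : ℝ) : e x = (Real.cos (2 * Real.pi * x) : ℂ) +
    (Real.sin (2 * Real.pi * x) : ℂ) * Complex.I := by
  unfold e
  rw [Complex.exp_mul_I]
  push_cast
  rfl

lemma G_qq (α β : ℕ → ℝ) (D : ℕ) (x : ℝ) : G (qq α β) D 0 x = ((TR D α β x : ℝ) : ℂ) := by
  unfold G TR
  rw [sum_Icc_symm, Finset.sum_range_succ']
  simp only [pow_zero, mul_one]
  have h0 : qq α β 0 * e ((0 : ℤ) * x) = (α 0 : ℂ) := by
    unfold qq
    simp [e_zero]
  rw [h0, Complex.ofReal_add, Complex.ofReal_sum, add_comm]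
  congr 1
  · refine Finset.sum_congr rfl fun k _ => ?_
    have hk : ((k : ℤ) + 1) ≠ 0 := by omega
    have hk' : (-((k : ℤ) + 1)) ≠ 0 := by omega
    have h1 : ((k : ℤ) + 1).natAbs = k + 1 := by omega
    have h2 : (-((k : ℤ) + 1)).natAbs = k + 1 := by omega
    have h3 : ((k : ℤ) + 1).sign = 1 := Int.sign_eq_one_of_pos (by omega)
    have h4 : (-((k : ℤ) + 1)).sign = -1 := Int.sign_eq_neg_one_of_neg (by omega)
    unfold qq
    rw [if_neg hk, if_neg hk', h1, h2, h3, h4, e_re_im, e_re_im]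
    have h5 : 2 * Real.pi * ((((k : ℤ) + 1 : ℤ) : ℝ) * x) = 2 * Real.pi * ((k + 1 : ℕ) : ℝ) * x := by
      push_cast
      ring
    have h6 : 2 * Real.pi * (((-((k : ℤ) + 1) : ℤ) : ℝ) * x) =
        -(2 * Real.pi * ((k + 1 : ℕ) : ℝ) * x) := by
      push_cast
      ring
    rw [h5, h6, Real.cos_neg, Real.sin_neg]
    push_cast
    linear_combination ((β (k + 1) : ℂ) * Complex.sin (2 * Real.pi * (k + 1) * x) * (-1)) *
      Complex.I_sq
  · simp

lemma TR_eq {α β : ℕ → ℝ} {D e' : ℕ} (he : e' ≤ D) (h : ∀ k, e' < k → k ≤ D → α k = 0 ∧ β k = 0)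
    (x : ℝ) : TR D α β x = TR e' α β x := by
  unfold TR
  symm
  refine Finset.sum_subset ?_ ?_
  · intro k hk
    rw [Finset.mem_range] at hk ⊢
    omega
  · intro k hk hk'
    rw [Finset.mem_range] at hk hk'
    obtain ⟨h1, h2⟩ := h k (by omega) (by omega)
    rw [h1, h2]
    ring

lemma qq_norm_le {α β : ℕ → ℝ} {V : ℝ} (hα : ∀ k, |α k| ≤ V) (hβ : ∀ k, |β k| ≤ V) (k : ℤ) :
    ‖qq α β k‖ ≤ V := by
  unfold qq
  split_ifs with h
  · rw [Complex.norm_real, Real.norm_eq_abs]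
    exact hα 0
  · rw [norm_div]
    have h2 : ‖(2 : ℂ)‖ = 2 := by norm_num
    rw [h2, div_le_iff₀ (by norm_num)]
    refine (norm_sub_le _ _).trans ?_
    rw [norm_mul, Complex.norm_I, mul_one, Complex.norm_real, Complex.norm_real, Real.norm_eq_abs,
      Real.norm_eq_abs, abs_mul]
    have h1 : |((k.sign : ℤ) : ℝ)| = 1 := by
      rcases lt_or_gt_of_ne h with h3 | h3
      · rw [Int.sign_eq_neg_one_of_neg h3]
        norm_num
      · rw [Int.sign_eq_one_of_pos h3]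
        norm_num
    rw [h1, one_mul]
    linarith [hα k.natAbs, hβ k.natAbs]

lemma qq_norm_ge {α β : ℕ → ℝ} {k : ℕ} (hk : 1 ≤ k) {W : ℝ} (h : W ≤ |α k| ∨ W ≤ |β k|) :
    W / 2 ≤ ‖qq α β k‖ := by
  unfold qq
  have hk0 : (k : ℤ) ≠ 0 := by omega
  rw [if_neg hk0, Int.natAbs_natCast, Int.sign_natCast_of_ne_zero (by omega), norm_div]
  have h2 : ‖(2 : ℂ)‖ = 2 := by norm_num
  rw [h2]
  refine div_le_div_of_nonneg_right ?_ (by norm_num)
  rcases h with h | h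
  · have h3 := Complex.abs_re_le_norm ((α k : ℂ) - ((((1 : ℤ) : ℝ) * β k : ℝ) : ℂ) * Complex.I)
    simp at h3
    refine h.trans ?_
    simpa using h3
  · have h3 := Complex.abs_im_le_norm ((α k : ℂ) - ((((1 : ℤ) : ℝ) * β k : ℝ) : ℂ) * Complex.I)
    simp at h3
    refine h.trans ?_
    simpa using h3

/-- **exponential sums for real trigonometric polynomials** -/
theorem es_TR (D : ℕ) (δ β : ℝ) (hδ : 0 < δ) (hβ : 0 < β) (hδβ : 2 * δ + β < 1) :
    ∃ n₀ : ℕ, ∀ n : ℕ, n₀ ≤ n → ∀ α γ : ℕ → ℝ, (∀ k, |α k| ≤ Real.exp ((Real.log n) ^ β)) →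
      (∀ k, |γ k| ≤ Real.exp ((Real.log n) ^ β)) →
      (∀ k, α k ≠ 0 ∨ γ k ≠ 0 → Real.exp (-(Real.log n) ^ β) ≤ |α k| ∨
        Real.exp (-(Real.log n) ^ β) ≤ |γ k|) →
      (∃ k, 1 ≤ k ∧ k ≤ D ∧ (α k ≠ 0 ∨ γ k ≠ 0)) → ∀ θ : ℝ, (n : ℝ) ^ (1 / 2 : ℝ) ≤ |θ| →
      |θ| ≤ Real.exp ((Real.log n) ^ (1 + δ)) →
      ‖∑ t ∈ Finset.Ioc n (2 * n), e (θ * TR D α γ ((t : ℝ) / n))‖ ≤
        n * Real.exp (-(Real.log n) ^ β) := by
  classical
  rcases Nat.eq_zero_or_pos D with hD | hD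
  · refine ⟨0, fun n _ α γ _ _ _ h => ?_⟩
    obtain ⟨k, h1, h2, _⟩ := h
    omega
  obtain ⟨β1, hβ1⟩ : ∃ β1 : ℝ, β1 = β + (1 - 2 * δ - β) / 2 := ⟨_, rfl⟩
  obtain ⟨n1, hn1⟩ := es_trig D hD δ β1 hδ (by linarith) (by linarith)
  obtain ⟨n2, hn2⟩ := eventually_atTop.1 ((logpow (by linarith : β < β1) 2).and
    ((logpow hβ 1).and (log_ge 1)))
  refine ⟨max n1 n2, fun n hn α γ hα hγ htop hex θ hθ1 hθ2 => ?_⟩
  obtain ⟨a1, a2, a3⟩ := hn2 n (le_of_max_le_right hn)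
  have key := hn1 n (le_of_max_le_left hn)
  obtain ⟨L, hL⟩ : ∃ L : ℝ, L = Real.log n := ⟨_, rfl⟩
  rw [← hL] at a1 a2 a3 key hα hγ htop hθ2 ⊢
  rw [Real.rpow_zero, mul_one] at a2
  obtain ⟨k0, hk1, hk2, hk3⟩ := hex
  obtain ⟨E, hE⟩ : ∃ E : ℕ, E = Nat.findGreatest (fun k => α k ≠ 0 ∨ γ k ≠ 0) D := ⟨_, rfl⟩
  have hE1 : k0 ≤ E := by
    rw [hE]
    exact Nat.le_findGreatest hk2 hk3
  have hE2 : E ≤ D := by
    rw [hE]
    exact Nat.findGreatest_le D
  have hE3 : α E ≠ 0 ∨ γ E ≠ 0 := by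
    rw [hE]
    exact Nat.findGreatest_spec (P := fun k => α k ≠ 0 ∨ γ k ≠ 0) hk2 hk3
  have hE4 : ∀ k, E < k → k ≤ D → α k = 0 ∧ γ k = 0 := by
    intro k h1 h2
    rw [hE] at h1
    have := Nat.findGreatest_is_greatest h1 h2
    push Not at this
    exact this
  have hge := qq_norm_ge (k := E) (by omega) (htop E hE3)
  have h12 : Real.exp (-L ^ β1) ≤ Real.exp (-L ^ β) / 2 := by
    have e1 : (2 : ℝ) ≤ Real.exp (L ^ β) := by
      have := Real.add_one_le_exp (L ^ β)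
      linarith
    have e2 : 2 * Real.exp (-L ^ β1) ≤ Real.exp (-L ^ β) := by
      calc 2 * Real.exp (-L ^ β1) ≤ Real.exp (L ^ β) * Real.exp (-L ^ β1) := by gcongr
        _ = Real.exp (L ^ β + -L ^ β1) := by rw [Real.exp_add]
        _ ≤ _ := by
            apply Real.exp_le_exp.2
            linarith
    linarith
  have hle : ∀ k, ‖qq α γ k‖ ≤ Real.exp (L ^ β1) := fun k =>
    (qq_norm_le hα hγ k).trans (Real.exp_le_exp.2 (by
      have : 0 ≤ L ^ β := Real.rpow_nonneg (by linarith) _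
      linarith))
  have key2 := key E (by omega) hE2 (qq α γ) (fun x => by rw [G_qq]; simp) hle (h12.trans hge) θ
    hθ1 hθ2
  have e1 : ∀ t : ℕ, (G (qq α γ) E 0 ((t : ℝ) / n)).re = TR D α γ ((t : ℝ) / n) := by
    intro t
    rw [G_qq, Complex.ofReal_re, TR_eq hE2 hE4]
  simp only [e1] at key2
  refine key2.trans ?_
  refine mul_le_mul_of_nonneg_left ?_ (Nat.cast_nonneg _)
  have : 0 < Real.exp (-L ^ β) := Real.exp_pos _
  linarith

/-- the numbers `Re u(z) + Im v(z)`, `z = e x` -/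
noncomputable def Fp (u v : ℤ[X]) (z : ℂ) : ℝ := (aeval z u).re + (aeval z v).im

lemma aeval_e {u : ℤ[X]} {D : ℕ} (hu : u.natDegree ≤ D) (x : ℝ) :
    aeval (e x) u = ∑ k ∈ Finset.range (D + 1), (u.coeff k : ℂ) * e (k * x) := by
  rw [aeval_eq_sum_range' (Nat.lt_succ_of_le hu)]
  refine Finset.sum_congr rfl fun k _ => ?_
  rw [zsmul_eq_mul, e_pow]

lemma Fp_eq {u v : ℤ[X]} {D : ℕ} (hu : u.natDegree ≤ D) (hv : v.natDegree ≤ D) (x : ℝ) :
    Fp u v (e x) = TR D (fun k => (u.coeff k : ℝ)) (fun k => (v.coeff k : ℝ)) x := by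
  unfold Fp TR
  rw [aeval_e hu, aeval_e hv, Complex.re_sum, Complex.im_sum, ← Finset.sum_add_distrib]
  refine Finset.sum_congr rfl fun k _ => ?_
  rw [e_re_im]
  have h1 : 2 * Real.pi * ((k : ℝ) * x) = 2 * Real.pi * k * x := by ring
  rw [h1]
  simp only [Complex.mul_re, Complex.mul_im, Complex.intCast_re, Complex.intCast_im,
    Complex.add_re, Complex.add_im, Complex.ofReal_re, Complex.ofReal_im, Complex.I_re,
    Complex.I_im]
  ring

end Pool.Agent.J6H93.Fam
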