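import Pool.Agent.J6H93.Fam.Cyc
import Pool.Agent.N586.RT.Fin

/-!
# Real and imaginary parts of polynomials in roots of unity: joint normality
-/

set_option autoImplicit false

namespace Pool.Agent.J6H93.Fam

open Finset Filter Polynomial
open Pool.Agent.Y933.KD (e norm_e e_add e_zero)
open Pool.Agent.N586.RT (logpow log_ge Fs mem_Fs card_Fs)
open Pool.Agent.N586.JT (NwT)

/-- the degrees are at most `D`, the coefficients and the denominators at most `V`, and no nontrivial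
integral combination is constant -/
def SmlC (D : ℕ) (V : ℝ) {r : ℕ} (u v : Fin r → ℤ[X]) (m : Fin r → ℕ) : Prop :=
  (∀ j, (u j).natDegree ≤ D ∧ (v j).natDegree ≤ D) ∧
    (∀ j i, |((u j).coeff i : ℝ)| ≤ V ∧ |((v j).coeff i : ℝ)| ≤ V) ∧ (∀ j, 1 ≤ m j) ∧
    (∀ j, (m j : ℝ) ≤ V) ∧
    ∀ c : Fin r → ℤ, c ≠ 0 → 1 ≤ (∑ j, C (c j) * u j).natDegree ∨
      1 ≤ (∑ j, C (c j) * v j).natDegree

/-- the combinations -/
lemma comb_coeff {r : ℕ} {V : ℝ} {m : Fin r → ℕ} (hm1 : ∀ j, 1 ≤ m j) (hm2 : ∀ j, (m j : ℝ) ≤ V)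
    (h : Fin r → ℤ) (hh : h ≠ 0) : ∃ (M : ℝ) (c : Fin r → ℤ), 0 < M ∧ M ≤ V ^ r ∧ c ≠ 0 ∧
      ∀ (u : Fin r → ℤ[X]) (i : ℕ), ∑ j, (h j : ℝ) * ((u j).coeff i : ℝ) / m j =
        ((∑ j, C (c j) * u j).coeff i : ℝ) / M := by
  classical
  have hm0 : ∀ j, (0 : ℝ) < m j := fun j => by exact_mod_cast (hm1 j)
  obtain ⟨M, hM⟩ : ∃ M : ℝ, M = ∏ j, (m j : ℝ) := ⟨_, rfl⟩
  have hM0 : 0 < M := by rw [hM]; exact prod_pos fun j _ => hm0 j
  have hMV : M ≤ V ^ r := by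
    rw [hM]
    calc ∏ j, (m j : ℝ) ≤ ∏ _j : Fin r, V := prod_le_prod (fun j _ => (hm0 j).le) fun j _ => hm2 j
      _ = V ^ r := by rw [prod_const, card_univ, Fintype.card_fin]
  obtain ⟨c, hcd⟩ : ∃ c : Fin r → ℤ, c = fun j => h j * ∏ i ∈ univ.erase j, (m i : ℤ) := ⟨_, rfl⟩
  have hcj : ∀ j, (c j : ℝ) = h j / m j * M := by
    intro j
    have e1 : M = m j * ∏ i ∈ univ.erase j, (m i : ℝ) := by
      rw [hM, mul_prod_erase univ (fun i => (m i : ℝ)) (mem_univ j)]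
    have e2 := (hm0 j).ne'
    rw [hcd, e1]
    push_cast
    field_simp
  have hc0 : c ≠ 0 := by
    obtain ⟨j, hj⟩ := Function.ne_iff.1 hh
    intro h0
    have e1 := hcj j
    rw [h0] at e1
    simp only [Pi.zero_apply, Int.cast_zero] at e1
    have e2 : (h j : ℝ) / m j * M ≠ 0 := by
      refine mul_ne_zero (div_ne_zero ?_ (hm0 j).ne') hM0.ne'
      exact_mod_cast hj
    exact e2 e1.symm
  refine ⟨M, c, hM0, hMV, hc0, fun u i => ?_⟩
  rw [finsetSum_coeff]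
  push_cast
  rw [Finset.sum_div]
  refine sum_congr rfl fun j _ => ?_
  rw [coeff_C_mul]
  push_cast
  rw [hcj]
  have := (hm0 j).ne'
  field_simp

/-- the coefficients of the combinations -/
lemma comb_bounds {r D : ℕ} {V W : ℝ} {u v : Fin r → ℤ[X]} {m : Fin r → ℕ}
    (hsml : SmlC D V u v m) {h : Fin r → ℤ} (hh : h ≠ 0)
    (hW : ∀ j, |(h j : ℝ)| ≤ W) {α γ : ℕ → ℝ}
    (hα : α = fun i => ∑ j, (h j : ℝ) * ((u j).coeff i : ℝ) / m j)
    (hγ : γ = fun i => ∑ j, (h j : ℝ) * ((v j).coeff i : ℝ) / m j) :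
    (∀ i, |α i| ≤ r * (W * V)) ∧ (∀ i, |γ i| ≤ r * (W * V)) ∧
      (∀ i, α i ≠ 0 ∨ γ i ≠ 0 → (V ^ r)⁻¹ ≤ |α i| ∨ (V ^ r)⁻¹ ≤ |γ i|) ∧
      ∃ k, 1 ≤ k ∧ k ≤ D ∧ (α k ≠ 0 ∨ γ k ≠ 0) := by
  classical
  obtain ⟨h1, h2, h3, h4, h5⟩ := hsml
  have hm0 : ∀ j, (0 : ℝ) < m j := fun j => by exact_mod_cast (h3 j)
  obtain ⟨M, c, hM0, hMV, hc0, hc⟩ := comb_coeff h3 h4 h hh
  have hbd : ∀ (x : Fin r → ℤ[X]), (∀ j i, |((x j).coeff i : ℝ)| ≤ V) → ∀ i,
      |∑ j, (h j : ℝ) * ((x j).coeff i : ℝ) / m j| ≤ r * (W * V) := by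
    intro x hx i
    refine (abs_sum_le_sum_abs _ _).trans ?_
    calc ∑ j, |(h j : ℝ) * ((x j).coeff i : ℝ) / m j| ≤ ∑ _j : Fin r, W * V := by
          refine sum_le_sum fun j _ => ?_
          rw [abs_div, abs_mul, abs_of_pos (hm0 j)]
          have hm1 : (1 : ℝ) ≤ m j := by exact_mod_cast h3 j
          refine (div_le_self (by positivity) hm1).trans ?_
          exact mul_le_mul (hW j) (hx j i) (abs_nonneg _) ((abs_nonneg _).trans (hW j))
      _ = r * (W * V) := by rw [sum_const, card_univ, Fintype.card_fin, nsmul_eq_mul]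
  have hlow : ∀ (z : ℤ), z ≠ 0 → (V ^ r)⁻¹ ≤ |(z : ℝ) / M| := by
    intro z hz
    have e1 : (1 : ℝ) ≤ |(z : ℝ)| := by
      have := Int.one_le_abs hz
      exact_mod_cast this
    rw [abs_div, abs_of_pos hM0]
    calc (V ^ r)⁻¹ ≤ M⁻¹ := by gcongr
      _ = 1 / M := by rw [one_div]
      _ ≤ _ := by gcongr
  refine ⟨?_, ?_, ?_, ?_⟩
  · rw [hα]
    exact hbd u fun j i => (h2 j i).1
  · rw [hγ]
    exact hbd v fun j i => (h2 j i).2
  · intro i hi
    rcases hi with hi | hi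
    · left
      rw [hα] at hi ⊢
      simp only [hc u i] at hi ⊢
      apply hlow
      rintro h0
      rw [h0] at hi
      simp at hi
    · right
      rw [hγ] at hi ⊢
      simp only [hc v i] at hi ⊢
      apply hlow
      rintro h0
      rw [h0] at hi
      simp at hi
  · have hfind : ∀ (x : Fin r → ℤ[X]), (∀ j, (x j).natDegree ≤ D) →
        1 ≤ (∑ j, C (c j) * x j).natDegree → ∃ k, 1 ≤ k ∧ k ≤ D ∧
          (∑ j, (h j : ℝ) * ((x j).coeff k : ℝ) / m j) ≠ 0 := by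
      intro x hx hdeg
      refine ⟨(∑ j, C (c j) * x j).natDegree, hdeg, ?_, ?_⟩
      · refine natDegree_sum_le_of_forall_le _ _ fun j _ => ?_
        exact (natDegree_C_mul_le _ _).trans (hx j)
      · rw [hc x]
        refine div_ne_zero ?_ hM0.ne'
        rw [coeff_natDegree]
        have : (∑ j, C (c j) * x j) ≠ 0 := by
          intro h0
          rw [h0, natDegree_zero] at hdeg
          omega
        exact_mod_cast leadingCoeff_ne_zero.2 this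
    rcases h5 c hc0 with h6 | h6
    · obtain ⟨k, a1, a2, a3⟩ := hfind u (fun j => (h1 j).1) h6
      exact ⟨k, a1, a2, Or.inl (by rw [hα]; exact a3)⟩
    · obtain ⟨k, a1, a2, a3⟩ := hfind v (fun j => (h1 j).2) h6
      exact ⟨k, a1, a2, Or.inr (by rw [hγ]; exact a3)⟩

lemma comb_Fp {r D : ℕ} {V : ℝ} {u v : Fin r → ℤ[X]} {m : Fin r → ℕ} (hsml : SmlC D V u v m)
    (h : Fin r → ℤ) (x : ℝ) :
    ∑ j, (h j : ℝ) * (Fp (u j) (v j) (e x) / m j) =
      TR D (fun i => ∑ j, (h j : ℝ) * ((u j).coeff i : ℝ) / m j)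
        (fun i => ∑ j, (h j : ℝ) * ((v j).coeff i : ℝ) / m j) x := by
  have h1 : ∀ j, (h j : ℝ) * (Fp (u j) (v j) (e x) / m j) =
      ∑ k ∈ Finset.range (D + 1), (((h j : ℝ) * ((u j).coeff k : ℝ) / m j) *
        Real.cos (2 * Real.pi * k * x) + ((h j : ℝ) * ((v j).coeff k : ℝ) / m j) *
        Real.sin (2 * Real.pi * k * x)) := by
    intro j
    rw [Fp_eq (hsml.1 j).1 (hsml.1 j).2]
    unfold TR
    rw [Finset.sum_div, Finset.mul_sum]
    refine sum_congr rfl fun k _ => ?_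
    ring
  simp only [h1]
  rw [Finset.sum_comm]
  unfold TR
  refine sum_congr rfl fun k _ => ?_
  rw [Finset.sum_add_distrib, Finset.sum_mul, Finset.sum_mul]

open Classical in
/-- **joint normality for roots of unity** -/
theorem cyc_tuple (D r : ℕ) (hr : 1 ≤ r) (δ β : ℝ) (hδ : 0 < δ) (hβ : 0 < β)
    (hδβ : 2 * δ + β < 1) (B w : ℕ) (ε : ℝ) (hε : 0 < ε) :
    ∃ n₀ : ℕ, ∀ n : ℕ, n₀ ≤ n →
      (((Finset.Ioc n (2 * n)).filter (fun t : ℕ => ¬ ∀ (b : ℕ) (u v : Fin r → ℤ[X])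
        (m : Fin r → ℕ), 2 ≤ b → b ≤ B → SmlC D (Real.exp ((Real.log n) ^ β)) u v m →
        NwT b w ((Real.log n) ^ (1 + δ)) ε ((1 / 2 / Real.log 2 + ε) * Real.log n)
          (fun j => Fp (u j) (v j) (e ((t : ℝ) / n)) / m j))).card : ℝ) ≤
        n * Real.exp (-(Real.log n) ^ β) := by
  obtain ⟨γ, hγ⟩ : ∃ γ : ℝ, γ = (1 - 2 * δ - β) / 8 := ⟨_, rfl⟩
  have hγ0 : 0 < γ := by rw [hγ]; linarith
  obtain ⟨β', hβ'⟩ : ∃ β' : ℝ, β' = β + γ := ⟨_, rfl⟩
  obtain ⟨β2, hβ2⟩ : ∃ β2 : ℝ, β2 = β + 2 * γ := ⟨_, rfl⟩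
  have hββ : β < β' := by linarith
  have hββ2 : β' < β2 := by linarith
  have hβ2δ : 2 * (δ + γ) + β2 < 1 := by rw [hβ2, hγ]; linarith
  obtain ⟨c0, hc0, M1, hM1⟩ := nf δ (δ + γ) β' (1 / 2) hδ (by linarith) (by linarith)
    (by linarith) (by norm_num) w r hr ε hε B
  obtain ⟨M4, hM4⟩ := es_TR D (δ + γ) β2 (by linarith) (by linarith) hβ2δ
  have hrR : (1 : ℝ) ≤ r := by exact_mod_cast hr
  obtain ⟨K0, hK0⟩ : ∃ K0 : ℝ, K0 = Real.log (B + 1) := ⟨_, rfl⟩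
  have hB0 : (0 : ℝ) ≤ B := Nat.cast_nonneg _
  have hK0b : 0 ≤ K0 := by rw [hK0]; exact Real.log_nonneg (by linarith)
  obtain ⟨M2, hM2⟩ := eventually_atTop.1 ((((((logpow hββ
    ((K0 + (4 * D + 5) * r + 1) / c0)).and
    (log_ge 1)).and (eventually_ge_atTop 2)).and
    (logpow hβ 2)).and (logpow hββ2 (r + 2))).and (logpow (by linarith : β < β2) r))
  refine ⟨max (max M1 M2) M4, fun n hn => ?_⟩
  obtain ⟨⟨⟨⟨⟨hb, hL1⟩, hn2⟩, hv⟩, hu⟩, hu2⟩ := hM2 n (le_of_max_le_right (le_of_max_le_left hn))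
  have hNF := hM1 n (le_of_max_le_left (le_of_max_le_left hn))
  have hES := hM4 n (le_of_max_le_right hn)
  have hnR : (2 : ℝ) ≤ n := by exact_mod_cast hn2
  have hn0 : (0 : ℝ) < n := by linarith
  obtain ⟨L, hL⟩ : ∃ L : ℝ, L = Real.log n := ⟨_, rfl⟩
  rw [← hL] at hb hL1 hv hu hu2 hNF hES ⊢
  rw [Real.rpow_zero, mul_one] at hv
  have hL0 : 0 < L := by linarith
  obtain ⟨V, hV⟩ : ∃ V : ℝ, V = Real.exp (L ^ β) := ⟨_, rfl⟩
  have hLL : L ^ β ≤ L ^ β' := Real.rpow_le_rpow_of_exponent_le hL1 hββ.le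
  rw [← hV]
  have hV1 : 1 ≤ V := by
    rw [hV]
    exact Real.one_le_exp (by positivity)
  have hV0 : 0 < V := by linarith
  have h3V : 3 * V ≤ V ^ 2 := by
    have h1 : (3 : ℝ) ≤ V := by
      rw [hV]
      have := Real.add_one_le_exp (L ^ β)
      linarith
    nlinarith
  obtain ⟨τ, hτ⟩ : ∃ τ : ℝ, τ = L ^ β' := ⟨_, rfl⟩
  rw [← hτ] at hNF hb hu hLL
  have hτ1 : 1 ≤ τ := by rw [hτ]; exact Real.one_le_rpow hL1 (by linarith)
  obtain ⟨R, hR⟩ : ∃ R : ℝ, R = n * Real.exp (-(c0 * τ)) := ⟨_, rfl⟩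
  have hR0 : 0 ≤ R := by rw [hR]; positivity
  have hIoc : ((Finset.Ioc n (2 * n)).card : ℝ) = n := by
    rw [Nat.card_Ioc]
    congr 1
    omega
  have hIne : (Finset.Ioc n (2 * n)).Nonempty := by
    rw [Finset.nonempty_Ioc]
    omega
  obtain ⟨S, hS⟩ : ∃ S : Finset ((((Fin r → ℤ[X]) × (Fin r → ℤ[X])) × (Fin r → ℕ)) × ℕ), S =
    (((Fintype.piFinset fun _ => Fs D ⌊V⌋) ×ˢ (Fintype.piFinset fun _ => Fs D ⌊V⌋)) ×ˢ
      (Fintype.piFinset fun _ => Finset.Icc 1 ⌊V⌋₊)) ×ˢ Finset.range (B + 1) := ⟨_, rfl⟩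
  obtain ⟨bad, hbad⟩ : ∃ bad : (((Fin r → ℤ[X]) × (Fin r → ℤ[X])) × (Fin r → ℕ)) × ℕ → Finset ℕ,
    bad = fun z => (Finset.Ioc n (2 * n)).filter (fun t : ℕ =>
      SmlC D V z.1.1.1 z.1.1.2 z.1.2 ∧ 2 ≤ z.2 ∧ z.2 ≤ B ∧
      ¬ NwT z.2 w (L ^ (1 + δ)) ε ((1 / 2 / Real.log 2 + ε) * L)
        (fun j => Fp (z.1.1.1 j) (z.1.1.2 j) (e ((t : ℝ) / n)) / z.1.2 j)) := ⟨_, rfl⟩
  have hsub : (Finset.Ioc n (2 * n)).filter (fun t : ℕ => ¬ ∀ (b : ℕ) (u v : Fin r → ℤ[X])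
        (m : Fin r → ℕ), 2 ≤ b → b ≤ B → SmlC D V u v m →
        NwT b w (L ^ (1 + δ)) ε ((1 / 2 / Real.log 2 + ε) * L)
          (fun j => Fp (u j) (v j) (e ((t : ℝ) / n)) / m j)) ⊆ S.biUnion bad := by
    intro t ht
    rw [Finset.mem_filter] at ht
    obtain ⟨ht1, ht2⟩ := ht
    simp only [not_forall] at ht2
    obtain ⟨b, u, v, m, hb2, hbB, hsml, hno⟩ := ht2
    rw [Finset.mem_biUnion]
    refine ⟨(((u, v), m), b), ?_, ?_⟩
    · rw [hS, Finset.mem_product, Finset.mem_product, Finset.mem_product]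
      refine ⟨⟨⟨?_, ?_⟩, ?_⟩, ?_⟩
      · rw [Fintype.mem_piFinset]
        intro j
        refine mem_Fs (hsml.1 j).1 fun i => Int.le_floor.2 ?_
        push_cast
        exact (hsml.2.1 j i).1
      · rw [Fintype.mem_piFinset]
        intro j
        refine mem_Fs (hsml.1 j).2 fun i => Int.le_floor.2 ?_
        push_cast
        exact (hsml.2.1 j i).2
      · rw [Fintype.mem_piFinset]
        intro j
        rw [Finset.mem_Icc]
        exact ⟨hsml.2.2.1 j, Nat.le_floor (hsml.2.2.2.1 j)⟩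
      · rw [Finset.mem_range]
        simp only
        omega
    · rw [hbad]
      simp only [Finset.mem_filter]
      exact ⟨ht1, hsml, hb2, hbB, hno⟩
  have hone : ∀ z ∈ S, ((bad z).card : ℝ) ≤ R := by
    intro z _
    by_cases hz : SmlC D V z.1.1.1 z.1.1.2 z.1.2 ∧ 2 ≤ z.2 ∧ z.2 ≤ B
    · obtain ⟨hz1, hz6, hz7⟩ := hz
      have key := hNF z.2 hz6 hz7 ℕ (Finset.Ioc n (2 * n))
        (fun t j => Fp (z.1.1.1 j) (z.1.1.2 j) (e ((t : ℝ) / n)) / z.1.2 j) hIne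
        (by
          intro h hh hhW θ hθ1 hθ2
          obtain ⟨α, hα⟩ : ∃ α : ℕ → ℝ, α = fun i => ∑ j, (h j : ℝ) *
            ((z.1.1.1 j).coeff i : ℝ) / z.1.2 j := ⟨_, rfl⟩
          obtain ⟨γ', hγ'⟩ : ∃ γ' : ℕ → ℝ, γ' = fun i => ∑ j, (h j : ℝ) *
            ((z.1.1.2 j).coeff i : ℝ) / z.1.2 j := ⟨_, rfl⟩
          obtain ⟨g1, g2, g3, g4⟩ := comb_bounds hz1 hh hhW hα hγ'
          have hup : (r : ℝ) * (Real.exp τ * V) ≤ Real.exp (L ^ β2) := by
            have e1 : (r : ℝ) ≤ Real.exp r := by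
              have := Real.add_one_le_exp (r : ℝ)
              linarith
            calc (r : ℝ) * (Real.exp τ * V) ≤ Real.exp r * (Real.exp τ * V) := by gcongr
              _ = Real.exp (r + (τ + L ^ β)) := by
                rw [hV, Real.exp_add, Real.exp_add]
              _ ≤ _ := by
                apply Real.exp_le_exp.2
                have e2 : (r : ℝ) ≤ r * τ := le_mul_of_one_le_right (by linarith) hτ1
                linarith
          have hlo : Real.exp (-L ^ β2) ≤ (V ^ r)⁻¹ := by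
            have e1 : (V ^ r)⁻¹ = Real.exp (-(r * L ^ β)) := by
              rw [hV, ← Real.exp_nat_mul, Real.exp_neg]
            rw [e1]
            apply Real.exp_le_exp.2
            linarith
          have h7 := hES α γ' (fun i => (g1 i).trans hup) (fun i => (g2 i).trans hup)
            (fun i hi => by
              rcases g3 i hi with h8 | h8
              · exact Or.inl (hlo.trans h8)
              · exact Or.inr (hlo.trans h8)) g4 θ hθ1 hθ2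
          have h8 : ∀ t : ℕ, ∑ j, (h j : ℝ) * (Fp (z.1.1.1 j) (z.1.1.2 j) (e ((t : ℝ) / n)) /
              z.1.2 j) = TR D α γ' ((t : ℝ) / n) := by
            intro t
            rw [comb_Fp hz1, hα, hγ']
          simp only [h8]
          refine h7.trans ?_
          rw [hIoc]
          refine mul_le_mul_of_nonneg_left (Real.exp_le_exp.2 ?_) hn0.le
          have e9 : τ ≤ L ^ β2 := by
            rw [hτ]
            exact Real.rpow_le_rpow_of_exponent_le hL1 hββ2.le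
          linarith)
      rw [hIoc, ← hR] at key
      refine le_trans (Nat.cast_le.2 (Finset.card_le_card fun t ht => ?_)) key
      rw [hbad] at ht
      simp only [Finset.mem_filter] at ht
      rw [Finset.mem_filter]
      exact ⟨ht.1, ht.2.2.2.2⟩
    · have h1 : bad z = ∅ := by
        rw [hbad]
        simp only
        rw [Finset.filter_eq_empty_iff]
        rintro t _ ⟨h2, h3, h4, _⟩
        exact hz ⟨h2, h3, h4⟩
      rw [h1, Finset.card_empty, Nat.cast_zero]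
      exact hR0
  have hScard : ((S.card : ℕ) : ℝ) ≤ (B + 1) * V ^ ((4 * D + 5) * r) := by
    rw [hS, Finset.card_product, Finset.card_product, Finset.card_product,
      Fintype.card_piFinset_const, Fintype.card_piFinset_const, Nat.card_Icc,
      Nat.add_sub_cancel, Finset.card_range]
    push_cast
    have h1 := card_Fs D (Int.floor_nonneg.2 (by linarith : (0 : ℝ) ≤ V))
    have h2 := Nat.floor_le (by linarith : (0 : ℝ) ≤ V)
    have h3 := Int.floor_le V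
    have h0 : (0 : ℝ) ≤ (⌊V⌋ : ℝ) := by exact_mod_cast Int.floor_nonneg.2 (by linarith : (0 : ℝ) ≤ V)
    have h4 : ((Fs D ⌊V⌋).card : ℝ) ≤ (V ^ 2) ^ (D + 1) := by
      refine h1.trans ?_
      have : 2 * (⌊V⌋ : ℝ) + 1 ≤ V ^ 2 := by linarith
      gcongr
    calc ((Fs D ⌊V⌋).card : ℝ) ^ r * ((Fs D ⌊V⌋).card : ℝ) ^ r * (⌊V⌋₊ : ℝ) ^ r * (B + 1)
        ≤ ((V ^ 2) ^ (D + 1)) ^ r * ((V ^ 2) ^ (D + 1)) ^ r * V ^ r * (B + 1) := by
          gcongr
      _ = _ := by ring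
  have hfin : (B + 1) * V ^ ((4 * D + 5) * r) * Real.exp (-(c0 * τ)) ≤ Real.exp (-L ^ β) := by
    have e1 : V ^ ((4 * D + 5) * r) = Real.exp ((4 * D + 5) * r * L ^ β) := by
      rw [hV, ← Real.exp_nat_mul]
      congr 1
      push_cast
      ring
    have e3 : ((B : ℝ) + 1) = Real.exp K0 := by
      rw [hK0, Real.exp_log (by linarith)]
    rw [e1, e3, ← Real.exp_add, ← Real.exp_add]
    apply Real.exp_le_exp.2
    have h2 : (K0 + (4 * D + 5) * r + 1) * L ^ β ≤ c0 * τ := by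
      have h3 : (K0 + (4 * D + 5) * r + 1) * L ^ β =
          c0 * ((K0 + (4 * D + 5) * r + 1) / c0 * L ^ β) := by
        field_simp
      rw [h3]
      exact mul_le_mul_of_nonneg_left hb hc0.le
    have h4 : (1 : ℝ) ≤ L ^ β := Real.one_le_rpow hL1 hβ.le
    have h5 : K0 ≤ K0 * L ^ β := le_mul_of_one_le_right hK0b h4
    linarith
  calc _ ≤ ((S.biUnion bad).card : ℝ) := by exact_mod_cast Finset.card_le_card hsub
    _ ≤ ∑ z ∈ S, ((bad z).card : ℝ) := by exact_mod_cast Finset.card_biUnion_le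
    _ ≤ ∑ _z ∈ S, R := sum_le_sum hone
    _ = (S.card : ℝ) * R := by rw [sum_const, nsmul_eq_mul]
    _ ≤ ((B + 1) * V ^ ((4 * D + 5) * r)) * R := by gcongr
    _ = n * ((B + 1) * V ^ ((4 * D + 5) * r) * Real.exp (-(c0 * τ))) := by
        rw [hR]
        ring
    _ ≤ _ := by gcongr

end Pool.Agent.J6H93.Fam
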