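import Pool.Agent.J6H93.Fam.Cyc2

/-!
# Roots of unity: from residues to roots, and the number of primitive roots
-/

set_option autoImplicit false

namespace Pool.Agent.J6H93.Fam

open Finset Filter Polynomial
open Pool.Agent.Y933.KD (e norm_e e_add e_zero e_add_int)
open Pool.Agent.N586.RT (logpow log_ge Fs mem_Fs card_Fs)
open Pool.Agent.N586.JT (NwT)

lemma prod_one_sub_ge (S : Finset ℕ) : (∀ p ∈ S, 2 ≤ p) →
    1 / ((S.card : ℝ) + 1) ≤ ∏ p ∈ S, (1 - (p : ℝ)⁻¹) := by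
  induction S using Finset.induction_on_max with
  | empty => simp
  | insert M S hM ih =>
    intro h2
    have hnot : M ∉ S := fun h => lt_irrefl _ (hM M h)
    rw [Finset.prod_insert hnot, Finset.card_insert_of_notMem hnot]
    have h3 := ih fun p hp => h2 p (Finset.mem_insert_of_mem hp)
    have hcard : S.card + 2 ≤ M := by
      have h4 : S ⊆ Finset.Ico 2 M := by
        intro p hp
        rw [Finset.mem_Ico]
        exact ⟨h2 p (Finset.mem_insert_of_mem hp), hM p hp⟩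
      have h5 := Finset.card_le_card h4
      rw [Nat.card_Ico] at h5
      have := h2 M (Finset.mem_insert_self _ _)
      omega
    have hcR : (S.card : ℝ) + 2 ≤ M := by exact_mod_cast hcard
    have hs0 : (0 : ℝ) ≤ S.card := Nat.cast_nonneg _
    have hM0 : (0 : ℝ) < M := by linarith
    have h6 : ((S.card : ℝ) + 1) / (S.card + 2) ≤ 1 - (M : ℝ)⁻¹ := by
      have h7 : (M : ℝ)⁻¹ ≤ ((S.card : ℝ) + 2)⁻¹ := by gcongr
      have h8 : ((S.card : ℝ) + 1) / (S.card + 2) = 1 - ((S.card : ℝ) + 2)⁻¹ := by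
        field_simp
        ring
      rw [h8]
      linarith
    calc 1 / (((S.card + 1 : ℕ) : ℝ) + 1) = ((S.card : ℝ) + 1) / (S.card + 2) *
          (1 / ((S.card : ℝ) + 1)) := by
          push_cast
          field_simp
          ring
      _ ≤ _ := mul_le_mul h6 h3 (by positivity) (le_trans (by positivity) h6)

lemma totient_ge {n : ℕ} (hn : 2 ≤ n) : (n : ℝ) ≤ (2 * Real.log n + 1) * (n.totient : ℝ) := by
  have h1 : (n.totient : ℝ) = n * ∏ p ∈ n.primeFactors, (1 - (p : ℝ)⁻¹) := by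
    have := Nat.totient_eq_mul_prod_factors n
    have h2 : ((n.totient : ℚ) : ℝ) = ((n * ∏ p ∈ n.primeFactors, (1 - (p : ℚ)⁻¹) : ℚ) : ℝ) := by
      rw [this]
    push_cast at h2
    exact h2
  have h2 := prod_one_sub_ge n.primeFactors fun p hp => (Nat.prime_of_mem_primeFactors hp).two_le
  have hn0 : (0 : ℝ) < n := by exact_mod_cast (by omega : 0 < n)
  have h3 : ((n.primeFactors.card : ℕ) : ℝ) ≤ 2 * Real.log n := by
    have h4 : 2 ^ n.primeFactors.card ≤ n := by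
      calc 2 ^ n.primeFactors.card ≤ ∏ p ∈ n.primeFactors, p :=
            Finset.pow_card_le_prod _ _ _ fun p hp => (Nat.prime_of_mem_primeFactors hp).two_le
        _ ≤ n := Nat.le_of_dvd (by omega) (Nat.prod_primeFactors_dvd n)
    have h5 : (2 : ℝ) ^ n.primeFactors.card ≤ n := by exact_mod_cast h4
    have h6 := Real.log_le_log (by positivity) h5
    rw [Real.log_pow] at h6
    have h7 := Real.log_two_gt_d9
    have h8 : (0 : ℝ) ≤ n.primeFactors.card := Nat.cast_nonneg _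
    nlinarith
  have hc0 : (0 : ℝ) ≤ n.primeFactors.card := Nat.cast_nonneg _
  have h4 : (n : ℝ) * (1 / ((n.primeFactors.card : ℝ) + 1)) ≤ n.totient := by
    rw [h1]
    gcongr
  have h5 : (n : ℝ) ≤ ((n.primeFactors.card : ℝ) + 1) * n.totient := by
    rw [mul_one_div, div_le_iff₀ (by positivity)] at h4
    linarith
  refine h5.trans ?_
  gcongr

/-- the `n`-th roots of unity -/
lemma root_eq {n : ℕ} (hn : 1 ≤ n) {ζ : ℂ} (hζ : ζ ^ n = 1) :
    ∃ t ∈ Finset.Ioc n (2 * n), e ((t : ℝ) / n) = ζ := by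
  have hn0 : (n : ℂ) ≠ 0 := by exact_mod_cast (by omega : n ≠ 0)
  have hnR : (n : ℝ) ≠ 0 := by exact_mod_cast (by omega : n ≠ 0)
  have hprim := Complex.isPrimitiveRoot_exp n (by omega)
  have : NeZero n := ⟨by omega⟩
  obtain ⟨i, hi, hiζ⟩ := hprim.eq_pow_of_pow_eq_one hζ
  have h1 : ∀ k : ℕ, e ((k : ℝ) / n) = Complex.exp (2 * Real.pi * Complex.I / n) ^ k := by
    intro k
    rw [← Complex.exp_nat_mul, e_eq]
    congr 1
    push_cast
    field_simp
  rcases Nat.eq_zero_or_pos i with h0 | h0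
  · refine ⟨2 * n, Finset.mem_Ioc.2 ⟨by omega, le_rfl⟩, ?_⟩
    rw [h0, pow_zero] at hiζ
    rw [← hiζ]
    have h2 : ((2 * n : ℕ) : ℝ) / n = 0 + ((2 : ℤ) : ℝ) := by
      push_cast
      field_simp
      ring
    rw [h2, e_add_int, e_zero]
  · refine ⟨n + i, Finset.mem_Ioc.2 ⟨by omega, by omega⟩, ?_⟩
    have h2 : ((n + i : ℕ) : ℝ) / n = (i : ℝ) / n + ((1 : ℤ) : ℝ) := by
      push_cast
      field_simp
      ring
    rw [h2, e_add_int, h1, hiζ]

lemma bad_roots {n : ℕ} (hn : 1 ≤ n) (Q : ℂ → Prop)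
    [DecidablePred fun t : ℕ => Q (e ((t : ℝ) / n))] :
    {ζ : ℂ | ζ ^ n = 1 ∧ Q ζ}.Finite ∧ {ζ : ℂ | ζ ^ n = 1 ∧ Q ζ}.ncard ≤
      ((Finset.Ioc n (2 * n)).filter (fun t : ℕ => Q (e ((t : ℝ) / n)))).card := by
  have h1 : {ζ : ℂ | ζ ^ n = 1 ∧ Q ζ} ⊆
      (((Finset.Ioc n (2 * n)).filter (fun t : ℕ => Q (e ((t : ℝ) / n)))).image
        (fun t : ℕ => e ((t : ℝ) / n)) : Finset ℂ) := by
    classical
    rintro ζ ⟨h1, h2⟩
    obtain ⟨t, ht, htζ⟩ := root_eq hn h1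
    rw [Finset.coe_image]
    refine ⟨t, ?_, htζ⟩
    rw [Finset.mem_coe, Finset.mem_filter]
    refine ⟨ht, ?_⟩
    rw [htζ]
    exact h2
  refine ⟨(Finset.finite_toSet _).subset h1, ?_⟩
  refine (Set.ncard_le_ncard h1 (Finset.finite_toSet _)).trans ?_
  rw [Set.ncard_coe_finset]
  exact Finset.card_image_le

/-- the constant `1 / (2 log 2)` -/
lemma half_log : (1 : ℝ) / 2 / Real.log 2 + 1 / 50 ≤ 3 / 4 := by
  have h1 := Real.log_two_gt_d9
  have h2 : (1 : ℝ) / 2 / Real.log 2 ≤ 73 / 100 := by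
    rw [div_le_iff₀ (by linarith)]
    linarith
  linarith

open Classical in
/-- **joint normality for roots of unity** -/
theorem cyc_roots (D r : ℕ) (hr : 1 ≤ r) (δ β : ℝ) (hδ : 0 < δ) (hβ : 0 < β)
    (hδβ : 2 * δ + β < 1) (B w : ℕ) (ε : ℝ) (hε : 0 < ε) :
    ∃ n₀ : ℕ, ∀ n : ℕ, n₀ ≤ n → ∀ Q : ℂ → Prop,
      (∀ ζ : ℂ, (∀ (b : ℕ) (u v : Fin r → ℤ[X]) (m : Fin r → ℕ), 2 ≤ b → b ≤ B →
        SmlC D (Real.exp ((Real.log n) ^ β)) u v m →
        NwT b w ((Real.log n) ^ (1 + δ)) ε (3 / 4 * Real.log n)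
          (fun j => Fp (u j) (v j) ζ / m j)) → Q ζ) →
      (({ζ : ℂ | ζ ^ n = 1 ∧ ¬ Q ζ}.ncard : ℕ) : ℝ) ≤ Real.exp (-(Real.log n) ^ β) * n ∧
      (({ζ : ℂ | IsPrimitiveRoot ζ n ∧ ¬ Q ζ}.ncard : ℕ) : ℝ) ≤
        Real.exp (-(Real.log n) ^ β) * n.totient := by
  obtain ⟨γ, hγ⟩ : ∃ γ : ℝ, γ = (1 - 2 * δ - β) / 2 := ⟨_, rfl⟩
  have hγ0 : 0 < γ := by rw [hγ]; linarith
  obtain ⟨β', hβ'⟩ : ∃ β' : ℝ, β' = β + γ := ⟨_, rfl⟩
  have hββ : β < β' := by linarith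
  obtain ⟨n1, hn1⟩ := cyc_tuple D r hr δ β' hδ (by linarith) (by linarith) B w
    (min ε (1 / 50)) (lt_min hε (by norm_num))
  obtain ⟨n2, hn2⟩ := eventually_atTop.1 ((((logpow hββ 2).and (loglog_le hβ 1)).and
    (log_ge 3)).and ((eventually_ge_atTop 2).and (logpow hββ 4)))
  refine ⟨max n1 n2, fun n hn Q hQ => ?_⟩
  obtain ⟨⟨⟨a1, a2⟩, a3⟩, a4, a5⟩ := hn2 n (le_of_max_le_right hn)
  have key := hn1 n (le_of_max_le_left hn)
  have hn0 : (0 : ℝ) < n := by exact_mod_cast (by omega : 0 < n)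
  have htot := totient_ge a4
  obtain ⟨L, hL⟩ : ∃ L : ℝ, L = Real.log n := ⟨_, rfl⟩
  rw [← hL] at a1 a2 a3 a5 key hQ htot ⊢
  rw [one_mul] at a2
  have hL0 : 0 < L := by linarith
  have hVV : Real.exp (L ^ β) ≤ Real.exp (L ^ β') :=
    Real.exp_le_exp.2 (Real.rpow_le_rpow_of_exponent_le (by linarith) hββ.le)
  -- the bad points
  have hbad : (((Finset.Ioc n (2 * n)).filter (fun t : ℕ => ¬ Q (e ((t : ℝ) / n)))).card : ℝ) ≤
      n * Real.exp (-L ^ β') := by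
    refine le_trans (Nat.cast_le.2 (Finset.card_le_card fun t ht => ?_)) key
    rw [Finset.mem_filter] at ht ⊢
    refine ⟨ht.1, fun hcon => ht.2 (hQ _ ?_)⟩
    intro b u v m hb hbB hsml k s N W hk hkw hW hsN
    have hsml' : SmlC D (Real.exp (L ^ β')) u v m :=
      ⟨hsml.1, fun j i => ⟨(hsml.2.1 j i).1.trans hVV, (hsml.2.1 j i).2.trans hVV⟩, hsml.2.2.1,
        fun j => (hsml.2.2.2.1 j).trans hVV, hsml.2.2.2.2⟩
    refine (hcon b u v m hb hbB hsml' k s N W hk hkw hW hsN).trans ?_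
    have h1 : min ε (1 / 50) * (N : ℝ) ≤ ε * N :=
      mul_le_mul_of_nonneg_right (min_le_left _ _) (Nat.cast_nonneg _)
    have h2 : (1 / 2 / Real.log 2 + min ε (1 / 50)) * L ≤ 3 / 4 * L := by
      refine mul_le_mul_of_nonneg_right ?_ hL0.le
      have h3 := half_log
      have h4 : min ε (1 / 50 : ℝ) ≤ 1 / 50 := min_le_right _ _
      linarith
    linarith
  have hmain := bad_roots (by omega : 1 ≤ n) (fun ζ => ¬ Q ζ)
  have h1 : (({ζ : ℂ | ζ ^ n = 1 ∧ ¬ Q ζ}.ncard : ℕ) : ℝ) ≤ n * Real.exp (-L ^ β') :=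
    le_trans (Nat.cast_le.2 (hmain.2.trans (Finset.card_le_card fun t ht =>
      Finset.mem_filter.2 (Finset.mem_filter.1 ht)))) hbad
  have hexp : (2 * L + 1) * Real.exp (-L ^ β') ≤ Real.exp (-L ^ β) := by
    have e1 : 2 * L + 1 ≤ Real.exp (3 * L ^ β) := by
      have e2 : L = Real.exp (Real.log L) := (Real.exp_log hL0).symm
      have e3 : L ≤ Real.exp (L ^ β) := by
        calc L = Real.exp (Real.log L) := e2
          _ ≤ _ := Real.exp_le_exp.2 a2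
      have e4 : Real.exp (3 * L ^ β) = Real.exp (L ^ β) ^ 3 := by
        rw [← Real.exp_nat_mul]
        norm_num
      rw [e4]
      have e5 : (3 : ℝ) ≤ Real.exp (L ^ β) := by linarith
      have e6 : 3 * Real.exp (L ^ β) ≤ Real.exp (L ^ β) ^ 2 := by nlinarith
      have e7 : Real.exp (L ^ β) ^ 2 ≤ Real.exp (L ^ β) ^ 3 :=
        pow_le_pow_right₀ (by linarith) (by norm_num)
      linarith
    calc (2 * L + 1) * Real.exp (-L ^ β') ≤ Real.exp (3 * L ^ β) * Real.exp (-L ^ β') := by gcongr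
      _ = Real.exp (3 * L ^ β + -L ^ β') := by rw [Real.exp_add]
      _ ≤ _ := by
        apply Real.exp_le_exp.2
        linarith
  constructor
  · refine h1.trans ?_
    rw [mul_comm]
    refine mul_le_mul_of_nonneg_right (Real.exp_le_exp.2 ?_) hn0.le
    have : 0 ≤ L ^ β := Real.rpow_nonneg hL0.le _
    linarith
  · have h2 : (({ζ : ℂ | IsPrimitiveRoot ζ n ∧ ¬ Q ζ}.ncard : ℕ) : ℝ) ≤
        (({ζ : ℂ | ζ ^ n = 1 ∧ ¬ Q ζ}.ncard : ℕ) : ℝ) := by
      refine Nat.cast_le.2 (Set.ncard_le_ncard ?_ hmain.1)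
      rintro ζ ⟨h3, h4⟩
      exact ⟨h3.pow_eq_one, h4⟩
    refine (h2.trans h1).trans ?_
    calc (n : ℝ) * Real.exp (-L ^ β') ≤ ((2 * L + 1) * (n.totient : ℝ)) * Real.exp (-L ^ β') := by
          gcongr
      _ = ((2 * L + 1) * Real.exp (-L ^ β')) * n.totient := by ring
      _ ≤ _ := by gcongr

end Pool.Agent.J6H93.Fam
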