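import Pool.Agent.N586.AN.Tn3
import Pool.Agent.N586.AN.Vm

/-!
# Bilinear sums with coefficients which are controlled for a positive proportion of the indices

This follows `Pool.Agent.N586.AN.Tn3`. The coefficients `a j` have to be close to `N ^ (κ - j)` only for
the indices `j` in a set `J` with at least `γ κ` elements, and only up to factors `N ^ (g₀ κ)`.
-/

set_option autoImplicit false

namespace Pool.Agent.J6H93.Fam

open Finset Pool.Agent.Y957.VK Pool.Agent.Y70.VK Pool.Agent.N586.RT Pool.Agent.N586.AN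

/-- one good factor -/
theorem wj_good (h : S_WB) {s M j N r : ℕ} {κ μ g a : ℝ} (hs : 1 ≤ s) (hM : 1 ≤ M) (hN : 2 ≤ N)
    (hjr : j ≤ r) (hrs : r ≤ s)
    (hM2 : (N : ℝ) ^ μ ≤ 2 * M) (hMN : (M : ℝ) ≤ (N : ℝ) ^ μ) (hμ1 : μ ≤ 1)
    (hg : 0 < g) (hgs : 6 * (s : ℝ) ≤ (N : ℝ) ^ g)
    (h1 : κ + 3 * g ≤ (1 - μ) * j) (h2 : (1 - 2 * μ) * j + 2 * g ≤ κ) (h3 : g ≤ μ * j)
    (hlo : (N : ℝ) ^ (κ - g - j) ≤ |a|) (hup : |a| ≤ (N : ℝ) ^ (κ + g - j)) :
    WJ s M j a ≤ (M : ℝ) ^ (2 * j) * (4 ^ r * (5 * s) * (1 + Real.log N) * (N : ℝ) ^ (-g)) := by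
  have hNr : (2 : ℝ) ≤ N := by exact_mod_cast hN
  have hN0 : (0 : ℝ) < N := by linarith
  have hN1 : (1 : ℝ) ≤ N := by linarith
  have hs0 : (1 : ℝ) ≤ s := by exact_mod_cast hs
  have hM0 : (1 : ℝ) ≤ M := by exact_mod_cast hM
  have hapos : 0 < |a| := lt_of_lt_of_le (Real.rpow_pos_of_pos hN0 _) hlo
  have hane : a ≠ 0 := abs_pos.1 hapos
  obtain ⟨_, hW2⟩ := h s M j a hs hM
  have hVcast : ((s * M ^ j : ℕ) : ℝ) = s * (M : ℝ) ^ j := by push_cast; rfl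
  rw [hVcast] at hW2
  have hMj : (1 : ℝ) ≤ (M : ℝ) ^ j := one_le_pow₀ hM0
  have hMj2 : (M : ℝ) ^ j ≤ (N : ℝ) ^ (μ * j : ℝ) := by
    rw [Real.rpow_mul hN0.le, Real.rpow_natCast]
    exact pow_le_pow_left₀ (by linarith) hMN j
  have h2Mj : (N : ℝ) ^ (μ * j : ℝ) ≤ (2 * M : ℝ) ^ j := by
    rw [Real.rpow_mul hN0.le, Real.rpow_natCast]
    exact pow_le_pow_left₀ (by positivity) hM2 j
  have hsmall : |a| * (s * (M : ℝ) ^ j) ≤ 1 / 2 := by
    have e1 : |a| * (s * (M : ℝ) ^ j) ≤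
        (N : ℝ) ^ (κ + g - j) * ((N : ℝ) ^ g / 6 * (N : ℝ) ^ (μ * j : ℝ)) := by
      gcongr
      linarith
    have e2 : (N : ℝ) ^ (κ + g - j) * ((N : ℝ) ^ g / 6 * (N : ℝ) ^ (μ * j : ℝ)) =
        (N : ℝ) ^ (κ + g - j + g + μ * j) / 6 := by
      rw [Real.rpow_add hN0, Real.rpow_add hN0]
      ring
    have e3 : (N : ℝ) ^ (κ + g - j + g + μ * j) ≤ 1 := by
      apply Real.rpow_le_one_of_one_le_of_nonpos hN1
      linarith
    rw [e2] at e1
    linarith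
  have hW := hW2 hane hsmall
  have hP : 0 < (N : ℝ) ^ (-g : ℝ) := Real.rpow_pos_of_pos hN0 _
  have hlogN : 0 ≤ Real.log N := Real.log_nonneg hN1
  have hlogs : 0 ≤ Real.log s := Real.log_nonneg hs0
  have hlogs2 : Real.log s ≤ s - 1 := Real.log_le_sub_one_of_pos (by linarith)
  have hjs : (j : ℝ) ≤ s := by exact_mod_cast hjr.trans hrs
  have hj0 : (0 : ℝ) ≤ j := Nat.cast_nonneg j
  obtain ⟨Q, hQ⟩ : ∃ Q : ℝ, Q = (M : ℝ) ^ (2 * j) * (N : ℝ) ^ (-g : ℝ) := ⟨_, rfl⟩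
  have hQ0 : 0 < Q := by rw [hQ]; positivity
  -- the first term
  have hF1 : 2 * (s * (M : ℝ) ^ j) + 1 ≤ 3 * s * 2 ^ j * Q := by
    have e0 : 1 ≤ s * (M : ℝ) ^ j := one_le_mul_of_one_le_of_one_le hs0 hMj
    have e1 : (1 : ℝ) ≤ (2 * M : ℝ) ^ j * (N : ℝ) ^ (-g : ℝ) := by
      have e2 : (N : ℝ) ^ (g : ℝ) * (N : ℝ) ^ (-g : ℝ) = 1 := by
        rw [← Real.rpow_add hN0, add_neg_cancel, Real.rpow_zero]
      rw [← e2]
      refine mul_le_mul_of_nonneg_right (le_trans ?_ h2Mj) hP.le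
      exact Real.rpow_le_rpow_of_exponent_le hN1 h3
    calc 2 * (s * (M : ℝ) ^ j) + 1 ≤ 3 * s * (M : ℝ) ^ j * 1 := by linarith
      _ ≤ 3 * s * (M : ℝ) ^ j * ((2 * M : ℝ) ^ j * (N : ℝ) ^ (-g : ℝ)) :=
        mul_le_mul_of_nonneg_left e1 (by positivity)
      _ = 3 * s * 2 ^ j * Q := by rw [hQ, mul_pow, two_mul j, pow_add]; ring
  -- the second term
  have hF2 : 1 / |a| ≤ 4 ^ j * Q := by
    have e0 : 1 / |a| ≤ 1 / (N : ℝ) ^ (κ - g - j) :=
      one_div_le_one_div_of_le (Real.rpow_pos_of_pos hN0 _) hlo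
    refine e0.trans ?_
    rw [one_div, ← Real.rpow_neg hN0.le]
    have e1 : (N : ℝ) ^ (-(κ - g - j)) ≤ (N : ℝ) ^ (μ * j + μ * j + -g) :=
      Real.rpow_le_rpow_of_exponent_le hN1 (by linarith)
    refine e1.trans ?_
    rw [Real.rpow_add hN0, Real.rpow_add hN0]
    calc (N : ℝ) ^ (μ * j) * (N : ℝ) ^ (μ * j) * (N : ℝ) ^ (-g) ≤
        (2 * M : ℝ) ^ j * (2 * M : ℝ) ^ j * (N : ℝ) ^ (-g) := by gcongr
      _ = 4 ^ j * Q := by
          rw [hQ, ← mul_pow, two_mul j, pow_add]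
          have : (2 * (M : ℝ)) * (2 * M) = 4 * (M * M) := by ring
          rw [this, mul_pow, mul_pow]
          ring
  have hlogV : Real.log (s * (M : ℝ) ^ j) ≤ Real.log s + j * Real.log N := by
    rw [Real.log_mul (by positivity) (by positivity), Real.log_pow]
    have e1 : Real.log M ≤ Real.log N := by
      refine Real.log_le_log (by linarith) (hMN.trans ?_)
      calc (N : ℝ) ^ μ ≤ (N : ℝ) ^ (1 : ℝ) :=
            Real.rpow_le_rpow_of_exponent_le hN1 hμ1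
        _ = N := Real.rpow_one _
    have e2 := mul_le_mul_of_nonneg_left e1 hj0
    linarith
  have hlog : 1 + Real.log (s * (M : ℝ) ^ j) ≤ (2 * s) * (1 + Real.log N) := by
    have e1 : j * Real.log N ≤ s * Real.log N := mul_le_mul_of_nonneg_right hjs hlogN
    have e2 : 0 ≤ s * Real.log N := by positivity
    nlinarith
  have hlogV0 : 0 ≤ 1 + Real.log (s * (M : ℝ) ^ j) := by
    have := Real.log_nonneg (one_le_mul_of_one_le_of_one_le hs0 hMj)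
    linarith
  have h4j : (4 : ℝ) ^ j ≤ 4 ^ r := pow_le_pow_right₀ (by norm_num) hjr
  have h2j : (2 : ℝ) ^ j ≤ 4 ^ r := by
    calc (2 : ℝ) ^ j ≤ 4 ^ j := pow_le_pow_left₀ (by norm_num) (by norm_num) j
      _ ≤ 4 ^ r := h4j
  calc WJ s M j a ≤ 2 * (s * (M : ℝ) ^ j) + 1 +
        1 / |a| * (1 + Real.log (s * (M : ℝ) ^ j)) := hW
    _ ≤ 3 * s * 2 ^ j * Q + 4 ^ j * Q * ((2 * s) * (1 + Real.log N)) :=
        add_le_add hF1 (mul_le_mul hF2 hlog hlogV0 (by positivity))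
    _ ≤ 3 * s * 4 ^ r * Q * (1 + Real.log N) + 4 ^ r * Q * ((2 * s) * (1 + Real.log N)) := by
        have e1 : 3 * (s : ℝ) * 2 ^ j * Q ≤ 3 * s * 4 ^ r * Q * (1 + Real.log N) := by
          calc 3 * (s : ℝ) * 2 ^ j * Q ≤ 3 * s * 4 ^ r * Q * 1 := by
                rw [mul_one]
                gcongr
            _ ≤ _ := by
                gcongr
                linarith
        gcongr
    _ = (M : ℝ) ^ (2 * j) * (4 ^ r * (5 * s) * (1 + Real.log N) * (N : ℝ) ^ (-g)) := by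
        rw [hQ]
        ring

lemma log_one_add_le {L a : ℝ} (hL : 0 ≤ L) (ha : 0 < a) : Real.log (1 + L) ≤ 1 / a + a * L := by
  have h3 : 1 + L ≤ (1 + 1 / a) * (1 + a * L) := by
    have h4 : (1 + 1 / a) * (1 + a * L) = 1 + L + (a * L + 1 / a) := by
      field_simp
      ring
    rw [h4]
    have : 0 ≤ a * L + 1 / a := by positivity
    linarith
  have h4 : (0 : ℝ) < 1 + 1 / a := by positivity
  have h5 : (0 : ℝ) < 1 + a * L := by positivity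
  calc Real.log (1 + L) ≤ Real.log ((1 + 1 / a) * (1 + a * L)) :=
        Real.log_le_log (by linarith) h3
    _ = Real.log (1 + 1 / a) + Real.log (1 + a * L) := Real.log_mul h4.ne' h5.ne'
    _ ≤ 1 / a + a * L := by
        have h6 := Real.log_le_sub_one_of_pos h4
        have h7 := Real.log_le_sub_one_of_pos h5
        linarith

lemma one_sub_pow_le {r m : ℕ} (hr : 1 ≤ r) (hm : 1 ≤ m) :
    (1 - 1 / (r : ℝ)) ^ (r * m) ≤ 1 / m := by
  have hr0 : (0 : ℝ) < r := by exact_mod_cast hr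
  have hm0 : (0 : ℝ) < m := by exact_mod_cast hm
  have hr1 : (1 : ℝ) ≤ r := by exact_mod_cast hr
  have h0 : (0 : ℝ) ≤ 1 - 1 / r := by
    rw [sub_nonneg, div_le_one hr0]
    exact hr1
  have h1 : 1 - 1 / (r : ℝ) ≤ Real.exp (-(1 / r)) := by
    have := Real.add_one_le_exp (-(1 / (r : ℝ)))
    linarith
  have h2 : (1 - 1 / (r : ℝ)) ^ (r * m) ≤ Real.exp (-(1 / r)) ^ (r * m) :=
    pow_le_pow_left₀ h0 h1 _
  have h3 : Real.exp (-(1 / (r : ℝ))) ^ (r * m) = Real.exp (-m) := by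
    rw [← Real.exp_nat_mul]
    congr 1
    push_cast
    field_simp
  have h4 : Real.exp (-(m : ℝ)) ≤ 1 / m := by
    rw [Real.exp_neg, ← one_div]
    apply one_div_le_one_div_of_le hm0
    have := Real.add_one_le_exp (m : ℝ)
    linarith
  rw [h3] at h2
  exact h2.trans h4

/-- the final inequality -/
lemma final_ineq {κ L l r η s γ g₀ m A0 A1 C1 y j c : ℝ} (hκ : 1 / 2 ≤ κ) (hL : 0 ≤ L) (hl : 0 ≤ l)
    (hlL : l ≤ L) (hr2 : 2 ≤ r) (hr : r ≤ 17 * κ) (hγ : 0 < γ) (hg : 0 < g₀)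
    (hm : 1400 / (γ * g₀) ≤ m - 1) (hη : η = r * (r + 1) / 2 * (1 / (m - 1)))
    (hs : s = m * r ^ 2) (hj : γ * κ ≤ j) (hjr : j ≤ r)
    (hA0 : A0 = 2 * r + 3 * s) (hA1 : A1 = C1 * (r * m) ^ 4) (hC1 : 0 ≤ C1)
    (hc : c = γ * g₀ / (668168 * m ^ 2))
    (H : 4 * s ^ 2 * y ≤ (8 * s ^ 2 - 4 * s) * l + 2 * (A1 + (2 * s - r * (r + 1) / 2 + η) * l) +
      (r * (r + 1) * l + r * A0 + j * Real.log (1 + L) - j * (g₀ * κ * L))) :
    y ≤ 2 * l + (C1 * m ^ 2 + 2 + 1156 / (γ * g₀)) - c / (1 + κ) ^ 2 * L := by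
  have hκ0 : 0 < κ := by linarith
  have hr0 : 0 < r := by linarith
  have hγg : 0 < γ * g₀ := by positivity
  have hm1 : 0 < m - 1 := lt_of_lt_of_le (by positivity) hm
  have hm2 : 1 < m := by linarith
  have hs1 : 4 ≤ s := by
    rw [hs]
    nlinarith
  have hs2 : 0 < 4 * s ^ 2 := by positivity
  have hrr : r * (r + 1) ≤ 323 * κ ^ 2 := by
    calc r * (r + 1) ≤ (17 * κ) * (19 * κ) := by gcongr; linarith
      _ = 323 * κ ^ 2 := by ring
  -- the term with `η`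
  have h1 : 2 * η * l ≤ γ * g₀ * κ ^ 2 / 4 * L := by
    have e1 : 1 / (m - 1) ≤ γ * g₀ / 1400 := by
      rw [div_le_div_iff₀ hm1 (by norm_num), one_mul]
      rw [div_le_iff₀ hγg] at hm
      linarith
    have e2 : 2 * η ≤ γ * g₀ * κ ^ 2 / 4 := by
      rw [hη]
      calc 2 * (r * (r + 1) / 2 * (1 / (m - 1))) = r * (r + 1) * (1 / (m - 1)) := by ring
        _ ≤ 323 * κ ^ 2 * (γ * g₀ / 1400) := by gcongr
        _ ≤ γ * g₀ * κ ^ 2 / 4 := by
            have : 0 < γ * g₀ * κ ^ 2 := by positivity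
            nlinarith
    calc 2 * η * l ≤ γ * g₀ * κ ^ 2 / 4 * l := by gcongr
      _ ≤ _ := by gcongr
  -- the logarithm
  have h2 : j * Real.log (1 + L) ≤ 1156 / (γ * g₀) + γ * g₀ * κ ^ 2 / 4 * L := by
    have e0 : 0 ≤ Real.log (1 + L) := Real.log_nonneg (by linarith)
    have e1 := log_one_add_le hL (a := γ * g₀ * κ / 68) (by positivity)
    calc j * Real.log (1 + L) ≤ (17 * κ) * Real.log (1 + L) := by
          gcongr
          linarith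
      _ ≤ (17 * κ) * (1 / (γ * g₀ * κ / 68) + γ * g₀ * κ / 68 * L) := by gcongr
      _ = 1156 / (γ * g₀) + γ * g₀ * κ ^ 2 / 4 * L := by
          field_simp
          ring
  have h3 : γ * g₀ * κ ^ 2 * L ≤ j * (g₀ * κ * L) := by
    calc γ * g₀ * κ ^ 2 * L = (γ * κ) * (g₀ * κ * L) := by ring
      _ ≤ _ := by gcongr
  have h4 : 4 * s ^ 2 * y ≤ 8 * s ^ 2 * l + (2 * A1 + r * A0 + 1156 / (γ * g₀)) -
      γ * g₀ * κ ^ 2 / 2 * L := by
    nlinarith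
  -- the constants
  have h5 : 2 * A1 + r * A0 + 1156 / (γ * g₀) ≤ 4 * s ^ 2 * (C1 * m ^ 2 + 2 + 1156 / (γ * g₀)) := by
    have e1 : 2 * A1 ≤ 4 * s ^ 2 * (C1 * m ^ 2) := by
      rw [hA1, hs]
      have : 0 ≤ C1 * (r * m) ^ 4 := by positivity
      calc 2 * (C1 * (r * m) ^ 4) ≤ 4 * (C1 * (r * m) ^ 4) := by linarith
        _ = _ := by ring
    have hrs : r ≤ s := by
      rw [hs]
      nlinarith
    have e2 : r * A0 ≤ 4 * s ^ 2 * 2 := by
      rw [hA0]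
      nlinarith
    have e3 : 1156 / (γ * g₀) ≤ 4 * s ^ 2 * (1156 / (γ * g₀)) := by
      have : 0 < 1156 / (γ * g₀) := by positivity
      have h7 : 1 ≤ 4 * s ^ 2 := by nlinarith
      nlinarith
    calc _ ≤ 4 * s ^ 2 * (C1 * m ^ 2) + 4 * s ^ 2 * 2 + 4 * s ^ 2 * (1156 / (γ * g₀)) := by linarith
      _ = _ := by ring
  have h6 : 4 * s ^ 2 * (c / (1 + κ) ^ 2) ≤ γ * g₀ * κ ^ 2 / 2 := by
    have e1 : r ^ 2 ≤ 289 * κ ^ 2 := by
      calc r ^ 2 ≤ (17 * κ) ^ 2 := by gcongr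
        _ = 289 * κ ^ 2 := by ring
    have e2 : s ^ 2 ≤ m ^ 2 * (83521 * (κ ^ 2 * κ ^ 2)) := by
      rw [hs]
      calc (m * r ^ 2) ^ 2 = m ^ 2 * (r ^ 2) ^ 2 := by ring
        _ ≤ m ^ 2 * (289 * κ ^ 2) ^ 2 := by gcongr
        _ = _ := by ring
    have e3 : κ ^ 2 ≤ (1 + κ) ^ 2 := by gcongr; linarith
    have e4 : (0 : ℝ) < (1 + κ) ^ 2 := by positivity
    rw [hc, div_div, ← mul_div_assoc, div_le_iff₀ (by positivity)]
    calc 4 * s ^ 2 * (γ * g₀) ≤ 4 * (m ^ 2 * (83521 * (κ ^ 2 * κ ^ 2))) * (γ * g₀) := by gcongr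
      _ ≤ 4 * (m ^ 2 * (83521 * (κ ^ 2 * (1 + κ) ^ 2))) * (γ * g₀) := by gcongr
      _ = γ * g₀ * κ ^ 2 / 2 * (668168 * m ^ 2 * (1 + κ) ^ 2) := by ring
  refine le_of_mul_le_mul_left ?_ hs2
  have h7 : 4 * s ^ 2 * (c / (1 + κ) ^ 2) * L ≤ γ * g₀ * κ ^ 2 / 2 * L := by gcongr
  calc 4 * s ^ 2 * y ≤ 8 * s ^ 2 * l + 4 * s ^ 2 * (C1 * m ^ 2 + 2 + 1156 / (γ * g₀)) -
        4 * s ^ 2 * (c / (1 + κ) ^ 2) * L := by linarith
    _ = 4 * s ^ 2 * (2 * l + (C1 * m ^ 2 + 2 + 1156 / (γ * g₀)) - c / (1 + κ) ^ 2 * L) := by ring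

/-- **the bilinear sums** -/
theorem bil (γ g₀ : ℝ) (hγ : 0 < γ) (hg : 0 < g₀) : ∃ (m : ℕ) (K c : ℝ), 1 ≤ m ∧ 0 < K ∧ 0 < c ∧
    ∀ (N M r : ℕ) (κ μ : ℝ) (a : ℕ → ℝ) (J : Finset ℕ), 2 ≤ N → 1 ≤ M → 1 / 2 ≤ κ → 2 ≤ r →
      (r : ℝ) ≤ 17 * κ → μ ≤ 1 → (N : ℝ) ^ μ ≤ 2 * M → (M : ℝ) ≤ (N : ℝ) ^ μ →
      J ⊆ Finset.Icc 1 r → γ * κ ≤ J.card → 6 * (m * (r : ℝ) ^ 2) ≤ (N : ℝ) ^ (g₀ * κ) →
      (∀ j ∈ J, κ + 3 * (g₀ * κ) ≤ (1 - μ) * j ∧ (1 - 2 * μ) * j + 2 * (g₀ * κ) ≤ κ ∧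
        g₀ * κ ≤ μ * j ∧ (N : ℝ) ^ (κ - g₀ * κ - j) ≤ |a j| ∧ |a j| ≤ (N : ℝ) ^ (κ + g₀ * κ - j)) →
      ‖TT r M a‖ ≤ K * (M : ℝ) ^ 2 * (N : ℝ) ^ (-(c / (1 + κ) ^ 2)) := by
  obtain ⟨C1, hC1, hV⟩ := t_vm
  have hW := Pool.Agent.Y331.VK.wb
  have h2 := dbl_all
  obtain ⟨q, hq⟩ : ∃ q : ℕ, q = ⌈1400 / (γ * g₀)⌉₊ := ⟨_, rfl⟩
  have hγg : 0 < γ * g₀ := by positivity
  have hqR : 1400 / (γ * g₀) ≤ q := by
    rw [hq]
    exact Nat.le_ceil _
  have hq1 : 1 ≤ q := by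
    rw [hq]
    exact Nat.ceil_pos.2 (by positivity)
  clear hq
  obtain ⟨m, hm⟩ : ∃ m : ℕ, m = q + 1 := ⟨_, rfl⟩
  have hmq : (m : ℝ) - 1 = q := by rw [hm]; push_cast; ring
  have hm1 : 1 ≤ m := by omega
  obtain ⟨c, hc⟩ : ∃ c : ℝ, c = γ * g₀ / (668168 * (m : ℝ) ^ 2) := ⟨_, rfl⟩
  have hm0 : (0 : ℝ) < m := by exact_mod_cast hm1
  have hc0 : 0 < c := by rw [hc]; positivity
  refine ⟨m, Real.exp (C1 * m ^ 2 + 2 + 1156 / (γ * g₀)), c, hm1, Real.exp_pos _, hc0, ?_⟩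
  intro N M r κ μ a J hN hM1 hκ hr2 hr17 hμ1 hMlo hMle hJ hJc hsN hgood
  have hκ0 : 0 < κ := by linarith
  have hNr : (2 : ℝ) ≤ N := by exact_mod_cast hN
  have hN0 : (0 : ℝ) < N := by linarith
  have hr0 : (0 : ℝ) ≤ r := Nat.cast_nonneg _
  have hM1r : (1 : ℝ) ≤ M := by exact_mod_cast hM1
  obtain ⟨L, hL⟩ : ∃ L : ℝ, L = Real.log N := ⟨_, rfl⟩
  obtain ⟨l, hl⟩ : ∃ l : ℝ, l = Real.log M := ⟨_, rfl⟩
  have hL0 : 0 ≤ L := by rw [hL]; exact Real.log_nonneg (by linarith)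
  have hl0 : 0 ≤ l := by rw [hl]; exact Real.log_nonneg hM1r
  have hlL : l ≤ L := by
    rw [hl, hL]
    apply Real.log_le_log (by linarith)
    calc (M : ℝ) ≤ (N : ℝ) ^ μ := hMle
      _ ≤ (N : ℝ) ^ (1 : ℝ) := Real.rpow_le_rpow_of_exponent_le (by linarith) hμ1
      _ = N := Real.rpow_one _
  have hexpN : ∀ a : ℝ, (N : ℝ) ^ a = Real.exp (a * L) := by
    intro a
    rw [Real.rpow_def_of_pos hN0, hL, mul_comm]
  have hexpM : (M : ℝ) ^ 2 = Real.exp (2 * l) := by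
    rw [hl, mul_comm, Real.exp_mul, Real.exp_log (by linarith)]
    norm_cast
  rcases (norm_nonneg (TT r M a)).eq_or_lt with hT | hT
  · rw [← hT]
    positivity
  suffices hmain : Real.log ‖TT r M a‖ ≤
      2 * l + (C1 * m ^ 2 + 2 + 1156 / (γ * g₀)) - c / (1 + κ) ^ 2 * L by
    rw [hexpM, hexpN, ← Real.exp_add, ← Real.exp_add, ← Real.exp_log hT]
    apply Real.exp_le_exp.2
    linarith
  obtain ⟨s, hs⟩ : ∃ s : ℕ, s = m * r ^ 2 := ⟨_, rfl⟩
  have hsR : (s : ℝ) = m * (r : ℝ) ^ 2 := by rw [hs]; push_cast; ring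
  have hs1 : 1 ≤ s := by
    rw [hs]
    have : 0 < r ^ 2 := by positivity
    nlinarith
  have hrs : r ≤ s := by
    rw [hs]
    nlinarith
  have hs1R : (1 : ℝ) ≤ s := by exact_mod_cast hs1
  have hJv := hV r (r * q) M hr2 hM1
  have hrsq : r ^ 2 + r * (r * q) = s := by rw [hs, hm]; ring
  rw [hrsq] at hJv
  have hD := h2 s r M a hs1 (by omega) hM1
  have hrsqR : (r : ℝ) ^ 2 + r * ((r * q : ℕ) : ℝ) = s := by rw [← hrsq]; push_cast; ring
  rw [hrsqR] at hJv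
  obtain ⟨e, he⟩ : ∃ e : ℝ, e = 2 * (s : ℝ) - r * (r + 1) / 2 +
    r * (r + 1) / 2 * (1 - 1 / (r : ℝ)) ^ (r * q) := ⟨_, rfl⟩
  rw [← he] at hJv
  have hTpow : 0 < ‖TT r M a‖ ^ (4 * s ^ 2) := pow_pos hT _
  have hprod : 0 < (M : ℝ) ^ (8 * s ^ 2 - 4 * s) *
      (Pool.Agent.Y957.VK.J s r M : ℝ) ^ 2 * ∏ j ∈ Finset.Icc 1 r, WJ s M j (a j) :=
    hTpow.trans_le hD
  have hJpos : (0 : ℝ) < Pool.Agent.Y957.VK.J s r M := by
    rcases (Nat.cast_nonneg (α := ℝ) (Pool.Agent.Y957.VK.J s r M)).eq_or_lt with h | h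
    · rw [← h] at hprod
      simp at hprod
    · exact h
  have hWnn : ∀ j, 0 ≤ WJ s M j (a j) := by
    intro j
    unfold WJ
    refine Finset.sum_nonneg fun u _ => ?_
    unfold mn dz
    split_ifs
    · positivity
    · refine le_min (by positivity) ?_
      have := abs_nonneg (a j * u - round (a j * u))
      positivity
  have hWpos : ∀ j ∈ Finset.Icc 1 r, 0 < WJ s M j (a j) := by
    intro j hj
    rcases (hWnn j).eq_or_lt with h | h
    · rw [Finset.prod_eq_zero hj h.symm, mul_zero] at hprod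
      exact absurd hprod (lt_irrefl _)
    · exact h
  have hlogJ : Real.log (Pool.Agent.Y957.VK.J s r M : ℝ) ≤ C1 * ((r : ℝ) * m) ^ 4 + e * l := by
    have e1 : (r : ℝ) + ((r * q : ℕ) : ℝ) = r * m := by rw [hm]; push_cast; ring
    rw [e1] at hJv
    refine (Real.log_le_log hJpos hJv).trans (le_of_eq ?_)
    rw [Real.log_mul (Real.exp_pos _).ne' (Real.rpow_pos_of_pos (by linarith) _).ne',
      Real.log_exp, Real.log_rpow (by linarith), hl]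
  have hlog1L : 0 ≤ Real.log (1 + L) := Real.log_nonneg (by linarith)
  have hlog4 : Real.log 4 ≤ 2 := by
    have e1 : Real.log 4 = 2 * Real.log 2 := by
      rw [show (4 : ℝ) = 2 ^ 2 by norm_num, Real.log_pow]
      norm_num
    have := Real.log_two_lt_d9
    rw [e1]
    linarith
  have hlogs : Real.log s ≤ s - 1 := Real.log_le_sub_one_of_pos (by linarith)
  have hlogW : ∀ j ∈ Finset.Icc 1 r, Real.log (WJ s M j (a j)) ≤
      2 * (j : ℝ) * l + (2 * r + 3 * s) +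
        (if j ∈ J then Real.log (1 + L) - g₀ * κ * L else 0) := by
    intro j hj
    have hM2j : Real.log ((M : ℝ) ^ (2 * j)) = 2 * (j : ℝ) * l := by
      rw [Real.log_pow, hl]
      push_cast
      ring
    have hMp : (0 : ℝ) < (M : ℝ) ^ (2 * j) := by positivity
    split_ifs with hjJ
    · obtain ⟨g1, g2, g3, g4, g5⟩ := hgood j hjJ
      have k3 := wj_good hW hs1 hM1 hN (Finset.mem_Icc.1 hj).2 hrs hMlo hMle hμ1
        (by positivity : 0 < g₀ * κ) (by rw [hsR]; exact hsN) g1 g2 g3 g4 g5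
      refine (Real.log_le_log (hWpos j hj) k3).trans ?_
      have k4 : (0 : ℝ) < 1 + Real.log N := by rw [← hL]; linarith
      rw [Real.log_mul hMp.ne' (by positivity), hM2j, Real.log_mul (by positivity) (by positivity),
        Real.log_mul (by positivity) k4.ne', Real.log_mul (by positivity) (by positivity),
        Real.log_mul (by norm_num) (by positivity), Real.log_pow, Real.log_rpow hN0, ← hL]
      have k5 : Real.log 5 ≤ 4 := by
        have := Real.log_le_sub_one_of_pos (by norm_num : (0 : ℝ) < 5)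
        linarith
      have k6 : (4 : ℝ) ≤ s := by
        rw [hsR]
        have e1 : (2 : ℝ) ≤ r := by exact_mod_cast hr2
        have e2 : (1 : ℝ) ≤ m := by exact_mod_cast hm1
        nlinarith
      have k7 : (r : ℝ) * Real.log 4 ≤ r * 2 := by gcongr
      nlinarith
    · have k1 := (hW s M j (a j) hs1 hM1).1
      have k2 : (2 * ((s * M ^ j : ℕ) : ℝ) + 1) ^ 2 ≤ (M : ℝ) ^ (2 * j) * (3 * s) ^ 2 := by
        have e1 : (1 : ℝ) ≤ (M : ℝ) ^ j := one_le_pow₀ hM1r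
        have e2 : 1 ≤ s * (M : ℝ) ^ j := one_le_mul_of_one_le_of_one_le hs1R e1
        push_cast
        calc (2 * (s * (M : ℝ) ^ j) + 1) ^ 2 ≤ (3 * (s * (M : ℝ) ^ j)) ^ 2 :=
              pow_le_pow_left₀ (by linarith) (by linarith) 2
          _ = _ := by ring
      refine (Real.log_le_log (hWpos j hj) (k1.trans k2)).trans ?_
      rw [Real.log_mul hMp.ne' (by positivity), hM2j, Real.log_pow,
        Real.log_mul (by norm_num) (by positivity)]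
      have k5 : Real.log 3 ≤ 1.1 := by
        have e1 : Real.log 3 < 1.0986123 := Real.log_three_lt_d9.trans (by norm_num)
        linarith
      have k6 : (4 : ℝ) ≤ s := by
        rw [hsR]
        have e1 : (2 : ℝ) ≤ r := by exact_mod_cast hr2
        have e2 : (1 : ℝ) ≤ m := by exact_mod_cast hm1
        nlinarith
      push_cast
      linarith
  have hsum : ∑ j ∈ Finset.Icc 1 r, Real.log (WJ s M j (a j)) ≤
      r * (r + 1) * l + r * (2 * r + 3 * s) + (J.card : ℝ) * Real.log (1 + L) -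
        (J.card : ℝ) * (g₀ * κ * L) := by
    refine (Finset.sum_le_sum hlogW).trans (le_of_eq ?_)
    rw [Finset.sum_add_distrib, Finset.sum_add_distrib,
      ← Finset.sum_mul, sum_two_mul, Finset.sum_const, Nat.card_Icc,
      ← Finset.sum_filter, Finset.sum_const]
    have e1 : (Finset.Icc 1 r).filter (fun j => j ∈ J) = J := by
      ext j
      rw [Finset.mem_filter]
      exact ⟨fun h => h.2, fun h => ⟨hJ h, h⟩⟩
    rw [e1]
    simp only [Nat.add_sub_cancel, nsmul_eq_mul]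
    ring
  have hlogD : ((4 * s ^ 2 : ℕ) : ℝ) * Real.log ‖TT r M a‖ ≤
      ((8 * s ^ 2 - 4 * s : ℕ) : ℝ) * l +
        2 * Real.log (Pool.Agent.Y957.VK.J s r M : ℝ) +
        ∑ j ∈ Finset.Icc 1 r, Real.log (WJ s M j (a j)) := by
    have k1 := Real.log_le_log hTpow hD
    have k2 : (0 : ℝ) < ∏ j ∈ Finset.Icc 1 r, WJ s M j (a j) :=
      Finset.prod_pos hWpos
    rw [Real.log_mul (by positivity) k2.ne', Real.log_mul (by positivity) (by positivity),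
      Real.log_pow, Real.log_pow, Real.log_pow, Real.log_prod (fun j hj => (hWpos j hj).ne'),
      ← hl] at k1
    exact_mod_cast k1
  have hcast1 : ((4 * s ^ 2 : ℕ) : ℝ) = 4 * (s : ℝ) ^ 2 := by push_cast; ring
  have hcast2 : ((8 * s ^ 2 - 4 * s : ℕ) : ℝ) = 8 * (s : ℝ) ^ 2 - 4 * (s : ℝ) := by
    rw [Nat.cast_sub]
    · push_cast
      ring
    · nlinarith
  rw [hcast1, hcast2] at hlogD
  have hηle : (r : ℝ) * (r + 1) / 2 * (1 - 1 / (r : ℝ)) ^ (r * q) ≤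
      (r : ℝ) * (r + 1) / 2 * (1 / (m - 1)) := by
    rw [hmq]
    have k1 := one_sub_pow_le (r := r) (m := q) (by omega) hq1
    gcongr
  have hJr : (J.card : ℝ) ≤ r := by
    have k1 := Finset.card_le_card hJ
    rw [Nat.card_Icc, Nat.add_sub_cancel] at k1
    exact_mod_cast k1
  have hfin : 4 * (s : ℝ) ^ 2 * Real.log ‖TT r M a‖ ≤ (8 * (s : ℝ) ^ 2 - 4 * s) * l +
      2 * (C1 * ((r : ℝ) * m) ^ 4 + (2 * s - r * (r + 1) / 2 + r * (r + 1) / 2 * (1 / ((m : ℝ) - 1))) * l) +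
      (r * (r + 1) * l + r * (2 * r + 3 * s) + (J.card : ℝ) * Real.log (1 + L) -
        (J.card : ℝ) * (g₀ * κ * L)) := by
    have k1 : e * l ≤ (2 * s - r * (r + 1) / 2 + r * (r + 1) / 2 * (1 / ((m : ℝ) - 1))) * l := by
      refine mul_le_mul_of_nonneg_right ?_ hl0
      rw [he]
      linarith
    linarith
  exact final_ineq (κ := κ) (L := L) (l := l) (r := r) (s := s) (m := m)
    (η := r * (r + 1) / 2 * (1 / ((m : ℝ) - 1))) (A0 := 2 * r + 3 * s)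
    (A1 := C1 * ((r : ℝ) * m) ^ 4) (j := (J.card : ℝ)) hκ hL0 hl0 hlL
    (by exact_mod_cast hr2) hr17 hγ hg (by rw [hmq]; exact hqR) rfl hsR hJc hJr rfl rfl hC1 hc hfin

end Pool.Agent.J6H93.Fam
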