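import Pool.Agent.J6H93.Fam.Eng1
import Pool.Agent.N586.RT.Zs
import Pool.Agent.Y933.KD.Test

/-!
# Sums over intervals
-/

set_option autoImplicit false

namespace Pool.Agent.J6H93.Fam

open Finset Pool.Agent.Y957.VK Pool.Agent.N586.RT
open Pool.Agent.Y933.KD (e norm_e e_add)

/-- the shift of a sum over any interval -/
theorem shift' (g : ℕ → ℂ) (hg : ∀ n, ‖g n‖ ≤ 1) (A B M r : ℕ) (a : ℕ → ℕ → ℝ) (η : ℝ)
    (hη : 0 ≤ η) (hAB : A ≤ B) (hM : 1 ≤ M)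
    (happ : ∀ n ∈ Finset.Ioc A B, ∀ x ∈ Finset.Icc 1 M, ∀ y ∈ Finset.Icc 1 M,
      ‖g (n + x * y) - g n * ph r (a n) ((x : ℝ) * y)‖ ≤ η) :
    ‖∑ n ∈ Finset.Ioc A B, g n‖ ≤
      1 / (M : ℝ) ^ 2 * ∑ n ∈ Finset.Ioc A B, ‖TT r M (a n)‖ + 2 * (M : ℝ) ^ 2 +
        ((B - A : ℕ) : ℝ) * η := by
  obtain ⟨S, hS⟩ : ∃ S, S = ∑ n ∈ Finset.Ioc A B, g n := ⟨_, rfl⟩
  rw [← hS]
  have hM0 : (0 : ℝ) < M := by exact_mod_cast hM
  have h1 : (M : ℂ) ^ 2 * S = ∑ x ∈ Finset.Icc 1 M, ∑ y ∈ Finset.Icc 1 M,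
      (S - ∑ n ∈ Finset.Ioc A B, g (n + x * y)) +
      ∑ n ∈ Finset.Ioc A B, ∑ x ∈ Finset.Icc 1 M, ∑ y ∈ Finset.Icc 1 M, g (n + x * y) := by
    have h2 : ∑ n ∈ Finset.Ioc A B, ∑ x ∈ Finset.Icc 1 M, ∑ y ∈ Finset.Icc 1 M, g (n + x * y) =
        ∑ x ∈ Finset.Icc 1 M, ∑ y ∈ Finset.Icc 1 M, ∑ n ∈ Finset.Ioc A B, g (n + x * y) := by
      rw [Finset.sum_comm]
      refine Finset.sum_congr rfl fun x _ => ?_
      rw [Finset.sum_comm]
    rw [h2]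
    simp only [Finset.sum_sub_distrib, Finset.sum_const, Nat.card_Icc, Nat.add_sub_cancel,
      nsmul_eq_mul]
    ring
  have hin : ∀ n ∈ Finset.Ioc A B, ‖∑ x ∈ Finset.Icc 1 M, ∑ y ∈ Finset.Icc 1 M, g (n + x * y)‖ ≤
      ‖TT r M (a n)‖ + (M : ℝ) ^ 2 * η := by
    intro n hn
    have h2 : ∑ x ∈ Finset.Icc 1 M, ∑ y ∈ Finset.Icc 1 M, g (n + x * y) =
        g n * TT r M (a n) +
        ∑ x ∈ Finset.Icc 1 M, ∑ y ∈ Finset.Icc 1 M,
          (g (n + x * y) - g n * ph r (a n) ((x : ℝ) * y)) := by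
      unfold TT ph
      simp only [Finset.sum_sub_distrib, Finset.mul_sum]
      ring
    rw [h2]
    refine (norm_add_le _ _).trans ?_
    rw [norm_mul]
    refine add_le_add ?_ ?_
    · exact mul_le_of_le_one_left (norm_nonneg _) (hg n)
    · refine (norm_sum_le _ _).trans ?_
      refine (Finset.sum_le_sum fun x hx => (norm_sum_le _ _).trans
        (Finset.sum_le_sum fun y hy => happ n hn x hx y hy)).trans ?_
      simp only [Finset.sum_const, Nat.card_Icc, Nat.add_sub_cancel, nsmul_eq_mul]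
      rw [sq]
      linarith
  have h3 : (M : ℝ) ^ 2 * ‖S‖ ≤ (M : ℝ) ^ 2 * (2 * (M : ℝ) ^ 2) +
      ∑ n ∈ Finset.Ioc A B, (‖TT r M (a n)‖ + (M : ℝ) ^ 2 * η) := by
    have h4 : ‖(M : ℂ) ^ 2 * S‖ = (M : ℝ) ^ 2 * ‖S‖ := by
      rw [norm_mul, norm_pow, Complex.norm_natCast]
    rw [← h4, h1]
    refine (norm_add_le _ _).trans (add_le_add ?_ ?_)
    · refine (norm_sum_le _ _).trans ?_
      refine (Finset.sum_le_sum (g := fun _ => (M : ℝ) * (2 * (M : ℝ) ^ 2)) fun x hx =>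
        (norm_sum_le _ _).trans ?_).trans ?_
      · refine (Finset.sum_le_sum (g := fun _ => 2 * (M : ℝ) ^ 2) fun y hy => ?_).trans ?_
        · rw [hS]
          refine (shift_one g hg A B (x * y) hAB).trans ?_
          have hx' : (x : ℝ) ≤ M := by exact_mod_cast (Finset.mem_Icc.1 hx).2
          have hy' : (y : ℝ) ≤ M := by exact_mod_cast (Finset.mem_Icc.1 hy).2
          have : (x : ℝ) * y ≤ M * M := mul_le_mul hx' hy' (by positivity) (by positivity)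
          push_cast
          nlinarith
        · simp
      · simp only [Finset.sum_const, Nat.card_Icc, Nat.add_sub_cancel, nsmul_eq_mul]
        rw [sq]
        linarith
    · exact (norm_sum_le _ _).trans (Finset.sum_le_sum hin)
  rw [Finset.sum_add_distrib] at h3
  have h5 : ∑ n ∈ Finset.Ioc A B, (M : ℝ) ^ 2 * η = (M : ℝ) ^ 2 * (((B - A : ℕ) : ℝ) * η) := by
    rw [Finset.sum_const, Nat.card_Ioc, nsmul_eq_mul]
    ring
  have h8 : (0 : ℝ) < (M : ℝ) ^ 2 := by positivity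
  have h9 : (M : ℝ) ^ 2 * ‖S‖ ≤ (M : ℝ) ^ 2 * (1 / (M : ℝ) ^ 2 *
      ∑ n ∈ Finset.Ioc A B, ‖TT r M (a n)‖ + 2 * (M : ℝ) ^ 2 + ((B - A : ℕ) : ℝ) * η) := by
    have h10 : (M : ℝ) ^ 2 * (1 / (M : ℝ) ^ 2 *
      ∑ n ∈ Finset.Ioc A B, ‖TT r M (a n)‖ + 2 * (M : ℝ) ^ 2 + ((B - A : ℕ) : ℝ) * η) =
        ∑ n ∈ Finset.Ioc A B, ‖TT r M (a n)‖ +
        (M : ℝ) ^ 2 * (2 * (M : ℝ) ^ 2) + (M : ℝ) ^ 2 * (((B - A : ℕ) : ℝ) * η) := by
      field_simp
    rw [h10, ← h5]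
    linarith
  exact le_of_mul_le_mul_left h9 h8

/-- `f (m + 1)` is the derivative of `f m` on `S` -/
def Chain (f : ℕ → ℝ → ℝ) (S : Set ℝ) : Prop := ∀ m, ∀ t ∈ S, HasDerivAt (f m) (f (m + 1) t) t

/-- Taylor's formula -/
theorem taylor_chain {a b C : ℝ} (k : ℕ) : ∀ (f : ℕ → ℝ → ℝ), Chain f (Set.Icc a b) →
    (∀ t ∈ Set.Icc a b, |f k t| ≤ C) → ∀ x, 0 ≤ x → a + x ≤ b →
    |f 0 (a + x) - ∑ j ∈ range k, f j a / (j.factorial : ℝ) * x ^ j| ≤
      C * (x ^ k / (k.factorial : ℝ)) := by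
  induction k with
  | zero =>
    intro f _ hC x hx hxb
    simpa using hC (a + x) ⟨by linarith, hxb⟩
  | succ k ih =>
    intro f hf hC x hx hxb
    have hC0 : 0 ≤ C := (abs_nonneg _).trans (hC a ⟨le_rfl, by linarith⟩)
    have ih' := ih (fun m => f (m + 1)) (fun m t ht => hf (m + 1) t ht) hC
    obtain ⟨R, hR⟩ : ∃ R : ℝ → ℝ, R = fun x => f 0 (a + x) -
      ∑ j ∈ range (k + 1), f j a / (j.factorial : ℝ) * x ^ j := ⟨_, rfl⟩
    obtain ⟨R', hR'⟩ : ∃ R' : ℝ → ℝ, R' = fun x => f 1 (a + x) -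
      ∑ j ∈ range k, f (j + 1) a / (j.factorial : ℝ) * x ^ j := ⟨_, rfl⟩
    have hder : ∀ y ∈ Set.Icc 0 x, HasDerivAt R (R' y) y := by
      intro y hy
      have h1 : HasDerivAt (fun x => f 0 (a + x)) (f 1 (a + y)) y := by
        have h2 := hf 0 (a + y) ⟨by linarith [hy.1], by linarith [hy.2]⟩
        have h3 : HasDerivAt (fun x : ℝ => a + x) 1 y := (hasDerivAt_id y).const_add a
        have h4 := h2.comp y h3
        rw [mul_one] at h4
        exact h4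
      have h2 : HasDerivAt (fun x : ℝ => ∑ j ∈ range (k + 1), f j a / (j.factorial : ℝ) * x ^ j)
          (∑ j ∈ range (k + 1), f j a / (j.factorial : ℝ) * ((j : ℝ) * y ^ (j - 1))) y :=
        HasDerivAt.fun_sum fun j _ => (hasDerivAt_pow j y).const_mul _
      have h3 : ∑ j ∈ range (k + 1), f j a / (j.factorial : ℝ) * ((j : ℝ) * y ^ (j - 1)) =
          ∑ j ∈ range k, f (j + 1) a / (j.factorial : ℝ) * y ^ j := by
        rw [sum_range_succ']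
        simp only [Nat.cast_zero, zero_mul, mul_zero, add_zero]
        refine sum_congr rfl fun j _ => ?_
        rw [Nat.add_sub_cancel, Nat.factorial_succ]
        have : ((j : ℝ) + 1) ≠ 0 := by positivity
        have h5 : ((j.factorial : ℕ) : ℝ) ≠ 0 := by exact_mod_cast j.factorial_ne_zero
        push_cast
        field_simp
      rw [h3] at h2
      rw [hR, hR']
      exact h1.sub h2
    have hB : ∀ y : ℝ, HasDerivAt (fun y : ℝ => C * (y ^ (k + 1) / ((k + 1).factorial : ℝ)))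
        (C * (y ^ k / (k.factorial : ℝ))) y := by
      intro y
      have h1 := ((hasDerivAt_pow (k + 1) y).div_const ((k + 1).factorial : ℝ)).const_mul C
      have e1 : ((k + 1 : ℕ) : ℝ) * y ^ (k + 1 - 1) / ((k + 1).factorial : ℝ) =
          y ^ k / (k.factorial : ℝ) := by
        rw [Nat.factorial_succ, Nat.add_sub_cancel]
        have hj : ((k : ℝ) + 1) ≠ 0 := by positivity
        push_cast
        field_simp
      rw [e1] at h1
      exact h1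
    have hR0 : R 0 = 0 := by
      rw [hR]
      simp only [add_zero]
      rw [sum_range_succ']
      simp
    have key := image_norm_le_of_norm_deriv_right_le_deriv_boundary (a := 0) (b := x)
      (f := R) (f' := R')
      (fun y hy => (hder y hy).continuousAt.continuousWithinAt)
      (fun y hy => (hder y ⟨hy.1, hy.2.le⟩).hasDerivWithinAt) (by rw [hR0]; simp) hB
      (fun y hy => by
        rw [Real.norm_eq_abs, hR']
        exact ih' y hy.1 (by linarith [hy.2])) (x := x) ⟨hx, le_rfl⟩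
    rw [Real.norm_eq_abs, hR] at key
    exact key

/-- `e` is Lipschitz -/
lemma e_sub_le (x y : ℝ) : ‖e x - e y‖ ≤ 7 * |x - y| := by
  have h1 : e x = e y * e (x - y) := by
    rw [← e_add]
    congr 1
    ring
  have h2 : e x - e y = e y * (e (x - y) - 1) := by rw [h1]; ring
  rw [h2, norm_mul, norm_e, one_mul]
  have h3 : e (x - y) = Complex.exp (Complex.I * ((2 * Real.pi * (x - y) : ℝ) : ℂ)) := by
    unfold e
    congr 1
    push_cast
    ring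
  rw [h3]
  refine (Real.norm_exp_I_mul_ofReal_sub_one_le).trans ?_
  rw [Real.norm_eq_abs, abs_mul, abs_of_pos Real.two_pi_pos]
  have := Real.pi_lt_d2
  have h4 := abs_nonneg (x - y)
  nlinarith

lemma e_eq (x : ℝ) : e x = Complex.exp (2 * Real.pi * Complex.I * (x : ℂ)) := by
  unfold e
  congr 1
  push_cast
  ring

/-- **sums over intervals** -/
theorem es (γ g₀ : ℝ) (hγ : 0 < γ) (hg : 0 < g₀) : ∃ (m : ℕ) (K c : ℝ), 1 ≤ m ∧ 0 < K ∧ 0 < c ∧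
    ∀ (N M r A B : ℕ) (κ μ ρ : ℝ) (f : ℕ → ℝ → ℝ) (bad : Finset ℕ), 2 ≤ N → 1 ≤ M → 1 / 2 ≤ κ →
      2 ≤ r → (r : ℝ) ≤ 17 * κ → μ ≤ 1 → (N : ℝ) ^ μ ≤ 2 * M → (M : ℝ) ≤ (N : ℝ) ^ μ → A ≤ B →
      6 * (m * (r : ℝ) ^ 2) ≤ (N : ℝ) ^ (g₀ * κ) → 0 ≤ ρ →
      Chain f (Set.Icc (A : ℝ) (B + (M : ℝ) ^ 2)) →
      (∀ t ∈ Set.Icc (A : ℝ) (B + (M : ℝ) ^ 2),
        |f (r + 1) t| / ((r + 1).factorial : ℝ) * ((M : ℝ) ^ 2) ^ (r + 1) ≤ ρ) →
      (∀ n ∈ Finset.Ioc A B, n ∉ bad → ∃ J : Finset ℕ, J ⊆ Finset.Icc 1 r ∧ γ * κ ≤ J.card ∧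
        ∀ j ∈ J, κ + 3 * (g₀ * κ) ≤ (1 - μ) * j ∧ (1 - 2 * μ) * j + 2 * (g₀ * κ) ≤ κ ∧
        g₀ * κ ≤ μ * j ∧ (N : ℝ) ^ (κ - g₀ * κ - j) ≤ |f j n / (j.factorial : ℝ)| ∧
        |f j n / (j.factorial : ℝ)| ≤ (N : ℝ) ^ (κ + g₀ * κ - j)) →
      ‖∑ n ∈ Finset.Ioc A B, e (f 0 n)‖ ≤
        ((B - A : ℕ) : ℝ) * (K * (N : ℝ) ^ (-(c / (1 + κ) ^ 2)) + 7 * ρ) + bad.card +
          2 * (M : ℝ) ^ 2 := by
  obtain ⟨m, K, c, hm, hK, hc, hbil⟩ := bil γ g₀ hγ hg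
  refine ⟨m, K, c, hm, hK, hc, ?_⟩
  intro N M r A B κ μ ρ f bad hN hM hκ hr hr17 hμ1 hMlo hMle hAB hsN hρ hch hrem hgood
  have hM0 : (0 : ℝ) < M := by exact_mod_cast hM
  have hM1 : (1 : ℝ) ≤ M := by exact_mod_cast hM
  have hNr : (2 : ℝ) ≤ N := by exact_mod_cast hN
  have hN0 : (0 : ℝ) < N := by linarith
  have hmain := shift' (fun n => e (f 0 n)) (fun n => (norm_e _).le) A B M r
    (fun n j => f j n / (j.factorial : ℝ)) (7 * ρ) (by positivity) hAB hM (by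
    intro n hn x hx y hy
    obtain ⟨hn1, hn2⟩ := Finset.mem_Ioc.1 hn
    have hx' : (x : ℝ) ≤ M := by exact_mod_cast (Finset.mem_Icc.1 hx).2
    have hy' : (y : ℝ) ≤ M := by exact_mod_cast (Finset.mem_Icc.1 hy).2
    have hxy : (x : ℝ) * y ≤ (M : ℝ) ^ 2 := by
      rw [sq]
      exact mul_le_mul hx' hy' (by positivity) (by positivity)
    have hxy0 : (0 : ℝ) ≤ (x : ℝ) * y := by positivity
    have hnA : (A : ℝ) ≤ n := by exact_mod_cast hn1.le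
    have hnB : (n : ℝ) ≤ B := by exact_mod_cast hn2
    have hsub : Set.Icc (n : ℝ) (n + (x : ℝ) * y) ⊆ Set.Icc (A : ℝ) (B + (M : ℝ) ^ 2) :=
      Set.Icc_subset_Icc hnA (by linarith)
    have hM2 : (0 : ℝ) < ((M : ℝ) ^ 2) ^ (r + 1) := by positivity
    have hfac : (0 : ℝ) < ((r + 1).factorial : ℝ) := by exact_mod_cast Nat.factorial_pos _
    have h1 := taylor_chain (a := (n : ℝ)) (b := n + (x : ℝ) * y)
      (C := ρ * ((r + 1).factorial : ℝ) / ((M : ℝ) ^ 2) ^ (r + 1)) (r + 1) f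
      (fun m t ht => hch m t (hsub ht)) (fun t ht => by
        have h2 := hrem t (hsub ht)
        rw [le_div_iff₀ hM2]
        rw [div_mul_eq_mul_div, div_le_iff₀ hfac] at h2
        exact h2) ((x : ℝ) * y) hxy0 le_rfl
    have h2 : ρ * ((r + 1).factorial : ℝ) / ((M : ℝ) ^ 2) ^ (r + 1) *
        (((x : ℝ) * y) ^ (r + 1) / ((r + 1).factorial : ℝ)) ≤ ρ := by
      have e1 : ((x : ℝ) * y) ^ (r + 1) ≤ ((M : ℝ) ^ 2) ^ (r + 1) :=
        pow_le_pow_left₀ hxy0 hxy _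
      calc ρ * ((r + 1).factorial : ℝ) / ((M : ℝ) ^ 2) ^ (r + 1) *
          (((x : ℝ) * y) ^ (r + 1) / ((r + 1).factorial : ℝ)) =
          ρ * (((x : ℝ) * y) ^ (r + 1) / ((M : ℝ) ^ 2) ^ (r + 1)) := by
            field_simp
        _ ≤ ρ * 1 := by
            refine mul_le_mul_of_nonneg_left ?_ hρ
            rw [div_le_one hM2]
            exact e1
        _ = ρ := mul_one _
    have h3 : e (f 0 n) * ph r (fun j => f j n / (j.factorial : ℝ)) ((x : ℝ) * y) =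
        e (∑ j ∈ range (r + 1), f j n / (j.factorial : ℝ) * ((x : ℝ) * y) ^ j) := by
      unfold ph
      rw [← e_eq, ← e_add]
      congr 1
      rw [sum_range_succ', add_comm]
      congr 1
      · rw [Finset.range_eq_Ico, Finset.sum_Ico_add' (fun j => f j n / (j.factorial : ℝ) *
          ((x : ℝ) * y) ^ j) 0 r 1]
        rfl
      · simp
    have h4 : ((n + x * y : ℕ) : ℝ) = n + (x : ℝ) * y := by push_cast; ring
    change ‖e (f 0 ((n + x * y : ℕ) : ℝ)) - e (f 0 n) * ph r (fun j => f j n / (j.factorial : ℝ))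
      ((x : ℝ) * y)‖ ≤ 7 * ρ
    rw [h3, h4]
    refine (e_sub_le _ _).trans ?_
    have h5 := h1.trans h2
    linarith)
  have hT : ∀ n ∈ Finset.Ioc A B, ‖TT r M (fun j => f j n / (j.factorial : ℝ))‖ ≤
      K * (M : ℝ) ^ 2 * (N : ℝ) ^ (-(c / (1 + κ) ^ 2)) + (if n ∈ bad then (M : ℝ) ^ 2 else 0) := by
    intro n hn
    have h0 : 0 ≤ K * (M : ℝ) ^ 2 * (N : ℝ) ^ (-(c / (1 + κ) ^ 2)) := by positivity
    split_ifs with hb
    · have := Pool.Agent.Y70.VK.TT_le r M (fun j => f j n / (j.factorial : ℝ))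
      linarith
    · obtain ⟨J, hJ, hJc, hJ3⟩ := hgood n hn hb
      rw [add_zero]
      exact hbil N M r κ μ _ J hN hM hκ hr hr17 hμ1 hMlo hMle hJ hJc hsN hJ3
  have hsum : ∑ n ∈ Finset.Ioc A B, ‖TT r M (fun j => f j n / (j.factorial : ℝ))‖ ≤
      ((B - A : ℕ) : ℝ) * (K * (M : ℝ) ^ 2 * (N : ℝ) ^ (-(c / (1 + κ) ^ 2))) +
        bad.card * (M : ℝ) ^ 2 := by
    refine (Finset.sum_le_sum hT).trans ?_
    rw [Finset.sum_add_distrib, Finset.sum_const, Nat.card_Ioc, nsmul_eq_mul]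
    refine add_le_add le_rfl ?_
    rw [← Finset.sum_filter, Finset.sum_const, nsmul_eq_mul]
    refine mul_le_mul_of_nonneg_right ?_ (by positivity)
    exact_mod_cast Finset.card_le_card (fun n hn => (Finset.mem_filter.1 hn).2)
  refine hmain.trans ?_
  have h1 : 1 / (M : ℝ) ^ 2 * ∑ n ∈ Finset.Ioc A B, ‖TT r M (fun j => f j n / (j.factorial : ℝ))‖ ≤
      ((B - A : ℕ) : ℝ) * (K * (N : ℝ) ^ (-(c / (1 + κ) ^ 2))) + bad.card := by
    calc _ ≤ 1 / (M : ℝ) ^ 2 * (((B - A : ℕ) : ℝ) * (K * (M : ℝ) ^ 2 *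
          (N : ℝ) ^ (-(c / (1 + κ) ^ 2))) + bad.card * (M : ℝ) ^ 2) := by gcongr
      _ = _ := by
          field_simp
  have h2 : ((B - A : ℕ) : ℝ) * (K * (N : ℝ) ^ (-(c / (1 + κ) ^ 2)) + 7 * ρ) =
      ((B - A : ℕ) : ℝ) * (K * (N : ℝ) ^ (-(c / (1 + κ) ^ 2))) + ((B - A : ℕ) : ℝ) * (7 * ρ) := by
    ring
  rw [h2]
  linarith

end Pool.Agent.J6H93.Fam
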