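import Pool.Agent.J6H93.Fam.Eng2
import Pool.Agent.N586.RT.Hat

/-!
# Sums over intervals, asymptotic form
-/

set_option autoImplicit false

namespace Pool.Agent.J6H93.Fam

open Finset Filter Pool.Agent.Y957.VK Pool.Agent.N586.RT
open Pool.Agent.Y933.KD (e norm_e e_add)

/-- **sums over intervals, asymptotic form** -/
theorem es_gen {μ g₀ γ κ₀ w₁ w₂ w₃ : ℝ} (hμ0 : 0 < μ) (hμ : μ ≤ 2 / 5) (hg : 0 < g₀) (hγ : 0 < γ)
    (hκ₀ : 1 / 2 ≤ κ₀)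
    (H1 : ∀ κ, κ₀ ≤ κ → γ * κ ≤ (((Finset.Icc 1 (⌈5 * κ⌉₊ + 5)).filter fun j : ℕ =>
      w₁ * κ ≤ j ∧ (j : ℝ) ≤ w₂ * κ + w₃).card : ℝ))
    (H2 : ∀ κ j : ℝ, κ₀ ≤ κ → w₁ * κ ≤ j → j ≤ w₂ * κ + w₃ → κ + 3 * (g₀ * κ) ≤ (1 - μ) * j ∧
      (1 - 2 * μ) * j + 2 * (g₀ * κ) ≤ κ ∧ g₀ * κ ≤ μ * j)
    (δ β C₀ : ℝ) (hδ : 0 < δ) (hβ : 0 < β) (hδβ : 2 * δ + β < 1) (hC₀ : 0 < C₀) :
    ∃ N0 : ℕ, ∀ N : ℕ, N0 ≤ N → ∀ κ : ℝ, κ₀ ≤ κ → κ ≤ C₀ * (Real.log N) ^ δ →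
      ∀ (A B : ℕ) (f : ℕ → ℝ → ℝ) (bad : Finset ℕ), A ≤ B →
      Chain f (Set.Icc (A : ℝ) (B + (N : ℝ) ^ (2 * μ))) →
      (∀ t ∈ Set.Icc (A : ℝ) (B + (N : ℝ) ^ (2 * μ)),
        |f (⌈5 * κ⌉₊ + 5 + 1) t| / ((⌈5 * κ⌉₊ + 5 + 1).factorial : ℝ) ≤
          (N : ℝ) ^ (κ - ((⌈5 * κ⌉₊ + 5 + 1 : ℕ) : ℝ) + 1 / 10)) →
      (∀ n ∈ Finset.Ioc A B, n ∉ bad → ∀ j : ℕ, w₁ * κ ≤ j → (j : ℝ) ≤ w₂ * κ + w₃ →
        (N : ℝ) ^ (κ - g₀ * κ - j) ≤ |f j n / (j.factorial : ℝ)| ∧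
        |f j n / (j.factorial : ℝ)| ≤ (N : ℝ) ^ (κ + g₀ * κ - j)) →
      ‖∑ n ∈ Finset.Ioc A B, e (f 0 n)‖ ≤
        ((B - A : ℕ) : ℝ) * Real.exp (-(Real.log N) ^ β) + bad.card + 2 * (N : ℝ) ^ (2 * μ) := by
  obtain ⟨m, K, c, hm, hK, hc, hes⟩ := es γ g₀ hγ hg
  have hm0 : (0 : ℝ) < m := by exact_mod_cast hm
  -- the conditions on `N`
  have hlog : Tendsto (fun N : ℕ => Real.log (N : ℝ)) atTop atTop :=
    Real.tendsto_log_atTop.comp tendsto_natCast_atTop_atTop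
  obtain ⟨C1, hC1⟩ : ∃ C1 : ℝ, C1 = (1 + C₀) ^ 2 := ⟨_, rfl⟩
  have hC10 : 0 < C1 := by rw [hC1]; positivity
  obtain ⟨N1, hN1⟩ := eventually_atTop.1 (((((logpow (by linarith : (β : ℝ) < 1 - 2 * δ)
      (3 * C1 / c)).and (logpow (by linarith : (0 : ℝ) < 1 - 2 * δ)
        (3 * C1 / c * (|Real.log (2 * K)| + 1)))).and
      (logpow (by linarith : 2 * δ < 1) (3 * (6 * m * 289 * C₀ ^ 2) / (g₀ * (1 / 2))))).and
      (log_ge 6)).and (logpow (by linarith : β < 1) 2))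
  refine ⟨max N1 2, ?_⟩
  intro N hN κ hκ hκ2 A B f bad hAB hch hrem hgood
  obtain ⟨⟨⟨⟨ha, hb⟩, hc'⟩, hL3⟩, hd⟩ := hN1 N (le_of_max_le_left hN)
  have hN2 : 2 ≤ N := le_of_max_le_right hN
  have hNr : (2 : ℝ) ≤ N := by exact_mod_cast hN2
  have hN0 : (0 : ℝ) < N := by linarith
  have hN1' : (1 : ℝ) ≤ N := by linarith
  obtain ⟨L, hL⟩ : ∃ L : ℝ, L = Real.log N := ⟨_, rfl⟩
  rw [← hL] at ha hb hc' hL3 hd hκ2 ⊢
  rw [Real.rpow_zero, mul_one] at hb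
  rw [Real.rpow_one] at hc' hd
  have hL0 : 0 < L := by linarith
  have hexpN : ∀ a : ℝ, (N : ℝ) ^ a = Real.exp (a * L) := by
    intro a
    rw [Real.rpow_def_of_pos hN0, hL, mul_comm]
  have hκ12 : 1 / 2 ≤ κ := by linarith
  have hκ0 : 0 < κ := by linarith
  obtain ⟨r, hr⟩ : ∃ r : ℕ, r = ⌈5 * κ⌉₊ + 5 := ⟨_, rfl⟩
  rw [← hr] at hrem
  have hr5 : 5 * κ + 5 ≤ (r : ℝ) := by
    rw [hr]
    push_cast
    linarith [Nat.le_ceil (5 * κ)]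
  have hr17 : (r : ℝ) ≤ 17 * κ := by
    rw [hr]
    push_cast
    have := Nat.ceil_lt_add_one (a := 5 * κ) (by linarith)
    linarith
  have hr2 : 2 ≤ r := by omega
  have hr0 : (0 : ℝ) ≤ r := Nat.cast_nonneg _
  -- the length
  obtain ⟨x, hx⟩ : ∃ x : ℝ, x = (N : ℝ) ^ μ := ⟨_, rfl⟩
  have hx1 : 1 ≤ x := by
    rw [hx]
    exact Real.one_le_rpow hN1' hμ0.le
  obtain ⟨M, hM⟩ : ∃ M : ℕ, M = ⌊x⌋₊ := ⟨_, rfl⟩
  have hM1 : 1 ≤ M := by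
    rw [hM]
    exact Nat.le_floor (by simpa using hx1)
  have hM1' : (1 : ℝ) ≤ M := by exact_mod_cast hM1
  have hMx : (M : ℝ) ≤ x := by
    rw [hM]
    exact Nat.floor_le (by linarith)
  have hxM : x ≤ 2 * M := by
    have := Nat.lt_floor_add_one x
    rw [← hM] at this
    linarith
  have hM2 : (M : ℝ) ^ 2 ≤ (N : ℝ) ^ (2 * μ) := by
    calc (M : ℝ) ^ 2 ≤ x ^ 2 := pow_le_pow_left₀ (by positivity) hMx 2
      _ = (N : ℝ) ^ (2 * μ) := by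
        rw [hx, ← Real.rpow_natCast, ← Real.rpow_mul hN0.le]
        congr 1
        push_cast
        ring
  have hLδ : κ ^ 2 ≤ C₀ ^ 2 * L ^ (2 * δ) := by
    calc κ ^ 2 ≤ (C₀ * L ^ δ) ^ 2 := by gcongr
      _ = _ := by
        rw [mul_pow, ← Real.rpow_natCast (L ^ δ), ← Real.rpow_mul hL0.le]
        congr 2
        push_cast
        ring
  have hsN : 6 * (m * (r : ℝ) ^ 2) ≤ (N : ℝ) ^ (g₀ * κ) := by
    have e1 : (r : ℝ) ^ 2 ≤ 289 * κ ^ 2 := by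
      calc (r : ℝ) ^ 2 ≤ (17 * κ) ^ 2 := by gcongr
        _ = _ := by ring
    have e2 : 6 * (m * (r : ℝ) ^ 2) ≤ g₀ * (1 / 2) * L := by
      calc 6 * (m * (r : ℝ) ^ 2) ≤ 6 * (m * (289 * (C₀ ^ 2 * L ^ (2 * δ)))) := by
            have := e1.trans (mul_le_mul_of_nonneg_left hLδ (by norm_num : (0 : ℝ) ≤ 289))
            gcongr
        _ = (g₀ * (1 / 2)) / 3 * (3 * (6 * m * 289 * C₀ ^ 2) / (g₀ * (1 / 2)) * L ^ (2 * δ)) := by
            field_simp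
        _ ≤ (g₀ * (1 / 2)) / 3 * L := by gcongr
        _ ≤ _ := by
            have : 0 < g₀ * (1 / 2) * L := by positivity
            linarith
    calc 6 * (m * (r : ℝ) ^ 2) ≤ g₀ * (1 / 2) * L := e2
      _ ≤ g₀ * κ * L := by gcongr
      _ ≤ Real.exp (g₀ * κ * L) := by
          have := Real.add_one_le_exp (g₀ * κ * L)
          linarith
      _ = _ := by rw [hexpN]
  have hsub : Set.Icc (A : ℝ) (B + (M : ℝ) ^ 2) ⊆ Set.Icc (A : ℝ) (B + (N : ℝ) ^ (2 * μ)) :=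
    Set.Icc_subset_Icc le_rfl (by linarith)
  have hρ : ∀ t ∈ Set.Icc (A : ℝ) (B + (M : ℝ) ^ 2),
      |f (r + 1) t| / ((r + 1).factorial : ℝ) * ((M : ℝ) ^ 2) ^ (r + 1) ≤ (N : ℝ) ^ (-1 : ℝ) := by
    intro t ht
    have e1 := hrem t (hsub ht)
    have e2 : ((M : ℝ) ^ 2) ^ (r + 1) ≤ (N : ℝ) ^ (2 * μ * ((r + 1 : ℕ) : ℝ)) := by
      rw [Real.rpow_mul hN0.le, Real.rpow_natCast]
      exact pow_le_pow_left₀ (by positivity) hM2 _
    calc _ ≤ (N : ℝ) ^ (κ - ((r + 1 : ℕ) : ℝ) + 1 / 10) * (N : ℝ) ^ (2 * μ * ((r + 1 : ℕ) : ℝ)) := by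
          gcongr
      _ = (N : ℝ) ^ (κ - ((r + 1 : ℕ) : ℝ) + 1 / 10 + 2 * μ * ((r + 1 : ℕ) : ℝ)) := by
          rw [← Real.rpow_add hN0]
      _ ≤ _ := by
          apply Real.rpow_le_rpow_of_exponent_le hN1'
          push_cast
          have e3 : 2 * μ * ((r : ℝ) + 1) ≤ 2 * (2 / 5) * ((r : ℝ) + 1) := by gcongr
          linarith
  have hJsub : ((Finset.Icc 1 (⌈5 * κ⌉₊ + 5)).filter fun j : ℕ =>
      w₁ * κ ≤ j ∧ (j : ℝ) ≤ w₂ * κ + w₃) ⊆ Finset.Icc 1 r := by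
    rw [hr]
    exact Finset.filter_subset _ _
  have key := hes N M r A B κ μ ((N : ℝ) ^ (-1 : ℝ)) f bad hN2 hM1 hκ12 hr2 hr17 (by linarith)
    (by rw [← hx]; exact hxM) (by rw [← hx]; exact hMx) hAB hsN (by positivity)
    (fun j t ht => hch j t (hsub ht)) hρ
    (fun n hn hnb => ⟨_, hJsub, H1 κ hκ, fun j hj => by
      obtain ⟨_, hj2, hj3⟩ := Finset.mem_filter.1 hj
      obtain ⟨h1, h2, h3⟩ := H2 κ j hκ hj2 hj3
      obtain ⟨h4, h5⟩ := hgood n hn hnb j hj2 hj3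
      exact ⟨h1, h2, h3, h4, h5⟩⟩)
  refine key.trans ?_
  -- the final numerical inequality
  have hsave : K * (N : ℝ) ^ (-(c / (1 + κ) ^ 2)) ≤ Real.exp (-L ^ β) / 2 := by
    have e1 : (1 + κ) ^ 2 ≤ C1 * L ^ (2 * δ) := by
      have e3 : 1 + κ ≤ (1 + C₀) * L ^ δ := by
        have : 1 ≤ L ^ δ := Real.one_le_rpow (by linarith) hδ.le
        linarith
      calc (1 + κ) ^ 2 ≤ ((1 + C₀) * L ^ δ) ^ 2 := by gcongr
        _ = _ := by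
          rw [mul_pow, ← Real.rpow_natCast (L ^ δ), ← Real.rpow_mul hL0.le, hC1]
          congr 2
          push_cast
          ring
    have e2 : 3 * (L ^ (1 - 2 * δ) * (c / (3 * C1))) ≤ c / (1 + κ) ^ 2 * L := by
      have e3 : L ^ (1 - 2 * δ) * L ^ (2 * δ) = L := by
        rw [← Real.rpow_add hL0]
        have : 1 - 2 * δ + 2 * δ = 1 := by ring
        rw [this, Real.rpow_one]
      have e4 : 0 < L ^ (1 - 2 * δ) := by positivity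
      calc 3 * (L ^ (1 - 2 * δ) * (c / (3 * C1))) = c / (C1 * L ^ (2 * δ)) *
            (L ^ (1 - 2 * δ) * L ^ (2 * δ)) := by
            field_simp
        _ = c / (C1 * L ^ (2 * δ)) * L := by rw [e3]
        _ ≤ _ := by gcongr
    have e3 : L ^ β + (|Real.log (2 * K)| + 1) ≤ 2 * (L ^ (1 - 2 * δ) * (c / (3 * C1))) := by
      have e4 : L ^ β ≤ L ^ (1 - 2 * δ) * (c / (3 * C1)) := by
        have e5 : L ^ β = (3 * C1 / c * L ^ β) * (c / (3 * C1)) := by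
          field_simp
        rw [e5]
        gcongr
      have e6 : (|Real.log (2 * K)| + 1) ≤ L ^ (1 - 2 * δ) * (c / (3 * C1)) := by
        have e5 : (|Real.log (2 * K)| + 1) = (3 * C1 / c * (|Real.log (2 * K)| + 1)) *
            (c / (3 * C1)) := by
          field_simp
        rw [e5]
        gcongr
      linarith
    have e4 : 0 < L ^ (1 - 2 * δ) * (c / (3 * C1)) := by positivity
    have e5 : K ≤ Real.exp |Real.log (2 * K)| / 2 := by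
      have e6 : 2 * K ≤ Real.exp |Real.log (2 * K)| := by
        calc 2 * K = Real.exp (Real.log (2 * K)) := (Real.exp_log (by positivity)).symm
          _ ≤ _ := Real.exp_le_exp.2 (le_abs_self _)
      linarith
    rw [hexpN]
    calc K * Real.exp (-(c / (1 + κ) ^ 2) * L) ≤
        Real.exp |Real.log (2 * K)| / 2 * Real.exp (-(c / (1 + κ) ^ 2) * L) := by gcongr
      _ = Real.exp (|Real.log (2 * K)| + -(c / (1 + κ) ^ 2) * L) / 2 := by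
          rw [Real.exp_add]
          ring
      _ ≤ _ := by
          have : |Real.log (2 * K)| + -(c / (1 + κ) ^ 2) * L ≤ -L ^ β := by linarith
          have := Real.exp_le_exp.2 this
          linarith
  have hsave2 : 7 * (N : ℝ) ^ (-1 : ℝ) ≤ Real.exp (-L ^ β) / 2 := by
    rw [hexpN]
    have e1 : (14 : ℝ) ≤ Real.exp (L / 2) := by
      have e2 : (2.7 : ℝ) ≤ Real.exp 1 := by
        have := Real.exp_one_gt_d9
        linarith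
      calc (14 : ℝ) ≤ 2.7 ^ 3 := by norm_num
        _ ≤ (Real.exp 1) ^ 3 := pow_le_pow_left₀ (by norm_num) e2 3
        _ = Real.exp 3 := by rw [← Real.exp_nat_mul]; norm_num
        _ ≤ _ := Real.exp_le_exp.2 (by linarith)
    have e2 : 14 * Real.exp (-1 * L) ≤ Real.exp (-L ^ β) := by
      calc 14 * Real.exp (-1 * L) ≤ Real.exp (L / 2) * Real.exp (-1 * L) := by gcongr
        _ = Real.exp (L / 2 + -1 * L) := by rw [Real.exp_add]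
        _ ≤ _ := Real.exp_le_exp.2 (by linarith)
    linarith
  have h1 : ((B - A : ℕ) : ℝ) * (K * (N : ℝ) ^ (-(c / (1 + κ) ^ 2)) + 7 * (N : ℝ) ^ (-1 : ℝ)) ≤
      ((B - A : ℕ) : ℝ) * Real.exp (-L ^ β) := by
    refine mul_le_mul_of_nonneg_left ?_ (Nat.cast_nonneg _)
    linarith
  linarith

end Pool.Agent.J6H93.Fam
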