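import Pool.Agent.J6H93.Fam.Trig2
import Pool.Agent.N586.RT.Sm

/-!
# Functions with an expansion at infinity: the derivatives
-/

set_option autoImplicit false

namespace Pool.Agent.J6H93.Fam

open Finset Filter Polynomial
open Pool.Agent.N586.RT (ff)

/-- a real number which is not a natural number has a positive distance to the natural numbers -/
lemma dist_nat {θ : ℝ} (hθ : ∀ k : ℕ, θ ≠ k) : ∃ s : ℝ, 0 < s ∧ ∀ k : ℕ, s ≤ |θ - k| := by
  rcases lt_or_ge θ 0 with h | h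
  · refine ⟨-θ, by linarith, fun k => ?_⟩
    have hk : (0 : ℝ) ≤ k := Nat.cast_nonneg _
    rw [abs_of_neg (by linarith)]
    linarith
  · obtain ⟨m, hm⟩ : ∃ m : ℕ, m = ⌊θ⌋₊ := ⟨_, rfl⟩
    have h1 : (m : ℝ) < θ := by
      refine lt_of_le_of_ne ?_ (hθ m).symm
      rw [hm]
      exact Nat.floor_le h
    have h2 : θ < m + 1 := by
      rw [hm]
      exact Nat.lt_floor_add_one θ
    refine ⟨min (θ - m) (m + 1 - θ), lt_min (by linarith) (by linarith), fun k => ?_⟩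
    rcases Nat.lt_or_ge m k with hk | hk
    · have : (m : ℝ) + 1 ≤ k := by exact_mod_cast hk
      rw [abs_of_neg (by linarith)]
      refine (min_le_right _ _).trans ?_
      linarith
    · have : (k : ℝ) ≤ m := by exact_mod_cast hk
      rw [abs_of_pos (by linarith)]
      refine (min_le_left _ _).trans ?_
      linarith

/-- the sizes of the binomial coefficients -/
lemma bin_bd {θ : ℝ} (hθ : ∀ k : ℕ, θ ≠ k) : ∃ b : ℝ, 1 ≤ b ∧ ∀ j : ℕ,
    (b ^ j)⁻¹ ≤ |ff θ j| / (j.factorial : ℝ) ∧ |ff θ j| / (j.factorial : ℝ) ≤ b ^ j := by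
  obtain ⟨s, hs, hs'⟩ := dist_nat hθ
  obtain ⟨c, hc⟩ : ∃ c : ℝ, c = min (1 / 2) (s / (2 * |θ| + 2)) := ⟨_, rfl⟩
  have hθ0 := abs_nonneg θ
  have hc0 : 0 < c := by rw [hc]; exact lt_min (by norm_num) (by positivity)
  have hc1 : c ≤ 1 / 2 := by rw [hc]; exact min_le_left _ _
  have hc2 : c ≤ s / (2 * |θ| + 2) := by rw [hc]; exact min_le_right _ _
  have hlow : ∀ k : ℕ, c ≤ |θ - k| / ((k : ℝ) + 1) := by
    intro k
    have hk : (0 : ℝ) ≤ k := Nat.cast_nonneg _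
    rw [le_div_iff₀ (by positivity)]
    rcases le_or_gt ((k : ℝ) + 1) (2 * |θ| + 2) with h | h
    · calc c * ((k : ℝ) + 1) ≤ s / (2 * |θ| + 2) * (2 * |θ| + 2) := by gcongr
        _ = s := by field_simp
        _ ≤ _ := hs' k
    · have h1 : (k : ℝ) - |θ| ≤ |θ - k| := by
        have := abs_sub_abs_le_abs_sub (k : ℝ) θ
        rw [abs_of_nonneg hk, abs_sub_comm] at this
        exact this
      calc c * ((k : ℝ) + 1) ≤ 1 / 2 * ((k : ℝ) + 1) := by gcongr
        _ ≤ _ := by linarith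
  have hup : ∀ k : ℕ, |θ - k| / ((k : ℝ) + 1) ≤ |θ| + 1 := by
    intro k
    have hk : (0 : ℝ) ≤ k := Nat.cast_nonneg _
    rw [div_le_iff₀ (by positivity)]
    have h1 : |θ - k| ≤ |θ| + k := by
      have := abs_sub θ (k : ℝ)
      rw [abs_of_nonneg hk] at this
      exact this
    nlinarith
  obtain ⟨b, hb⟩ : ∃ b : ℝ, b = max (|θ| + 1) c⁻¹ := ⟨_, rfl⟩
  have hb1 : |θ| + 1 ≤ b := by rw [hb]; exact le_max_left _ _
  have hb2 : c⁻¹ ≤ b := by rw [hb]; exact le_max_right _ _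
  have hb0 : 0 < b := by linarith
  have hb3 : b⁻¹ ≤ c := by
    rw [inv_le_comm₀ hb0 hc0]
    exact hb2
  refine ⟨b, by linarith, fun j => ?_⟩
  induction j with
  | zero => simp [ff]
  | succ j ih =>
    have e1 : |ff θ (j + 1)| / ((j + 1).factorial : ℝ) =
        (|ff θ j| / (j.factorial : ℝ)) * (|θ - j| / ((j : ℝ) + 1)) := by
      unfold ff
      rw [Finset.prod_range_succ, abs_mul, Nat.factorial_succ]
      push_cast
      have : (0 : ℝ) < (j.factorial : ℝ) := by exact_mod_cast Nat.factorial_pos _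
      field_simp
    have h0 : 0 ≤ |ff θ j| / (j.factorial : ℝ) := by positivity
    have h1 := (hlow j)
    have h2 := (hup j)
    rw [e1, pow_succ, mul_inv]
    constructor
    · exact mul_le_mul ih.1 (hb3.trans h1) (by positivity) h0
    · exact mul_le_mul ih.2 (h2.trans hb1) (by positivity) (by positivity)

/-- the right half plane -/
def Hp (R : ℝ) : Set ℂ := {z | R < z.re}

lemma Hp_open (R : ℝ) : IsOpen (Hp R) := isOpen_lt continuous_const Complex.continuous_re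

lemma Hp_mem {R t : ℝ} (h : R < t) : (t : ℂ) ∈ Hp R := by simpa [Hp] using h

lemma Hp_ball {R t : ℝ} (hR : 0 ≤ R) (ht : 2 * R < t) {z : ℂ}
    (hz : z ∈ Metric.closedBall (t : ℂ) (t / 2)) : z ∈ Hp R ∧ t / 2 ≤ ‖z‖ ∧ ‖z‖ ≤ 2 * t := by
  rw [Metric.mem_closedBall, dist_eq_norm] at hz
  have h1 : |(z - t).re| ≤ ‖z - t‖ := Complex.abs_re_le_norm _
  rw [Complex.sub_re, Complex.ofReal_re, abs_le] at h1
  have ht0 : 0 < t := by linarith
  have h2 : ‖(t : ℂ)‖ = t := by rw [Complex.norm_real, Real.norm_eq_abs, abs_of_pos ht0]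
  have h3 := norm_sub_norm_le (t : ℂ) (t - z)
  have h4 : ‖(t : ℂ) - z‖ = ‖z - t‖ := norm_sub_rev _ _
  have h5 := norm_sub_norm_le z (t : ℂ)
  refine ⟨?_, ?_, ?_⟩
  · show R < z.re
    linarith [h1.1]
  · have e1 : (t : ℂ) - (t - z) = z := by ring
    rw [e1, h2, h4] at h3
    linarith
  · rw [h2] at h5
    linarith

/-- Cauchy's estimate -/
lemma cauchy_bd {E : ℂ → ℂ} {R K θ : ℝ} (hR : 0 ≤ R) (hE : DifferentiableOn ℂ E (Hp R))
    (hK : ∀ z ∈ Hp R, ‖E z‖ ≤ K * ‖z‖ ^ θ) (hK0 : 0 ≤ K) (m : ℕ) {t : ℝ} (ht : 2 * R < t) :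
    ‖iteratedDeriv m E t‖ ≤ m.factorial * (K * (2 ^ |θ| * t ^ θ)) / (t / 2) ^ m := by
  have ht0 : 0 < t := by linarith
  refine Complex.norm_iteratedDeriv_le_of_forall_mem_sphere_norm_le m (by positivity) ?_ ?_
  · apply DifferentiableOn.diffContOnCl
    refine hE.mono fun z hz => ?_
    exact (Hp_ball hR ht (Metric.closure_ball_subset_closedBall hz)).1
  · intro z hz
    obtain ⟨h1, h2, h3⟩ := Hp_ball hR ht (Metric.sphere_subset_closedBall hz)
    refine (hK z h1).trans (mul_le_mul_of_nonneg_left ?_ hK0)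
    rcases le_or_gt 0 θ with h | h
    · rw [abs_of_nonneg h, ← Real.mul_rpow (by norm_num) ht0.le]
      exact Real.rpow_le_rpow (norm_nonneg _) h3 h
    · rw [abs_of_neg h, Real.rpow_neg (by norm_num)]
      calc ‖z‖ ^ θ ≤ (t / 2) ^ θ := Real.rpow_le_rpow_of_nonpos (by positivity) h2 h.le
        _ = _ := by
          rw [Real.div_rpow ht0.le (by norm_num)]
          rw [div_eq_mul_inv, mul_comm]

/-- the derivatives on the real axis -/
lemma re_der {E : ℂ → ℂ} {R : ℝ} (hE : DifferentiableOn ℂ E (Hp R)) (m : ℕ) {t : ℝ} (ht : R < t) :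
    HasDerivAt (fun x : ℝ => (iteratedDeriv m E (x : ℂ)).re) (iteratedDeriv (m + 1) E (t : ℂ)).re
      t := by
  have h1 : AnalyticOnNhd ℂ E (Hp R) := hE.analyticOnNhd (Hp_open R)
  have h2 := (h1.iterated_deriv m) t (Hp_mem ht)
  have h3 : HasDerivAt (iteratedDeriv m E) (iteratedDeriv (m + 1) E t) (t : ℂ) := by
    rw [iteratedDeriv_succ]
    apply DifferentiableAt.hasDerivAt
    rw [iteratedDeriv_eq_iterate]
    exact h2.differentiableAt
  exact h3.real_of_complex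

/-- the derivatives of the phase -/
noncomputable def fG (G : ℝ[X]) (c θ₀ : ℝ) (E : ℂ → ℂ) (lam : ℝ) (m : ℕ) (t : ℝ) : ℝ :=
  lam * ((derivative^[m] G).eval t + c * (ff θ₀ m * t ^ (θ₀ - m)) + (iteratedDeriv m E (t : ℂ)).re)

lemma fG_zero (G : ℝ[X]) (c θ₀ : ℝ) (E : ℂ → ℂ) (lam : ℝ) (t : ℝ) :
    fG G c θ₀ E lam 0 t = lam * (G.eval t + c * t ^ θ₀ + (E t).re) := by
  unfold fG ff
  simp

lemma fG_chain {G : ℝ[X]} {c θ₀ R : ℝ} {E : ℂ → ℂ} (lam : ℝ) (hR : 0 ≤ R)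
    (hE : DifferentiableOn ℂ E (Hp R)) {S : Set ℝ} (hS : ∀ t ∈ S, R < t) :
    Chain (fG G c θ₀ E lam) S := by
  intro m t ht
  have ht1 := hS t ht
  have ht0 : 0 < t := by linarith
  have h1 := (derivative^[m] G).hasDerivAt t
  have h2 := ((Real.hasDerivAt_rpow_const (x := t) (p := θ₀ - m) (Or.inl ht0.ne')).const_mul
    (ff θ₀ m)).const_mul c
  have h3 := re_der hE m ht1
  have h4 := ((h1.add h2).add h3).const_mul lam
  refine h4.congr_deriv ?_
  unfold fG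
  rw [Function.iterate_succ', Function.comp_apply]
  have e1 : ff θ₀ (m + 1) = ff θ₀ m * (θ₀ - m) := by
    unfold ff
    rw [Finset.prod_range_succ]
  have e2 : θ₀ - ((m + 1 : ℕ) : ℝ) = θ₀ - m - 1 := by
    push_cast
    ring
  rw [e1, e2]
  ring

/-- the main term of the derivatives -/
lemma fG_main {G : ℝ[X]} {c θ₀ θ₁ R K : ℝ} {E : ℂ → ℂ} (lam : ℝ) (hR : 0 ≤ R)
    (hE : DifferentiableOn ℂ E (Hp R)) (hK : ∀ z ∈ Hp R, ‖E z‖ ≤ K * ‖z‖ ^ θ₁) (hK0 : 0 ≤ K)
    {m : ℕ} (hm : G.natDegree < m) {t : ℝ} (ht : 2 * R < t) :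
    |fG G c θ₀ E lam m t / (m.factorial : ℝ) -
      lam * (c * (ff θ₀ m / (m.factorial : ℝ) * t ^ (θ₀ - m)))| ≤
      |lam| * (K * (2 ^ |θ₁| * 2 ^ m * t ^ (θ₁ - m))) := by
  have ht0 : 0 < t := by linarith
  have hf0 : (0 : ℝ) < (m.factorial : ℝ) := by exact_mod_cast Nat.factorial_pos _
  have e1 : fG G c θ₀ E lam m t / (m.factorial : ℝ) -
      lam * (c * (ff θ₀ m / (m.factorial : ℝ) * t ^ (θ₀ - m))) =
      lam * ((iteratedDeriv m E (t : ℂ)).re / (m.factorial : ℝ)) := by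
    unfold fG
    rw [iterate_derivative_eq_zero hm, eval_zero]
    ring
  rw [e1, abs_mul, abs_div, abs_of_pos hf0]
  refine mul_le_mul_of_nonneg_left ?_ (abs_nonneg _)
  rw [div_le_iff₀ hf0]
  refine (Complex.abs_re_le_norm _).trans ((cauchy_bd hR hE hK hK0 m ht).trans (le_of_eq ?_))
  rw [Real.rpow_sub ht0, Real.rpow_natCast, div_pow]
  have h2 : (t : ℝ) ^ m ≠ 0 := by positivity
  have h3 : ((2 : ℝ) ^ m) ≠ 0 := by positivity
  generalize (t : ℝ) ^ m = x at *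
  generalize (2 : ℝ) ^ m = y at *
  field_simp

end Pool.Agent.J6H93.Fam
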