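import Pool.Agent.J6H93.Fam.Gm1

/-!
# Functions with an expansion at infinity: exponential sums
-/

set_option autoImplicit false

namespace Pool.Agent.J6H93.Fam

open Finset Filter Polynomial
open Pool.Agent.N586.RT (ff logpow log_ge)
open Pool.Agent.Y933.KD (e norm_e)

lemma exp_mul_pow (b : ℝ) (hb : 0 < b) (m : ℕ) : b ^ m = Real.exp (m * Real.log b) := by
  rw [Real.exp_nat_mul, Real.exp_log hb]

/-- the sizes of the derivatives -/
lemma fG_size {G : ℝ[X]} {c θ₀ θ₁ R lam : ℝ} {E : ℂ → ℂ} {N t κ b v : ℝ} (hR : 0 ≤ R)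
    (hE : DifferentiableOn ℂ E (Hp R)) (hN : 1 ≤ N)
    (hK : ∀ z ∈ Hp R, ‖E z‖ ≤ |c| * N ^ ((θ₀ - θ₁) / 4) * ‖z‖ ^ θ₁)
    (hlc : |lam| * (|c| * N ^ θ₀) = N ^ κ) {m : ℕ} (hm : G.natDegree < m) (ht : 2 * R < t)
    (hθ : θ₁ < θ₀) (hb1 : 1 ≤ b)
    (hb : (b ^ m)⁻¹ ≤ |ff θ₀ m| / (m.factorial : ℝ) ∧ |ff θ₀ m| / (m.factorial : ℝ) ≤ b ^ m)
    (hv : |Real.log t - Real.log N| ≤ v)
    (h1 : (θ₀ - θ₁) / 4 * Real.log N + (|θ₁| + m) * Real.log 2 + (θ₀ - θ₁) * v +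
      m * Real.log b + Real.log 2 ≤ (θ₀ - θ₁) * Real.log N) :
    N ^ (κ - m) * Real.exp (-(m * Real.log b + Real.log 2 + (|θ₀| + m) * v)) ≤
      |fG G c θ₀ E lam m t / (m.factorial : ℝ)| ∧
    |fG G c θ₀ E lam m t / (m.factorial : ℝ)| ≤
      N ^ (κ - m) * Real.exp (m * Real.log b + Real.log 2 + (|θ₀| + m) * v) := by
  have hN0 : 0 < N := by linarith
  have ht0 : 0 < t := by linarith
  have hb0 : 0 < b := by linarith
  obtain ⟨L, hL⟩ : ∃ L : ℝ, L = Real.log N := ⟨_, rfl⟩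
  obtain ⟨τ, hτ⟩ : ∃ τ : ℝ, τ = Real.log t - Real.log N := ⟨_, rfl⟩
  have hlt : Real.log t = L + τ := by rw [hτ, hL]; ring
  rw [← hL] at h1
  rw [← hτ, abs_le] at hv
  have hexpN : ∀ a : ℝ, N ^ a = Real.exp (a * L) := by
    intro a
    rw [Real.rpow_def_of_pos hN0, hL, mul_comm]
  have hexpt : ∀ a : ℝ, t ^ a = Real.exp (a * (L + τ)) := by
    intro a
    rw [Real.rpow_def_of_pos ht0, hlt, mul_comm]
  have hmain := fG_main (G := G) (c := c) (θ₀ := θ₀) lam hR hE hK (by positivity) hm ht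
  obtain ⟨F, hF⟩ : ∃ F : ℝ, F = fG G c θ₀ E lam m t / (m.factorial : ℝ) := ⟨_, rfl⟩
  rw [← hF] at hmain ⊢
  obtain ⟨X, hX⟩ : ∃ X : ℝ, X = |lam| * |c| := ⟨_, rfl⟩
  have hX0 : X = Real.exp ((κ - θ₀) * L) := by
    have e1 : X * Real.exp (θ₀ * L) = Real.exp (κ * L) := by
      rw [← hexpN, ← hexpN, ← hlc, hX]
      ring
    have e2 : Real.exp ((κ - θ₀) * L) * Real.exp (θ₀ * L) = Real.exp (κ * L) := by
      rw [← Real.exp_add]
      congr 1
      ring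
    exact mul_right_cancel₀ (Real.exp_pos _).ne' (e1.trans e2.symm)
  obtain ⟨B, hB⟩ : ∃ B : ℝ, B = |ff θ₀ m| / (m.factorial : ℝ) := ⟨_, rfl⟩
  rw [← hB] at hb
  have hf0 : (0 : ℝ) < (m.factorial : ℝ) := by exact_mod_cast Nat.factorial_pos _
  have hM : |lam * (c * (ff θ₀ m / (m.factorial : ℝ) * t ^ (θ₀ - m)))| = X * B * t ^ (θ₀ - m) := by
    rw [abs_mul, abs_mul, abs_mul, abs_div, abs_of_pos hf0, abs_of_pos (Real.rpow_pos_of_pos ht0 _),
      hX, hB]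
    ring
  have hErr : |lam| * (|c| * N ^ ((θ₀ - θ₁) / 4) * (2 ^ |θ₁| * 2 ^ m * t ^ (θ₁ - m))) ≤
      X * B * t ^ (θ₀ - m) / 2 := by
    have e1 : |lam| * (|c| * N ^ ((θ₀ - θ₁) / 4) * (2 ^ |θ₁| * 2 ^ m * t ^ (θ₁ - m))) =
        X * Real.exp ((θ₀ - θ₁) / 4 * L + (|θ₁| + m) * Real.log 2 + (θ₁ - m) * (L + τ)) := by
      rw [Real.exp_add, Real.exp_add, ← hexpN, ← hexpt, add_mul, Real.exp_add,
        ← exp_mul_pow 2 (by norm_num), Real.rpow_def_of_pos (by norm_num : (0 : ℝ) < 2), hX,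
        mul_comm (Real.log 2)]
      ring
    rw [e1]
    have e2 : X * Real.exp (-(m * Real.log b)) * Real.exp ((θ₀ - m) * (L + τ)) *
        Real.exp (-(Real.log 2)) ≤ X * B * t ^ (θ₀ - m) / 2 := by
      rw [← hexpt, Real.exp_neg, Real.exp_neg, ← exp_mul_pow b hb0, Real.exp_log (by norm_num)]
      have := hb.1
      have hX00 : 0 < X := by rw [hX0]; positivity
      have : X * (b ^ m)⁻¹ * t ^ (θ₀ - m) * 2⁻¹ ≤ X * B * t ^ (θ₀ - m) * 2⁻¹ := by gcongr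
      linarith
    refine le_trans ?_ e2
    rw [mul_assoc, mul_assoc, ← Real.exp_add, ← Real.exp_add]
    have hX00 : 0 < X := by rw [hX0]; positivity
    refine mul_le_mul_of_nonneg_left (Real.exp_le_exp.2 ?_) hX00.le
    have e3 : -((θ₀ - θ₁) * τ) ≤ (θ₀ - θ₁) * v := by
      have : 0 < θ₀ - θ₁ := by linarith
      nlinarith [hv.1]
    linarith
  have hlow1 := abs_sub_abs_le_abs_sub (lam * (c * (ff θ₀ m / (m.factorial : ℝ) * t ^ (θ₀ - m)))) F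
  have hup1 := abs_sub_abs_le_abs_sub F (lam * (c * (ff θ₀ m / (m.factorial : ℝ) * t ^ (θ₀ - m))))
  rw [abs_sub_comm (lam * (c * (ff θ₀ m / (m.factorial : ℝ) * t ^ (θ₀ - m)))) F, hM] at hlow1
  rw [hM] at hup1
  have hS : X * B * t ^ (θ₀ - m) / 2 ≤ |F| := by linarith
  have hS2 : |F| ≤ 2 * (X * B * t ^ (θ₀ - m)) := by
    have : 0 ≤ X * B * t ^ (θ₀ - m) := by
      rw [← hM]
      exact abs_nonneg _
    linarith
  have hX00 : 0 < X := by rw [hX0]; positivity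
  have hm0 : (0 : ℝ) ≤ m := Nat.cast_nonneg _
  have hτv : |τ| ≤ v := abs_le.2 hv
  have hθτ : |(θ₀ - m) * τ| ≤ (|θ₀| + m) * v := by
    rw [abs_mul]
    have e1 : |θ₀ - m| ≤ |θ₀| + m := by
      have := abs_sub θ₀ (m : ℝ)
      rw [abs_of_nonneg hm0] at this
      exact this
    exact mul_le_mul e1 hτv (abs_nonneg _) (by positivity)
  rw [abs_le] at hθτ
  constructor
  · refine le_trans ?_ hS
    have e1 : X * (b ^ m)⁻¹ * t ^ (θ₀ - m) / 2 ≤ X * B * t ^ (θ₀ - m) / 2 := by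
      have := hb.1
      gcongr
    refine le_trans ?_ e1
    rw [hX0, hexpt, hexpN, exp_mul_pow b hb0, ← Real.exp_neg]
    have e2 : (2 : ℝ)⁻¹ = Real.exp (-Real.log 2) := by
      rw [Real.exp_neg, Real.exp_log (by norm_num)]
    rw [div_eq_mul_inv, e2, ← Real.exp_add, ← Real.exp_add, ← Real.exp_add, ← Real.exp_add]
    apply Real.exp_le_exp.2
    nlinarith [hθτ.1]
  · refine hS2.trans ?_
    have e1 : 2 * (X * B * t ^ (θ₀ - m)) ≤ 2 * (X * b ^ m * t ^ (θ₀ - m)) := by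
      have := hb.2
      gcongr
    refine e1.trans ?_
    rw [hX0, hexpt, hexpN, exp_mul_pow b hb0]
    have e2 : (2 : ℝ) = Real.exp (Real.log 2) := (Real.exp_log (by norm_num)).symm
    nth_rw 1 [e2]
    rw [← Real.exp_add, ← Real.exp_add, ← Real.exp_add, ← Real.exp_add]
    apply Real.exp_le_exp.2
    nlinarith [hθτ.2]

/-- **exponential sums over the values of functions with an expansion at infinity** -/
theorem es_germ {μ g₀ γ κ₀ w₁ w₂ w₃ : ℝ} (hμ0 : 0 < μ) (hμ : μ ≤ 2 / 5) (hg : 0 < g₀) (hγ : 0 < γ)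
    (hκ₀ : 1 / 2 ≤ κ₀) (hw₁ : 0 < w₁) (hw₂ : 0 ≤ w₂) (hw₂5 : w₂ ≤ 10) (hw₃ : w₃ ≤ 4)
    (H1 : ∀ κ, κ₀ ≤ κ → γ * κ ≤ (((Finset.Icc 1 (⌈5 * κ⌉₊ + 5)).filter fun j : ℕ =>
      w₁ * κ ≤ j ∧ (j : ℝ) ≤ w₂ * κ + w₃).card : ℝ))
    (H2 : ∀ κ j : ℝ, κ₀ ≤ κ → w₁ * κ ≤ j → j ≤ w₂ * κ + w₃ → κ + 3 * (g₀ * κ) ≤ (1 - μ) * j ∧
      (1 - 2 * μ) * j + 2 * (g₀ * κ) ≤ κ ∧ g₀ * κ ≤ μ * j)
    (D : ℕ) (hD : D < w₁ * κ₀) (hD5 : D < 5 * κ₀ + 5)
    (θ₀ θ₁ R : ℝ) (hθ₀ : ∀ k : ℕ, θ₀ ≠ k) (hθ : θ₁ < θ₀) (hR : 0 ≤ R)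
    (δ β C₀ : ℝ) (hδ : 0 < δ) (hβ : 0 < β) (hδβ : 2 * δ + β < 1) (hC₀ : 0 < C₀) :
    ∃ N0 : ℕ, ∀ N : ℕ, N0 ≤ N → ∀ κ : ℝ, κ₀ ≤ κ → κ ≤ C₀ * (Real.log N) ^ δ →
      ∀ A B : ℕ, N * Real.exp (-(Real.log N) ^ β) ≤ A → A ≤ B → B + (N : ℝ) ^ (2 * μ) ≤ 3 * N →
      ∀ (c lam : ℝ), |lam| * (|c| * (N : ℝ) ^ θ₀) = (N : ℝ) ^ κ → ∀ G : ℝ[X], G.natDegree ≤ D →
      ∀ E : ℂ → ℂ, DifferentiableOn ℂ E (Hp R) →
      (∀ z ∈ Hp R, ‖E z‖ ≤ |c| * (N : ℝ) ^ ((θ₀ - θ₁) / 4) * ‖z‖ ^ θ₁) →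
      ‖∑ n ∈ Finset.Ioc A B, e (lam * (G.eval (n : ℝ) + c * (n : ℝ) ^ θ₀ + (E n).re))‖ ≤
        ((B - A : ℕ) : ℝ) * Real.exp (-(Real.log N) ^ β) + 2 * (N : ℝ) ^ (2 * μ) := by
  obtain ⟨N1, hN1⟩ := es_gen hμ0 hμ hg hγ hκ₀ H1 H2 δ β C₀ hδ hβ hδβ hC₀
  obtain ⟨b, hb1, hb⟩ := bin_bd hθ₀
  have hb0 : 0 < b := by linarith
  obtain ⟨lb, hlb⟩ : ∃ lb : ℝ, lb = Real.log b := ⟨_, rfl⟩
  have hlb0 : 0 ≤ lb := by rw [hlb]; exact Real.log_nonneg hb1
  have hl2 : Real.log 2 ≤ 1 := by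
    have := Real.log_two_lt_d9
    linarith
  have hl20 : 0 ≤ Real.log 2 := Real.log_nonneg (by norm_num)
  have hl3 : Real.log 3 ≤ 2 := by
    have := Real.log_le_sub_one_of_pos (by norm_num : (0 : ℝ) < 3)
    linarith
  obtain ⟨Δ, hΔ⟩ : ∃ Δ : ℝ, Δ = θ₀ - θ₁ := ⟨_, rfl⟩
  have hΔ0 : 0 < Δ := by linarith
  obtain ⟨N2, hN2⟩ := eventually_atTop.1 (((((((logpow (by linarith : δ + β < 1)
      ((|θ₁| + 19 * C₀ + 19 * C₀ * lb + 1 + 2 * Δ) * (4 / (3 * Δ)))).and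
    (logpow (by linarith : β < 1) ((19 * lb + 40 + 4 * |θ₀|) / g₀))).and
    (logpow (by linarith : δ + β < 1) (10 * (19 * C₀ * lb + 1 + 2 * |θ₀| + 38 * C₀)))).and
    (log_ge 1)).and (log_ge (Real.log (2 * R + 1) * 4 + 4))).and
    (logpow (by linarith : β < 1) 4)).and (logpow hβ 1))
  refine ⟨max (max N1 N2) 2, ?_⟩
  intro N hN κ hκ hκ2 A B hA hAB hB c lam hlc G hG E hE hEb
  have hNN1 : N1 ≤ N := le_of_max_le_left (le_of_max_le_left hN)
  obtain ⟨⟨⟨⟨⟨⟨c1, c2⟩, c3⟩, c4⟩, c5⟩, c6⟩, c7⟩ := hN2 N (le_of_max_le_right (le_of_max_le_left hN))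
  have hn2 : 2 ≤ N := le_of_max_le_right hN
  have hNR : (2 : ℝ) ≤ N := by exact_mod_cast hn2
  have hN0 : (0 : ℝ) < N := by linarith
  have hN1r : (1 : ℝ) ≤ N := by linarith
  obtain ⟨L, hL⟩ : ∃ L : ℝ, L = Real.log N := ⟨_, rfl⟩
  have key := hN1 N hNN1 κ hκ hκ2 A B (fG G c θ₀ E lam) ∅ hAB
  rw [← hL] at c1 c2 c3 c4 c5 c6 c7 hκ2 hA key ⊢
  rw [Real.rpow_one] at c1 c2 c3 c6
  rw [Real.rpow_zero, mul_one] at c7
  have hL0 : 0 < L := by linarith
  have hexp : ∀ a : ℝ, (N : ℝ) ^ a = Real.exp (a * L) := by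
    intro a
    rw [Real.rpow_def_of_pos hN0, hL, mul_comm]
  obtain ⟨u, hu⟩ : ∃ u : ℝ, u = L ^ δ := ⟨_, rfl⟩
  obtain ⟨v, hv⟩ : ∃ v : ℝ, v = L ^ β := ⟨_, rfl⟩
  have hu1 : 1 ≤ u := by rw [hu]; exact Real.one_le_rpow c4 hδ.le
  have huv : L ^ (δ + β) = u * v := by rw [Real.rpow_add hL0, hu, hv]
  rw [huv] at c1 c3
  rw [← hv] at c2 c6 c7 hA
  rw [← hu] at hκ2
  have hv1 : 1 ≤ v := c7
  have hκ12 : 1 / 2 ≤ κ := by linarith
  have hκ0 : 0 < κ := by linarith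
  -- the range of `t`
  have hrange : ∀ t ∈ Set.Icc (A : ℝ) (B + (N : ℝ) ^ (2 * μ)), 2 * R < t ∧
      |Real.log t - Real.log N| ≤ 2 * v := by
    intro t ht
    have h1 : (N : ℝ) * Real.exp (-v) ≤ t := hA.trans ht.1
    have h2 : t ≤ 3 * N := ht.2.trans hB
    have h3 : (N : ℝ) * Real.exp (-v) = Real.exp (L - v) := by
      rw [sub_eq_add_neg, Real.exp_add, hL, Real.exp_log hN0]
    have ht0 : 0 < t := lt_of_lt_of_le (by positivity) h1
    have h4 : L - v ≤ Real.log t := by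
      rw [Real.le_log_iff_exp_le ht0, ← h3]
      exact h1
    have h5 : Real.log t ≤ Real.log 3 + L := by
      rw [hL, ← Real.log_mul (by norm_num) hN0.ne']
      exact Real.log_le_log ht0 h2
    constructor
    · have h6 : Real.log (2 * R + 1) ≤ L - v := by
        have : v ≤ L / 4 := by linarith
        have h7 : 0 ≤ Real.log (2 * R + 1) := Real.log_nonneg (by linarith)
        linarith
      have h7 : 2 * R + 1 ≤ Real.exp (L - v) := by
        rw [← Real.log_le_iff_le_exp (by linarith)]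
        exact h6
      linarith [h3 ▸ h1]
    · rw [← hL, abs_le]
      constructor
      · linarith
      · linarith
  -- the sizes
  have hsz : ∀ t ∈ Set.Icc (A : ℝ) (B + (N : ℝ) ^ (2 * μ)), ∀ m : ℕ, D < m → (m : ℝ) ≤ 19 * κ →
      (N : ℝ) ^ (κ - m) * Real.exp (-(m * lb + 1 + (|θ₀| + m) * (2 * v))) ≤
        |fG G c θ₀ E lam m t / (m.factorial : ℝ)| ∧
      |fG G c θ₀ E lam m t / (m.factorial : ℝ)| ≤
        (N : ℝ) ^ (κ - m) * Real.exp (m * lb + 1 + (|θ₀| + m) * (2 * v)) := by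
    intro t ht m hm1 hm2
    obtain ⟨h1, h2⟩ := hrange t ht
    have hm0 : (0 : ℝ) ≤ m := Nat.cast_nonneg _
    have hm3 : (m : ℝ) ≤ 19 * C₀ * u := by nlinarith
    have hcond : (θ₀ - θ₁) / 4 * Real.log N + (|θ₁| + m) * Real.log 2 + (θ₀ - θ₁) * (2 * v) +
        m * Real.log b + Real.log 2 ≤ (θ₀ - θ₁) * Real.log N := by
      rw [← hΔ, ← hL, ← hlb]
      have a1 : (|θ₁| + m) * Real.log 2 ≤ (|θ₁| + 19 * C₀) * (u * v) := by
        have b1 : (|θ₁| + m) * Real.log 2 ≤ (|θ₁| + m) * 1 := by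
          have : 0 ≤ |θ₁| + m := by positivity
          gcongr
        have b2 : 1 ≤ u * v := by nlinarith
        have b3 : u ≤ u * v := le_mul_of_one_le_right (by linarith) hv1
        have b4 : |θ₁| ≤ |θ₁| * (u * v) := le_mul_of_one_le_right (abs_nonneg _) b2
        have b5 : 19 * C₀ * u ≤ 19 * C₀ * (u * v) := by gcongr
        linarith
      have a2 : Δ * (2 * v) ≤ (2 * Δ) * (u * v) := by
        have b3 : v ≤ u * v := le_mul_of_one_le_left (by linarith) hu1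
        nlinarith
      have a3 : m * lb ≤ 19 * C₀ * lb * (u * v) := by
        have b3 : u ≤ u * v := le_mul_of_one_le_right (by linarith) hv1
        calc m * lb ≤ (19 * C₀ * u) * lb := by gcongr
          _ = 19 * C₀ * lb * u := by ring
          _ ≤ _ := by gcongr
      have a4 : (1 : ℝ) ≤ u * v := by nlinarith
      have a5 : (|θ₁| + 19 * C₀ + 19 * C₀ * lb + 1 + 2 * Δ) * (u * v) ≤ 3 / 4 * Δ * L := by
        have : (|θ₁| + 19 * C₀ + 19 * C₀ * lb + 1 + 2 * Δ) * (u * v) =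
            3 / 4 * Δ * ((|θ₁| + 19 * C₀ + 19 * C₀ * lb + 1 + 2 * Δ) * (4 / (3 * Δ)) * (u * v)) := by
          field_simp
        rw [this]
        gcongr
      linarith
    have h3 := fG_size hR hE hN1r hEb hlc (lt_of_le_of_lt hG hm1) h1 hθ hb1 (hb m) h2 hcond
    rw [← hlb] at h3
    refine ⟨le_trans ?_ h3.1, h3.2.trans ?_⟩
    · refine mul_le_mul_of_nonneg_left (Real.exp_le_exp.2 ?_) (by positivity)
      linarith
    · refine mul_le_mul_of_nonneg_left (Real.exp_le_exp.2 ?_) (by positivity)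
      linarith
  have hDκ : (D : ℝ) < w₁ * κ := lt_of_lt_of_le hD (by gcongr)
  have key2 := key
    (fG_chain lam hR hE fun t ht => by
      have := (hrange t ht).1
      linarith)
    (by
      intro t ht
      have hf0 : (0 : ℝ) < ((⌈5 * κ⌉₊ + 5 + 1).factorial : ℝ) := by
        exact_mod_cast Nat.factorial_pos _
      have hr1 : ((⌈5 * κ⌉₊ + 5 + 1 : ℕ) : ℝ) ≤ 19 * κ := by
        push_cast
        have := Nat.ceil_lt_add_one (a := 5 * κ) (by linarith)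
        linarith
      have hr2 : D < ⌈5 * κ⌉₊ + 5 + 1 := by
        have h1 : (D : ℝ) < ((⌈5 * κ⌉₊ + 5 + 1 : ℕ) : ℝ) := by
          push_cast
          have := Nat.le_ceil (5 * κ)
          linarith
        exact_mod_cast h1
      have h1 := (hsz t ht _ hr2 hr1).2
      rw [abs_div, abs_of_pos hf0] at h1
      refine h1.trans ?_
      obtain ⟨r, hr⟩ : ∃ r : ℝ, r = ((⌈5 * κ⌉₊ + 5 + 1 : ℕ) : ℝ) := ⟨_, rfl⟩
      rw [← hr] at hr1 ⊢
      have hr0 : 0 ≤ r := by rw [hr]; positivity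
      rw [Real.rpow_add hN0]
      refine mul_le_mul_of_nonneg_left ?_ (by positivity)
      rw [hexp]
      apply Real.exp_le_exp.2
      have hr3 : r ≤ 19 * C₀ * u := by nlinarith
      have b2 : 1 ≤ u * v := by nlinarith
      have b3 : u ≤ u * v := le_mul_of_one_le_right (by linarith) hv1
      have b4 : v ≤ u * v := le_mul_of_one_le_left (by linarith) hu1
      have a1 : r * lb ≤ 19 * C₀ * lb * (u * v) := by
        calc r * lb ≤ (19 * C₀ * u) * lb := by gcongr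
          _ = 19 * C₀ * lb * u := by ring
          _ ≤ _ := by gcongr
      have a2 : (|θ₀| + r) * (2 * v) ≤ (2 * |θ₀| + 38 * C₀) * (u * v) := by
        calc (|θ₀| + r) * (2 * v) ≤ (|θ₀| + 19 * C₀ * u) * (2 * v) := by gcongr
          _ = 2 * |θ₀| * v + 38 * C₀ * (u * v) := by ring
          _ ≤ 2 * |θ₀| * (u * v) + 38 * C₀ * (u * v) := by gcongr
          _ = _ := by ring
      linarith)
    (by
      intro n hn _ j hj1 hj2
      have hn' := Finset.mem_Ioc.1 hn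
      have hnt : (n : ℝ) ∈ Set.Icc (A : ℝ) (B + (N : ℝ) ^ (2 * μ)) := by
        constructor
        · exact_mod_cast hn'.1.le
        · have h1 : (n : ℝ) ≤ B := by exact_mod_cast hn'.2
          have h2 : 0 ≤ (N : ℝ) ^ (2 * μ) := by positivity
          linarith
      have hDj : D < j := by
        have : (D : ℝ) < j := by linarith
        exact_mod_cast this
      have hj3 : (j : ℝ) ≤ 19 * κ := by nlinarith
      obtain ⟨h1, h2⟩ := hsz n hnt j hDj hj3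
      have hj0 : (0 : ℝ) ≤ j := Nat.cast_nonneg _
      have hexpo : j * lb + 1 + (|θ₀| + j) * (2 * v) ≤ g₀ * κ * L := by
        have a1 : j * lb ≤ 19 * lb * κ * v := by
          calc j * lb ≤ (19 * κ) * lb := by gcongr
            _ = 19 * lb * κ * 1 := by ring
            _ ≤ _ := by gcongr
        have hκv : 1 ≤ 2 * κ * v := by nlinarith
        have a2 : (|θ₀| + j) * (2 * v) ≤ (4 * |θ₀| + 38) * κ * v := by
          calc (|θ₀| + j) * (2 * v) ≤ (|θ₀| * (2 * κ) + 19 * κ) * (2 * v) := by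
                have : |θ₀| ≤ |θ₀| * (2 * κ) := le_mul_of_one_le_right (abs_nonneg _) (by linarith)
                gcongr
            _ = _ := by ring
        have a3 : (19 * lb + 40 + 4 * |θ₀|) * v ≤ g₀ * L := by
          have : (19 * lb + 40 + 4 * |θ₀|) * v = g₀ * ((19 * lb + 40 + 4 * |θ₀|) / g₀ * v) := by
            field_simp
          rw [this]
          gcongr
        calc j * lb + 1 + (|θ₀| + j) * (2 * v) ≤ 19 * lb * κ * v + 2 * κ * v +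
              (4 * |θ₀| + 38) * κ * v := by linarith
          _ = κ * ((19 * lb + 40 + 4 * |θ₀|) * v) := by ring
          _ ≤ κ * (g₀ * L) := by gcongr
          _ = _ := by ring
      constructor
      · refine le_trans ?_ h1
        have e1 : κ - g₀ * κ - j = κ - j + -(g₀ * κ) := by ring
        rw [e1, Real.rpow_add hN0]
        refine mul_le_mul_of_nonneg_left ?_ (by positivity)
        rw [hexp]
        apply Real.exp_le_exp.2
        linarith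
      · refine h2.trans ?_
        have e1 : κ + g₀ * κ - j = κ - j + g₀ * κ := by ring
        rw [e1, Real.rpow_add hN0]
        refine mul_le_mul_of_nonneg_left ?_ (by positivity)
        rw [hexp]
        exact Real.exp_le_exp.2 hexpo)
  simp only [fG_zero, Finset.card_empty, Nat.cast_zero, add_zero] at key2
  exact key2

end Pool.Agent.J6H93.Fam
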