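import Pool.Agent.J6H93.Fam.Gm2
import Pool.Agent.Y933.KG.Pm
import Pool.Agent.Y933.KD.VdC3

/-!
# Functions with an expansion at infinity: small phases
-/

set_option autoImplicit false

namespace Pool.Agent.J6H93.Fam

open Finset Filter Polynomial
open Pool.Agent.N586.RT (ff logpow log_ge)
open Pool.Agent.Y933.KD (e norm_e)

/-- the range of `t` -/
lemma t_range {N R v t L : ℝ} (hR : 0 ≤ R) (hN : 1 ≤ N) (hL : L = Real.log N) (hv1 : 1 ≤ v)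
    (hv : 4 * v ≤ L) (hL2 : Real.log (2 * R + 1) * 4 + 4 ≤ L) (h1 : N * Real.exp (-v) ≤ t)
    (h2 : t ≤ 3 * N) : 2 * R < t ∧ |Real.log t - Real.log N| ≤ 2 * v := by
  have hN0 : 0 < N := by linarith
  have h3 : N * Real.exp (-v) = Real.exp (L - v) := by
    rw [sub_eq_add_neg, Real.exp_add, hL, Real.exp_log hN0]
  have ht0 : 0 < t := lt_of_lt_of_le (by positivity) h1
  have h4 : L - v ≤ Real.log t := by
    rw [Real.le_log_iff_exp_le ht0, ← h3]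
    exact h1
  have hl3 : Real.log 3 ≤ 2 := by
    have := Real.log_le_sub_one_of_pos (by norm_num : (0 : ℝ) < 3)
    linarith
  have h5 : Real.log t ≤ Real.log 3 + L := by
    rw [hL, ← Real.log_mul (by norm_num) hN0.ne']
    exact Real.log_le_log ht0 h2
  constructor
  · have h6 : Real.log (2 * R + 1) ≤ L - v := by
      have : v ≤ L / 4 := by linarith
      have h7 : 0 ≤ Real.log (2 * R + 1) := Real.log_nonneg (by linarith)
      linarith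
    have h7 : 2 * R + 1 ≤ Real.exp (L - v) := by
      rw [← Real.log_le_iff_le_exp (by linarith)]
      exact h6
    linarith [h3 ▸ h1]
  · rw [← hL, abs_le]
    constructor
    · linarith
    · linarith

/-- **small phases** -/
theorem es_small (K : ℕ) (hK1 : 1 ≤ K) (θ₀ θ₁ R κ₁ β : ℝ) (hθ₀ : ∀ k : ℕ, θ₀ ≠ k) (hθ : θ₁ < θ₀)
    (hR : 0 ≤ R) (hκ₁ : 0 < κ₁) (hβ : 0 < β) (hβ1 : β < 1) :
    ∃ ρ : ℝ, 0 < ρ ∧ ∃ N0 : ℕ, ∀ N : ℕ, N0 ≤ N → ∀ κ : ℝ, κ₁ ≤ κ → κ ≤ K + 1 / 2 →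
      ∀ A : ℕ, N * Real.exp (-(Real.log N) ^ β) ≤ A → A ≤ N →
      ∀ (c lam : ℝ), |lam| * (|c| * (N : ℝ) ^ θ₀) = (N : ℝ) ^ κ → ∀ G : ℝ[X], G.natDegree ≤ K →
      ∀ E : ℂ → ℂ, DifferentiableOn ℂ E (Hp R) →
      (∀ z ∈ Hp R, ‖E z‖ ≤ |c| * (N : ℝ) ^ ((θ₀ - θ₁) / 4) * ‖z‖ ^ θ₁) →
      ‖∑ n ∈ Finset.Ioc A N, e (lam * (G.eval (n : ℝ) + c * (n : ℝ) ^ θ₀ + (E n).re))‖ ≤
        (N : ℝ) ^ (1 - ρ) := by
  obtain ⟨μ, hμ⟩ : ∃ μ : ℝ, μ = min (1 / 4) (κ₁ / 2) := ⟨_, rfl⟩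
  have hμ0 : 0 < μ := by rw [hμ]; exact lt_min (by norm_num) (by linarith)
  have hμ1 : μ ≤ 1 / 4 := by rw [hμ]; exact min_le_left _ _
  have hμ2 : μ ≤ κ₁ / 2 := by rw [hμ]; exact min_le_right _ _
  obtain ⟨ρ, hρ, N1, hN1⟩ := Pool.Agent.Y933.KG.core_pm K hK1 μ hμ0 hμ1
  obtain ⟨b, hb1, hb⟩ := bin_bd hθ₀
  have hb0 : 0 < b := by linarith
  obtain ⟨lb, hlb⟩ : ∃ lb : ℝ, lb = Real.log b := ⟨_, rfl⟩
  have hlb0 : 0 ≤ lb := by rw [hlb]; exact Real.log_nonneg hb1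
  have hl2 : Real.log 2 ≤ 1 := by
    have := Real.log_two_lt_d9
    linarith
  have hl20 : 0 ≤ Real.log 2 := Real.log_nonneg (by norm_num)
  obtain ⟨Δ, hΔ⟩ : ∃ Δ : ℝ, Δ = θ₀ - θ₁ := ⟨_, rfl⟩
  have hΔ0 : 0 < Δ := by linarith
  obtain ⟨F, hF⟩ : ∃ F : ℝ, F = ((K + 1).factorial : ℝ) := ⟨_, rfl⟩
  have hF1 : 1 ≤ F := by rw [hF]; exact_mod_cast Nat.factorial_pos _
  have hF0 : 0 < F := by linarith
  obtain ⟨q, hq⟩ : ∃ q : ℝ, q = (K : ℝ) + 2 := ⟨_, rfl⟩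
  have hKR : (1 : ℝ) ≤ K := by exact_mod_cast hK1
  have hq0 : 0 < q := by linarith
  obtain ⟨N2, hN2⟩ := eventually_atTop.1 (((((((logpow hβ1
      ((|θ₁| + (q + 1) + q * lb + 2 * Δ) * (4 / (3 * Δ)))).and
    (logpow hβ1 (8 * (q * lb + 1 + (|θ₀| + q) * 2) / μ))).and
    (log_ge 1)).and (log_ge (Real.log (2 * R + 1) * 4 + 4))).and
    (logpow hβ1 4)).and (logpow hβ 1)).and (exp_ge_ev (1 / 4) F (by norm_num)))
  refine ⟨ρ, hρ, max (max N1 N2) 2, ?_⟩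
  intro N hN κ hκ hκ2 A hA hAN c lam hlc G hG E hE hEb
  have hNN1 : N1 ≤ N := le_of_max_le_left (le_of_max_le_left hN)
  obtain ⟨⟨⟨⟨⟨⟨c1, c2⟩, c4⟩, c5⟩, c6⟩, c7⟩, c8⟩ := hN2 N (le_of_max_le_right (le_of_max_le_left hN))
  have hn2 : 2 ≤ N := le_of_max_le_right hN
  have hNR : (2 : ℝ) ≤ N := by exact_mod_cast hn2
  have hN0 : (0 : ℝ) < N := by linarith
  have hN1r : (1 : ℝ) ≤ N := by linarith
  obtain ⟨L, hL⟩ : ∃ L : ℝ, L = Real.log N := ⟨_, rfl⟩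
  rw [← hL] at c1 c2 c4 c5 c6 c7 c8 hA
  rw [Real.rpow_one] at c1 c2 c6
  rw [Real.rpow_zero, mul_one] at c7
  have hL0 : 0 < L := by linarith
  have hexp : ∀ a : ℝ, (N : ℝ) ^ a = Real.exp (a * L) := by
    intro a
    rw [Real.rpow_def_of_pos hN0, hL, mul_comm]
  obtain ⟨v, hv⟩ : ∃ v : ℝ, v = L ^ β := ⟨_, rfl⟩
  rw [← hv] at c1 c2 c6 c7 hA
  have hv1 : 1 ≤ v := c7
  have hrange : ∀ t ∈ Set.Icc (A : ℝ) ((N : ℝ) + 1), 2 * R < t ∧
      |Real.log t - Real.log N| ≤ 2 * v := fun t ht =>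
    t_range hR hN1r hL hv1 c6 c5 (hA.trans ht.1) (by linarith [ht.2])
  obtain ⟨T, hT⟩ : ∃ T : ℝ, T = q * lb + 1 + (|θ₀| + q) * (2 * v) := ⟨_, rfl⟩
  have hT1 : 8 * T ≤ μ * L := by
    have e1 : T ≤ (q * lb + 1 + (|θ₀| + q) * 2) * v := by
      rw [hT]
      have h1 : q * lb ≤ q * lb * v := le_mul_of_one_le_right (by positivity) hv1
      nlinarith
    have e2 : 8 * ((q * lb + 1 + (|θ₀| + q) * 2) * v) =
        μ * (8 * (q * lb + 1 + (|θ₀| + q) * 2) / μ * v) := by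
      field_simp
    calc 8 * T ≤ 8 * ((q * lb + 1 + (|θ₀| + q) * 2) * v) := by gcongr
      _ = _ := e2
      _ ≤ _ := by gcongr
  have hT0 : 0 ≤ T := by rw [hT]; positivity
  have hcond : ∀ m : ℕ, m ≤ K + 2 → (θ₀ - θ₁) / 4 * Real.log N + (|θ₁| + m) * Real.log 2 +
      (θ₀ - θ₁) * (2 * v) + m * Real.log b + Real.log 2 ≤ (θ₀ - θ₁) * Real.log N := by
    intro m hm
    rw [← hΔ, ← hL, ← hlb]
    have hm' : (m : ℝ) ≤ q := by
      rw [hq]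
      exact_mod_cast hm
    have hm0 : (0 : ℝ) ≤ m := Nat.cast_nonneg _
    have a1 : (|θ₁| + m) * Real.log 2 ≤ (|θ₁| + q) * v := by
      have b0 : 0 ≤ |θ₁| + m := by positivity
      calc (|θ₁| + m) * Real.log 2 ≤ (|θ₁| + m) * 1 := by gcongr
        _ ≤ (|θ₁| + q) * v := by
          have := abs_nonneg θ₁
          gcongr
    have a2 : m * lb ≤ q * lb * v := by
      calc m * lb ≤ q * lb := by gcongr
        _ ≤ _ := le_mul_of_one_le_right (by positivity) hv1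
    have a3 : (|θ₁| + (q + 1) + q * lb + 2 * Δ) * v ≤ 3 / 4 * Δ * L := by
      have : (|θ₁| + (q + 1) + q * lb + 2 * Δ) * v =
          3 / 4 * Δ * ((|θ₁| + (q + 1) + q * lb + 2 * Δ) * (4 / (3 * Δ)) * v) := by
        field_simp
      rw [this]
      gcongr
    linarith
  have hK1R : ((K + 1 : ℕ) : ℝ) ≤ q := by
    push_cast
    linarith
  have hsz : ∀ t ∈ Set.Icc (A : ℝ) ((N : ℝ) + 1),
      (N : ℝ) ^ (κ - (K + 1 : ℕ)) * Real.exp (-T) ≤ |fG G c θ₀ E lam (K + 1) t / F| ∧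
      |fG G c θ₀ E lam (K + 1) t / F| ≤ (N : ℝ) ^ (κ - (K + 1 : ℕ)) * Real.exp T := by
    intro t ht
    obtain ⟨h1, h2⟩ := hrange t ht
    have h3 := fG_size (G := G) (m := K + 1) hR hE hN1r hEb hlc (by omega) h1 hθ hb1 (hb _) h2
      (hcond (K + 1) (by omega))
    rw [← hlb, ← hF] at h3
    have h4 : ((K + 1 : ℕ) : ℝ) * lb + Real.log 2 + (|θ₀| + ((K + 1 : ℕ) : ℝ)) * (2 * v) ≤ T := by
      rw [hT]
      gcongr
    refine ⟨le_trans ?_ h3.1, h3.2.trans ?_⟩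
    · refine mul_le_mul_of_nonneg_left (Real.exp_le_exp.2 ?_) (by positivity)
      linarith
    · exact mul_le_mul_of_nonneg_left (Real.exp_le_exp.2 h4) (by positivity)
  have hne3 : ∀ t ∈ Set.Icc (A : ℝ) ((N : ℝ) + 1), fG G c θ₀ E lam (K + 2) t ≠ 0 := by
    intro t ht h0
    obtain ⟨h1, h2⟩ := hrange t ht
    have h3 := (fG_size (G := G) (m := K + 2) hR hE hN1r hEb hlc (by omega) h1 hθ hb1 (hb _) h2
      (hcond (K + 2) le_rfl)).1
    rw [h0, zero_div, abs_zero] at h3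
    have : 0 < (N : ℝ) ^ (κ - ((K + 2 : ℕ) : ℝ)) * Real.exp (-(((K + 2 : ℕ) : ℝ) * Real.log b +
      Real.log 2 + (|θ₀| + ((K + 2 : ℕ) : ℝ)) * (2 * v))) := by positivity
    linarith
  obtain ⟨lo, hlo⟩ : ∃ lo : ℝ, lo = F * ((N : ℝ) ^ (κ - (K + 1 : ℕ)) * Real.exp (-T)) := ⟨_, rfl⟩
  obtain ⟨hi, hhi⟩ : ∃ hi : ℝ, hi = F * ((N : ℝ) ^ (κ - (K + 1 : ℕ)) * Real.exp T) := ⟨_, rfl⟩
  have hlo0 : 0 < lo := by rw [hlo]; positivity
  have key := hN1 N hNN1 (A : ℝ) ((N : ℝ) + 1) lo hi (fG G c θ₀ E lam) hlo0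
    (fun m t ht => fG_chain lam hR hE (S := Set.Icc (A : ℝ) ((N : ℝ) + 1)) (fun t ht => by
      have := (hrange t ht).1
      linarith) m t ht)
    (by
      intro t ht
      have h1 := (hsz t ht).1
      rw [abs_div, abs_of_pos hF0, le_div_iff₀ hF0] at h1
      rw [hlo]
      linarith)
    (by
      intro t ht
      have h1 := (hsz t ht).2
      rw [abs_div, abs_of_pos hF0, div_le_iff₀ hF0] at h1
      rw [hhi]
      linarith)
    (fun t ht => hne3 t ht)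
    1 ((A : ℝ) + 1) (N - A) (Nat.sub_le _ _) le_rfl
    (by
      rw [Nat.cast_sub hAN]
      linarith) one_ne_zero
    (by
      rw [hlo, hhi, hexp (μ / 4), mul_assoc, mul_assoc, ← Real.exp_add]
      refine mul_le_mul_of_nonneg_left ?_ hF0.le
      refine mul_le_mul_of_nonneg_left (Real.exp_le_exp.2 ?_) (by positivity)
      linarith)
    (by
      rw [abs_one, one_mul, hlo]
      have e1 : Real.exp (-T) ≤ 1 := by
        rw [Real.exp_le_one_iff]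
        linarith
      calc F * ((N : ℝ) ^ (κ - (K + 1 : ℕ)) * Real.exp (-T)) ≤
          Real.exp (1 / 4 * L) * ((N : ℝ) ^ (κ - (K + 1 : ℕ)) * 1) := by
            gcongr
        _ = (N : ℝ) ^ (1 / 4 + (κ - (K + 1 : ℕ)) : ℝ) := by
            rw [Real.rpow_add hN0, hexp (1 / 4), mul_one]
        _ ≤ _ := by
            apply Real.rpow_le_rpow_of_exponent_le hN1r
            push_cast
            linarith)
    (by
      rw [abs_one, one_mul, hlo]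
      have e1 : (N : ℝ) ^ (-((K : ℝ) + 1) + μ) ≤ (N : ℝ) ^ (κ - (K + 1 : ℕ)) * Real.exp (-T) := by
        rw [hexp, hexp, ← Real.exp_add]
        apply Real.exp_le_exp.2
        push_cast
        have : κ₁ * L ≤ κ * L := by gcongr
        have : 2 * μ * L ≤ κ₁ * L := by
          have : 2 * μ ≤ κ₁ := by linarith
          gcongr
        have : 0 ≤ μ * L := by positivity
        linarith
      refine e1.trans ?_
      exact le_mul_of_one_le_left (by positivity) hF1)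
  refine le_trans (le_of_eq ?_) key
  congr 1
  have h1 : Finset.Ioc A N = Finset.Ioc A (A + (N - A)) := by
    rw [Nat.add_sub_cancel' hAN]
  have h2 := Pool.Agent.Y933.KD.VdC.sum_Ioc_split
    (fun n => e (lam * (G.eval (n : ℝ) + c * (n : ℝ) ^ θ₀ + (E n).re))) A (N - A) 0
    (Nat.zero_le _)
  simp only [add_zero, Finset.Ioc_self, Finset.sum_empty, zero_add, Nat.sub_zero] at h2
  rw [h1, h2]
  refine Finset.sum_congr rfl fun n _ => ?_
  rw [one_mul, fG_zero]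
  have e1 : ((A + 1 + n : ℕ) : ℝ) = (A : ℝ) + 1 + n := by push_cast; ring
  have e2 : ((A + 1 + n : ℕ) : ℂ) = (((A : ℝ) + 1 + n : ℝ) : ℂ) := by push_cast; ring
  rw [e1, e2]
  rfl

end Pool.Agent.J6H93.Fam
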