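import Pool.Agent.J6H93.Fam.Gm3

/-!
# Functions with an expansion at infinity: all phases
-/

set_option autoImplicit false

namespace Pool.Agent.J6H93.Fam

open Finset Filter Polynomial
open Pool.Agent.N586.RT (ff logpow log_ge)
open Pool.Agent.Y933.KD (e norm_e)

/-- **all phases** -/
theorem es_all (D : ℕ) (θ₀ θ₁ R κ₁ δ β C₀ : ℝ) (hθ₀ : ∀ k : ℕ, θ₀ ≠ k) (hθ : θ₁ < θ₀)
    (hR : 0 ≤ R) (hκ₁ : 0 < κ₁) (hδ : 0 < δ) (hβ : 0 < β) (hδβ : 2 * δ + β < 1) (hC₀ : 0 < C₀) :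
    ∃ N0 : ℕ, ∀ N : ℕ, N0 ≤ N → ∀ κ : ℝ, κ₁ ≤ κ → κ ≤ C₀ * (Real.log N) ^ δ →
      ∀ A : ℕ, N * Real.exp (-(Real.log N) ^ β) ≤ A → A ≤ N →
      ∀ (c lam : ℝ), |lam| * (|c| * (N : ℝ) ^ θ₀) = (N : ℝ) ^ κ → ∀ G : ℝ[X], G.natDegree ≤ D →
      ∀ E : ℂ → ℂ, DifferentiableOn ℂ E (Hp R) →
      (∀ z ∈ Hp R, ‖E z‖ ≤ |c| * (N : ℝ) ^ ((θ₀ - θ₁) / 4) * ‖z‖ ^ θ₁) →
      ‖∑ n ∈ Finset.Ioc A N, e (lam * (G.eval (n : ℝ) + c * (n : ℝ) ^ θ₀ + (E n).re))‖ ≤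
        N * Real.exp (-(Real.log N) ^ β) := by
  obtain ⟨β1, hβ1⟩ : ∃ β1 : ℝ, β1 = β + (1 - 2 * δ - β) / 2 := ⟨_, rfl⟩
  have hββ : β < β1 := by linarith
  have hδβ1 : 2 * δ + β1 < 1 := by linarith
  have hD0 : (0 : ℝ) ≤ D := Nat.cast_nonneg _
  obtain ⟨N1, hN1⟩ := es_germ (μ := 2 / 5) (g₀ := 1 / 20) (γ := 1 / 2) (κ₀ := ((D : ℝ) + 1) / 2)
    (w₁ := 2) (w₂ := 3)
    (w₃ := 1 / 2) (by norm_num) le_rfl (by norm_num) (by norm_num) (by linarith) (by norm_num)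
    (by norm_num) (by norm_num) (by norm_num)
    (fun κ hκ => by
      have h1 := Pool.Agent.Y70.VK.card_good (κ := κ) (by linarith) (r := ⌈5 * κ⌉₊ + 5) (by
        push_cast
        linarith [Nat.le_ceil (5 * κ)])
      linarith)
    (fun κ j hκ h1 h2 => ⟨by linarith, by linarith, by linarith⟩)
    D (by linarith) (by linarith) θ₀ θ₁ R hθ₀ hθ hR δ β1 C₀ hδ (by linarith) hδβ1 hC₀
  obtain ⟨ρ, hρ, N2, hN2⟩ := es_small (D + 1) (by omega) θ₀ θ₁ R κ₁ β1 hθ₀ hθ hR hκ₁ (by linarith)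
    (by linarith)
  obtain ⟨N3, hN3⟩ := eventually_atTop.1 (((((logpow (by linarith : β1 < 1) 10).and
    (exp_ge_ev (1 / 10) 2 (by norm_num))).and
    (logpow hββ 2)).and (logpow hβ 2)).and ((log_ge 1).and (logpow (by linarith : β1 < 1) (1 / ρ))))
  refine ⟨max (max (max N1 N2) N3) 2, ?_⟩
  intro N hN κ hκ hκ2 A hA hAN c lam hlc G hG E hE hEb
  have hNN1 : N1 ≤ N := le_of_max_le_left (le_of_max_le_left (le_of_max_le_left hN))
  have hNN2 : N2 ≤ N := le_of_max_le_right (le_of_max_le_left (le_of_max_le_left hN))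
  obtain ⟨⟨⟨⟨c8, c9⟩, c10⟩, c11⟩, c12, c13⟩ := hN3 N (le_of_max_le_right (le_of_max_le_left hN))
  have hn2 : 2 ≤ N := le_of_max_le_right hN
  have hNR : (2 : ℝ) ≤ N := by exact_mod_cast hn2
  have hN0 : (0 : ℝ) < N := by linarith
  have hN1r : (1 : ℝ) ≤ N := by linarith
  have hk1 := hN1 N hNN1
  have hk2 := hN2 N hNN2
  obtain ⟨L, hL⟩ : ∃ L : ℝ, L = Real.log N := ⟨_, rfl⟩
  rw [← hL] at c8 c9 c10 c11 c12 c13 hκ2 hA hk1 hk2 ⊢
  rw [Real.rpow_one] at c8 c13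
  rw [Real.rpow_zero, mul_one] at c11
  have hL0 : 0 < L := by linarith
  have hexp : ∀ a : ℝ, (N : ℝ) ^ a = Real.exp (a * L) := by
    intro a
    rw [Real.rpow_def_of_pos hN0, hL, mul_comm]
  have hNL : (N : ℝ) = Real.exp L := by rw [hL, Real.exp_log hN0]
  have hβL : L ^ β ≤ L ^ β1 := Real.rpow_le_rpow_of_exponent_le c12 hββ.le
  have hA1 : N * Real.exp (-L ^ β1) ≤ A := by
    refine le_trans ?_ hA
    refine mul_le_mul_of_nonneg_left (Real.exp_le_exp.2 ?_) hN0.le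
    linarith
  rcases le_or_gt κ ((D : ℝ) + 1 + 1 / 2) with h | h
  · have h1 := hk2 κ hκ (by push_cast; linarith) A hA1 hAN c lam hlc G (by omega) E hE hEb
    refine h1.trans ?_
    rw [hexp, hNL, ← Real.exp_add]
    apply Real.exp_le_exp.2
    have e1 : L ^ β ≤ ρ * L := by
      rw [div_mul_eq_mul_div, one_mul, div_le_iff₀ hρ] at c13
      linarith
    linarith
  · have e2 : 2 * (N : ℝ) ^ (2 * (2 / 5) : ℝ) ≤ N * Real.exp (-L ^ β1) := by
      rw [hexp, hNL, ← Real.exp_add]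
      calc 2 * Real.exp (2 * (2 / 5) * L) ≤ Real.exp (1 / 10 * L) * Real.exp (2 * (2 / 5) * L) := by
            gcongr
        _ = Real.exp (1 / 10 * L + 2 * (2 / 5) * L) := by rw [Real.exp_add]
        _ ≤ _ := by
            apply Real.exp_le_exp.2
            linarith
    have e4 : (N : ℝ) * Real.exp (-L ^ β1) ≤ N :=
      mul_le_of_le_one_right hN0.le (by
        rw [Real.exp_le_one_iff]
        have : 0 ≤ L ^ β1 := by positivity
        linarith)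
    have h1 := hk1 κ (by linarith) hκ2 A N hA1 hAN (by
      have : (N : ℝ) ^ (2 * (2 / 5) : ℝ) ≤ N := by
        have h0 : 0 ≤ (N : ℝ) ^ (2 * (2 / 5) : ℝ) := by positivity
        linarith
      linarith) c lam hlc G hG E hE hEb
    refine h1.trans ?_
    have e3 : 3 * Real.exp (-L ^ β1) ≤ Real.exp (-L ^ β) := by
      have e4 : (3 : ℝ) ≤ Real.exp (L ^ β) := by
        have := Real.add_one_le_exp (L ^ β)
        linarith
      calc 3 * Real.exp (-L ^ β1) ≤ Real.exp (L ^ β) * Real.exp (-L ^ β1) := by gcongr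
        _ = Real.exp (L ^ β + -L ^ β1) := by rw [Real.exp_add]
        _ ≤ _ := by
            apply Real.exp_le_exp.2
            linarith
    have e5 : ((N - A : ℕ) : ℝ) ≤ N := by exact_mod_cast Nat.sub_le _ _
    calc ((N - A : ℕ) : ℝ) * Real.exp (-L ^ β1) + 2 * (N : ℝ) ^ (2 * (2 / 5) : ℝ) ≤
        N * Real.exp (-L ^ β1) + N * Real.exp (-L ^ β1) := by gcongr
      _ ≤ N * (3 * Real.exp (-L ^ β1)) := by
          have : 0 ≤ N * Real.exp (-L ^ β1) := by positivity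
          linarith
      _ ≤ _ := by gcongr

end Pool.Agent.J6H93.Fam
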