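import Pool.Agent.J6H93.Fam.Gm4

/-!
# Expansions in fractional powers
-/

set_option autoImplicit false

namespace Pool.Agent.J6H93.Fam

open Finset Filter Polynomial
open Pool.Agent.N586.RT (ff logpow log_ge)
open Pool.Agent.Y933.KD (e norm_e)

/-- `y(t) = ∑_{k ≤ K} φ_k t^((p - k) / q) + Re E(t)` with `E` analytic in a half plane and
`‖E(z)‖ ≤ C ‖z‖^((p - K - 1) / q)` -/
def Ex (q p K : ℕ) (R C : ℝ) (y : ℝ → ℝ) (φ : ℕ → ℝ) (E : ℂ → ℂ) : Prop :=
  DifferentiableOn ℂ E (Hp R) ∧ (∀ z ∈ Hp R, ‖E z‖ ≤ C * ‖z‖ ^ (((p : ℝ) - K - 1) / q)) ∧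
    ∀ t : ℝ, R < t → y t = ∑ k ∈ Finset.range (K + 1), φ k * t ^ (((p : ℝ) - k) / q) + (E t).re

/-- the exponent `(p - k) / q` is not a natural number -/
def NP (q p k : ℕ) : Prop := ¬ (k ≤ p ∧ q ∣ (p - k))

lemma np_ne {q p k : ℕ} (hq : 1 ≤ q) (h : NP q p k) (i : ℕ) : ((p : ℝ) - k) / q ≠ i := by
  intro h1
  apply h
  have hq0 : (0 : ℝ) < q := by exact_mod_cast hq
  rw [div_eq_iff hq0.ne'] at h1
  have h2 : (p : ℝ) = ((k + i * q : ℕ) : ℝ) := by
    push_cast
    linarith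
  have h3 : p = k + i * q := by exact_mod_cast h2
  refine ⟨by omega, ?_⟩
  rw [h3, Nat.add_sub_cancel_left]
  exact dvd_mul_left _ _

lemma np_not {q p k : ℕ} (hq : 1 ≤ q) (h : ¬ NP q p k) : ((p : ℝ) - k) / q = ((p - k) / q : ℕ) := by
  unfold NP at h
  rw [not_not] at h
  obtain ⟨h1, i, hi⟩ := h
  have hq0 : (0 : ℝ) < q := by exact_mod_cast hq
  rw [hi, Nat.mul_div_cancel_left _ (by omega)]
  rw [div_eq_iff hq0.ne', ← Nat.cast_sub h1, hi]
  push_cast
  ring

/-- combinations -/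
lemma ex_comb {r q p K : ℕ} {R C : ℝ} {y : Fin r → ℝ → ℝ} {φ : Fin r → ℕ → ℝ} {E : Fin r → ℂ → ℂ}
    (hex : ∀ j, Ex q p K R C (y j) (φ j) (E j)) (h : Fin r → ℝ) :
    Ex q p K R ((∑ j, |h j|) * C) (fun t => ∑ j, h j * y j t) (fun k => ∑ j, h j * φ j k)
      (fun z => ∑ j, (h j : ℂ) * E j z) := by
  refine ⟨?_, ?_, ?_⟩
  · exact DifferentiableOn.fun_sum fun j _ => (hex j).1.const_mul _
  · intro z hz
    refine (norm_sum_le _ _).trans ?_
    rw [mul_assoc, Finset.sum_mul]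
    refine Finset.sum_le_sum fun j _ => ?_
    rw [norm_mul, Complex.norm_real, Real.norm_eq_abs]
    exact mul_le_mul_of_nonneg_left ((hex j).2.1 z hz) (abs_nonneg _)
  · intro t ht
    have h1 : ∀ j, h j * y j t = ∑ k ∈ Finset.range (K + 1), h j * φ j k *
        t ^ (((p : ℝ) - k) / q) + h j * (E j t).re := by
      intro j
      rw [(hex j).2.2 t ht, mul_add, Finset.mul_sum]
      congr 1
      refine Finset.sum_congr rfl fun k _ => ?_
      ring
    simp only [h1]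
    rw [Finset.sum_add_distrib, Finset.sum_comm]
    congr 1
    · refine Finset.sum_congr rfl fun k _ => ?_
      rw [Finset.sum_mul]
    · rw [Complex.re_sum]
      refine Finset.sum_congr rfl fun j _ => ?_
      rw [Complex.re_ofReal_mul]

lemma Hp_norm {R : ℝ} {z : ℂ} (hz : z ∈ Hp R) : R < ‖z‖ :=
  lt_of_lt_of_le hz ((le_abs_self _).trans (Complex.abs_re_le_norm z))

lemma cpow_diff {R : ℝ} (hR : 0 ≤ R) (a : ℂ) : DifferentiableOn ℂ (fun z : ℂ => z ^ a) (Hp R) := by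
  intro z hz
  apply DifferentiableAt.differentiableWithinAt
  apply DifferentiableAt.cpow_const differentiableAt_id
  rw [Complex.mem_slitPlane_iff]
  left
  have : R < z.re := hz
  simp only [id]
  linarith

open Classical in
/-- the polynomial part, the main term and the rest -/
lemma ex_split {q p K : ℕ} {R C : ℝ} {y : ℝ → ℝ} {φ : ℕ → ℝ} {E : ℂ → ℂ} (hq : 1 ≤ q)
    (hR : 1 ≤ R) (hC : 0 ≤ C) (hex : Ex q p K R C y φ E) {k₀ : ℕ} (hk₀ : k₀ ≤ K) (hnp : NP q p k₀)
    (hz : ∀ k < k₀, NP q p k → φ k = 0) :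
    ∃ (G : ℝ[X]) (E' : ℂ → ℂ), G.natDegree ≤ p ∧ DifferentiableOn ℂ E' (Hp R) ∧
      (∀ z ∈ Hp R, ‖E' z‖ ≤ (∑ k ∈ Finset.range (K + 1), |φ k| + C) *
        ‖z‖ ^ (((p : ℝ) - k₀ - 1) / q)) ∧
      ∀ t : ℝ, R < t → y t = G.eval t + φ k₀ * t ^ (((p : ℝ) - k₀) / q) + (E' t).re := by
  have hq0 : (0 : ℝ) < q := by exact_mod_cast hq
  obtain ⟨S, hS⟩ : ∃ S : Finset ℕ, S = Finset.range (K + 1) := ⟨_, rfl⟩
  obtain ⟨T, hT⟩ : ∃ T : Finset ℕ, T = S.filter (fun k => NP q p k ∧ k₀ < k) := ⟨_, rfl⟩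
  refine ⟨∑ k ∈ S.filter (fun k => ¬ NP q p k), Polynomial.C (φ k) * X ^ ((p - k) / q),
    fun z => ∑ k ∈ T, (φ k : ℂ) * z ^ ((((p : ℝ) - k) / q : ℝ) : ℂ) + E z, ?_, ?_, ?_, ?_⟩
  · refine natDegree_sum_le_of_forall_le _ _ fun k _ => ?_
    refine (natDegree_C_mul_X_pow_le _ _).trans ?_
    exact (Nat.div_le_self _ _).trans (Nat.sub_le _ _)
  · refine DifferentiableOn.add (DifferentiableOn.fun_sum fun k _ => ?_) hex.1
    exact (cpow_diff (by linarith) _).const_mul _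
  · intro z hz'
    have hz1 : 1 < ‖z‖ := lt_of_le_of_lt hR (Hp_norm hz')
    refine (norm_add_le _ _).trans ?_
    rw [add_mul]
    refine add_le_add ?_ ?_
    · refine (norm_sum_le _ _).trans ?_
      rw [Finset.sum_mul]
      calc ∑ k ∈ T, ‖(φ k : ℂ) * z ^ ((((p : ℝ) - k) / q : ℝ) : ℂ)‖ ≤
          ∑ k ∈ T, |φ k| * ‖z‖ ^ (((p : ℝ) - k₀ - 1) / q) := by
            refine Finset.sum_le_sum fun k hk => ?_
            rw [hT, Finset.mem_filter] at hk
            rw [norm_mul, Complex.norm_real, Real.norm_eq_abs, Complex.norm_cpow_real]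
            refine mul_le_mul_of_nonneg_left ?_ (abs_nonneg _)
            apply Real.rpow_le_rpow_of_exponent_le hz1.le
            have : (k₀ : ℝ) + 1 ≤ k := by exact_mod_cast hk.2.2
            refine div_le_div_of_nonneg_right ?_ hq0.le
            linarith
        _ ≤ _ := by
            rw [hT, hS]
            exact Finset.sum_le_sum_of_subset_of_nonneg (Finset.filter_subset _ _)
              fun k _ _ => by positivity
    · refine (hex.2.1 z hz').trans (mul_le_mul_of_nonneg_left ?_ hC)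
      apply Real.rpow_le_rpow_of_exponent_le hz1.le
      have : (k₀ : ℝ) ≤ K := by exact_mod_cast hk₀
      gcongr
  · intro t ht
    have ht0 : 0 < t := by linarith
    rw [hex.2.2 t ht, ← hS, ← Finset.sum_filter_add_sum_filter_not S (fun k => ¬ NP q p k)]
    have e1 : (∑ k ∈ S.filter (fun k => ¬ NP q p k), Polynomial.C (φ k) * X ^ ((p - k) / q)).eval t =
        ∑ k ∈ S.filter (fun k => ¬ NP q p k), φ k * t ^ (((p : ℝ) - k) / q) := by
      rw [eval_finsetSum]
      refine Finset.sum_congr rfl fun k hk => ?_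
      rw [Finset.mem_filter] at hk
      rw [np_not hq hk.2, Real.rpow_natCast]
      simp
    have e2 : ∑ k ∈ S.filter (fun k => ¬ ¬ NP q p k), φ k * t ^ (((p : ℝ) - k) / q) =
        φ k₀ * t ^ (((p : ℝ) - k₀) / q) + ∑ k ∈ T, φ k * t ^ (((p : ℝ) - k) / q) := by
      have hk₀T : k₀ ∉ T := by
        rw [hT, Finset.mem_filter]
        rintro ⟨_, _, h⟩
        exact lt_irrefl _ h
      refine Eq.trans ?_ (Finset.sum_insert (f := fun k : ℕ => φ k * t ^ (((p : ℝ) - k) / q)) hk₀T)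
      symm
      apply Finset.sum_subset_zero_on_sdiff
      · intro k hk
        rw [Finset.mem_insert] at hk
        rw [Finset.mem_filter]
        rcases hk with rfl | hk
        · refine ⟨?_, not_not.2 hnp⟩
          rw [hS, Finset.mem_range]
          omega
        · rw [hT, Finset.mem_filter] at hk
          exact ⟨hk.1, not_not.2 hk.2.1⟩
      · intro k hk
        rw [Finset.mem_sdiff, Finset.mem_filter, Finset.mem_insert, not_or] at hk
        obtain ⟨⟨h1, h2⟩, h3, h4⟩ := hk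
        rw [not_not] at h2
        rw [hT, Finset.mem_filter] at h4
        have h5 : k < k₀ := by
          by_contra hcon
          exact h4 ⟨h1, h2, by omega⟩
        rw [hz k h5 h2, zero_mul]
      · intro k _
        rfl
    have e3 : (∑ k ∈ T, (φ k : ℂ) * (t : ℂ) ^ ((((p : ℝ) - k) / q : ℝ) : ℂ) + E t).re =
        ∑ k ∈ T, φ k * t ^ (((p : ℝ) - k) / q) + (E t).re := by
      rw [Complex.add_re, Complex.re_sum]
      congr 1
      refine Finset.sum_congr rfl fun k _ => ?_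
      rw [← Complex.ofReal_cpow ht0.le, ← Complex.ofReal_mul, Complex.ofReal_re]
    simp only [e3]
    rw [e1, e2]
    ring

end Pool.Agent.J6H93.Fam
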