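import Pool.Agent.J6H93.Fam.Gm5

/-!
# Expansions in fractional powers: exponential sums, uniformly in the combination
-/

set_option autoImplicit false

namespace Pool.Agent.J6H93.Fam

open Finset Filter Polynomial
open Pool.Agent.N586.RT (ff logpow log_ge)
open Pool.Agent.Y933.KD (e norm_e)

/-- for every nonzero integer combination there is a first exponent `(p - k) / q > -A₀`, not a
natural number, with a nonzero coefficient, and this coefficient is not too small -/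
def LB (q p K : ℕ) {r : ℕ} (φ : Fin r → ℕ → ℝ) (A₀ C₁ : ℝ) : Prop :=
  ∀ h : Fin r → ℤ, h ≠ 0 → ∀ W : ℝ, (∀ j, |(h j : ℝ)| ≤ W) → ∃ k ≤ K, NP q p k ∧
    0 < A₀ + ((p : ℝ) - k) / q ∧ (∀ k' < k, NP q p k' → ∑ j, (h j : ℝ) * φ j k' = 0) ∧
    (C₁ * W ^ C₁)⁻¹ ≤ |∑ j, (h j : ℝ) * φ j k|

theorem U1 {r : ℕ} (q p K : ℕ) (hq : 1 ≤ q) (R C : ℝ) (hR : 1 ≤ R) (hC : 0 ≤ C)
    (y : Fin r → ℝ → ℝ) (φ : Fin r → ℕ → ℝ) (E : Fin r → ℂ → ℂ)
    (hex : ∀ j, Ex q p K R C (y j) (φ j) (E j)) (A₀ C₁ : ℝ) (hA₀ : 0 ≤ A₀) (hC₁ : 0 < C₁)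
    (hLB : LB q p K φ A₀ C₁) (D : ℕ) (δ β : ℝ) (hδ : 0 < δ) (hβ : 0 < β) (hδβ : 2 * δ + β < 1) :
    ∃ N0 : ℕ, ∀ N : ℕ, N0 ≤ N → ∀ A : ℕ, N * Real.exp (-(Real.log N) ^ β) ≤ A → A ≤ N →
      ∀ h : Fin r → ℤ, h ≠ 0 → (∀ j, |(h j : ℝ)| ≤ Real.exp ((Real.log N) ^ β)) → ∀ lam : ℝ,
      (N : ℝ) ^ A₀ * Real.exp (-(Real.log N) ^ β) ≤ |lam| →
      |lam| ≤ Real.exp ((Real.log N) ^ (1 + δ)) → ∀ G : ℝ[X], G.natDegree ≤ D →
      ‖∑ n ∈ Finset.Ioc A N, e (lam * (G.eval (n : ℝ) + ∑ j, (h j : ℝ) * y j n))‖ ≤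
        N * Real.exp (-(Real.log N) ^ β) := by
  have hq0 : (0 : ℝ) < q := by exact_mod_cast hq
  have hall : ∀ k : ℕ, ∀ᶠ N : ℕ in atTop, NP q p k → 0 < A₀ + ((p : ℝ) - k) / q →
      (∀ κ : ℝ, (A₀ + ((p : ℝ) - k) / q) / 2 ≤ κ → κ ≤ 3 * (Real.log N) ^ δ →
      ∀ A : ℕ, N * Real.exp (-(Real.log N) ^ β) ≤ A → A ≤ N →
      ∀ (c lam : ℝ), |lam| * (|c| * (N : ℝ) ^ (((p : ℝ) - k) / q)) = (N : ℝ) ^ κ → ∀ G : ℝ[X],
      G.natDegree ≤ max D p → ∀ E : ℂ → ℂ, DifferentiableOn ℂ E (Hp R) →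
      (∀ z ∈ Hp R, ‖E z‖ ≤ |c| * (N : ℝ) ^ ((((p : ℝ) - k) / q - ((p : ℝ) - k - 1) / q) / 4) *
        ‖z‖ ^ (((p : ℝ) - k - 1) / q)) →
      ‖∑ n ∈ Finset.Ioc A N, e (lam * (G.eval (n : ℝ) + c * (n : ℝ) ^ (((p : ℝ) - k) / q) +
        (E n).re))‖ ≤ N * Real.exp (-(Real.log N) ^ β)) ∧
      (1 + C₁) * (Real.log N) ^ β + |Real.log C₁| ≤ (A₀ + ((p : ℝ) - k) / q) / 2 * Real.log N := by
    intro k
    by_cases hk : NP q p k ∧ 0 < A₀ + ((p : ℝ) - k) / q
    · obtain ⟨hk1, hk2⟩ := hk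
      obtain ⟨N0, hN0⟩ := es_all (max D p) (((p : ℝ) - k) / q) (((p : ℝ) - k - 1) / q) R
        ((A₀ + ((p : ℝ) - k) / q) / 2) δ β 3 (np_ne hq hk1)
        (div_lt_div_of_pos_right (by linarith) hq0) (by linarith) (by linarith) hδ hβ hδβ
        (by norm_num)
      filter_upwards [eventually_ge_atTop N0, logpow (by linarith : β < 1)
        ((1 + C₁ + |Real.log C₁|) / ((A₀ + ((p : ℝ) - k) / q) / 2)), logpow hβ 1] with N h1 h2 h3
      intro _ _
      refine ⟨hN0 N h1, ?_⟩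
      rw [Real.rpow_one] at h2
      rw [Real.rpow_zero, mul_one] at h3
      obtain ⟨a, ha⟩ : ∃ a : ℝ, a = (A₀ + ((p : ℝ) - k) / q) / 2 := ⟨_, rfl⟩
      have ha0 : 0 < a := by linarith
      rw [← ha] at h2 ⊢
      have e1 : (1 + C₁) * (Real.log N) ^ β + |Real.log C₁| ≤
          (1 + C₁ + |Real.log C₁|) * (Real.log N) ^ β := by
        have : |Real.log C₁| ≤ |Real.log C₁| * (Real.log N) ^ β :=
          le_mul_of_one_le_right (abs_nonneg _) h3
        linarith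
      refine e1.trans ?_
      have e2 : (1 + C₁ + |Real.log C₁|) * (Real.log N) ^ β = a *
          ((1 + C₁ + |Real.log C₁|) / a * (Real.log N) ^ β) := by
        field_simp
      rw [e2]
      gcongr
    · filter_upwards with N h1 h2
      exact absurd ⟨h1, h2⟩ hk
  obtain ⟨Φ, hΦ⟩ : ∃ Φ : ℝ, Φ = ∑ k ∈ Finset.range (K + 1), ∑ j, |φ j k| := ⟨_, rfl⟩
  have hΦ0 : 0 ≤ Φ := by rw [hΦ]; positivity
  obtain ⟨C₂, hC₂⟩ : ∃ C₂ : ℝ, C₂ = Φ + r * C + 1 := ⟨_, rfl⟩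
  have hr0 : (0 : ℝ) ≤ r := Nat.cast_nonneg _
  have hrC : 0 ≤ (r : ℝ) * C := by positivity
  have hC₂1 : 1 ≤ C₂ := by rw [hC₂]; linarith
  have hp0 : (0 : ℝ) ≤ p := Nat.cast_nonneg _
  obtain ⟨N1, hN1⟩ := eventually_atTop.1 (((Finset.eventually_all (Finset.range (K + 1))).2
    fun k _ => hall k).and ((logpow (by linarith : β < 1)
      ((1 + C₁ + Real.log C₂ + |Real.log C₁|) * (4 * q))).and
    ((log_ge 1).and ((logpow hδ (p + 2)).and ((logpow hβ 1).and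
    ((log_ge (Real.log C₂)).and ((log_ge (Real.log R * 2)).and
    (logpow (by linarith : β < 1) 2))))))))
  refine ⟨max N1 2, ?_⟩
  intro N hN A hA hAN h hh hhV lam hlam1 hlam2 G hG
  obtain ⟨c1, c2, c3, c4, c5, c6, c7, c8⟩ := hN1 N (le_of_max_le_left hN)
  have hn2 : 2 ≤ N := le_of_max_le_right hN
  have hNR : (2 : ℝ) ≤ N := by exact_mod_cast hn2
  have hN0 : (0 : ℝ) < N := by linarith
  have hN1r : (1 : ℝ) ≤ N := by linarith
  obtain ⟨L, hL⟩ : ∃ L : ℝ, L = Real.log N := ⟨_, rfl⟩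
  rw [← hL] at c1 c2 c3 c4 c5 c6 c7 c8 hA hhV hlam1 hlam2 ⊢
  rw [Real.rpow_one] at c2 c8
  rw [Real.rpow_zero, mul_one] at c4 c5
  have hL0 : 0 < L := by linarith
  have hexp : ∀ a : ℝ, (N : ℝ) ^ a = Real.exp (a * L) := by
    intro a
    rw [Real.rpow_def_of_pos hN0, hL, mul_comm]
  obtain ⟨v, hv⟩ : ∃ v : ℝ, v = L ^ β := ⟨_, rfl⟩
  rw [← hv] at c1 c2 c5 c8 hA hhV hlam1 ⊢
  obtain ⟨k, hkK, hnp, hpos, hzero, hlow⟩ := hLB h hh _ hhV
  obtain ⟨d1, d2⟩ := c1 k (Finset.mem_range.2 (by omega)) hnp hpos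
  have hcomb := ex_comb hex (fun j => (h j : ℝ))
  have habs : ∀ j, |(h j : ℝ)| ≤ Real.exp v := hhV
  have hsumabs : ∑ j, |(h j : ℝ)| ≤ r * Real.exp v := by
    calc ∑ j, |(h j : ℝ)| ≤ ∑ _j : Fin r, Real.exp v := Finset.sum_le_sum fun j _ => habs j
      _ = _ := by rw [sum_const, card_univ, Fintype.card_fin, nsmul_eq_mul]
  obtain ⟨G', E', hG', hE', hEb', hy⟩ := ex_split hq hR
    (mul_nonneg (Finset.sum_nonneg fun j _ => abs_nonneg _) hC) hcomb hkK hnp hzero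
  obtain ⟨c, hc⟩ : ∃ c : ℝ, c = ∑ j, (h j : ℝ) * φ j k := ⟨_, rfl⟩
  rw [← hc] at hlow
  simp only [← hc] at hy
  -- the constants
  have hS : ∑ k ∈ Finset.range (K + 1), |∑ j, (h j : ℝ) * φ j k| ≤ Real.exp v * Φ := by
    rw [hΦ, Finset.mul_sum]
    refine Finset.sum_le_sum fun k _ => ?_
    refine (Finset.abs_sum_le_sum_abs _ _).trans ?_
    rw [Finset.mul_sum]
    refine Finset.sum_le_sum fun j _ => ?_
    rw [abs_mul]
    exact mul_le_mul_of_nonneg_right (habs j) (abs_nonneg _)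
  have hcE : ∑ k ∈ Finset.range (K + 1), |∑ j, (h j : ℝ) * φ j k| + (∑ j, |(h j : ℝ)|) * C ≤
      Real.exp v * C₂ := by
    have e1 : (∑ j, |(h j : ℝ)|) * C ≤ r * Real.exp v * C := by gcongr
    have e2 : Real.exp v * C₂ = Real.exp v * Φ + r * Real.exp v * C + Real.exp v := by
      rw [hC₂]
      ring
    have e3 := Real.exp_pos v
    linarith
  have hcup : |c| ≤ Real.exp v * C₂ := by
    have e1 : |c| ≤ ∑ k ∈ Finset.range (K + 1), |∑ j, (h j : ℝ) * φ j k| := by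
      rw [hc]
      exact Finset.single_le_sum (f := fun k => |∑ j, (h j : ℝ) * φ j k|)
        (fun k _ => abs_nonneg _) (Finset.mem_range.2 (by omega : k < K + 1))
    have e2 : 0 ≤ (∑ j, |(h j : ℝ)|) * C := by positivity
    linarith
  have hclow : Real.exp (-(|Real.log C₁| + C₁ * v)) ≤ |c| := by
    refine le_trans ?_ hlow
    rw [Real.exp_neg]
    have e1 : C₁ * (Real.exp v) ^ C₁ ≤ Real.exp (|Real.log C₁| + C₁ * v) := by
      rw [← Real.exp_mul, Real.exp_add, mul_comm v]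
      refine mul_le_mul_of_nonneg_right ?_ (Real.exp_pos _).le
      calc C₁ = Real.exp (Real.log C₁) := (Real.exp_log hC₁).symm
        _ ≤ _ := Real.exp_le_exp.2 (le_abs_self _)
    have e2 : 0 < C₁ * (Real.exp v) ^ C₁ := by positivity
    gcongr
  have hc0 : 0 < |c| := lt_of_lt_of_le (Real.exp_pos _) hclow
  have hlam0 : 0 < |lam| := lt_of_lt_of_le (by positivity) hlam1
  obtain ⟨θ, hθ⟩ : ∃ θ : ℝ, θ = ((p : ℝ) - k) / q := ⟨_, rfl⟩
  rw [← hθ] at d1 d2 hpos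
  obtain ⟨κ, hκ⟩ : ∃ κ : ℝ, κ = (Real.log |lam| + Real.log |c|) / L + θ := ⟨_, rfl⟩
  have hκL : κ * L = Real.log |lam| + Real.log |c| + θ * L := by
    rw [hκ, add_mul, div_mul_cancel₀ _ hL0.ne']
  have hlogc1 : -(|Real.log C₁| + C₁ * v) ≤ Real.log |c| := by
    rw [Real.le_log_iff_exp_le hc0]
    exact hclow
  have hlogc2 : Real.log |c| ≤ v + Real.log C₂ := by
    rw [Real.log_le_iff_le_exp hc0, Real.exp_add, Real.exp_log (by linarith)]
    exact hcup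
  have hlogl1 : A₀ * L - v ≤ Real.log |lam| := by
    rw [Real.le_log_iff_exp_le hlam0, sub_eq_add_neg, Real.exp_add, ← hexp]
    exact hlam1
  have hlogl2 : Real.log |lam| ≤ L ^ (1 + δ) := by
    rw [Real.log_le_iff_le_exp hlam0]
    exact hlam2
  have hθp : θ ≤ p := by
    rw [hθ]
    have hk0 : (0 : ℝ) ≤ k := Nat.cast_nonneg _
    rw [div_le_iff₀ hq0]
    have hq1 : (1 : ℝ) ≤ q := by exact_mod_cast hq
    nlinarith
  have key := d1 κ
    (by
      have e1 : (A₀ + θ) / 2 * L ≤ κ * L := by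
        rw [hκL]
        linarith
      exact le_of_mul_le_mul_right e1 hL0)
    (by
      have e1 : κ * L ≤ 3 * L ^ δ * L := by
        rw [hκL]
        have e2 : L ^ δ * L = L ^ (1 + δ) := by
          rw [add_comm, Real.rpow_add hL0, Real.rpow_one]
        have e3 : ((p : ℝ) + 2) * L ≤ L ^ δ * L := by gcongr
        have e4 : θ * L ≤ p * L := by gcongr
        have e5 : 0 ≤ L ^ δ * L := by positivity
        have e6 : 3 * L ^ δ * L = 3 * (L ^ δ * L) := by ring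
        rw [e6]
        rw [← e2] at hlogl2
        linarith
      exact le_of_mul_le_mul_right e1 hL0)
    A hA hAN c lam
    (by
      rw [hexp κ, hκL, Real.exp_add, Real.exp_add, Real.exp_log hlam0, Real.exp_log hc0, ← hexp]
      ring)
    (G + G') ((natDegree_add_le _ _).trans (max_le_max hG hG')) E' hE'
    (by
      intro z hz
      refine (hEb' z hz).trans (mul_le_mul_of_nonneg_right (hcE.trans ?_) (by positivity))
      have e0 : (θ - ((p : ℝ) - k - 1) / q) / 4 = 1 / (4 * q) := by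
        rw [hθ]
        field_simp
        ring
      rw [e0, hexp]
      calc Real.exp v * C₂ = Real.exp (v + Real.log C₂) := by
            rw [Real.exp_add, Real.exp_log (by linarith)]
        _ ≤ Real.exp (-(|Real.log C₁| + C₁ * v) + 1 / (4 * q) * L) := by
            apply Real.exp_le_exp.2
            have e1 : (1 + C₁ + Real.log C₂ + |Real.log C₁|) * v ≤ 1 / (4 * q) * L := by
              have e2 : (1 + C₁ + Real.log C₂ + |Real.log C₁|) * v = 1 / (4 * q) *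
                  ((1 + C₁ + Real.log C₂ + |Real.log C₁|) * (4 * q) * v) := by
                field_simp
              rw [e2]
              gcongr
            have e3 : Real.log C₂ ≤ Real.log C₂ * v :=
              le_mul_of_one_le_right (Real.log_nonneg hC₂1) c5
            have e4 : |Real.log C₁| ≤ |Real.log C₁| * v :=
              le_mul_of_one_le_right (abs_nonneg _) c5
            linarith
        _ = Real.exp (-(|Real.log C₁| + C₁ * v)) * Real.exp (1 / (4 * q) * L) := Real.exp_add _ _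
        _ ≤ _ := by gcongr)
  refine le_trans (le_of_eq ?_) key
  congr 1
  refine Finset.sum_congr rfl fun n hn => ?_
  rw [Finset.mem_Ioc] at hn
  have hnR : R < (n : ℝ) := by
    have e1 : (A : ℝ) < n := by exact_mod_cast hn.1
    refine lt_of_le_of_lt ?_ e1
    refine le_trans ?_ hA
    have e2 : (N : ℝ) = Real.exp L := by rw [hL, Real.exp_log hN0]
    rw [e2, ← Real.exp_add]
    calc R = Real.exp (Real.log R) := (Real.exp_log (by linarith)).symm
      _ ≤ _ := by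
        apply Real.exp_le_exp.2
        linarith
  have := hy n hnR
  congr 1
  rw [this, eval_add, hθ]
  push_cast
  ring

end Pool.Agent.J6H93.Fam
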