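import Pool.Agent.J6H93.Fam.Al4
import Pool.Agent.J6H30.PV.JCrit

/-!
# Values of algebraic functions: joint randomness in all bases
-/

set_option autoImplicit false

namespace Pool.Agent.J6H93.Fam

open Finset Filter Topology Polynomial
open Pool.Agent.N586.RT (logpow log_ge)
open Pool.Agent.R485.Mult (sg abs_sg)
open Pool.Agent.J6H30.PV (GoodJ asum criterionJ)

/-- no real polynomial is at a bounded distance from the function -/
def Unb (f : ℝ → ℝ) : Prop :=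
  ∀ (P : ℝ[X]) (C : ℝ), ¬ ∀ᶠ t : ℝ in atTop, |f t - P.eval t| ≤ C

open Classical in
/-- a leading coefficient with a positive exponent which is not a natural number -/
lemma unb_lead {q p : ℕ} (hq : 1 ≤ q) {R C : ℝ} (hR : 1 ≤ R) (hC : 0 ≤ C) {f : ℝ → ℝ} {φ : ℕ → ℝ}
    {E : ℂ → ℂ} (hex : Ex q p p R C f φ E) (hunb : Unb f) :
    ∃ k ≤ p, NP q p k ∧ 0 < ((p : ℝ) - k) / q ∧ φ k ≠ 0 := by
  by_contra hcon
  push Not at hcon
  have hq0 : (0 : ℝ) < q := by exact_mod_cast hq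
  apply hunb (∑ k ∈ (Finset.range (p + 1)).filter (fun k => ¬ NP q p k),
    Polynomial.C (φ k) * X ^ ((p - k) / q)) (∑ k ∈ Finset.range (p + 1), |φ k| + C)
  filter_upwards [eventually_gt_atTop R] with t ht
  have ht1 : 1 ≤ t := by linarith
  have ht0 : 0 < t := by linarith
  rw [hex.2.2 t ht, eval_finsetSum, Finset.sum_filter]
  have e1 : ∑ k ∈ Finset.range (p + 1), φ k * t ^ (((p : ℝ) - k) / q) + (E t).re -
      ∑ k ∈ Finset.range (p + 1), (if ¬ NP q p k then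
        (Polynomial.C (φ k) * X ^ ((p - k) / q)).eval t else 0) =
      ∑ k ∈ Finset.range (p + 1), (if NP q p k then φ k * t ^ (((p : ℝ) - k) / q) else 0) +
        (E t).re := by
    rw [add_sub_right_comm, ← Finset.sum_sub_distrib]
    congr 1
    refine Finset.sum_congr rfl fun k _ => ?_
    by_cases hk : NP q p k
    · rw [if_neg (not_not.2 hk), if_pos hk, sub_zero]
    · rw [if_pos hk, if_neg hk, eval_mul, eval_C, eval_pow, eval_X, np_not hq hk,
        Real.rpow_natCast, sub_self]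
  rw [e1]
  refine (abs_add_le _ _).trans (add_le_add ?_ ?_)
  · refine (Finset.abs_sum_le_sum_abs _ _).trans (Finset.sum_le_sum fun k hk => ?_)
    split_ifs with hnp
    · rcases lt_or_ge 0 (((p : ℝ) - k) / q) with h | h
      · have := hcon k (by have := Finset.mem_range.1 hk; omega) hnp h
        rw [this, zero_mul, abs_zero]
      · rw [abs_mul, abs_of_nonneg (Real.rpow_nonneg ht0.le _)]
        exact mul_le_of_le_one_right (abs_nonneg _) (Real.rpow_le_one_of_one_le_of_nonpos ht1 h)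
    · rw [abs_zero]
      exact abs_nonneg _
  · have h1 : (t : ℂ) ∈ Hp R := by
      show R < (t : ℂ).re
      rw [Complex.ofReal_re]
      exact ht
    have h2 := hex.2.1 _ h1
    rw [Complex.norm_real, Real.norm_eq_abs, abs_of_pos ht0] at h2
    refine (Complex.abs_re_le_norm _).trans (h2.trans ?_)
    refine mul_le_of_le_one_right hC (Real.rpow_le_one_of_one_le_of_nonpos ht1 ?_)
    apply div_nonpos_of_nonpos_of_nonneg _ hq0.le
    linarith

/-- one function: the lower bound -/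
lemma unb_lb {q p : ℕ} (hq : 1 ≤ q) {R C : ℝ} (hR : 1 ≤ R) (hC : 0 ≤ C) {f : ℝ → ℝ} {φ : ℕ → ℝ}
    {E : ℂ → ℂ} (hex : Ex q p p R C f φ E) (hunb : Unb f) :
    ∃ C₁ : ℝ, 0 < C₁ ∧ LB q p p (fun _ : Fin 1 => φ) 0 C₁ := by
  classical
  have hq0 : (0 : ℝ) < q := by exact_mod_cast hq
  have hlead : ∃ k, k ≤ p ∧ NP q p k ∧ φ k ≠ 0 := by
    obtain ⟨k, h1, h2, _, h4⟩ := unb_lead hq hR hC hex hunb
    exact ⟨k, h1, h2, h4⟩
  obtain ⟨k₁, hk₁, hnp₁, hpos₁, hne₁⟩ := unb_lead hq hR hC hex hunb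
  obtain ⟨k, hkd⟩ : ∃ k, k = Nat.find hlead := ⟨_, rfl⟩
  obtain ⟨hkp, hnp, hne⟩ := Nat.find_spec hlead
  rw [← hkd] at hkp hnp hne
  have hmin : ∀ k' < k, NP q p k' → φ k' = 0 := by
    intro k' hk' hnp'
    by_contra h
    rw [hkd] at hk'
    exact Nat.find_min hlead hk' ⟨by omega, hnp', h⟩
  have hkk : k ≤ k₁ := by
    rw [hkd]
    exact Nat.find_min' hlead ⟨hk₁, hnp₁, hne₁⟩
  refine ⟨max 1 |φ k|⁻¹, by positivity, ?_⟩
  intro h hh W hW
  have hh0 : h 0 ≠ 0 := by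
    intro h0
    apply hh
    funext j
    rw [Subsingleton.elim j 0, h0]
    rfl
  have hh1 : (1 : ℝ) ≤ |(h 0 : ℝ)| := by
    have := Int.one_le_abs hh0
    exact_mod_cast this
  have hW1 : 1 ≤ W := hh1.trans (hW 0)
  refine ⟨k, hkp, hnp, ?_, ?_, ?_⟩
  · rw [zero_add]
    refine lt_of_lt_of_le hpos₁ (div_le_div_of_nonneg_right ?_ hq0.le)
    have : (k : ℝ) ≤ k₁ := by exact_mod_cast hkk
    linarith
  · intro k' hk' hnp'
    rw [Fin.sum_univ_one]
    show (h 0 : ℝ) * φ k' = 0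
    rw [hmin k' hk' hnp', mul_zero]
  · rw [Fin.sum_univ_one, abs_mul]
    have h1 : |φ k|⁻¹ ≤ max 1 |φ k|⁻¹ * W ^ (max 1 |φ k|⁻¹) := by
      have h2 : 1 ≤ W ^ (max 1 |φ k|⁻¹) := Real.one_le_rpow hW1 (by positivity)
      calc |φ k|⁻¹ ≤ max 1 |φ k|⁻¹ := le_max_right _ _
        _ ≤ _ := le_mul_of_one_le_right (by positivity) h2
    have h3 : 0 < |φ k| := abs_pos.2 hne
    calc (max 1 |φ k|⁻¹ * W ^ (max 1 |φ k|⁻¹))⁻¹ ≤ (|φ k|⁻¹)⁻¹ := inv_anti₀ (by positivity) h1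
      _ = |φ k| := inv_inv _
      _ ≤ _ := le_mul_of_one_le_left h3.le hh1

/-- sums of powers are not too large -/
lemma asum_le {m : ℕ} (b s : Fin m → ℕ) (B N : ℕ) (hB1 : 1 ≤ B) (hB : ∀ l, b l ≤ B)
    (hs : ∀ l, s l ≤ N)
    (h : Fin m → ℤ) (hh : ∀ l, |h l| ≤ N) (i : ℕ) (hi : i ≤ N) :
    |((asum b s h i : ℤ) : ℝ)| ≤ m * N * (B : ℝ) ^ (2 * N) := by
  unfold asum
  push_cast
  refine (Finset.abs_sum_le_sum_abs _ _).trans ?_
  have hBR : (1 : ℝ) ≤ B := by exact_mod_cast hB1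
  calc ∑ l, |(h l : ℝ) * (b l : ℝ) ^ (s l + i)| ≤ ∑ _l : Fin m, (N : ℝ) * (B : ℝ) ^ (2 * N) := by
        refine Finset.sum_le_sum fun l _ => ?_
        rw [abs_mul, abs_of_nonneg (by positivity : (0 : ℝ) ≤ (b l : ℝ) ^ (s l + i))]
        have h1 : |(h l : ℝ)| ≤ N := by
          have := hh l
          exact_mod_cast this
        have h2 : (b l : ℝ) ^ (s l + i) ≤ (B : ℝ) ^ (2 * N) := by
          calc (b l : ℝ) ^ (s l + i) ≤ (B : ℝ) ^ (s l + i) := by
                have : (b l : ℝ) ≤ B := by exact_mod_cast hB l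
                gcongr
            _ ≤ _ := pow_le_pow_right₀ hBR (by have := hs l; omega)
        gcongr
    _ = _ := by
        rw [Finset.sum_const, Finset.card_univ, Fintype.card_fin, nsmul_eq_mul]
        ring

lemma ssum_le {m σ : ℕ} (b s : Fin m → ℕ) (B N : ℕ) (hB1 : 1 ≤ B) (hB : ∀ l, b l ≤ B)
    (hs : ∀ l, s l ≤ N)
    (h : Fin m → ℤ) (hh : ∀ l, |h l| ≤ N) (p : Fin (2 * σ) → ℕ) (hp : ∀ t, p t ≤ N) :
    |((∑ t : Fin (2 * σ), sg t * asum b s h (p t) : ℤ) : ℝ)| ≤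
      2 * σ * (m * N * (B : ℝ) ^ (2 * N)) := by
  push_cast
  refine (Finset.abs_sum_le_sum_abs _ _).trans ?_
  calc ∑ t : Fin (2 * σ), |((sg (t : ℕ) : ℤ) : ℝ) * (asum b s h (p t) : ℝ)| ≤
      ∑ _t : Fin (2 * σ), (m : ℝ) * N * (B : ℝ) ^ (2 * N) := by
        refine Finset.sum_le_sum fun t _ => ?_
        rw [abs_mul]
        have h1 : |((sg (t : ℕ) : ℤ) : ℝ)| = 1 := by
          have := abs_sg (t : ℕ)
          have h2 : ((|sg (t : ℕ)| : ℤ) : ℝ) = 1 := by rw [this]; simp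
          rw [← h2]
          push_cast
          rfl
        rw [h1, one_mul]
        exact asum_le b s B N hB1 hB hs h hh _ (hp t)
    _ = _ := by
        rw [Finset.sum_const, Finset.card_univ, Fintype.card_fin, nsmul_eq_mul]
        push_cast
        ring

end Pool.Agent.J6H93.Fam
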