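import Mathlib

/-!
# Factorisation of polynomials with analytic coefficients
-/

set_option autoImplicit false

namespace Pool.Agent.J6H93.Fam

open Finset Filter Topology Polynomial

/-- the polynomial of degree less than `n` with the given coefficients -/
noncomputable def lp (n : ℕ) (a : Fin n → ℂ) : ℂ[X] := ∑ i : Fin n, C (a i) * X ^ (i : ℕ)

/-- the monic polynomial of degree `n` with the given lower coefficients -/
noncomputable def mp (n : ℕ) (a : Fin n → ℂ) : ℂ[X] := X ^ n + lp n a

lemma lp_coeff (n : ℕ) (a : Fin n → ℂ) (j : ℕ) :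
    (lp n a).coeff j = if h : j < n then a ⟨j, h⟩ else 0 := by
  unfold lp
  rw [finsetSum_coeff]
  simp only [coeff_C_mul, coeff_X_pow]
  split_ifs with h
  · rw [Finset.sum_eq_single ⟨j, h⟩]
    · simp
    · intro b _ hb
      rw [if_neg, mul_zero]
      intro h2
      exact hb (Fin.ext h2.symm)
    · intro h2
      exact absurd (mem_univ _) h2
  · apply Finset.sum_eq_zero
    intro i _
    rw [if_neg, mul_zero]
    intro h2
    have := i.2
    omega

lemma lp_degree (n : ℕ) (a : Fin n → ℂ) : (lp n a).degree < n := by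
  rw [degree_lt_iff_coeff_zero]
  intro j hj
  rw [lp_coeff, dif_neg (by omega)]

lemma lp_add (n : ℕ) (a b : Fin n → ℂ) : lp n (a + b) = lp n a + lp n b := by
  unfold lp
  rw [← Finset.sum_add_distrib]
  refine Finset.sum_congr rfl fun i _ => ?_
  rw [Pi.add_apply, C_add, add_mul]

lemma lp_smul (n : ℕ) (t : ℂ) (a : Fin n → ℂ) : lp n (t • a) = C t * lp n a := by
  unfold lp
  rw [Finset.mul_sum]
  refine Finset.sum_congr rfl fun i _ => ?_
  rw [Pi.smul_apply, smul_eq_mul, C_mul, mul_assoc]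

lemma lp_eq_zero {n : ℕ} {a : Fin n → ℂ} (h : lp n a = 0) : a = 0 := by
  funext i
  have := congrArg (fun p => p.coeff (i : ℕ)) h
  simp only [lp_coeff, coeff_zero] at this
  rw [dif_pos i.2] at this
  exact this

lemma mp_monic (n : ℕ) (a : Fin n → ℂ) : (mp n a).Monic := monic_X_pow_add (lp_degree n a)

lemma mp_natDegree (n : ℕ) (a : Fin n → ℂ) : (mp n a).natDegree = n := by
  unfold mp
  rw [natDegree_add_eq_left_of_degree_lt, natDegree_X_pow]
  rw [degree_X_pow]
  exact lp_degree n a

lemma mp_coeff (n : ℕ) (a : Fin n → ℂ) (j : ℕ) :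
    (mp n a).coeff j = (if j = n then 1 else 0) + ∑ i : Fin n, a i * (if j = (i : ℕ) then 1 else 0) := by
  unfold mp lp
  rw [coeff_add, coeff_X_pow, finsetSum_coeff]
  congr 1
  refine Finset.sum_congr rfl fun i _ => ?_
  rw [coeff_C_mul, coeff_X_pow]

/-- a monic polynomial is determined by the lower coefficients -/
lemma eq_mp {p : ℂ[X]} {n : ℕ} (hm : p.Monic) (hn : p.natDegree = n) {a : Fin n → ℂ}
    (ha : ∀ i : Fin n, p.coeff i = a i) : p = mp n a := by
  ext j
  rcases lt_trichotomy j n with h | h | h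
  · have := ha ⟨j, h⟩
    simp only at this
    rw [this]
    unfold mp
    rw [coeff_add, coeff_X_pow, if_neg (by omega), lp_coeff, dif_pos h, zero_add]
  · subst h
    have h1 : p.coeff j = 1 := by
      rw [← hn]
      exact hm
    unfold mp
    rw [h1, coeff_add, coeff_X_pow, if_pos rfl, lp_coeff, dif_neg (by omega), add_zero]
  · rw [coeff_eq_zero_of_natDegree_lt (by omega)]
    unfold mp
    rw [coeff_add, coeff_X_pow, if_neg (by omega), lp_coeff, dif_neg (by omega), add_zero]

/-- multiplication of monic polynomials -/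
noncomputable def FF (k m : ℕ) (p : (Fin k → ℂ) × (Fin m → ℂ)) : Fin (k + m) → ℂ :=
  fun i => (mp k p.1 * mp m p.2).coeff i

lemma FF_contDiff (k m : ℕ) : ContDiff ℂ ⊤ (FF k m) := by
  rw [contDiff_pi]
  intro i
  unfold FF
  simp only [coeff_mul, mp_coeff]
  fun_prop

lemma FF_inj {k m : ℕ} {a : Fin k → ℂ} {b : Fin m → ℂ} (hco : IsCoprime (mp k a) (mp m b))
    {D : ((Fin k → ℂ) × (Fin m → ℂ)) →L[ℂ] (Fin (k + m) → ℂ)} (hD : HasFDerivAt (FF k m) D (a, b)) :
    Function.Injective D := by
  rw [injective_iff_map_eq_zero]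
  rintro ⟨α, β⟩ h0
  have h1 := hD.hasLineDerivAt (α, β)
  have h2 : ∀ i : Fin (k + m), (lp k α * mp m b + mp k a * lp m β).coeff i = 0 := by
    intro i
    have h3 : HasDerivAt (fun t : ℂ => FF k m ((a, b) + t • (α, β)) i) (D (α, β) i) 0 :=
      (hasDerivAt_pi.1 h1) i
    have h4 : ∀ t : ℂ, FF k m ((a, b) + t • (α, β)) i = (mp k a * mp m b).coeff i +
        t * (lp k α * mp m b + mp k a * lp m β).coeff i + t ^ 2 * (lp k α * lp m β).coeff i := by
      intro t
      have e1 : mp k (a + t • α) = mp k a + C t * lp k α := by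
        unfold mp
        rw [lp_add, lp_smul]
        ring
      have e2 : mp m (b + t • β) = mp m b + C t * lp m β := by
        unfold mp
        rw [lp_add, lp_smul]
        ring
      show (mp k (a + t • α) * mp m (b + t • β)).coeff i = _
      rw [e1, e2]
      have e3 : (mp k a + C t * lp k α) * (mp m b + C t * lp m β) = mp k a * mp m b +
          C t * (lp k α * mp m b + mp k a * lp m β) + C (t ^ 2) * (lp k α * lp m β) := by
        rw [C_pow]
        ring
      rw [e3, coeff_add, coeff_add, coeff_C_mul, coeff_C_mul]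
    simp only [h4] at h3
    have h5 : HasDerivAt (fun t : ℂ => (mp k a * mp m b).coeff i +
        t * (lp k α * mp m b + mp k a * lp m β).coeff i + t ^ 2 * (lp k α * lp m β).coeff i)
        ((lp k α * mp m b + mp k a * lp m β).coeff i) 0 := by
      have h6 := (((hasDerivAt_id (0 : ℂ)).mul_const
        ((lp k α * mp m b + mp k a * lp m β).coeff i)).const_add ((mp k a * mp m b).coeff i)).add
        (((hasDerivAt_id (0 : ℂ)).pow 2).mul_const ((lp k α * lp m β).coeff i))
      refine h6.congr_deriv ?_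
      simp
    rw [h3.unique h5 |>.symm, h0]
    rfl
  have h7 : lp k α * mp m b + mp k a * lp m β = 0 := by
    ext j
    rcases lt_or_ge j (k + m) with h | h
    · exact h2 ⟨j, h⟩
    · have hd1 : (lp k α * mp m b).degree < ((k + m : ℕ) : WithBot ℕ) := by
        rw [degree_mul, degree_eq_natDegree (mp_monic m b).ne_zero, mp_natDegree]
        push_cast
        exact WithBot.add_lt_add_right (WithBot.natCast_ne_bot m) (lp_degree k α)
      have hd2 : (mp k a * lp m β).degree < ((k + m : ℕ) : WithBot ℕ) := by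
        rw [degree_mul, degree_eq_natDegree (mp_monic k a).ne_zero, mp_natDegree]
        push_cast
        exact WithBot.add_lt_add_left (WithBot.natCast_ne_bot k) (lp_degree m β)
      have hd3 := lt_of_le_of_lt (degree_add_le _ _) (max_lt hd1 hd2)
      rw [coeff_zero]
      exact (degree_lt_iff_coeff_zero _ _).1 hd3 j h
  have h8 : lp k α = 0 := by
    have h9 : mp k a ∣ lp k α * mp m b := by
      refine ⟨-lp m β, ?_⟩
      linear_combination h7
    have h10 := hco.dvd_of_dvd_mul_right h9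
    refine eq_zero_of_dvd_of_degree_lt h10 ?_
    rw [degree_eq_natDegree (mp_monic k a).ne_zero, mp_natDegree]
    exact lp_degree k α
  have h11 : lp m β = 0 := by
    rw [h8, zero_mul, zero_add] at h7
    exact (mul_eq_zero.1 h7).resolve_left (mp_monic k a).ne_zero
  rw [Prod.mk_eq_zero]
  exact ⟨lp_eq_zero h8, lp_eq_zero h11⟩

/-- **factorisation** -/
theorem hensel {k m : ℕ} {c : ℂ → Fin (k + m) → ℂ} (hc : AnalyticAt ℂ c 0) {a : Fin k → ℂ}
    {b : Fin m → ℂ} (hco : IsCoprime (mp k a) (mp m b)) (h0 : mp (k + m) (c 0) = mp k a * mp m b) :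
    ∃ (A : ℂ → Fin k → ℂ) (B : ℂ → Fin m → ℂ), AnalyticAt ℂ A 0 ∧ AnalyticAt ℂ B 0 ∧ A 0 = a ∧
      B 0 = b ∧ ∀ᶠ σ in 𝓝 (0 : ℂ), mp (k + m) (c σ) = mp k (A σ) * mp m (B σ) := by
  have hF : ContDiffAt ℂ ⊤ (FF k m) (a, b) := (FF_contDiff k m).contDiffAt
  have htop : (⊤ : WithTop ℕ∞) ≠ 0 := by simp
  obtain ⟨D, hD⟩ : ∃ D, HasFDerivAt (FF k m) D (a, b) :=
    ⟨_, (hF.differentiableAt htop).hasFDerivAt⟩
  have hinj := FF_inj hco hD
  have hdim : Module.finrank ℂ ((Fin k → ℂ) × (Fin m → ℂ)) = Module.finrank ℂ (Fin (k + m) → ℂ) := by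
    simp
  let e : ((Fin k → ℂ) × (Fin m → ℂ)) ≃L[ℂ] (Fin (k + m) → ℂ) :=
    (LinearMap.linearEquivOfInjective (D : ((Fin k → ℂ) × (Fin m → ℂ)) →ₗ[ℂ] (Fin (k + m) → ℂ))
      hinj hdim).toContinuousLinearEquiv
  have he : (e : ((Fin k → ℂ) × (Fin m → ℂ)) →L[ℂ] (Fin (k + m) → ℂ)) = D := by
    ext x <;> rfl
  rw [← he] at hD
  have hc0 : c 0 = FF k m (a, b) := by
    funext i
    show c 0 i = (mp k a * mp m b).coeff i
    rw [← h0]
    unfold mp
    rw [coeff_add, coeff_X_pow, if_neg (by have := i.2; omega), lp_coeff, dif_pos i.2, zero_add]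
  have hinv := hF.to_localInverse hD htop
  have hinv2 : AnalyticAt ℂ (hF.localInverse hD htop) (c 0) := by
    rw [hc0]
    exact hinv.analyticAt
  have hcomp : AnalyticAt ℂ (fun σ => hF.localInverse hD htop (c σ)) 0 := hinv2.comp hc
  have hr := (hF.hasStrictFDerivAt' hD htop).eventually_right_inverse
  rw [← hc0] at hr
  have hr2 := hc.continuousAt.eventually hr
  refine ⟨fun σ => (hF.localInverse hD htop (c σ)).1, fun σ => (hF.localInverse hD htop (c σ)).2,
    ?_, ?_, ?_, ?_, ?_⟩
  · exact (ContinuousLinearMap.fst ℂ (Fin k → ℂ) (Fin m → ℂ)).analyticAt _ |>.comp hcomp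
  · exact (ContinuousLinearMap.snd ℂ (Fin k → ℂ) (Fin m → ℂ)).analyticAt _ |>.comp hcomp
  · simp only [hc0, hF.localInverse_apply_image hD htop]
  · simp only [hc0, hF.localInverse_apply_image hD htop]
  · filter_upwards [hr2] with σ hσ
    symm
    refine eq_mp ((mp_monic _ _).mul (mp_monic _ _)) ?_ fun i => ?_
    · rw [(mp_monic _ _).natDegree_mul (mp_monic _ _), mp_natDegree, mp_natDegree]
    · exact congrFun hσ i

end Pool.Agent.J6H93.Fam
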