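import Pool.Agent.J6H93.Fam.Pz1

/-!
# The theorem of Newton and Puiseux for continuous branches
-/

set_option autoImplicit false

namespace Pool.Agent.J6H93.Fam

open Finset Filter Topology Polynomial

/-- the polynomial with coefficients indexed by the natural numbers -/
noncomputable def mq (n : ℕ) (a : ℕ → ℂ) : ℂ[X] := mp n (fun i => a i)

lemma mq_eval (n : ℕ) (a : ℕ → ℂ) (z : ℂ) :
    (mq n a).eval z = z ^ n + ∑ i ∈ Finset.range n, a i * z ^ i := by
  unfold mq mp lp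
  rw [eval_add, eval_pow, eval_X, eval_finsetSum, Finset.sum_range]
  simp

lemma mq_expand (n : ℕ) (a : ℕ → ℂ) : mq n a = X ^ n + ∑ i ∈ Finset.range n, C (a i) * X ^ i := by
  unfold mq mp lp
  rw [Finset.sum_range]

lemma mq_coeff_lt {n : ℕ} {a : ℕ → ℂ} {i : ℕ} (hi : i < n) : (mq n a).coeff i = a i := by
  unfold mq mp
  rw [coeff_add, coeff_X_pow, if_neg (by omega), lp_coeff, dif_pos hi, zero_add]

lemma eq_mq {p : ℂ[X]} {n : ℕ} (hm : p.Monic) (hn : p.natDegree = n) {a : ℕ → ℂ}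
    (ha : ∀ i < n, p.coeff i = a i) : p = mq n a :=
  eq_mp hm hn fun i => ha i i.2

lemma X_sub_C_pow_coeff (c : ℂ) (i j : ℕ) :
    ((X - C c) ^ i).coeff j = (-c) ^ (i - j) * (i.choose j : ℂ) := by
  have : (X - C c : ℂ[X]) = X + C (-c) := by rw [C_neg]; ring
  rw [this, coeff_X_add_C_pow]

/-- the shift of Tschirnhaus -/
lemma tsch (n : ℕ) (hn : 1 ≤ n) {a : ℕ → ℂ → ℂ} (ha : ∀ i, AnalyticAt ℂ (a i) 0) {c : ℂ → ℂ}
    (hc : AnalyticAt ℂ c 0) : ∃ a' : ℕ → ℂ → ℂ, (∀ i, AnalyticAt ℂ (a' i) 0) ∧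
      (∀ s, a' (n - 1) s = a (n - 1) s - n * c s) ∧
      ∀ s z, (mq n (fun i => a' i s)).eval z = (mq n (fun i => a i s)).eval (z - c s) := by
  have hcoef : ∀ (s : ℂ) (j : ℕ), ((mq n (fun i => a i s)).comp (X - C (c s))).coeff j =
      (-(c s)) ^ (n - j) * (n.choose j : ℂ) + ∑ i ∈ Finset.range n, a i s *
        ((-(c s)) ^ (i - j) * (i.choose j : ℂ)) := by
    intro s j
    rw [mq_expand, add_comp, X_pow_comp, Polynomial.sum_comp, coeff_add, finsetSum_coeff,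
      X_sub_C_pow_coeff]
    congr 1
    refine Finset.sum_congr rfl fun i _ => ?_
    rw [C_mul_comp, X_pow_comp, coeff_C_mul, X_sub_C_pow_coeff]
  refine ⟨fun j s => ((mq n (fun i => a i s)).comp (X - C (c s))).coeff j, ?_, ?_, ?_⟩
  · intro j
    simp only [hcoef]
    refine ((hc.neg.fun_pow _).mul analyticAt_const).add ?_
    exact Finset.analyticAt_fun_sum _ fun i _ => (ha i).mul ((hc.neg.fun_pow _).mul analyticAt_const)
  · intro s
    simp only [hcoef]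
    obtain ⟨k, rfl⟩ : ∃ k, n = k + 1 := ⟨n - 1, by omega⟩
    rw [Nat.add_sub_cancel, Nat.add_sub_cancel_left, Finset.sum_range_succ]
    have e1 : ∑ i ∈ Finset.range k, a i s * ((-(c s)) ^ (i - k) * (i.choose k : ℂ)) = 0 := by
      apply Finset.sum_eq_zero
      intro i hi
      rw [Nat.choose_eq_zero_of_lt (Finset.mem_range.1 hi)]
      simp
    rw [e1]
    simp
    ring
  · intro s z
    have h1 : (mq n (fun i => a i s)).comp (X - C (c s)) = mq n (fun j =>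
        ((mq n (fun i => a i s)).comp (X - C (c s))).coeff j) := by
      refine eq_mq ?_ ?_ fun i _ => rfl
      · exact (mp_monic _ _).comp_X_sub_C _
      · rw [natDegree_comp, natDegree_X_sub_C, mul_one]
        exact mp_natDegree _ _
    rw [← h1, eval_comp]
    simp

/-- a factorisation into coprime factors -/
lemma fac {p : ℂ[X]} {n : ℕ} (hn : 2 ≤ n) (hm : p.Monic) (hd : p.natDegree = n)
    (h1 : p.coeff (n - 1) = 0) (hne : ∃ i < n, p.coeff i ≠ 0) :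
    ∃ (k m : ℕ) (a : Fin k → ℂ) (b : Fin m → ℂ), 1 ≤ k ∧ 1 ≤ m ∧ k + m = n ∧
      IsCoprime (mp k a) (mp m b) ∧ p = mp k a * mp m b := by
  obtain ⟨ξ, hξ⟩ := IsAlgClosed.exists_root p (by
    rw [degree_eq_natDegree hm.ne_zero, hd]
    exact_mod_cast (by omega : n ≠ 0))
  obtain ⟨B, hB, hB2⟩ := exists_eq_pow_rootMultiplicity_mul_and_not_dvd p hm.ne_zero ξ
  obtain ⟨k, hk⟩ : ∃ k, k = p.rootMultiplicity ξ := ⟨_, rfl⟩
  rw [← hk] at hB
  have hk1 : 1 ≤ k := by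
    rw [hk, Nat.succ_le_iff, rootMultiplicity_pos hm.ne_zero]
    exact hξ
  have hAm : ((X - C ξ : ℂ[X]) ^ k).Monic := (monic_X_sub_C ξ).pow k
  have hBm : B.Monic := by
    refine hAm.of_mul_monic_left ?_
    rw [← hB]
    exact hm
  have hAd : ((X - C ξ : ℂ[X]) ^ k).natDegree = k := by
    rw [(monic_X_sub_C ξ).natDegree_pow, natDegree_X_sub_C, mul_one]
  have hkm : k + B.natDegree = n := by
    rw [← hd, hB, hAm.natDegree_mul hBm, hAd]
  have hco : IsCoprime ((X - C ξ : ℂ[X]) ^ k) B := by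
    apply IsCoprime.pow_left
    exact (irreducible_X_sub_C ξ).coprime_iff_not_dvd.2 hB2
  have hm1 : 1 ≤ B.natDegree := by
    by_contra hcon
    have h0 : B.natDegree = 0 := by omega
    have hB1 : B = 1 := hBm.natDegree_eq_zero.1 h0
    rw [hB1, mul_one] at hB
    have hkn : k = n := by omega
    rw [hkn] at hB
    have h2 := h1
    rw [hB, X_sub_C_pow_coeff] at h2
    have e1 : n - (n - 1) = 1 := by omega
    have e2 : n.choose (n - 1) = n := by
      rw [Nat.choose_symm (by omega : 1 ≤ n), Nat.choose_one_right]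
    rw [e1, e2, pow_one] at h2
    have hn0 : (n : ℂ) ≠ 0 := by exact_mod_cast (by omega : n ≠ 0)
    have hξ0 : ξ = 0 := by
      have := (mul_eq_zero.1 h2).resolve_right hn0
      exact neg_eq_zero.1 this
    obtain ⟨i, hi, hi2⟩ := hne
    apply hi2
    rw [hB, hξ0, C_0, sub_zero, coeff_X_pow, if_neg (by omega)]
  refine ⟨k, B.natDegree, fun i => ((X - C ξ : ℂ[X]) ^ k).coeff i, fun i => B.coeff i, hk1, hm1, hkm,
    ?_, ?_⟩
  · rw [← eq_mp hAm hAd (fun i => rfl), ← eq_mp hBm rfl (fun i => rfl)]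
    exact hco
  · rw [← eq_mp hAm hAd (fun i => rfl), ← eq_mp hBm rfl (fun i => rfl)]
    exact hB

/-- a root of a monic polynomial is bounded by the coefficients -/
lemma root_le {n : ℕ} {a : ℕ → ℂ} {z : ℂ} (h : z ^ n + ∑ i ∈ Finset.range n, a i * z ^ i = 0) :
    ‖z‖ ≤ 1 + ∑ i ∈ Finset.range n, ‖a i‖ := by
  have hS : 0 ≤ ∑ i ∈ Finset.range n, ‖a i‖ := Finset.sum_nonneg fun i _ => norm_nonneg _
  by_contra hcon
  push Not at hcon
  have hz1 : 1 < ‖z‖ := by linarith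
  rcases Nat.eq_zero_or_pos n with h0 | h0
  · subst h0
    simp at h
  have h1 : ‖z‖ ^ n ≤ ∑ i ∈ Finset.range n, ‖a i‖ * ‖z‖ ^ (n - 1) := by
    have h2 : z ^ n = -∑ i ∈ Finset.range n, a i * z ^ i := by linear_combination h
    rw [← norm_pow, h2, norm_neg]
    refine (norm_sum_le _ _).trans (Finset.sum_le_sum fun i hi => ?_)
    rw [norm_mul, norm_pow]
    have := Finset.mem_range.1 hi
    refine mul_le_mul_of_nonneg_left ?_ (norm_nonneg _)
    exact pow_le_pow_right₀ hz1.le (by omega)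
  rw [← Finset.sum_mul] at h1
  have h3 : ‖z‖ ^ n = ‖z‖ * ‖z‖ ^ (n - 1) := by
    rw [← pow_succ']
    congr 1
    omega
  rw [h3] at h1
  have h4 : 0 < ‖z‖ ^ (n - 1) := by positivity
  have := le_of_mul_le_mul_right h1 h4
  linarith

/-- connectedness -/
lemma conn {s₀ : ℝ} {f g : ℝ → ℂ} (hf : ContinuousOn f (Set.Ioo 0 s₀))
    (hg : ContinuousOn g (Set.Ioo 0 s₀)) (h0 : ∀ s ∈ Set.Ioo 0 s₀, f s * g s = 0)
    (h1 : ∀ s ∈ Set.Ioo 0 s₀, f s ≠ 0 ∨ g s ≠ 0) :
    (∀ s ∈ Set.Ioo 0 s₀, f s = 0) ∨ (∀ s ∈ Set.Ioo 0 s₀, g s = 0) := by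
  by_contra hcon
  push Not at hcon
  obtain ⟨⟨s, hs, hfs⟩, ⟨t, ht, hgt⟩⟩ := hcon
  have hu := hf.isOpen_inter_preimage isOpen_Ioo (isOpen_compl_singleton (x := (0 : ℂ)))
  have hv := hg.isOpen_inter_preimage isOpen_Ioo (isOpen_compl_singleton (x := (0 : ℂ)))
  obtain ⟨x, hx, hx1, hx2⟩ := isPreconnected_Ioo _ _ hu hv
    (fun x hx => by
      rcases h1 x hx with h | h
      · exact Or.inl ⟨hx, h⟩
      · exact Or.inr ⟨hx, h⟩)
    ⟨s, hs, hs, hfs⟩ ⟨t, ht, ht, hgt⟩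
  rcases mul_eq_zero.1 (h0 x hx) with h | h
  · exact hx1.2 h
  · exact hx2.2 h

end Pool.Agent.J6H93.Fam
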