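import Pool.Agent.J6H93.Fam.Pz2

/-!
# The theorem of Newton and Puiseux for continuous branches: the induction
-/

set_option autoImplicit false

namespace Pool.Agent.J6H93.Fam

open Finset Filter Topology Polynomial

/-- continuous solutions of monic equations of degree `n` with analytic coefficients are Puiseux
germs -/
def NPz (n : ℕ) : Prop := ∀ a : ℕ → ℂ → ℂ, (∀ i, AnalyticAt ℂ (a i) 0) → ∀ s₀ : ℝ, 0 < s₀ →
  ∀ y : ℝ → ℂ, ContinuousOn y (Set.Ioo 0 s₀) →
  (∀ s ∈ Set.Ioo 0 s₀, (mq n (fun i => a i (s : ℂ))).eval (y s) = 0) →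
  ∃ q : ℕ, 1 ≤ q ∧ ∃ Φ : ℂ → ℂ, AnalyticAt ℂ Φ 0 ∧
    ∀ᶠ s : ℝ in 𝓝[>] 0, y s = Φ ((s ^ (1 / (q : ℝ)) : ℝ) : ℂ)

/-- the factorisation of a family along a branch -/
lemma split_branch {n : ℕ} (hn : 2 ≤ n) (ih : ∀ k < n, NPz k) {a : ℕ → ℂ → ℂ}
    (ha : ∀ i, AnalyticAt ℂ (a i) 0) (h1 : a (n - 1) 0 = 0) (hne : ∃ i < n, a i 0 ≠ 0) {s₀ : ℝ}
    (hs₀ : 0 < s₀) {y : ℝ → ℂ} (hy : ContinuousOn y (Set.Ioo 0 s₀))
    (hroot : ∀ s ∈ Set.Ioo 0 s₀, (mq n (fun i => a i (s : ℂ))).eval (y s) = 0) :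
    ∃ q : ℕ, 1 ≤ q ∧ ∃ Φ : ℂ → ℂ, AnalyticAt ℂ Φ 0 ∧
      ∀ᶠ s : ℝ in 𝓝[>] 0, y s = Φ ((s ^ (1 / (q : ℝ)) : ℝ) : ℂ) := by
  obtain ⟨k, m, a0, b0, hk, hm, hkm, hco, hfac⟩ := fac (p := mq n (fun i => a i 0)) hn
    (mp_monic _ _) (mp_natDegree _ _) (by rw [mq_coeff_lt (by omega)]; exact h1)
    (by
      obtain ⟨i, hi, hi2⟩ := hne
      exact ⟨i, hi, by rw [mq_coeff_lt hi]; exact hi2⟩)
  subst hkm
  obtain ⟨A, B, hA, hB, hA0, hB0, hAB⟩ := hensel (k := k) (m := m)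
    (c := fun s i => a i s) (analyticAt_pi_iff.2 fun i => ha i) hco hfac
  -- no common roots
  obtain ⟨U, V, hUV⟩ := hco
  obtain ⟨R, hR⟩ : ∃ R : ℝ, R = 1 + ∑ i ∈ Finset.range (k + m), (‖a i 0‖ + 1) := ⟨_, rfl⟩
  have hbd : ∀ᶠ s in 𝓝 (0 : ℂ), ∀ i ∈ Finset.range (k + m), ‖a i s‖ ≤ ‖a i 0‖ + 1 := by
    rw [Finset.eventually_all]
    intro i _
    have := ((ha i).continuousAt.norm).eventually_lt_const (by linarith : ‖a i 0‖ < ‖a i 0‖ + 1)
    filter_upwards [this] with s hs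
    exact hs.le
  have hnc : ∀ᶠ s in 𝓝 (0 : ℂ), ∀ z ∈ Metric.closedBall (0 : ℂ) R,
      U.eval z * (mp k (A s)).eval z + V.eval z * (mp m (B s)).eval z ≠ 0 := by
    refine (isCompact_closedBall (0 : ℂ) R).eventually_forall_of_forall_eventually ?_
    intro z _
    have hcont : ContinuousAt (fun x : ℂ × ℂ => U.eval x.2 * (mp k (A x.1)).eval x.2 +
        V.eval x.2 * (mp m (B x.1)).eval x.2) (0, z) := by
      have hc1 : ∀ (l : ℕ) (D : ℂ → Fin l → ℂ), AnalyticAt ℂ D 0 →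
          ContinuousAt (fun x : ℂ × ℂ => (mp l (D x.1)).eval x.2) (0, z) := by
        intro l D hD
        have e1 : ∀ x : ℂ × ℂ, (mp l (D x.1)).eval x.2 = x.2 ^ l + ∑ i : Fin l, D x.1 i *
            x.2 ^ (i : ℕ) := by
          intro x
          unfold mp lp
          rw [eval_add, eval_pow, eval_X, eval_finsetSum]
          simp
        simp only [e1]
        have hD1 : ContinuousAt (fun x : ℂ × ℂ => D x.1) (0, z) :=
          ContinuousAt.comp (g := D) (f := fun x : ℂ × ℂ => x.1) (x := ((0 : ℂ), z))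
            hD.continuousAt continuousAt_fst
        have hD2 : ∀ i, ContinuousAt (fun x : ℂ × ℂ => D x.1 i) (0, z) := fun i =>
          (continuousAt_pi.1 hD1) i
        refine (continuousAt_snd.pow _).add ?_
        exact tendsto_finsetSum _ fun i _ => (hD2 i).mul (continuousAt_snd.pow _)
      have hc2 : ∀ W : ℂ[X], ContinuousAt (fun x : ℂ × ℂ => W.eval x.2) (0, z) := fun W =>
        (W.continuous.comp continuous_snd).continuousAt
      exact ((hc2 U).mul (hc1 k A hA)).add ((hc2 V).mul (hc1 m B hB))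
    have hval : U.eval z * (mp k (A 0)).eval z + V.eval z * (mp m (B 0)).eval z = 1 := by
      have := congrArg (eval z) hUV
      rw [eval_add, eval_mul, eval_mul, eval_one] at this
      rw [hA0, hB0]
      exact this
    refine hcont.eventually_ne ?_
    show U.eval z * (mp k (A 0)).eval z + V.eval z * (mp m (B 0)).eval z ≠ 0
    rw [hval]
    exact one_ne_zero
  have hAan : ∀ᶠ s in 𝓝 (0 : ℂ), ContinuousAt A s := by
    filter_upwards [hA.eventually_analyticAt] with s hs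
    exact hs.continuousAt
  have hBan : ∀ᶠ s in 𝓝 (0 : ℂ), ContinuousAt B s := by
    filter_upwards [hB.eventually_analyticAt] with s hs
    exact hs.continuousAt
  obtain ⟨s₁, hs₁, hs⟩ := Metric.eventually_nhds_iff_ball.1 (hAB.and (hbd.and (hnc.and
    (hAan.and hBan))))
  obtain ⟨s₂, hs₂⟩ : ∃ s₂ : ℝ, s₂ = min s₀ s₁ := ⟨_, rfl⟩
  have hs₂0 : 0 < s₂ := by rw [hs₂]; exact lt_min hs₀ hs₁
  have hsub : Set.Ioo 0 s₂ ⊆ Set.Ioo 0 s₀ := Set.Ioo_subset_Ioo le_rfl (by rw [hs₂]; exact min_le_left _ _)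
  have hball : ∀ s ∈ Set.Ioo 0 s₂, (s : ℂ) ∈ Metric.ball (0 : ℂ) s₁ := by
    intro s hs'
    rw [Metric.mem_ball, dist_zero_right, Complex.norm_real, Real.norm_eq_abs, abs_of_pos hs'.1]
    exact lt_of_lt_of_le hs'.2 (by rw [hs₂]; exact min_le_right _ _)
  have hy2 := hy.mono hsub
  have hcontf : ∀ (l : ℕ) (D : ℂ → Fin l → ℂ), (∀ s ∈ Set.Ioo 0 s₂, ContinuousAt D (s : ℂ)) →
      ContinuousOn (fun s : ℝ => (mp l (D (s : ℂ))).eval (y s)) (Set.Ioo 0 s₂) := by
    intro l D hD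
    have e1 : ∀ s : ℝ, (mp l (D (s : ℂ))).eval (y s) = y s ^ l + ∑ i : Fin l, D (s : ℂ) i *
        y s ^ (i : ℕ) := by
      intro x
      unfold mp lp
      rw [eval_add, eval_pow, eval_X, eval_finsetSum]
      simp
    simp only [e1]
    refine (hy2.pow _).add ?_
    refine continuousOn_finsetSum _ fun i _ => ContinuousOn.mul ?_ (hy2.pow _)
    intro s hs'
    apply ContinuousAt.continuousWithinAt
    have h2 : ContinuousAt (fun x : ℝ => D (x : ℂ)) s :=
      ContinuousAt.comp (g := D) (f := fun x : ℝ => (x : ℂ)) (x := s) (hD s hs')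
        Complex.continuous_ofReal.continuousAt
    exact (continuousAt_pi.1 h2) i
  have hcases := conn (hcontf k A fun s hs' => (hs _ (hball s hs')).2.2.2.1)
    (hcontf m B fun s hs' => (hs _ (hball s hs')).2.2.2.2)
    (fun s hs' => by
      have h2 := hroot s (hsub hs')
      have h3 := (hs _ (hball s hs')).1
      rw [← eval_mul, ← h3]
      exact h2)
    (fun s hs' => by
      have h2 := hroot s (hsub hs')
      have h3 := (hs _ (hball s hs')).2.1
      have h4 := (hs _ (hball s hs')).2.2.1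
      rw [mq_eval] at h2
      have h5 := root_le h2
      have h6 : y s ∈ Metric.closedBall (0 : ℂ) R := by
        rw [Metric.mem_closedBall, dist_zero_right, hR]
        refine h5.trans ?_
        have := Finset.sum_le_sum h3
        linarith
      by_contra hcon
      push Not at hcon
      apply h4 _ h6
      rw [hcon.1, hcon.2]
      ring)
  have hfin : ∀ (l : ℕ) (D : ℂ → Fin l → ℂ), AnalyticAt ℂ D 0 → l < k + m →
      (∀ s ∈ Set.Ioo 0 s₂, (mp l (D (s : ℂ))).eval (y s) = 0) → ∃ q : ℕ, 1 ≤ q ∧ ∃ Φ : ℂ → ℂ,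
      AnalyticAt ℂ Φ 0 ∧ ∀ᶠ s : ℝ in 𝓝[>] 0, y s = Φ ((s ^ (1 / (q : ℝ)) : ℝ) : ℂ) := by
    intro l D hD hl hD2
    refine ih l hl (fun i s => if h : i < l then D s ⟨i, h⟩ else 0) ?_ s₂ hs₂0 y hy2 ?_
    · intro i
      by_cases h : i < l
      · simp only [dif_pos h]
        exact (analyticAt_pi_iff.1 hD) ⟨i, h⟩
      · simp only [dif_neg h]
        exact analyticAt_const
    · intro s hs'
      have e2 : mq l (fun i => if h : i < l then D (s : ℂ) ⟨i, h⟩ else 0) = mp l (D (s : ℂ)) := by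
        unfold mq
        congr 1
        funext i
        show (if h : (i : ℕ) < l then D (s : ℂ) ⟨i, h⟩ else 0) = D (s : ℂ) i
        rw [dif_pos i.2]
      have e3 := hD2 s hs'
      rw [← e2] at e3
      exact e3
  rcases hcases with h | h
  · exact hfin k A hA (by omega) h
  · exact hfin m B hB (by omega) h

end Pool.Agent.J6H93.Fam
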