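import Pool.Agent.J6H93.Fam.Pz3

/-!
# The theorem of Newton and Puiseux for continuous branches: the conclusion
-/

set_option autoImplicit false

namespace Pool.Agent.J6H93.Fam

open Finset Filter Topology Polynomial

lemma root_tendsto {q : ℕ} (hq : 1 ≤ q) :
    Tendsto (fun s : ℝ => s ^ (1 / (q : ℝ))) (𝓝[>] 0) (𝓝[>] 0) := by
  have hq0 : (0 : ℝ) < q := by exact_mod_cast hq
  rw [tendsto_nhdsWithin_iff]
  constructor
  · have h1 : Tendsto (fun s : ℝ => s ^ (1 / (q : ℝ))) (𝓝 0) (𝓝 ((0 : ℝ) ^ (1 / (q : ℝ)))) :=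
      (Real.continuousAt_rpow_const 0 (1 / (q : ℝ)) (Or.inr (by positivity)))
    rw [Real.zero_rpow (by positivity)] at h1
    exact h1.mono_left nhdsWithin_le_nhds
  · filter_upwards [self_mem_nhdsWithin] with s hs
    exact Real.rpow_pos_of_pos hs _

lemma root_pow {q : ℕ} (hq : 1 ≤ q) {s : ℝ} (hs : 0 < s) : (s ^ (1 / (q : ℝ))) ^ q = s := by
  have hq0 : (0 : ℝ) < q := by exact_mod_cast hq
  rw [← Real.rpow_natCast, ← Real.rpow_mul hs.le, one_div, inv_mul_cancel₀ hq0.ne', Real.rpow_one]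

lemma root_root {q q' : ℕ} {s : ℝ} (hs : 0 < s) :
    (s ^ (1 / (q : ℝ))) ^ (1 / (q' : ℝ)) = s ^ (1 / ((q * q' : ℕ) : ℝ)) := by
  rw [← Real.rpow_mul hs.le]
  congr 1
  push_cast
  rw [div_mul_div_comm, one_mul]

lemma an_comp_pow {g : ℂ → ℂ} (hg : AnalyticAt ℂ g 0) {q : ℕ} (hq : 1 ≤ q) :
    AnalyticAt ℂ (fun σ => g (σ ^ q)) 0 :=
  AnalyticAt.comp_of_eq' hg (analyticAt_id.fun_pow q) (by simp [zero_pow (by omega : q ≠ 0)])

open Classical in
/-- the reduced equation -/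
lemma reduced {n : ℕ} (hn : 2 ≤ n) (ih : ∀ k < n, NPz k) {a : ℕ → ℂ → ℂ}
    (ha : ∀ i, AnalyticAt ℂ (a i) 0) (h1 : ∀ᶠ s in 𝓝 (0 : ℂ), a (n - 1) s = 0) {s₀ : ℝ}
    (hs₀ : 0 < s₀) {y : ℝ → ℂ} (hy : ContinuousOn y (Set.Ioo 0 s₀))
    (hroot : ∀ s ∈ Set.Ioo 0 s₀, (mq n (fun i => a i (s : ℂ))).eval (y s) = 0) :
    ∃ q : ℕ, 1 ≤ q ∧ ∃ Φ : ℂ → ℂ, AnalyticAt ℂ Φ 0 ∧
      ∀ᶠ s : ℝ in 𝓝[>] 0, y s = Φ ((s ^ (1 / (q : ℝ)) : ℝ) : ℂ) := by
  obtain ⟨S, hS⟩ : ∃ S : Finset ℕ, S = (Finset.range n).filter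
    (fun i => ¬ ∀ᶠ s in 𝓝 (0 : ℂ), a i s = 0) := ⟨_, rfl⟩
  have hSn : ∀ i ∈ S, i < n - 1 := by
    intro i hi
    rw [hS, Finset.mem_filter, Finset.mem_range] at hi
    by_contra hcon
    have : i = n - 1 := by omega
    rw [this] at hi
    exact hi.2 h1
  have hzero : ∀ᶠ s in 𝓝 (0 : ℂ), ∀ i ∈ Finset.range n, i ∉ S → a i s = 0 := by
    rw [Finset.eventually_all]
    intro i hi
    by_cases h : i ∈ S
    · exact Eventually.of_forall fun s hs => absurd h hs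
    · have h2 : ∀ᶠ s in 𝓝 (0 : ℂ), a i s = 0 := by
        by_contra h3
        exact h (by rw [hS]; exact Finset.mem_filter.2 ⟨hi, h3⟩)
      filter_upwards [h2] with s hs _
      exact hs
  rcases S.eq_empty_or_nonempty with hemp | hne
  · -- all coefficients vanish
    refine ⟨1, le_rfl, fun _ => 0, analyticAt_const, ?_⟩
    have h2 : ∀ᶠ s : ℝ in 𝓝[>] 0, ∀ i ∈ Finset.range n, i ∉ S → a i (s : ℂ) = 0 := by
      have h3 : Tendsto (fun s : ℝ => (s : ℂ)) (𝓝[>] 0) (𝓝 0) := by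
        have := Complex.continuous_ofReal.tendsto (0 : ℝ)
        rw [Complex.ofReal_zero] at this
        exact this.mono_left nhdsWithin_le_nhds
      exact h3.eventually hzero
    filter_upwards [h2, Ioo_mem_nhdsGT hs₀] with s hs1 hs2
    have h3 := hroot s hs2
    rw [mq_eval, Finset.sum_eq_zero (fun i hi => by
      rw [hs1 i hi (by rw [hemp]; exact Finset.notMem_empty _), zero_mul]), add_zero] at h3
    exact pow_eq_zero_iff (by omega : n ≠ 0) |>.1 h3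
  · -- orders
    have hord : ∀ i : ℕ, ∃ (v : ℕ) (g : ℂ → ℂ), i ∈ S → (AnalyticAt ℂ g 0 ∧ g 0 ≠ 0 ∧
        ∀ᶠ s in 𝓝 (0 : ℂ), a i s = s ^ v * g s) := by
      intro i
      by_cases h : i ∈ S
      · have h2 := h
        rw [hS, Finset.mem_filter] at h2
        obtain ⟨v, g, hg1, hg2, hg3⟩ := (ha i).exists_eventuallyEq_pow_smul_nonzero_iff.2 h2.2
        refine ⟨v, g, fun _ => ⟨hg1, hg2, ?_⟩⟩
        filter_upwards [hg3] with s hs
        rw [hs, sub_zero, smul_eq_mul]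
      · exact ⟨0, 0, fun h' => absurd h' h⟩
    choose v g hvg using hord
    obtain ⟨i₀, hi₀, hmin⟩ := Finset.exists_min_image S (fun i => (v i : ℚ) / ((n - i : ℕ) : ℚ)) hne
    have hi₀n := hSn i₀ hi₀
    obtain ⟨q₀, hq₀⟩ : ∃ q₀ : ℕ, q₀ = n - i₀ := ⟨_, rfl⟩
    obtain ⟨c₀, hc₀⟩ : ∃ c₀ : ℕ, c₀ = v i₀ := ⟨_, rfl⟩
    have hq₀1 : 1 ≤ q₀ := by omega
    have hle : ∀ i ∈ S, c₀ * (n - i) ≤ v i * q₀ := by
      intro i hi
      have h2 := hmin i hi
      have h3 := hSn i hi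
      have h4 : (0 : ℚ) < ((n - i : ℕ) : ℚ) := by exact_mod_cast (by omega : 0 < n - i)
      have h5 : (0 : ℚ) < ((n - i₀ : ℕ) : ℚ) := by exact_mod_cast (by omega : 0 < n - i₀)
      rw [div_le_div_iff₀ h5 h4, ← hq₀, ← hc₀] at h2
      exact_mod_cast h2
    -- the new coefficients
    obtain ⟨b, hb⟩ : ∃ b : ℕ → ℂ → ℂ, b = fun i σ => if i ∈ S then
      σ ^ (v i * q₀ - c₀ * (n - i)) * g i (σ ^ q₀) else 0 := ⟨_, rfl⟩
    have hpow0 : (0 : ℂ) ^ q₀ = 0 := zero_pow (by omega)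
    have hban : ∀ i, AnalyticAt ℂ (b i) 0 := by
      intro i
      by_cases h : i ∈ S
      · have e1 : b i = fun σ => σ ^ (v i * q₀ - c₀ * (n - i)) * g i (σ ^ q₀) := by
          rw [hb]
          funext σ
          simp only [if_pos h]
        rw [e1]
        exact (analyticAt_id.fun_pow _).mul (an_comp_pow (hvg i h).1 hq₀1)
      · have e1 : b i = fun _ => 0 := by
          rw [hb]
          funext σ
          simp only [if_neg h]
        rw [e1]
        exact analyticAt_const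
    have hqt : Tendsto (fun σ : ℂ => σ ^ q₀) (𝓝 0) (𝓝 0) := by
      have := (continuous_pow q₀ (M := ℂ)).tendsto 0
      rwa [hpow0] at this
    have hev : ∀ᶠ σ in 𝓝 (0 : ℂ), ∀ i ∈ Finset.range n, σ ^ (c₀ * (n - i)) * b i σ = a i (σ ^ q₀) := by
      rw [Finset.eventually_all]
      intro i hi
      by_cases h : i ∈ S
      · filter_upwards [hqt.eventually (hvg i h).2.2] with σ hσ
        rw [hσ, hb]
        simp only [if_pos h]
        rw [← mul_assoc, ← pow_add, Nat.add_sub_cancel' (hle i h), mul_comm (v i), pow_mul]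
      · filter_upwards [hqt.eventually hzero] with σ hσ
        rw [hσ i hi h, hb]
        simp only [if_neg h, mul_zero]
    obtain ⟨s₁, hs₁, hs⟩ := Metric.eventually_nhds_iff_ball.1 hev
    obtain ⟨s₂, hs₂⟩ : ∃ s₂ : ℝ, s₂ = min (min s₀ s₁) 1 := ⟨_, rfl⟩
    have hs₂0 : 0 < s₂ := by rw [hs₂]; exact lt_min (lt_min hs₀ hs₁) one_pos
    have hs₂s₀ : s₂ ≤ s₀ := by rw [hs₂]; exact (min_le_left _ _).trans (min_le_left _ _)
    have hs₂s₁ : s₂ ≤ s₁ := by rw [hs₂]; exact (min_le_left _ _).trans (min_le_right _ _)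
    have hs₂1 : s₂ ≤ 1 := by rw [hs₂]; exact min_le_right _ _
    have hpowm : ∀ σ ∈ Set.Ioo 0 s₂, σ ^ q₀ ∈ Set.Ioo 0 s₀ := by
      intro σ hσ
      refine ⟨pow_pos hσ.1 _, ?_⟩
      calc σ ^ q₀ ≤ σ ^ 1 := pow_le_pow_of_le_one hσ.1.le (hσ.2.le.trans hs₂1) hq₀1
        _ = σ := pow_one _
        _ < s₂ := hσ.2
        _ ≤ s₀ := hs₂s₀
    have hy2 : ContinuousOn (fun σ : ℝ => y (σ ^ q₀) / ((σ : ℂ) ^ c₀)) (Set.Ioo 0 s₂) := by
      refine ContinuousOn.div ?_ ?_ ?_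
      · exact hy.comp (continuousOn_pow q₀) hpowm
      · exact (Complex.continuous_ofReal.pow c₀).continuousOn
      · intro σ hσ
        exact pow_ne_zero _ (by exact_mod_cast hσ.1.ne')
    obtain ⟨q, hq, Φ, hΦ, hΦ2⟩ := split_branch hn ih hban
      (by
        rw [hb]
        simp only
        rw [if_neg]
        intro h
        exact lt_irrefl _ (hSn _ h))
      ⟨i₀, by omega, by
        rw [hb]
        simp only
        rw [if_pos hi₀, ← hc₀, hq₀, Nat.sub_self, pow_zero, one_mul, ← hq₀, hpow0]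
        exact (hvg i₀ hi₀).2.1⟩ hs₂0 hy2
      (by
        intro σ hσ
        have hσ0 : (σ : ℂ) ≠ 0 := by exact_mod_cast hσ.1.ne'
        have h2 := hroot _ (hpowm σ hσ)
        have h3 := hs (σ : ℂ) (by
          rw [Metric.mem_ball, dist_zero_right, Complex.norm_real, Real.norm_eq_abs,
            abs_of_pos hσ.1]
          exact lt_of_lt_of_le hσ.2 hs₂s₁)
        rw [mq_eval] at h2 ⊢
        have hX : ((σ : ℂ) ^ c₀) ≠ 0 := pow_ne_zero _ hσ0
        have h4 : ((σ : ℂ) ^ c₀) ^ n * ((y (σ ^ q₀) / ((σ : ℂ) ^ c₀)) ^ n +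
            ∑ i ∈ Finset.range n, b i (σ : ℂ) * (y (σ ^ q₀) / ((σ : ℂ) ^ c₀)) ^ i) = 0 := by
          rw [mul_add, ← mul_pow, mul_div_cancel₀ _ hX, Finset.mul_sum]
          rw [← h2]
          congr 1
          refine Finset.sum_congr rfl fun i hi => ?_
          have h5 := h3 i hi
          have h6 : i ≤ n := (Finset.mem_range.1 hi).le
          push_cast
          rw [← h5, div_pow]
          have h7 : ((σ : ℂ) ^ c₀) ^ n = (σ : ℂ) ^ (c₀ * (n - i)) * ((σ : ℂ) ^ c₀) ^ i := by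
            rw [← pow_mul, ← pow_mul, ← pow_add, ← mul_add, Nat.sub_add_cancel h6]
          rw [h7]
          have h8 : ((σ : ℂ) ^ c₀) ^ i ≠ 0 := pow_ne_zero _ hX
          field_simp
        exact (mul_eq_zero.1 h4).resolve_left (pow_ne_zero _ hX))
    refine ⟨q₀ * q, Nat.mul_pos hq₀1 hq, fun u => (u ^ q) ^ c₀ * Φ u,
      ((analyticAt_id.fun_pow _).fun_pow _).mul hΦ, ?_⟩
    have h2 := (root_tendsto hq₀1).eventually hΦ2
    filter_upwards [h2, self_mem_nhdsWithin] with s hs1 hs2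
    have hs0 : (0 : ℝ) < s := hs2
    rw [root_pow hq₀1 hs0, root_root hs0] at hs1
    obtain ⟨u, hu⟩ : ∃ u : ℝ, u = s ^ (1 / ((q₀ * q : ℕ) : ℝ)) := ⟨_, rfl⟩
    obtain ⟨σ, hσ⟩ : ∃ σ : ℝ, σ = s ^ (1 / (q₀ : ℝ)) := ⟨_, rfl⟩
    have hσ0 : 0 < σ := by rw [hσ]; positivity
    have huσ : u ^ q = σ := by
      rw [hu, ← root_root hs0, ← hσ, root_pow hq hσ0]
    rw [← hu, ← hσ] at hs1
    show y s = ((((s ^ (1 / ((q₀ * q : ℕ) : ℝ)) : ℝ) : ℂ)) ^ q) ^ c₀ *
      Φ ((s ^ (1 / ((q₀ * q : ℕ) : ℝ)) : ℝ) : ℂ)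
    rw [← hu, ← Complex.ofReal_pow, huσ, ← hs1]
    have hX : ((σ : ℂ) ^ c₀) ≠ 0 := pow_ne_zero _ (by exact_mod_cast hσ0.ne')
    rw [mul_div_cancel₀ _ hX]

/-- **the theorem of Newton and Puiseux** -/
theorem newton_puiseux (n : ℕ) : NPz n := by
  induction n using Nat.strong_induction_on with
  | _ n ih =>
    intro a ha s₀ hs₀ y hy hroot
    rcases Nat.lt_or_ge n 2 with hn | hn
    · rcases Nat.eq_zero_or_pos n with h0 | h0
      · subst h0
        have := hroot (s₀ / 2) ⟨by linarith, by linarith⟩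
        rw [mq_eval] at this
        simp at this
      · have h1 : n = 1 := by omega
        subst h1
        refine ⟨1, le_rfl, fun u => -(a 0 u), (ha 0).neg, ?_⟩
        filter_upwards [Ioo_mem_nhdsGT hs₀] with s hs
        have h2 := hroot s hs
        rw [mq_eval] at h2
        simp only [pow_one, Finset.range_one, Finset.sum_singleton, pow_zero, mul_one] at h2
        have e1 : s ^ (1 / ((1 : ℕ) : ℝ)) = s := by
          rw [Nat.cast_one, div_one, Real.rpow_one]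
        show y s = -(a 0 ((s ^ (1 / ((1 : ℕ) : ℝ)) : ℝ) : ℂ))
        rw [e1]
        linear_combination h2
    · have hn0 : (n : ℂ) ≠ 0 := by exact_mod_cast (by omega : n ≠ 0)
      obtain ⟨c, hc⟩ : ∃ c : ℂ → ℂ, c = fun s => a (n - 1) s / n := ⟨_, rfl⟩
      have hcan : AnalyticAt ℂ c 0 := by
        rw [hc]
        exact (ha _).div analyticAt_const hn0
      obtain ⟨a', ha'1, ha'2, ha'3⟩ := tsch n (by omega) ha hcan
      obtain ⟨s₁, hs₁, hs⟩ := Metric.eventually_nhds_iff_ball.1 hcan.eventually_analyticAt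
      obtain ⟨s₂, hs₂⟩ : ∃ s₂ : ℝ, s₂ = min s₀ s₁ := ⟨_, rfl⟩
      have hs₂0 : 0 < s₂ := by rw [hs₂]; exact lt_min hs₀ hs₁
      have hs₂s₀ : s₂ ≤ s₀ := by rw [hs₂]; exact min_le_left _ _
      have hs₂s₁ : s₂ ≤ s₁ := by rw [hs₂]; exact min_le_right _ _
      have hy2 : ContinuousOn (fun s : ℝ => y s + c (s : ℂ)) (Set.Ioo 0 s₂) := by
        refine (hy.mono (Set.Ioo_subset_Ioo le_rfl hs₂s₀)).add ?_
        intro s hs'
        apply ContinuousAt.continuousWithinAt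
        refine ContinuousAt.comp (g := c) (f := fun x : ℝ => (x : ℂ)) (x := s) ?_
          Complex.continuous_ofReal.continuousAt
        apply (hs _ _).continuousAt
        rw [Metric.mem_ball, dist_zero_right, Complex.norm_real, Real.norm_eq_abs,
          abs_of_pos hs'.1]
        exact lt_of_lt_of_le hs'.2 hs₂s₁
      obtain ⟨q, hq, Φ, hΦ, hΦ2⟩ := reduced hn ih ha'1
        (Eventually.of_forall fun s => by
          rw [ha'2, hc]
          simp only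
          rw [mul_div_cancel₀ _ hn0, sub_self]) hs₂0 hy2
        (by
          intro s hs'
          rw [ha'3, add_sub_cancel_right]
          exact hroot s (Set.Ioo_subset_Ioo le_rfl hs₂s₀ hs'))
      refine ⟨q, hq, fun u => Φ u - c (u ^ q), hΦ.sub ?_, ?_⟩
      · exact an_comp_pow hcan hq
      · filter_upwards [hΦ2, self_mem_nhdsWithin] with s hs1 hs2
        have hs0 : (0 : ℝ) < s := hs2
        show y s = Φ ((s ^ (1 / (q : ℝ)) : ℝ) : ℂ) - c (((s ^ (1 / (q : ℝ)) : ℝ) : ℂ) ^ q)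
        rw [← hs1, ← Complex.ofReal_pow, root_pow hq hs0, add_sub_cancel_right]

end Pool.Agent.J6H93.Fam
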