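import Pool.Agent.J6H93.Fam.Eng3

/-!
# Trigonometric polynomials
-/

set_option autoImplicit false

namespace Pool.Agent.J6H93.Fam

open Finset Filter Polynomial
open Pool.Agent.Y933.KD (e norm_e e_add e_zero norm_e_sub_one)
open Pool.Agent.N586.RT (logpow log_ge)

/-- the derivatives of the trigonometric polynomial `∑ q k * e (k x)`, `|k| ≤ D` -/
noncomputable def G (q : ℤ → ℂ) (D m : ℕ) (x : ℝ) : ℂ :=
  ∑ k ∈ Finset.Icc (-(D : ℤ)) D, q k * (2 * Real.pi * Complex.I * k) ^ m * e (k * x)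

lemma e_der (k x : ℝ) :
    HasDerivAt (fun x : ℝ => e (k * x)) (2 * Real.pi * Complex.I * k * e (k * x)) x := by
  have h0 : HasDerivAt (fun x : ℝ => (x : ℂ)) 1 x := Complex.ofRealCLM.hasDerivAt (x := x)
  have h1 : HasDerivAt (fun x : ℝ => 2 * Real.pi * Complex.I * k * (x : ℂ))
      (2 * Real.pi * Complex.I * k * 1) x := h0.const_mul _
  have h2 := h1.cexp
  have e1 : (fun x : ℝ => e (k * x)) =
      fun x : ℝ => Complex.exp (2 * Real.pi * Complex.I * k * (x : ℂ)) := by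
    funext x
    rw [e_eq]
    congr 1
    push_cast
    ring
  rw [e1]
  refine h2.congr_deriv ?_
  rw [e_eq]
  have e2 : 2 * Real.pi * Complex.I * ((k * x : ℝ) : ℂ) = 2 * Real.pi * Complex.I * k * (x : ℂ) := by
    push_cast
    ring
  rw [e2]
  ring

lemma G_der (q : ℤ → ℂ) (D m : ℕ) (x : ℝ) : HasDerivAt (G q D m) (G q D (m + 1) x) x := by
  unfold G
  refine HasDerivAt.fun_sum fun k _ => ?_
  have h1 := (e_der (k : ℝ) x).const_mul (q k * (2 * Real.pi * Complex.I * k) ^ m)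
  refine h1.congr_deriv ?_
  push_cast
  ring

lemma G_re_der (q : ℤ → ℂ) (D m : ℕ) (x : ℝ) :
    HasDerivAt (fun x => (G q D m x).re) (G q D (m + 1) x).re x :=
  (Complex.reCLM.hasFDerivAt.comp_hasDerivAt x (G_der q D m x))

lemma G_im_der (q : ℤ → ℂ) (D m : ℕ) (x : ℝ) :
    HasDerivAt (fun x => (G q D m x).im) (G q D (m + 1) x).im x :=
  (Complex.imCLM.hasFDerivAt.comp_hasDerivAt x (G_der q D m x))

lemma G_real {q : ℤ → ℂ} {D : ℕ} (h : ∀ x, (G q D 0 x).im = 0) (m : ℕ) :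
    ∀ x, (G q D m x).im = 0 := by
  induction m with
  | zero => exact h
  | succ m ih =>
    intro x
    have h1 := G_im_der q D m x
    have h2 : (fun x => (G q D m x).im) = fun _ => 0 := funext ih
    rw [h2] at h1
    exact h1.unique (hasDerivAt_const x 0)

/-- the phases -/
noncomputable def fT (q : ℤ → ℂ) (D : ℕ) (θ n : ℝ) (m : ℕ) (t : ℝ) : ℝ :=
  θ * (G q D m (t / n)).re / n ^ m

lemma fT_chain (q : ℤ → ℂ) (D : ℕ) (θ : ℝ) {n : ℝ} (hn : n ≠ 0) (S : Set ℝ) :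
    Chain (fT q D θ n) S := by
  intro m t _
  unfold fT
  have h1 : HasDerivAt (fun t : ℝ => t / n) (1 / n) t := (hasDerivAt_id t).div_const n
  have h2 := (G_re_der q D m (t / n)).comp t h1
  have h3 := (h2.const_mul θ).div_const (n ^ m)
  refine h3.congr_deriv ?_
  rw [pow_succ]
  field_simp

lemma fT_abs {q : ℤ → ℂ} {D : ℕ} (h : ∀ x, (G q D 0 x).im = 0) (θ : ℝ) {n : ℝ} (hn : 0 < n) (m : ℕ)
    (t : ℝ) : |fT q D θ n m t| = |θ| * ‖G q D m (t / n)‖ / n ^ m := by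
  unfold fT
  have h1 : G q D m (t / n) = ((G q D m (t / n)).re : ℂ) := by
    apply Complex.ext
    · simp
    · rw [G_real h m]
      simp
  have h2 : ‖G q D m (t / n)‖ = |(G q D m (t / n)).re| := by
    rw [h1, Complex.norm_real, Real.norm_eq_abs]
    simp
  rw [h2, abs_div, abs_mul, abs_of_pos (pow_pos hn m)]

/-- the upper bound -/
lemma G_le {q : ℤ → ℂ} {D : ℕ} {V : ℝ} (hq : ∀ k, ‖q k‖ ≤ V) (m : ℕ) (x : ℝ) :
    ‖G q D m x‖ ≤ (2 * D + 1) * V * (2 * Real.pi * D) ^ m := by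
  have hV : 0 ≤ V := (norm_nonneg _).trans (hq 0)
  unfold G
  refine (norm_sum_le _ _).trans ?_
  have h1 : ∀ k ∈ Finset.Icc (-(D : ℤ)) D,
      ‖q k * (2 * Real.pi * Complex.I * k) ^ m * e (k * x)‖ ≤ V * (2 * Real.pi * D) ^ m := by
    intro k hk
    obtain ⟨hk1, hk2⟩ := Finset.mem_Icc.1 hk
    have hkD : |(k : ℝ)| ≤ D := by
      have : |k| ≤ (D : ℤ) := abs_le.2 ⟨hk1, hk2⟩
      exact_mod_cast this
    rw [norm_mul, norm_mul, norm_pow, norm_e, mul_one]
    have h2 : ‖(2 * Real.pi * Complex.I * k : ℂ)‖ = 2 * Real.pi * |(k : ℝ)| := by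
      rw [norm_mul, norm_mul, norm_mul, Complex.norm_I, Complex.norm_intCast, Complex.norm_real,
        Real.norm_eq_abs, abs_of_pos Real.pi_pos]
      norm_num
    rw [h2]
    have := Real.pi_pos
    have := hq k
    gcongr
  refine (Finset.sum_le_sum h1).trans ?_
  rw [Finset.sum_const, Int.card_Icc, nsmul_eq_mul]
  have h2 : (((D : ℤ) + 1 - -(D : ℤ)).toNat : ℝ) = 2 * D + 1 := by
    have : ((D : ℤ) + 1 - -(D : ℤ)).toNat = 2 * D + 1 := by omega
    rw [this]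
    push_cast
    ring
  rw [h2]
  apply le_of_eq
  ring

/-- the algebraic polynomials -/
noncomputable def P (q : ℤ → ℂ) (D m : ℕ) : ℂ[X] :=
  ∑ k ∈ Finset.Icc (-(D : ℤ)) D, C (q k * (k : ℂ) ^ m) * X ^ (k + D).toNat

lemma e_pow (x : ℝ) (n : ℕ) : (e x) ^ n = e (n * x) := by
  induction n with
  | zero => simp [e_zero]
  | succ n ih =>
    rw [pow_succ, ih, ← e_add]
    congr 1
    push_cast
    ring

lemma G_eq (q : ℤ → ℂ) (D m : ℕ) (x : ℝ) :
    G q D m x = (2 * Real.pi * Complex.I) ^ m * e (-(D * x)) * (P q D m).eval (e x) := by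
  unfold G P
  rw [eval_finsetSum, Finset.mul_sum]
  refine Finset.sum_congr rfl fun k hk => ?_
  obtain ⟨hk1, _⟩ := Finset.mem_Icc.1 hk
  rw [eval_mul, eval_C, eval_pow, eval_X, e_pow]
  have h1 : (((k + D).toNat : ℕ) : ℝ) = k + D := by
    have : (((k + D).toNat : ℕ) : ℤ) = k + D := Int.toNat_of_nonneg (by linarith)
    exact_mod_cast this
  have h2 : e (k * x) = e (-(D * x)) * e (((k + D).toNat : ℕ) * x) := by
    rw [← e_add]
    congr 1
    rw [h1]
    ring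
  rw [h2, mul_pow]
  ring

lemma P_coeff (q : ℤ → ℂ) (D m : ℕ) : (P q D m).coeff (2 * D) = q D * (D : ℂ) ^ m := by
  unfold P
  rw [finsetSum_coeff, Finset.sum_eq_single (D : ℤ)]
  · have : ((D : ℤ) + D).toNat = 2 * D := by omega
    rw [this, coeff_C_mul, coeff_X_pow_self, mul_one]
    simp
  · intro k hk hne
    obtain ⟨hk1, hk2⟩ := Finset.mem_Icc.1 hk
    rw [coeff_C_mul, coeff_X_pow, if_neg (by omega), mul_zero]
  · intro h
    exact absurd (Finset.mem_Icc.2 ⟨by omega, le_rfl⟩) h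

lemma P_natDegree_le (q : ℤ → ℂ) (D m : ℕ) : (P q D m).natDegree ≤ 2 * D := by
  unfold P
  refine natDegree_sum_le_of_forall_le _ _ fun k hk => ?_
  obtain ⟨hk1, hk2⟩ := Finset.mem_Icc.1 hk
  refine (natDegree_C_mul_X_pow_le _ _).trans ?_
  omega

lemma P_natDegree {q : ℤ → ℂ} {D m : ℕ} (hD : 1 ≤ D) (hq : q D ≠ 0) :
    (P q D m).natDegree = 2 * D := by
  refine le_antisymm (P_natDegree_le q D m) (le_natDegree_of_ne_zero ?_)
  rw [P_coeff]
  refine mul_ne_zero hq (pow_ne_zero _ ?_)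
  exact_mod_cast (by omega : D ≠ 0)

lemma P_lead {q : ℤ → ℂ} {D m : ℕ} (hD : 1 ≤ D) (hq : q D ≠ 0) :
    (P q D m).leadingCoeff = q D * (D : ℂ) ^ m := by
  rw [leadingCoeff, P_natDegree hD hq, P_coeff]

/-- lower bounds away from the zeros -/
lemma eval_ge (p : ℂ[X]) {d : ℕ} (hd : p.natDegree ≤ d) {ρ : ℝ} (hρ : 0 < ρ) (hρ1 : ρ ≤ 1) {z : ℂ}
    (hz : ∀ w ∈ p.roots, ρ ≤ ‖z - w‖) : ‖p.leadingCoeff‖ * ρ ^ d ≤ ‖p.eval z‖ := by
  rw [(IsAlgClosed.splits p).eval_eq_prod_roots z, norm_mul]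
  refine mul_le_mul_of_nonneg_left ?_ (norm_nonneg _)
  have h1 : ∀ s : Multiset ℂ, (∀ w ∈ s, ρ ≤ ‖z - w‖) →
      ρ ^ s.card ≤ ‖(s.map fun w => z - w).prod‖ := by
    intro s
    induction s using Multiset.induction_on with
    | empty => simp
    | cons w s ih =>
      intro hs
      rw [Multiset.card_cons, Multiset.map_cons, Multiset.prod_cons, norm_mul, pow_succ, mul_comm]
      refine mul_le_mul (hs w (Multiset.mem_cons_self _ _))
        (ih fun w hw => hs w (Multiset.mem_cons_of_mem hw)) (by positivity) (norm_nonneg _)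
  refine le_trans ?_ (h1 p.roots hz)
  exact pow_le_pow_of_le_one hρ.le hρ1 ((card_roots' p).trans hd)

lemma G_ge {q : ℤ → ℂ} {D m : ℕ} (hD : 1 ≤ D) (hq : q D ≠ 0) {ρ : ℝ} (hρ : 0 < ρ) (hρ1 : ρ ≤ 1)
    {x : ℝ} (hz : ∀ w ∈ (P q D m).roots, ρ ≤ ‖e x - w‖) :
    ‖q D‖ * ρ ^ (2 * D) ≤ ‖G q D m x‖ := by
  have h1 := eval_ge (P q D m) (P_natDegree_le q D m) hρ hρ1 hz
  rw [P_lead hD hq, norm_mul, norm_pow, Complex.norm_natCast] at h1
  rw [G_eq, norm_mul, norm_mul, norm_e, mul_one, norm_pow]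
  have h2 : ‖(2 * Real.pi * Complex.I : ℂ)‖ = 2 * Real.pi := by
    rw [norm_mul, norm_mul, Complex.norm_I, Complex.norm_real, Real.norm_eq_abs,
      abs_of_pos Real.pi_pos]
    norm_num
  rw [h2]
  have h3 : (1 : ℝ) ≤ (2 * Real.pi) ^ m := by
    apply one_le_pow₀
    have := Real.pi_gt_three
    linarith
  have h4 : (1 : ℝ) ≤ (D : ℝ) ^ m := one_le_pow₀ (by exact_mod_cast hD)
  have h5 : ‖q D‖ * ρ ^ (2 * D) ≤ ‖q D‖ * (D : ℝ) ^ m * ρ ^ (2 * D) := by
    have : 0 ≤ ‖q D‖ * ρ ^ (2 * D) := by positivity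
    nlinarith
  calc ‖q D‖ * ρ ^ (2 * D) ≤ ‖(P q D m).eval (e x)‖ := h5.trans h1
    _ = 1 * ‖(P q D m).eval (e x)‖ := (one_mul _).symm
    _ ≤ _ := by gcongr

/-- points of an interval -/
lemma card_near (s : Finset ℕ) (c R : ℝ) (hR : 0 ≤ R) :
    ((s.filter (fun t : ℕ => |(t : ℝ) - c| ≤ R)).card : ℝ) ≤ 2 * R + 1 := by
  have h1 : (s.filter (fun t : ℕ => |(t : ℝ) - c| ≤ R)).card ≤ (Finset.Icc ⌈c - R⌉ ⌊c + R⌋).card := by
    refine Finset.card_le_card_of_injOn (fun t : ℕ => (t : ℤ)) ?_ (fun a _ b _ h => by simpa using h)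
    intro t ht
    have ht2 := (Finset.mem_filter.1 ht).2
    rw [abs_le] at ht2
    rw [Finset.mem_coe, Finset.mem_Icc]
    constructor
    · apply Int.ceil_le.2
      push_cast
      linarith
    · apply Int.le_floor.2
      push_cast
      linarith
  rw [Int.card_Icc] at h1
  have h2 : (((⌊c + R⌋ + 1 - ⌈c - R⌉).toNat : ℕ) : ℝ) ≤ 2 * R + 1 := by
    have h3 := Int.floor_le (c + R)
    have h4 := Int.le_ceil (c - R)
    rcases le_total 0 (⌊c + R⌋ + 1 - ⌈c - R⌉) with h5 | h5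
    · have h6 : (((⌊c + R⌋ + 1 - ⌈c - R⌉).toNat : ℕ) : ℤ) = ⌊c + R⌋ + 1 - ⌈c - R⌉ :=
        Int.toNat_of_nonneg h5
      have h7 : (((⌊c + R⌋ + 1 - ⌈c - R⌉).toNat : ℕ) : ℝ) = (⌊c + R⌋ : ℝ) + 1 - ⌈c - R⌉ := by
        exact_mod_cast h6
      rw [h7]
      linarith
    · rw [Int.toNat_of_nonpos h5]
      push_cast
      linarith
  exact le_trans (by exact_mod_cast h1) h2

/-- roots of unity near a point -/
lemma card_roots_near {n : ℕ} (hn : 1 ≤ n) (w : ℂ) {ρ : ℝ} (hρ : 0 < ρ) :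
    (((Finset.Ioc n (2 * n)).filter (fun t : ℕ => ‖e ((t : ℝ) / n) - w‖ < ρ)).card : ℝ) ≤
      3 * (ρ * n + 1) := by
  classical
  obtain ⟨S, hS⟩ : ∃ S, S = (Finset.Ioc n (2 * n)).filter (fun t : ℕ => ‖e ((t : ℝ) / n) - w‖ < ρ) :=
    ⟨_, rfl⟩
  rw [← hS]
  have hnR : (0 : ℝ) < n := by exact_mod_cast hn
  rcases S.eq_empty_or_nonempty with h0 | ⟨t0, ht0⟩
  · rw [h0]
    simp
    positivity
  have hsub : S ⊆ ((S.filter (fun t : ℕ => |(t : ℝ) - t0| ≤ ρ * n / 2)) ∪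
      (S.filter (fun t : ℕ => |(t : ℝ) - (t0 + n)| ≤ ρ * n / 2))) ∪
      (S.filter (fun t : ℕ => |(t : ℝ) - (t0 - n)| ≤ ρ * n / 2)) := by
    intro t ht
    have h1 : ∀ t ∈ S, (n : ℝ) < t ∧ (t : ℝ) ≤ 2 * n ∧ ‖e ((t : ℝ) / n) - w‖ < ρ := by
      intro t ht
      rw [hS, Finset.mem_filter, Finset.mem_Ioc] at ht
      exact ⟨by exact_mod_cast ht.1.1, by exact_mod_cast ht.1.2, ht.2⟩
    obtain ⟨a1, a2, a3⟩ := h1 t ht
    obtain ⟨b1, b2, b3⟩ := h1 t0 ht0
    obtain ⟨u, hu⟩ : ∃ u : ℝ, u = ((t : ℝ) - t0) / n := ⟨_, rfl⟩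
    have hun : (t : ℝ) - t0 = u * n := by rw [hu]; field_simp
    have hu1 : |u| ≤ 1 := by
      rw [hu, abs_div, abs_of_pos hnR, div_le_one hnR, abs_le]
      constructor <;> linarith
    have h2 : ‖e u - 1‖ < 2 * ρ := by
      have h3 : e ((t : ℝ) / n) = e ((t0 : ℝ) / n) * e u := by
        rw [← e_add]
        congr 1
        rw [hu]
        ring
      have h4 : e ((t : ℝ) / n) - e ((t0 : ℝ) / n) = e ((t0 : ℝ) / n) * (e u - 1) := by
        rw [h3]
        ring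
      have h5 : ‖e u - 1‖ = ‖e ((t : ℝ) / n) - e ((t0 : ℝ) / n)‖ := by
        rw [h4, norm_mul, norm_e, one_mul]
      have h6 : e ((t : ℝ) / n) - e ((t0 : ℝ) / n) =
          (e ((t : ℝ) / n) - w) - (e ((t0 : ℝ) / n) - w) := by ring
      rw [h5, h6]
      refine (norm_sub_le _ _).trans_lt ?_
      linarith
    rw [norm_e_sub_one] at h2
    have h3 : |Real.sin (Real.pi * u)| < ρ := by linarith
    -- three cases
    have hsin : ∀ v : ℝ, |v| ≤ 1 / 2 → |v| * 2 ≤ |Real.sin (Real.pi * v)| := by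
      intro v hv
      have h4 := Real.mul_abs_le_abs_sin (x := Real.pi * v) (by
        rw [abs_mul, abs_of_pos Real.pi_pos]
        nlinarith [Real.pi_pos])
      rw [abs_mul, abs_of_pos Real.pi_pos] at h4
      have h5 : 2 / Real.pi * (Real.pi * |v|) = |v| * 2 := by
        have := Real.pi_pos.ne'
        field_simp
      linarith
    rw [Finset.mem_union, Finset.mem_union, Finset.mem_filter, Finset.mem_filter,
      Finset.mem_filter]
    rw [abs_le] at hu1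
    rcases le_or_gt |u| (1 / 2) with hc | hc
    · left; left
      refine ⟨ht, ?_⟩
      have h4 := hsin u hc
      rw [hun, abs_mul, abs_of_pos hnR]
      nlinarith
    · rcases lt_abs.1 hc with hc1 | hc1
      · left; right
        refine ⟨ht, ?_⟩
        have h4 := hsin (u - 1) (by rw [abs_le]; constructor <;> linarith)
        have h5 : |Real.sin (Real.pi * (u - 1))| = |Real.sin (Real.pi * u)| := by
          have : Real.pi * (u - 1) = Real.pi * u - Real.pi := by ring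
          rw [this, Real.sin_sub_pi, abs_neg]
        have h6 : (t : ℝ) - (t0 + n) = (u - 1) * n := by linarith
        rw [h6, abs_mul, abs_of_pos hnR]
        nlinarith
      · right
        refine ⟨ht, ?_⟩
        have h4 := hsin (u + 1) (by rw [abs_le]; constructor <;> linarith)
        have h5 : |Real.sin (Real.pi * (u + 1))| = |Real.sin (Real.pi * u)| := by
          have : Real.pi * (u + 1) = Real.pi * u + Real.pi := by ring
          rw [this, Real.sin_add_pi, abs_neg]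
        have h6 : (t : ℝ) - (t0 - n) = (u + 1) * n := by linarith
        rw [h6, abs_mul, abs_of_pos hnR]
        nlinarith
  have h1 := Finset.card_le_card hsub
  have h2 := Finset.card_union_le ((S.filter (fun t : ℕ => |(t : ℝ) - t0| ≤ ρ * n / 2)) ∪
      (S.filter (fun t : ℕ => |(t : ℝ) - (t0 + n)| ≤ ρ * n / 2)))
      (S.filter (fun t : ℕ => |(t : ℝ) - (t0 - n)| ≤ ρ * n / 2))
  have h3 := Finset.card_union_le (S.filter (fun t : ℕ => |(t : ℝ) - t0| ≤ ρ * n / 2))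
      (S.filter (fun t : ℕ => |(t : ℝ) - (t0 + n)| ≤ ρ * n / 2))
  have h4 := card_near S t0 (ρ * n / 2) (by positivity)
  have h5 := card_near S (t0 + n) (ρ * n / 2) (by positivity)
  have h6 := card_near S (t0 - n) (ρ * n / 2) (by positivity)
  have h7 : (S.card : ℝ) ≤ ((S.filter (fun t : ℕ => |(t : ℝ) - t0| ≤ ρ * n / 2)).card : ℝ) +
      ((S.filter (fun t : ℕ => |(t : ℝ) - (t0 + n)| ≤ ρ * n / 2)).card : ℝ) +
      ((S.filter (fun t : ℕ => |(t : ℝ) - (t0 - n)| ≤ ρ * n / 2)).card : ℝ) := by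
    have := h1.trans (h2.trans (Nat.add_le_add_right h3 _))
    exact_mod_cast this
  linarith

end Pool.Agent.J6H93.Fam
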