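import Pool.Agent.J6H93.Fam.Trig

/-!
# Exponential sums over the values of trigonometric polynomials at the points `a / n`
-/

set_option autoImplicit false

namespace Pool.Agent.J6H93.Fam

open Finset Filter Polynomial
open Pool.Agent.Y933.KD (e norm_e e_add e_zero norm_e_sub_one)
open Pool.Agent.N586.RT (logpow log_ge fact_le)

lemma exp_ge_ev (a K : ℝ) (ha : 0 < a) : ∀ᶠ N : ℕ in atTop, K ≤ Real.exp (a * Real.log N) := by
  filter_upwards [log_ge (K / a)] with N hN
  have h1 := Real.add_one_le_exp (a * Real.log N)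
  rw [div_le_iff₀ ha] at hN
  linarith

lemma mul_log_le_exp_ev (a K : ℝ) (ha : 0 < a) (_hK : 0 < K) :
    ∀ᶠ N : ℕ in atTop, K * Real.log N ≤ Real.exp (a * Real.log N) := by
  filter_upwards [log_ge (K * 4 / a ^ 2), log_ge 0] with N hN hN0
  have h1 := Real.add_one_le_exp (a / 2 * Real.log N)
  have h2 : Real.exp (a * Real.log N) = Real.exp (a / 2 * Real.log N) ^ 2 := by
    rw [← Real.exp_nat_mul]
    congr 1
    push_cast
    ring
  rw [div_le_iff₀ (by positivity)] at hN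
  have h3 : 0 ≤ a / 2 * Real.log N := by positivity
  have h4 : (a / 2 * Real.log N) ^ 2 ≤ Real.exp (a / 2 * Real.log N) ^ 2 := by
    apply pow_le_pow_left₀ h3
    linarith
  rw [h2]
  refine le_trans ?_ h4
  nlinarith

/-- **exponential sums over the values of trigonometric polynomials** -/
theorem es_trig (D₀ : ℕ) (hD₀ : 1 ≤ D₀) (δ β : ℝ) (hδ : 0 < δ) (hβ : 0 < β) (hδβ : 2 * δ + β < 1) :
    ∃ n₀ : ℕ, ∀ n : ℕ, n₀ ≤ n → ∀ D : ℕ, 1 ≤ D → D ≤ D₀ → ∀ q : ℤ → ℂ,
      (∀ x, (G q D 0 x).im = 0) → (∀ k, ‖q k‖ ≤ Real.exp ((Real.log n) ^ β)) →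
      Real.exp (-(Real.log n) ^ β) ≤ ‖q D‖ → ∀ θ : ℝ, (n : ℝ) ^ (1 / 2 : ℝ) ≤ |θ| →
      |θ| ≤ Real.exp ((Real.log n) ^ (1 + δ)) →
      ‖∑ t ∈ Finset.Ioc n (2 * n), e (θ * (G q D 0 ((t : ℝ) / n)).re)‖ ≤
        n * Real.exp (-(Real.log n) ^ β) := by
  classical
  obtain ⟨β1, hβ1⟩ : ∃ β1 : ℝ, β1 = β + (1 - 2 * δ - β) / 2 := ⟨_, rfl⟩
  have hββ : β < β1 := by linarith
  have hδβ1 : 2 * δ + β1 < 1 := by linarith
  have hβ11 : β1 < 1 := by linarith
  obtain ⟨N1, hN1⟩ := es_gen (μ := 2 / 5) (g₀ := 1 / 20) (γ := 1 / 2) (κ₀ := 1 / 2) (w₁ := 2) (w₂ := 3)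
    (w₃ := 1 / 2) (by norm_num) le_rfl (by norm_num) (by norm_num) le_rfl
    (fun κ hκ => by
      have h1 := Pool.Agent.Y70.VK.card_good (κ := κ) hκ (r := ⌈5 * κ⌉₊ + 5) (by
        push_cast
        linarith [Nat.le_ceil (5 * κ)])
      linarith)
    (fun κ j hκ h1 h2 => ⟨by linarith, by linarith, by linarith⟩)
    δ β1 1 hδ (by linarith) hδβ1 one_pos
  have hD₀R : (1 : ℝ) ≤ D₀ := by exact_mod_cast hD₀
  have hD₀0 : (0 : ℝ) < D₀ := by linarith
  obtain ⟨lD, hlD⟩ : ∃ lD : ℝ, lD = Real.log (2 * Real.pi * D₀) := ⟨_, rfl⟩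
  have hπ := Real.pi_gt_three
  have h2πD : 1 ≤ 2 * Real.pi * D₀ := by nlinarith
  have hlD0 : 0 ≤ lD := by rw [hlD]; exact Real.log_nonneg h2πD
  obtain ⟨N2, hN2⟩ := eventually_atTop.1 ((((((((((((logpow (by linarith : β < 1) 160).and
    (logpow (by linarith : δ < 1) 1280)).and (log_ge (320 * lD))).and
    (exp_ge_ev (1 / 320) (2 * D₀ + 1) (by norm_num))).and
    (logpow (by linarith : δ < 1) (19 * lD * 40))).and
    (logpow hβ11 (640 * D₀))).and
    (mul_log_le_exp_ev (1 / (640 * D₀)) (228 * D₀) (by positivity) (by positivity))).and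
    (logpow hβ11 10)).and (exp_ge_ev (1 / 10) 2 (by norm_num))).and
    (logpow hββ 2)).and (logpow hβ 2)).and (log_ge 1))
  refine ⟨max (max N1 N2) 2, ?_⟩
  intro n hn D hD hDD q hreal hq1 hq2 θ hθ1 hθ2
  have hnN1 : N1 ≤ n := le_of_max_le_left (le_of_max_le_left hn)
  obtain ⟨⟨⟨⟨⟨⟨⟨⟨⟨⟨⟨c1, c2⟩, c3⟩, c4⟩, c5⟩, c6⟩, c7⟩, c8⟩, c9⟩, c10⟩, c11⟩, c12⟩ :=
    hN2 n (le_of_max_le_right (le_of_max_le_left hn))
  have hn2 : 2 ≤ n := le_of_max_le_right hn
  have hnR : (2 : ℝ) ≤ n := by exact_mod_cast hn2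
  have hn0 : (0 : ℝ) < n := by linarith
  have hn1 : (1 : ℝ) ≤ n := by linarith
  obtain ⟨L, hL⟩ : ∃ L : ℝ, L = Real.log n := ⟨_, rfl⟩
  have key := hN1 n hnN1
  rw [← hL] at c1 c2 c3 c4 c5 c6 c7 c8 c9 c10 c11 c12 hq1 hq2 hθ2 key ⊢
  rw [Real.rpow_one] at c1 c2 c5 c6 c8
  rw [Real.rpow_zero, mul_one] at c11
  have hL0 : 0 < L := by linarith
  have hexp : ∀ a : ℝ, (n : ℝ) ^ a = Real.exp (a * L) := by
    intro a
    rw [Real.rpow_def_of_pos hn0, hL, mul_comm]
  have hθ0 : 0 < |θ| := lt_of_lt_of_le (Real.rpow_pos_of_pos hn0 _) hθ1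
  obtain ⟨κ, hκ⟩ : ∃ κ : ℝ, κ = Real.log |θ| / L := ⟨_, rfl⟩
  have hθκ : |θ| = (n : ℝ) ^ κ := by
    rw [hexp, hκ, div_mul_cancel₀ _ hL0.ne', Real.exp_log hθ0]
  have hκ1 : 1 / 2 ≤ κ := by
    rw [hκ, le_div_iff₀ hL0, Real.le_log_iff_exp_le hθ0, ← hexp]
    exact hθ1
  have hκ0 : 0 < κ := by linarith
  have hκ2 : κ ≤ L ^ δ := by
    rw [hκ, div_le_iff₀ hL0]
    have e0 : L ^ δ * L = L ^ (1 + δ) := by
      rw [add_comm, Real.rpow_add hL0, Real.rpow_one]
    rw [e0, Real.log_le_iff_le_exp hθ0]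
    exact hθ2
  have hLδ : L ^ δ ≤ L := by
    have e1 : 0 ≤ L ^ δ := by positivity
    nlinarith
  obtain ⟨V, hV⟩ : ∃ V : ℝ, V = Real.exp (L ^ β) := ⟨_, rfl⟩
  have hVinv : Real.exp (-L ^ β) = V⁻¹ := by rw [hV, Real.exp_neg]
  rw [← hV] at hq1
  rw [hVinv] at hq2
  have hV0 : 0 < V := by rw [hV]; exact Real.exp_pos _
  have hqD0 : q D ≠ 0 := by
    intro h
    rw [h, norm_zero] at hq2
    have : 0 < V⁻¹ := by positivity
    linarith
  have hV1 : V ≤ Real.exp (κ * L / 80) := by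
    rw [hV]
    apply Real.exp_le_exp.2
    nlinarith
  have hDR : (1 : ℝ) ≤ D := by exact_mod_cast hD
  have hDDR : (D : ℝ) ≤ D₀ := by exact_mod_cast hDD
  obtain ⟨R, hR⟩ : ∃ R : ℕ, R = ⌈5 * κ⌉₊ + 5 := ⟨_, rfl⟩
  have hR1 : (R : ℝ) ≤ 5 * κ + 6 := by
    rw [hR]
    push_cast
    have := Nat.ceil_lt_add_one (a := 5 * κ) (by linarith)
    linarith
  -- powers of `2 π D`
  have hpowD : ∀ (j : ℕ) (x : ℝ), (j : ℝ) ≤ x → (2 * Real.pi * D) ^ j ≤ Real.exp (x * lD) := by
    intro j x hjx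
    calc (2 * Real.pi * D) ^ j ≤ (2 * Real.pi * D₀) ^ j := by gcongr
      _ = Real.exp (j * lD) := by
        rw [hlD, Real.exp_nat_mul, Real.exp_log (by positivity)]
      _ ≤ _ := Real.exp_le_exp.2 (mul_le_mul_of_nonneg_right hjx hlD0)
  have hDV : (2 * (D : ℝ) + 1) ≤ Real.exp (κ * L / 160) := by
    calc (2 * (D : ℝ) + 1) ≤ 2 * D₀ + 1 := by linarith
      _ ≤ Real.exp (1 / 320 * L) := c4
      _ ≤ _ := by
        apply Real.exp_le_exp.2
        nlinarith
  -- the bad set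
  obtain ⟨ρ, hρ⟩ : ∃ ρ : ℝ, ρ = Real.exp (-(L / (320 * D₀))) := ⟨_, rfl⟩
  have hρ0 : 0 < ρ := by rw [hρ]; exact Real.exp_pos _
  have hρ1 : ρ ≤ 1 := by
    rw [hρ, Real.exp_le_one_iff]
    have : 0 < L / (320 * D₀) := by positivity
    linarith
  have hρD : Real.exp (-(κ * L / 80)) ≤ ρ ^ (2 * D) := by
    rw [hρ, ← Real.exp_nat_mul]
    apply Real.exp_le_exp.2
    push_cast
    have e1 : 2 * (D : ℝ) * -(L / (320 * D₀)) = -(D / D₀ * (L / 160)) := by
      field_simp
      ring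
    rw [e1]
    have e2 : (D : ℝ) / D₀ ≤ 1 := by
      rw [div_le_one hD₀0]
      exact hDDR
    have e3 : (D : ℝ) / D₀ * (L / 160) ≤ 1 * (L / 160) := by gcongr
    have e4 : L / 160 ≤ κ * L / 80 := by nlinarith
    linarith
  obtain ⟨bad, hbad⟩ : ∃ bad : Finset ℕ, bad = (Finset.range (R + 1)).biUnion fun m =>
      (P q D m).roots.toFinset.biUnion fun w =>
        (Finset.Ioc n (2 * n)).filter (fun t : ℕ => ‖e ((t : ℝ) / n) - w‖ < ρ) := ⟨_, rfl⟩
  have hbadcard : (bad.card : ℝ) ≤ n * Real.exp (-L ^ β1) := by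
    have e1 : (bad.card : ℝ) ≤ ∑ _m ∈ Finset.range (R + 1), (2 * D₀) * (3 * (ρ * n + 1)) := by
      rw [hbad]
      refine le_trans (Nat.cast_le.2 Finset.card_biUnion_le) ?_
      push_cast
      refine Finset.sum_le_sum fun m _ => ?_
      refine le_trans (Nat.cast_le.2 Finset.card_biUnion_le) ?_
      push_cast
      calc ∑ w ∈ (P q D m).roots.toFinset,
          (((Finset.Ioc n (2 * n)).filter (fun t : ℕ => ‖e ((t : ℝ) / n) - w‖ < ρ)).card : ℝ) ≤
          ∑ _w ∈ (P q D m).roots.toFinset, 3 * (ρ * n + 1) :=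
            Finset.sum_le_sum fun w _ => card_roots_near (by omega) w hρ0
        _ = ((P q D m).roots.toFinset.card : ℝ) * (3 * (ρ * n + 1)) := by
            rw [Finset.sum_const, nsmul_eq_mul]
        _ ≤ _ := by
            refine mul_le_mul_of_nonneg_right ?_ (by positivity)
            have e2 : (P q D m).roots.toFinset.card ≤ 2 * D :=
              (Multiset.toFinset_card_le _).trans ((card_roots' _).trans (P_natDegree_le q D m))
            have e3 : ((P q D m).roots.toFinset.card : ℝ) ≤ 2 * D := by exact_mod_cast e2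
            linarith
    refine e1.trans ?_
    rw [Finset.sum_const, Finset.card_range, nsmul_eq_mul]
    have e2 : 1 ≤ ρ * n := by
      have e3 : ρ * n = Real.exp (-(L / (320 * D₀)) + L) := by
        rw [Real.exp_add, hρ]
        congr 1
        rw [hL, Real.exp_log hn0]
      rw [e3]
      apply Real.one_le_exp
      have : L / (320 * D₀) ≤ L := div_le_self hL0.le (by linarith)
      linarith
    have e3 : ((R + 1 : ℕ) : ℝ) ≤ 19 * L := by
      push_cast
      linarith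
    calc ((R + 1 : ℕ) : ℝ) * ((2 * D₀) * (3 * (ρ * n + 1))) ≤
        (19 * L) * ((2 * D₀) * (3 * (ρ * n + ρ * n))) := by gcongr
      _ = (228 * D₀ * L) * (ρ * n) := by ring
      _ ≤ Real.exp (1 / (640 * D₀) * L) * (ρ * n) := by gcongr
      _ = n * (Real.exp (1 / (640 * D₀) * L) * ρ) := by ring
      _ ≤ _ := by
        refine mul_le_mul_of_nonneg_left ?_ hn0.le
        rw [hρ, ← Real.exp_add]
        apply Real.exp_le_exp.2
        have e4 : 1 / (640 * (D₀ : ℝ)) * L + -(L / (320 * D₀)) = -(L / (640 * D₀)) := by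
          field_simp
          ring
        rw [e4]
        have e5 : L ^ β1 ≤ L / (640 * D₀) := by
          rw [le_div_iff₀ (by positivity)]
          linarith
        linarith
  -- the application
  have key2 := key κ hκ1 (by linarith) n (2 * n) (fT q D θ n) bad (by omega)
    (fT_chain q D θ hn0.ne' _)
    (by
      intro t _
      rw [← hR, fT_abs hreal θ hn0, div_div, div_le_iff₀ (by positivity)]
      have e1 := G_le hq1 (R + 1) (t / n) (D := D)
      have e2 := hpowD (R + 1) (19 * κ) (by push_cast; linarith)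
      have e3 : (1 : ℝ) ≤ ((R + 1).factorial : ℝ) := by exact_mod_cast Nat.factorial_pos _
      have e4 : Real.exp (19 * κ * lD) ≤ Real.exp (L / 40) := by
        apply Real.exp_le_exp.2
        have : 19 * κ * lD ≤ 19 * L ^ δ * lD := by gcongr
        linarith
      have e5 : V ≤ Real.exp (L / 160) := by
        rw [hV]
        apply Real.exp_le_exp.2
        linarith
      have e6 : (2 * (D : ℝ) + 1) ≤ Real.exp (1 / 320 * L) := by
        calc (2 * (D : ℝ) + 1) ≤ 2 * D₀ + 1 := by linarith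
          _ ≤ Real.exp (1 / 320 * L) := c4
      have e7 : ‖G q D (R + 1) (t / n)‖ ≤ (n : ℝ) ^ (1 / 10 : ℝ) := by
        calc ‖G q D (R + 1) (t / n)‖ ≤ (2 * D + 1) * V * (2 * Real.pi * D) ^ (R + 1) := e1
          _ ≤ Real.exp (1 / 320 * L) * Real.exp (L / 160) * Real.exp (L / 40) := by
              have := e2.trans e4
              gcongr
          _ = Real.exp (1 / 320 * L + L / 160 + L / 40) := by
              rw [Real.exp_add, Real.exp_add]
          _ ≤ _ := by
              rw [hexp]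
              apply Real.exp_le_exp.2
              linarith
      have e8 : (n : ℝ) ^ (κ - ((R + 1 : ℕ) : ℝ) + 1 / 10) =
          |θ| * (n : ℝ) ^ (1 / 10 : ℝ) / (n : ℝ) ^ (R + 1) := by
        rw [Real.rpow_add hn0, Real.rpow_sub hn0, Real.rpow_natCast, hθκ]
        ring
      rw [e8]
      have e9 : |θ| * (n : ℝ) ^ (1 / 10 : ℝ) / (n : ℝ) ^ (R + 1) *
          ((n : ℝ) ^ (R + 1) * ((R + 1).factorial : ℝ)) =
          |θ| * (n : ℝ) ^ (1 / 10 : ℝ) * ((R + 1).factorial : ℝ) := by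
        field_simp
      rw [e9]
      calc |θ| * ‖G q D (R + 1) (t / n)‖ ≤ |θ| * (n : ℝ) ^ (1 / 10 : ℝ) := by gcongr
        _ = |θ| * (n : ℝ) ^ (1 / 10 : ℝ) * 1 := (mul_one _).symm
        _ ≤ _ := by gcongr)
    (by
      intro t ht htb j hj1 hj2
      have hjR : j < R + 1 := by
        have e1 : (j : ℝ) < R + 1 := by
          rw [hR]
          push_cast
          have := Nat.le_ceil (5 * κ)
          linarith
        exact_mod_cast e1
      have hroots : ∀ w ∈ (P q D j).roots, ρ ≤ ‖e ((t : ℝ) / n) - w‖ := by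
        intro w hw
        by_contra hcon
        apply htb
        rw [hbad, Finset.mem_biUnion]
        refine ⟨j, Finset.mem_range.2 hjR, ?_⟩
        rw [Finset.mem_biUnion]
        exact ⟨w, Multiset.mem_toFinset.2 hw, Finset.mem_filter.2 ⟨ht, not_le.1 hcon⟩⟩
      have e1 := G_ge (m := j) hD hqD0 hρ0 hρ1 hroots
      have e2 := G_le hq1 j ((t : ℝ) / n) (D := D)
      have hj4 : (j : ℝ) ≤ 4 * κ := by linarith
      have e3 := hpowD j (4 * κ) hj4
      have e4 : Real.exp (4 * κ * lD) ≤ Real.exp (κ * L / 80) := by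
        apply Real.exp_le_exp.2
        nlinarith
      have hfac0 : (0 : ℝ) < (j.factorial : ℝ) := by exact_mod_cast Nat.factorial_pos _
      have hfac1 : (1 : ℝ) ≤ (j.factorial : ℝ) := by exact_mod_cast Nat.factorial_pos _
      have e5 : (j.factorial : ℝ) ≤ Real.exp (κ * L / 80) := by
        refine (fact_le j).trans (Real.exp_le_exp.2 ?_)
        have e6 : (j : ℝ) ^ 2 ≤ (4 * κ) ^ 2 := by gcongr
        nlinarith
      rw [abs_div, abs_of_pos hfac0, fT_abs hreal θ hn0]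
      have e6 : ∀ a : ℝ, (n : ℝ) ^ (κ + a - j) = |θ| * Real.exp (a * L) / (n : ℝ) ^ j := by
        intro a
        rw [Real.rpow_sub hn0, Real.rpow_add hn0, Real.rpow_natCast, hθκ, hexp a]
      constructor
      · have e7 : κ - 1 / 20 * κ - j = κ + (-(κ / 20)) - j := by ring
        rw [e7, e6, le_div_iff₀ hfac0]
        have e8 : Real.exp (-(κ / 20) * L) * (j.factorial : ℝ) ≤ ‖G q D j ((t : ℝ) / n)‖ := by
          calc Real.exp (-(κ / 20) * L) * (j.factorial : ℝ) ≤
              Real.exp (-(κ / 20) * L) * Real.exp (κ * L / 80) := by gcongr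
            _ = Real.exp (-(κ / 20) * L + κ * L / 80) := by rw [Real.exp_add]
            _ ≤ Real.exp (-(κ * L / 80) + -(κ * L / 80)) := by
                apply Real.exp_le_exp.2
                have : 0 < κ * L := by positivity
                linarith
            _ = Real.exp (-(κ * L / 80)) * Real.exp (-(κ * L / 80)) := Real.exp_add _ _
            _ ≤ ‖q D‖ * ρ ^ (2 * D) := by
                refine mul_le_mul (le_trans ?_ hq2) hρD (Real.exp_pos _).le (norm_nonneg _)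
                rw [Real.exp_neg]
                gcongr
            _ ≤ _ := e1
        calc |θ| * Real.exp (-(κ / 20) * L) / (n : ℝ) ^ j * (j.factorial : ℝ) =
            |θ| * (Real.exp (-(κ / 20) * L) * (j.factorial : ℝ)) / (n : ℝ) ^ j := by ring
          _ ≤ |θ| * ‖G q D j ((t : ℝ) / n)‖ / (n : ℝ) ^ j := by gcongr
      · have e7 : κ + 1 / 20 * κ - j = κ + κ / 20 - j := by ring
        rw [e7, e6]
        have e8 : ‖G q D j ((t : ℝ) / n)‖ ≤ Real.exp (κ / 20 * L) := by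
          calc ‖G q D j ((t : ℝ) / n)‖ ≤ (2 * D + 1) * V * (2 * Real.pi * D) ^ j := e2
            _ ≤ Real.exp (κ * L / 160) * Real.exp (κ * L / 80) * Real.exp (κ * L / 80) := by
                have := e3.trans e4
                gcongr
            _ = Real.exp (κ * L / 160 + κ * L / 80 + κ * L / 80) := by
                rw [Real.exp_add, Real.exp_add]
            _ ≤ _ := by
                apply Real.exp_le_exp.2
                have : 0 < κ * L := by positivity
                linarith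
        calc |θ| * ‖G q D j ((t : ℝ) / n)‖ / (n : ℝ) ^ j / (j.factorial : ℝ) ≤
            |θ| * ‖G q D j ((t : ℝ) / n)‖ / (n : ℝ) ^ j := div_le_self (by positivity) hfac1
          _ ≤ _ := by gcongr)
  have e0 : ∀ t : ℕ, fT q D θ n 0 t = θ * (G q D 0 ((t : ℝ) / n)).re := by
    intro t
    unfold fT
    simp
  simp only [e0] at key2
  refine key2.trans ?_
  have e1 : ((2 * n - n : ℕ) : ℝ) = n := by
    congr 1
    omega
  rw [e1]
  have e2 : 2 * (n : ℝ) ^ (2 * (2 / 5) : ℝ) ≤ n * Real.exp (-L ^ β1) := by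
    rw [hexp]
    have e3 : (n : ℝ) = Real.exp L := by rw [hL, Real.exp_log hn0]
    rw [e3, ← Real.exp_add]
    calc 2 * Real.exp (2 * (2 / 5) * L) ≤ Real.exp (1 / 10 * L) * Real.exp (2 * (2 / 5) * L) := by
          gcongr
      _ = Real.exp (1 / 10 * L + 2 * (2 / 5) * L) := by rw [Real.exp_add]
      _ ≤ _ := by
          apply Real.exp_le_exp.2
          linarith
  have e3 : 3 * Real.exp (-L ^ β1) ≤ Real.exp (-L ^ β) := by
    have e4 : (3 : ℝ) ≤ Real.exp (L ^ β) := by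
      have := Real.add_one_le_exp (L ^ β)
      linarith
    calc 3 * Real.exp (-L ^ β1) ≤ Real.exp (L ^ β) * Real.exp (-L ^ β1) := by gcongr
      _ = Real.exp (L ^ β + -L ^ β1) := by rw [Real.exp_add]
      _ ≤ _ := by
          apply Real.exp_le_exp.2
          linarith
  calc (n : ℝ) * Real.exp (-L ^ β1) + bad.card + 2 * (n : ℝ) ^ (2 * (2 / 5) : ℝ) ≤
      n * (3 * Real.exp (-L ^ β1)) := by linarith
    _ ≤ _ := by gcongr

end Pool.Agent.J6H93.Fam
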