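import Pool.Agent.J6H93.Fam.Jb1

/-!
# Values at primes: differences of dilates of Puiseux series
-/

set_option autoImplicit false

namespace Pool.Agent.J6H93.Fam

open Finset Filter Topology Polynomial

/-- differences of powers -/
lemma rpow_sub_le (κ : ℝ) {s s' : ℝ} (h1 : 1 ≤ s') (h2 : s' ≤ s) (h3 : s ≤ 2 * s') :
    |s ^ κ - s' ^ κ| ≤ |κ| * 2 ^ (|κ| + 1) * ((s - s') * s' ^ (κ - 1)) := by
  have h0 : 0 < s' := by linarith
  have key := norm_image_sub_le_of_norm_deriv_le_segment' (f := fun x : ℝ => x ^ κ)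
    (f' := fun x => κ * x ^ (κ - 1)) (a := s') (b := s) (C := |κ| * 2 ^ (|κ| + 1) * s' ^ (κ - 1))
    (fun x hx => (Real.hasDerivAt_rpow_const (Or.inl (by
      have := hx.1
      intro h
      linarith))).hasDerivWithinAt)
    (fun x hx => by
      have hx0 : 0 < x := by linarith [hx.1]
      rw [norm_mul, Real.norm_eq_abs, Real.norm_eq_abs, abs_of_pos (Real.rpow_pos_of_pos hx0 _),
        mul_assoc]
      refine mul_le_mul_of_nonneg_left ?_ (abs_nonneg _)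
      rcases le_or_gt 0 (κ - 1) with hκ | hκ
      · calc x ^ (κ - 1) ≤ (2 * s') ^ (κ - 1) :=
              Real.rpow_le_rpow hx0.le (by linarith [hx.2]) hκ
          _ = 2 ^ (κ - 1) * s' ^ (κ - 1) := Real.mul_rpow (by norm_num) h0.le
          _ ≤ 2 ^ (|κ| + 1) * s' ^ (κ - 1) := by
            refine mul_le_mul_of_nonneg_right ?_ (Real.rpow_nonneg h0.le _)
            apply Real.rpow_le_rpow_of_exponent_le (by norm_num)
            have := le_abs_self κ
            linarith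
      · calc x ^ (κ - 1) ≤ s' ^ (κ - 1) := Real.rpow_le_rpow_of_nonpos h0 hx.1 hκ.le
          _ ≤ 2 ^ (|κ| + 1) * s' ^ (κ - 1) := by
            refine le_mul_of_one_le_left (Real.rpow_nonneg h0.le _) ?_
            exact Real.one_le_rpow (by norm_num) (by positivity))
    s (Set.right_mem_Icc.2 h2)
  rw [Real.norm_eq_abs] at key
  refine key.trans (le_of_eq ?_)
  ring

/-- differences of powers from below -/
lemma rpow_sub_ge {κ : ℝ} (hκ : 0 < κ) {s s' : ℝ} (h1 : 1 ≤ s') (h2 : s' ≤ s) (h3 : s ≤ 2 * s') :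
    κ / 2 * ((s - s') * s' ^ (κ - 1)) ≤ s ^ κ - s' ^ κ := by
  have h0 : 0 < s' := by linarith
  rcases h2.eq_or_lt with h4 | h4
  · rw [h4]
    simp
  obtain ⟨x, hx, hd⟩ := exists_hasDerivAt_eq_slope (fun x : ℝ => x ^ κ) (fun x => κ * x ^ (κ - 1)) h4
    (fun x hx => (Real.continuousAt_rpow_const x κ (Or.inl (by
      have := hx.1
      intro h
      linarith))).continuousWithinAt)
    (fun x hx => Real.hasDerivAt_rpow_const (Or.inl (by
      have := hx.1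
      intro h
      linarith)))
  have hx0 : 0 < x := by linarith [hx.1]
  have hss : 0 < s - s' := by linarith
  rw [eq_div_iff hss.ne'] at hd
  rw [← hd]
  have h5 : 1 / 2 * s' ^ (κ - 1) ≤ x ^ (κ - 1) := by
    rcases le_or_gt 0 (κ - 1) with hκ1 | hκ1
    · have h6 : s' ^ (κ - 1) ≤ x ^ (κ - 1) := Real.rpow_le_rpow h0.le hx.1.le hκ1
      have h7 : 0 ≤ s' ^ (κ - 1) := Real.rpow_nonneg h0.le _
      linarith
    · calc 1 / 2 * s' ^ (κ - 1) ≤ 2 ^ (κ - 1) * s' ^ (κ - 1) := by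
            refine mul_le_mul_of_nonneg_right ?_ (Real.rpow_nonneg h0.le _)
            calc (1 : ℝ) / 2 = 2 ^ (-1 : ℝ) := by rw [Real.rpow_neg_one]; norm_num
              _ ≤ _ := Real.rpow_le_rpow_of_exponent_le (by norm_num) (by linarith)
        _ = (2 * s') ^ (κ - 1) := (Real.mul_rpow (by norm_num) h0.le).symm
        _ ≤ _ := Real.rpow_le_rpow_of_nonpos hx0 (by linarith [hx.2]) hκ1.le
  calc κ / 2 * ((s - s') * s' ^ (κ - 1)) = κ * (1 / 2 * s' ^ (κ - 1)) * (s - s') := by ring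
    _ ≤ κ * x ^ (κ - 1) * (s - s') := by gcongr

/-- the remainder: analytic in a half plane, bounded, with bounded differences of dilates -/
def Rem (R C θ₁ : ℝ) (E : ℂ → ℂ) : Prop :=
  DifferentiableOn ℂ E (Hp R) ∧ (∀ z ∈ Hp R, ‖E z‖ ≤ C * ‖z‖ ^ θ₁) ∧
  ∀ z ∈ Hp R, ∀ s s' : ℝ, 1 ≤ s' → s' ≤ s → s ≤ 2 * s' →
    ‖E (s * z) - E (s' * z)‖ ≤ C * ((s - s') * s' ^ (θ₁ - 1)) * ‖z‖ ^ θ₁

lemma Hp_norm' {R : ℝ} {z : ℂ} (hz : z ∈ Hp R) : R < ‖z‖ :=
  lt_of_lt_of_le hz ((le_abs_self _).trans (Complex.abs_re_le_norm z))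

/-- powers -/
lemma rem_pow {R κ θ₁ : ℝ} (hR : 1 ≤ R) (hκ : κ ≤ θ₁) :
    Rem R (|κ| * 2 ^ (|κ| + 1) + 1) θ₁ (fun z => z ^ (κ : ℂ)) := by
  have hC : 0 ≤ |κ| * 2 ^ (|κ| + 1) := by positivity
  refine ⟨cpow_diff (by linarith) _, fun z hz => ?_, fun z hz s s' h1 h2 h3 => ?_⟩
  · have hz1 : 1 < ‖z‖ := lt_of_le_of_lt hR (Hp_norm' hz)
    rw [Complex.norm_cpow_real]
    calc ‖z‖ ^ κ ≤ ‖z‖ ^ θ₁ := Real.rpow_le_rpow_of_exponent_le hz1.le hκ
      _ ≤ _ := le_mul_of_one_le_left (by positivity) (by linarith)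
  · have hz1 : 1 < ‖z‖ := lt_of_le_of_lt hR (Hp_norm' hz)
    have h0 : 0 < s' := by linarith
    have h00 : 0 < s := by linarith
    have e1 : ∀ x : ℝ, 0 < x → ((x : ℂ) * z) ^ (κ : ℂ) = ((x ^ κ : ℝ) : ℂ) * z ^ (κ : ℂ) := by
      intro x hx
      have hz0 : z ≠ 0 := by
        rintro rfl
        rw [norm_zero] at hz1
        linarith
      rw [Complex.ofReal_cpow hx.le, Complex.cpow_def_of_ne_zero (mul_ne_zero (by
        exact_mod_cast hx.ne') hz0), Complex.cpow_def_of_ne_zero (by exact_mod_cast hx.ne'),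
        Complex.cpow_def_of_ne_zero hz0, Complex.log_ofReal_mul hx hz0, add_mul, Complex.exp_add,
        Complex.ofReal_log hx.le]
    show ‖((s : ℂ) * z) ^ (κ : ℂ) - ((s' : ℂ) * z) ^ (κ : ℂ)‖ ≤ _
    rw [e1 s h00, e1 s' h0, ← sub_mul, norm_mul, Complex.norm_cpow_real, ← Complex.ofReal_sub,
      Complex.norm_real, Real.norm_eq_abs]
    have h4 : ‖z‖ ^ κ ≤ ‖z‖ ^ θ₁ := Real.rpow_le_rpow_of_exponent_le hz1.le hκ
    have h5 : s' ^ (κ - 1) ≤ s' ^ (θ₁ - 1) :=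
      Real.rpow_le_rpow_of_exponent_le h1 (by linarith)
    have hss : 0 ≤ s - s' := by linarith
    calc |s ^ κ - s' ^ κ| * ‖z‖ ^ κ ≤
        (|κ| * 2 ^ (|κ| + 1) * ((s - s') * s' ^ (κ - 1))) * ‖z‖ ^ θ₁ := by
          refine mul_le_mul (rpow_sub_le κ h1 h2 h3) h4 (by positivity) ?_
          have : 0 ≤ s' ^ (κ - 1) := Real.rpow_nonneg h0.le _
          positivity
      _ ≤ ((|κ| * 2 ^ (|κ| + 1) + 1) * ((s - s') * s' ^ (θ₁ - 1))) * ‖z‖ ^ θ₁ := by
          refine mul_le_mul_of_nonneg_right ?_ (by positivity)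
          refine mul_le_mul (by linarith) (mul_le_mul_of_nonneg_left h5 hss) ?_ (by linarith)
          have : 0 ≤ s' ^ (κ - 1) := Real.rpow_nonneg h0.le _
          positivity

/-- quickly decreasing functions -/
lemma rem_dec {R C ρ θ₁ : ℝ} (hR : 1 ≤ R) (hC : 0 ≤ C) {E : ℂ → ℂ} (hE : DifferentiableOn ℂ E (Hp R))
    (hb : ∀ z ∈ Hp R, ‖E z‖ ≤ C * ‖z‖ ^ ρ) (hρ0 : ρ ≤ 0) (hρ : ρ + 1 ≤ θ₁) :
    Rem (2 * R) (2 ^ (-ρ) * C) θ₁ E := by
  have hR0 : 0 < R := by linarith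
  have hsub : Hp (2 * R) ⊆ Hp R := fun z hz => lt_trans (by linarith : R < 2 * R) hz
  have h2 : (1 : ℝ) ≤ 2 ^ (-ρ) := Real.one_le_rpow (by norm_num) (by linarith)
  refine ⟨hE.mono hsub, fun z hz => ?_, fun z hz s s' h1 h2' h3 => ?_⟩
  · have hz1 : 1 < ‖z‖ := lt_of_le_of_lt (by linarith : (1 : ℝ) ≤ 2 * R) (Hp_norm' hz)
    calc ‖E z‖ ≤ C * ‖z‖ ^ ρ := hb z (hsub hz)
      _ ≤ C * ‖z‖ ^ θ₁ := by
        have : ‖z‖ ^ ρ ≤ ‖z‖ ^ θ₁ := Real.rpow_le_rpow_of_exponent_le hz1.le (by linarith)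
        gcongr
      _ ≤ 2 ^ (-ρ) * C * ‖z‖ ^ θ₁ := by
        refine mul_le_mul_of_nonneg_right ?_ (by positivity)
        exact le_mul_of_one_le_left hC h2
  · have hz2 : 2 * R < ‖z‖ := Hp_norm' hz
    have hz1 : 1 < ‖z‖ := by linarith
    have hz0 : 0 < ‖z‖ := by linarith
    have hzre : 2 * R < z.re := hz
    have h0 : 0 < s' := by linarith
    -- the ball
    have hball : ∀ x : ℝ, 1 ≤ x → ∀ ζ ∈ Metric.closedBall ((x : ℂ) * z) (x * R),
        ζ ∈ Hp R ∧ x * ‖z‖ / 2 ≤ ‖ζ‖ := by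
      intro x hx ζ hζ
      rw [Metric.mem_closedBall, dist_eq_norm] at hζ
      have h4 : |(ζ - x * z).re| ≤ ‖ζ - x * z‖ := Complex.abs_re_le_norm _
      rw [Complex.sub_re, Complex.re_ofReal_mul, abs_le] at h4
      constructor
      · show R < ζ.re
        nlinarith [h4.1]
      · have h5 : ‖(x : ℂ) * z‖ = x * ‖z‖ := by
          rw [norm_mul, Complex.norm_real, Real.norm_eq_abs, abs_of_pos (by linarith)]
        have h6 : ‖(x : ℂ) * z‖ - ‖ζ - x * z‖ ≤ ‖ζ‖ := by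
          have := norm_sub_norm_le ((x : ℂ) * z) (x * z - ζ)
          rw [sub_sub_cancel, norm_sub_rev _ ζ] at this
          exact this
        nlinarith
    have key := norm_image_sub_le_of_norm_deriv_le_segment' (f := fun x : ℝ => E ((x : ℂ) * z))
      (f' := fun x => deriv E ((x : ℂ) * z) * z) (a := s') (b := s)
      (C := 2 ^ (-ρ) * C * s' ^ (θ₁ - 1) * ‖z‖ ^ θ₁)
      (fun x hx => by
        have hx1 : 1 ≤ x := h1.trans hx.1
        have hmem : (x : ℂ) * z ∈ Hp R := (hball x hx1 _ (Metric.mem_closedBall_self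
          (by positivity))).1
        have hd : HasDerivAt E (deriv E ((x : ℂ) * z)) ((x : ℂ) * z) :=
          (hE.differentiableAt ((Hp_open R).mem_nhds hmem)).hasDerivAt
        have hl : HasDerivAt (fun x : ℝ => (x : ℂ) * z) z x := by
          have := (Complex.ofRealCLM.hasDerivAt (x := x)).mul_const z
          simpa using this
        have := hd.comp (𝕜 := ℝ) x hl
        exact this.hasDerivWithinAt)
      (fun x hx => by
        have hx1 : 1 ≤ x := h1.trans hx.1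
        have hx0 : 0 < x := by linarith
        have hρx : 0 < x * R := by positivity
        have hcl : ∀ ζ ∈ Metric.sphere ((x : ℂ) * z) (x * R), ‖E ζ‖ ≤ C * (x * ‖z‖ / 2) ^ ρ := by
          intro ζ hζ
          obtain ⟨h4, h5⟩ := hball x hx1 ζ (Metric.sphere_subset_closedBall hζ)
          refine (hb ζ h4).trans ?_
          have : ‖ζ‖ ^ ρ ≤ (x * ‖z‖ / 2) ^ ρ :=
            Real.rpow_le_rpow_of_nonpos (by positivity) h5 hρ0
          gcongr
        have hdc : DiffContOnCl ℂ E (Metric.ball ((x : ℂ) * z) (x * R)) := by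
          apply DifferentiableOn.diffContOnCl
          refine hE.mono fun ζ hζ => (hball x hx1 ζ (Metric.closure_ball_subset_closedBall hζ)).1
        have h6 := Complex.norm_deriv_le_of_forall_mem_sphere_norm_le hρx hdc hcl
        rw [norm_mul]
        calc ‖deriv E ((x : ℂ) * z)‖ * ‖z‖ ≤ C * (x * ‖z‖ / 2) ^ ρ / (x * R) * ‖z‖ := by gcongr
          _ ≤ C * (x * ‖z‖ / 2) ^ ρ / (x * 1) * ‖z‖ := by gcongr
          _ = 2 ^ (-ρ) * C * x ^ (ρ - 1) * ‖z‖ ^ (ρ + 1) := by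
            rw [Real.div_rpow (by positivity) (by norm_num), Real.mul_rpow hx0.le hz0.le,
              Real.rpow_sub_one hx0.ne', Real.rpow_add_one hz0.ne', Real.rpow_neg (by norm_num)]
            field_simp
          _ ≤ 2 ^ (-ρ) * C * s' ^ (θ₁ - 1) * ‖z‖ ^ θ₁ := by
            have h7 : x ^ (ρ - 1) ≤ s' ^ (θ₁ - 1) :=
              calc x ^ (ρ - 1) ≤ s' ^ (ρ - 1) :=
                    Real.rpow_le_rpow_of_nonpos h0 hx.1 (by linarith)
                _ ≤ _ := Real.rpow_le_rpow_of_exponent_le h1 (by linarith)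
            have h8 : ‖z‖ ^ (ρ + 1) ≤ ‖z‖ ^ θ₁ :=
              Real.rpow_le_rpow_of_exponent_le hz1.le hρ
            gcongr)
      s (Set.right_mem_Icc.2 h2')
    refine key.trans (le_of_eq ?_)
    ring

lemma Rem.mono {R R' C C' θ₁ : ℝ} {E : ℂ → ℂ} (h : Rem R C θ₁ E) (hR : R ≤ R')
    (hC : C ≤ C') : Rem R' C' θ₁ E := by
  have hsub : Hp R' ⊆ Hp R := fun z hz => lt_of_le_of_lt hR hz
  refine ⟨h.1.mono hsub, fun z hz => (h.2.1 z (hsub hz)).trans ?_, fun z hz s s' h1 h2 h3 =>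
    (h.2.2 z (hsub hz) s s' h1 h2 h3).trans ?_⟩
  · exact mul_le_mul_of_nonneg_right hC (by positivity)
  · have h0 : 0 ≤ s' ^ (θ₁ - 1) := Real.rpow_nonneg (by linarith) _
    have hss : 0 ≤ s - s' := by linarith
    refine mul_le_mul_of_nonneg_right (mul_le_mul_of_nonneg_right hC (by positivity)) (by positivity)

lemma Rem.add {R C C' θ₁ : ℝ} {E F : ℂ → ℂ} (h : Rem R C θ₁ E) (h' : Rem R C' θ₁ F) :
    Rem R (C + C') θ₁ (fun z => E z + F z) := by
  refine ⟨h.1.add h'.1, fun z hz => ?_, fun z hz s s' h1 h2 h3 => ?_⟩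
  · refine (norm_add_le _ _).trans ?_
    rw [add_mul]
    exact add_le_add (h.2.1 z hz) (h'.2.1 z hz)
  · show ‖E (s * z) + F (s * z) - (E (s' * z) + F (s' * z))‖ ≤ _
    rw [add_sub_add_comm]
    refine (norm_add_le _ _).trans ?_
    rw [add_mul, add_mul]
    exact add_le_add (h.2.2 z hz s s' h1 h2 h3) (h'.2.2 z hz s s' h1 h2 h3)

lemma Rem.const_mul {R C θ₁ : ℝ} {E : ℂ → ℂ} (h : Rem R C θ₁ E) (a : ℝ) :
    Rem R (|a| * C) θ₁ (fun z => (a : ℂ) * E z) := by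
  refine ⟨h.1.const_mul _, fun z hz => ?_, fun z hz s s' h1 h2 h3 => ?_⟩
  · rw [norm_mul, Complex.norm_real, Real.norm_eq_abs, mul_assoc]
    exact mul_le_mul_of_nonneg_left (h.2.1 z hz) (abs_nonneg _)
  · show ‖(a : ℂ) * E (s * z) - (a : ℂ) * E (s' * z)‖ ≤ _
    rw [← mul_sub, norm_mul, Complex.norm_real, Real.norm_eq_abs, mul_assoc, mul_assoc]
    refine mul_le_mul_of_nonneg_left ?_ (abs_nonneg _)
    rw [← mul_assoc]
    exact h.2.2 z hz s s' h1 h2 h3

lemma Rem.zero (R θ₁ : ℝ) : Rem R 0 θ₁ (fun _ => 0) := by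
  refine ⟨differentiableOn_const _, fun z _ => by simp, fun z _ s s' _ _ _ => by simp⟩

lemma rem_sum {ι : Type} {R θ₁ : ℝ} (T : Finset ι) {C : ι → ℝ} {E : ι → ℂ → ℂ}
    (h : ∀ i ∈ T, Rem R (C i) θ₁ (E i)) : Rem R (∑ i ∈ T, C i) θ₁ (fun z => ∑ i ∈ T, E i z) := by
  classical
  induction T using Finset.induction_on with
  | empty => simpa using Rem.zero R θ₁
  | insert a T ha ih =>
    simp only [Finset.sum_insert ha]
    exact (h a (Finset.mem_insert_self _ _)).add (ih fun i hi => h i (Finset.mem_insert_of_mem hi))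

open Classical in
/-- the splitting, with differences -/
lemma rem_split {q p : ℕ} {R C : ℝ} {y : ℝ → ℝ} {φ : ℕ → ℝ} {E : ℂ → ℂ} (hq : 1 ≤ q)
    (hR : 1 ≤ R) (hC : 0 ≤ C) (hex : Ex q p (p + q) R C y φ E) {k₀ : ℕ} (hk₀ : k₀ ≤ p)
    (hnp : NP q p k₀) (hz : ∀ k < k₀, NP q p k → φ k = 0) :
    ∃ (G : ℝ[X]) (E' : ℂ → ℂ) (C' : ℝ), G.natDegree ≤ p ∧ 0 ≤ C' ∧
      Rem (2 * R) C' (((p : ℝ) - k₀ - 1) / q) E' ∧
      ∀ t : ℝ, 2 * R < t → y t = G.eval t + φ k₀ * t ^ (((p : ℝ) - k₀) / q) + (E' t).re := by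
  have hq0 : (0 : ℝ) < q := by exact_mod_cast hq
  obtain ⟨S, hS⟩ : ∃ S : Finset ℕ, S = Finset.range (p + q + 1) := ⟨_, rfl⟩
  obtain ⟨T, hT⟩ : ∃ T : Finset ℕ, T = S.filter (fun k => NP q p k ∧ k₀ < k) := ⟨_, rfl⟩
  obtain ⟨θ₁, hθ₁⟩ : ∃ θ₁ : ℝ, θ₁ = ((p : ℝ) - k₀ - 1) / q := ⟨_, rfl⟩
  have hk₀R : (k₀ : ℝ) ≤ p := by exact_mod_cast hk₀
  have h1 : Rem (2 * R) (∑ k ∈ T, |φ k| * (|((p : ℝ) - k) / q| * 2 ^ (|((p : ℝ) - k) / q| + 1) + 1)) θ₁
      (fun z => ∑ k ∈ T, (φ k : ℂ) * z ^ ((((p : ℝ) - k) / q : ℝ) : ℂ)) := by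
    refine rem_sum T fun k hk => ?_
    refine (rem_pow (by linarith) ?_).const_mul (φ k)
    rw [hT, Finset.mem_filter] at hk
    rw [hθ₁]
    have : (k₀ : ℝ) + 1 ≤ k := by exact_mod_cast hk.2.2
    refine div_le_div_of_nonneg_right ?_ hq0.le
    linarith
  have hρ : ((p : ℝ) - ((p + q : ℕ) : ℝ) - 1) / q = -1 - 1 / q := by
    push_cast
    field_simp
    ring
  have h2 : Rem (2 * R) (2 ^ (-(-1 - 1 / (q : ℝ))) * C) θ₁ E := by
    refine rem_dec hR hC hex.1 (fun z hz => ?_) ?_ ?_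
    · have := hex.2.1 z hz
      rw [hρ] at this
      exact this
    · have : 0 < 1 / (q : ℝ) := by positivity
      linarith
    · rw [hθ₁]
      have : -1 - 1 / (q : ℝ) + 1 = (-1) / q := by field_simp; ring
      rw [this]
      exact div_le_div_of_nonneg_right (by linarith) hq0.le
  refine ⟨∑ k ∈ S.filter (fun k => ¬ NP q p k), Polynomial.C (φ k) * X ^ ((p - k) / q),
    fun z => ∑ k ∈ T, (φ k : ℂ) * z ^ ((((p : ℝ) - k) / q : ℝ) : ℂ) + E z, _, ?_, ?_,
    by rw [← hθ₁]; exact h1.add h2, ?_⟩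
  · refine natDegree_sum_le_of_forall_le _ _ fun k _ => ?_
    refine (natDegree_C_mul_X_pow_le _ _).trans ?_
    exact (Nat.div_le_self _ _).trans (Nat.sub_le _ _)
  · positivity
  · intro t ht
    have ht0 : 0 < t := by linarith
    rw [hex.2.2 t (by linarith), ← hS,
      ← Finset.sum_filter_add_sum_filter_not S (fun k => ¬ NP q p k)]
    have e1 : (∑ k ∈ S.filter (fun k => ¬ NP q p k), Polynomial.C (φ k) * X ^ ((p - k) / q)).eval t =
        ∑ k ∈ S.filter (fun k => ¬ NP q p k), φ k * t ^ (((p : ℝ) - k) / q) := by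
      rw [eval_finsetSum]
      refine Finset.sum_congr rfl fun k hk => ?_
      rw [Finset.mem_filter] at hk
      rw [np_not hq hk.2, Real.rpow_natCast]
      simp
    have e2 : ∑ k ∈ S.filter (fun k => ¬ ¬ NP q p k), φ k * t ^ (((p : ℝ) - k) / q) =
        φ k₀ * t ^ (((p : ℝ) - k₀) / q) + ∑ k ∈ T, φ k * t ^ (((p : ℝ) - k) / q) := by
      have hk₀T : k₀ ∉ T := by
        rw [hT, Finset.mem_filter]
        rintro ⟨_, _, h⟩
        exact lt_irrefl _ h
      refine Eq.trans ?_ (Finset.sum_insert (f := fun k : ℕ => φ k * t ^ (((p : ℝ) - k) / q)) hk₀T)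
      symm
      apply Finset.sum_subset_zero_on_sdiff
      · intro k hk
        rw [Finset.mem_insert] at hk
        rw [Finset.mem_filter, not_not]
        rcases hk with rfl | hk
        · exact ⟨by rw [hS, Finset.mem_range]; omega, hnp⟩
        · rw [hT, Finset.mem_filter] at hk
          exact ⟨hk.1, hk.2.1⟩
      · intro k hk
        rw [Finset.mem_sdiff, Finset.mem_filter, not_not, Finset.mem_insert, hT,
          Finset.mem_filter] at hk
        obtain ⟨⟨hk1, hk2⟩, hk3⟩ := hk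
        push Not at hk3
        have hlt : k < k₀ := by
          rcases lt_trichotomy k k₀ with h | h | h
          · exact h
          · exact absurd h hk3.1
          · exact absurd h (by have := hk3.2 hk1 hk2; omega)
        rw [hz k hlt hk2, zero_mul]
      · intro k _
        rfl
    rw [e1, e2, Complex.add_re, Complex.re_sum]
    have e3 : ∑ k ∈ T, ((φ k : ℂ) * (t : ℂ) ^ ((((p : ℝ) - k) / q : ℝ) : ℂ)).re =
        ∑ k ∈ T, φ k * t ^ (((p : ℝ) - k) / q) := by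
      refine Finset.sum_congr rfl fun k _ => ?_
      rw [Complex.re_ofReal_mul, ← Complex.ofReal_cpow ht0.le, Complex.ofReal_re]
    rw [e3]
    ring

end Pool.Agent.J6H93.Fam
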