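import Pool.Agent.J6H93.Fam.Vp1
import Pool.Agent.H373R2.T7.Vau
import Pool.Agent.H373R2.T3.TypeII

/-!
# Values at primes: the sums over blocks
-/

set_option autoImplicit false

namespace Pool.Agent.J6H93.Fam

open Finset Filter Topology Polynomial
open Pool.Agent.N586.RT (logpow log_ge)
open Pool.Agent.Y933.KD (e norm_e e_add)

/-- the block lemma -/
theorem blk (D : ℕ) {θ₀ θ₁ R : ℝ} (hθ₀ : ∀ k : ℕ, θ₀ ≠ k) (hθ : θ₁ < θ₀) (hR : 0 ≤ R) (K₀ a : ℝ)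
    (hK₀ : 0 ≤ K₀) (ha : 0 < a) (δ β : ℝ) (hδ : 0 < δ) (hβ : 0 < β) (hδβ : 2 * δ + β < 1) :
    ∃ X₀ : ℕ, ∀ X : ℕ, X₀ ≤ X → ∀ A B : ℕ, B ≤ 3 * A → A ≤ B → (X : ℝ) ^ ((1 : ℝ) / 5) ≤ B →
      B ≤ 2 * X → ∀ (c lam : ℝ), (X : ℝ) ^ a ≤ |lam| * (|c| * (B : ℝ) ^ θ₀) →
      |lam| * (|c| * (B : ℝ) ^ θ₀) ≤ Real.exp (2 * (Real.log X) ^ (1 + δ)) →
      ∀ G : ℝ[X], G.natDegree ≤ D → ∀ E : ℂ → ℂ, DifferentiableOn ℂ E (Hp R) →
      (∀ z ∈ Hp R, ‖E z‖ ≤ |c| * K₀ * ‖z‖ ^ θ₁) →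
      ‖∑ n ∈ Finset.Ioc A B, e (lam * (G.eval (n : ℝ) + c * (n : ℝ) ^ θ₀ + (E n).re))‖ ≤
        B * Real.exp (-(4 * (Real.log X) ^ β)) := by
  obtain ⟨β', hβ'⟩ : ∃ β' : ℝ, β' = β + (1 - 2 * δ - β) / 4 := ⟨_, rfl⟩
  obtain ⟨δ', hδ'⟩ : ∃ δ' : ℝ, δ' = δ + (1 - 2 * δ - β) / 4 := ⟨_, rfl⟩
  have hδδ : δ < δ' := by linarith
  have hββ : β < β' := by linarith
  have hδβ' : 2 * δ' + β' < 1 := by linarith
  have hβ'1 : β' < 1 := by linarith
  have hδ'1 : δ' < 1 := by linarith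
  obtain ⟨N0, hN0⟩ := es_all D θ₀ θ₁ R (a / 2) δ' β' 1 hθ₀ hθ hR (by linarith) (by linarith)
    (by linarith) hδβ' one_pos
  obtain ⟨X1, hX1⟩ := eventually_atTop.1 ((logpow hδδ (2 * 5 * 5)).and ((logpow hββ (4 * 5)).and
    ((log_ge (max (max 5 (5 * Real.log (N0 + 1))) (5 * Real.log (K₀ + 1) * (4 / (θ₀ - θ₁))))).and
    (logpow (by linarith : (0 : ℝ) < β') (5 * 2)))))
  refine ⟨max X1 2, fun X hX A B hBA hAB hB1 hB2 c lam hl1 hl2 G hG E hE hEb => ?_⟩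
  obtain ⟨h1, h2, h3, h4⟩ := hX1 X (le_of_max_le_left hX)
  have hX2 : 2 ≤ X := le_of_max_le_right hX
  have hXR : (2 : ℝ) ≤ X := by exact_mod_cast hX2
  have hX0 : (0 : ℝ) < X := by linarith
  obtain ⟨L, hL⟩ : ∃ L : ℝ, L = Real.log X := ⟨_, rfl⟩
  rw [← hL] at h1 h2 h3 h4 hl2 ⊢
  rw [Real.rpow_zero, mul_one] at h4
  have hL5 : 5 ≤ L := (le_max_left _ _).trans ((le_max_left _ _).trans h3)
  have hLN0 : 5 * Real.log (N0 + 1) ≤ L := (le_max_right _ _).trans ((le_max_left _ _).trans h3)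
  have hLK : 5 * Real.log (K₀ + 1) * (4 / (θ₀ - θ₁)) ≤ L := (le_max_right _ _).trans h3
  have hL0 : 0 < L := by linarith
  have hXe : (X : ℝ) = Real.exp L := by rw [hL, Real.exp_log hX0]
  have hXpow : ∀ x : ℝ, (X : ℝ) ^ x = Real.exp (x * L) := by
    intro x
    rw [hXe, ← Real.exp_mul]
    ring_nf
  have hB0 : (0 : ℝ) < B := lt_of_lt_of_le (Real.rpow_pos_of_pos hX0 _) hB1
  obtain ⟨l, hl⟩ : ∃ l : ℝ, l = Real.log B := ⟨_, rfl⟩
  have hBe : (B : ℝ) = Real.exp l := by rw [hl, Real.exp_log hB0]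
  have hl5 : L / 5 ≤ l := by
    rw [hXpow, hBe, Real.exp_le_exp] at hB1
    linarith
  have hl1' : 1 ≤ l := by linarith
  have hl0 : 0 < l := by linarith
  have hl2' : l ≤ 2 * L := by
    have e1 : (B : ℝ) ≤ 2 * X := by exact_mod_cast hB2
    have e2 : Real.log B ≤ Real.log (2 * X) := Real.log_le_log hB0 e1
    rw [Real.log_mul (by norm_num) hX0.ne'] at e2
    have := Real.log_two_lt_d9
    rw [← hl, ← hL] at e2
    linarith
  have hBpow : ∀ x : ℝ, (B : ℝ) ^ x = Real.exp (x * l) := by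
    intro x
    rw [hBe, ← Real.exp_mul]
    ring_nf
  have hN0B : N0 ≤ B := by
    have e1 : (N0 : ℝ) + 1 ≤ B := by
      rw [hBe, ← Real.log_le_iff_le_exp (by positivity)]
      linarith
    have e2 : (N0 : ℝ) ≤ B := by linarith
    exact_mod_cast e2
  -- powers of the logarithms
  have hlpow : ∀ x : ℝ, 0 ≤ x → x ≤ 1 → L ^ x / 5 ≤ l ^ x := by
    intro x hx hx1
    calc L ^ x / 5 ≤ L ^ x / 5 ^ x := by
          apply div_le_div_of_nonneg_left (by positivity) (by positivity)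
          calc (5 : ℝ) ^ x ≤ 5 ^ (1 : ℝ) := Real.rpow_le_rpow_of_exponent_le (by norm_num) hx1
            _ = 5 := Real.rpow_one _
      _ = (L / 5) ^ x := (Real.div_rpow hL0.le (by norm_num) _).symm
      _ ≤ _ := Real.rpow_le_rpow (by positivity) hl5 hx
  have hTpos : 0 < |lam| * (|c| * (B : ℝ) ^ θ₀) := lt_of_lt_of_le (Real.rpow_pos_of_pos hX0 _) hl1
  obtain ⟨κ, hκ⟩ : ∃ κ : ℝ, κ = Real.log (|lam| * (|c| * (B : ℝ) ^ θ₀)) / l := ⟨_, rfl⟩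
  have hκ1 : |lam| * (|c| * (B : ℝ) ^ θ₀) = (B : ℝ) ^ κ := by
    have e1 := hBpow κ
    rw [e1, hκ, div_mul_cancel₀ _ hl0.ne', Real.exp_log hTpos]
  have hκlow : a / 2 ≤ κ := by
    rw [hκ, le_div_iff₀ hl0]
    have e1 : a * L ≤ Real.log (|lam| * (|c| * (B : ℝ) ^ θ₀)) := by
      rw [Real.le_log_iff_exp_le hTpos, ← hXpow]
      exact hl1
    nlinarith
  have hκup : κ ≤ 1 * (Real.log B) ^ δ' := by
    rw [one_mul, ← hl, hκ, div_le_iff₀ hl0]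
    have e1 : Real.log (|lam| * (|c| * (B : ℝ) ^ θ₀)) ≤ 2 * L ^ (1 + δ) := by
      rw [Real.log_le_iff_le_exp hTpos]
      exact hl2
    refine e1.trans ?_
    have e2 := hlpow δ' (by linarith) hδ'1.le
    have e3 : L ^ (1 + δ) = L * L ^ δ := by
      rw [Real.rpow_add hL0, Real.rpow_one]
    rw [e3]
    calc 2 * (L * L ^ δ) = (2 * 5 * 5 * L ^ δ) / 5 * (L / 5) := by ring
      _ ≤ L ^ δ' / 5 * (L / 5) := by gcongr
      _ ≤ l ^ δ' * l := by gcongr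
  have hβ5 := hlpow β' (by linarith) hβ'1.le
  have hl2β : 2 ≤ l ^ β' := by linarith
  have hexp2 : Real.exp (-(Real.log B) ^ β') ≤ 1 / 3 := by
    rw [← hl]
    have e1 : Real.exp (-(l ^ β')) ≤ Real.exp (-2) := Real.exp_le_exp.2 (by linarith)
    have e2 : Real.exp (-2 : ℝ) ≤ 1 / 3 := by
      rw [Real.exp_neg, ← one_div]
      apply one_div_le_one_div_of_le (by norm_num)
      have := Real.add_one_le_exp (2 : ℝ)
      linarith
    exact e1.trans e2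
  have hA3 : (B : ℝ) / 3 ≤ A := by
    have : (B : ℝ) ≤ 3 * A := by exact_mod_cast hBA
    linarith
  have key := hN0 B hN0B κ hκlow hκup A (by
      calc (B : ℝ) * Real.exp (-(Real.log B) ^ β') ≤ B * (1 / 3) := by gcongr
        _ ≤ A := by linarith) hAB c lam hκ1 G hG E hE (fun z hz => by
      refine (hEb z hz).trans ?_
      have e1 : K₀ ≤ (B : ℝ) ^ ((θ₀ - θ₁) / 4) := by
        have hd : 0 < θ₀ - θ₁ := by linarith
        have e2 : Real.log (K₀ + 1) ≤ (θ₀ - θ₁) / 4 * l := by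
          have e3 : 5 * Real.log (K₀ + 1) * (4 / (θ₀ - θ₁)) * ((θ₀ - θ₁) / 4) ≤
              L * ((θ₀ - θ₁) / 4) := by gcongr
          have e4 : 5 * Real.log (K₀ + 1) * (4 / (θ₀ - θ₁)) * ((θ₀ - θ₁) / 4) =
              5 * Real.log (K₀ + 1) := by field_simp
          have e5 : L * ((θ₀ - θ₁) / 4) ≤ 5 * l * ((θ₀ - θ₁) / 4) := by
            have : L ≤ 5 * l := by linarith
            gcongr
          linarith
        rw [Real.log_le_iff_le_exp (by linarith)] at e2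
        rw [hBpow]
        linarith
      gcongr)
  refine key.trans ?_
  rw [← hl]
  have : 4 * L ^ β ≤ l ^ β' := by linarith
  gcongr

end Pool.Agent.J6H93.Fam
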