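import Pool.Agent.J6H93.Fam.Vp2

/-!
# Values at primes: Vaughan's method
-/

set_option autoImplicit false

namespace Pool.Agent.J6H93.Fam

open Finset Filter Topology Polynomial
open Pool.Agent.N586.RT (logpow log_ge)
open Pool.Agent.Y933.KD (e norm_e e_add e_neg)
open Pool.Agent.H373R2.T3 (bilin harm)
open Pool.Agent.H373R2.T7 (vaughan_gen)

/-- the integers close to a given one -/
lemma card_near' (l Q : ℕ) {τ : ℝ} (hτ : 0 ≤ τ) :
    (((Finset.Ioc Q (2 * Q)).filter (fun l' : ℕ => |(l : ℝ) - l'| < τ)).card : ℝ) ≤ 2 * τ + 1 := by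
  obtain ⟨k, hk⟩ : ∃ k : ℕ, k = ⌊τ⌋₊ := ⟨_, rfl⟩
  have hkτ : (k : ℝ) ≤ τ := by rw [hk]; exact Nat.floor_le hτ
  have hsub : (Finset.Ioc Q (2 * Q)).filter (fun l' : ℕ => |(l : ℝ) - l'| < τ) ⊆
      Finset.Icc (l - k) (l + k) := by
    intro l' hl'
    rw [Finset.mem_filter] at hl'
    rw [Finset.mem_Icc]
    have h1 := abs_lt.1 hl'.2
    have h2 : τ < k + 1 := by rw [hk]; exact Nat.lt_floor_add_one _
    constructor
    · have : (l : ℝ) < l' + k + 1 := by linarith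
      have : l < l' + k + 1 := by exact_mod_cast this
      omega
    · have : (l' : ℝ) < l + k + 1 := by linarith
      have : l' < l + k + 1 := by exact_mod_cast this
      omega
  have h3 := Finset.card_le_card hsub
  rw [Nat.card_Icc] at h3
  have h4 : ((Finset.Ioc Q (2 * Q)).filter (fun l' : ℕ => |(l : ℝ) - l'| < τ)).card ≤ 2 * k + 1 := by
    omega
  have h5 : (((Finset.Ioc Q (2 * Q)).filter (fun l' : ℕ => |(l : ℝ) - l'| < τ)).card : ℝ) ≤
      2 * k + 1 := by exact_mod_cast h4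
  linarith

/-- the data of a function -/
structure Dat (f : ℝ → ℝ) (D : ℕ) (θ₀ θ₁ R C c : ℝ) (G : ℝ[X]) (E : ℂ → ℂ) : Prop where
  hG : G.natDegree ≤ D
  hθn : ∀ k : ℕ, θ₀ ≠ k
  hθ0 : 0 < θ₀
  hθ : θ₁ < θ₀
  hR : 1 ≤ R
  hC : 0 ≤ C
  hE : Rem R C θ₁ E
  hc : c ≠ 0
  hf : ∀ t : ℝ, R < t → f t = G.eval t + c * t ^ θ₀ + (E t).re

/-- the block estimate used below -/
def Blk (D : ℕ) (θ₀ θ₁ R K₀ a δ β : ℝ) (X : ℕ) : Prop :=
  ∀ A B : ℕ, B ≤ 3 * A → A ≤ B → (X : ℝ) ^ ((1 : ℝ) / 5) ≤ B →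
      B ≤ 2 * X → ∀ (c lam : ℝ), (X : ℝ) ^ a ≤ |lam| * (|c| * (B : ℝ) ^ θ₀) →
      |lam| * (|c| * (B : ℝ) ^ θ₀) ≤ Real.exp (2 * (Real.log X) ^ (1 + δ)) →
      ∀ G : ℝ[X], G.natDegree ≤ D → ∀ E : ℂ → ℂ, DifferentiableOn ℂ E (Hp R) →
      (∀ z ∈ Hp R, ‖E z‖ ≤ |c| * K₀ * ‖z‖ ^ θ₁) →
      ‖∑ n ∈ Finset.Ioc A B, e (lam * (G.eval (n : ℝ) + c * (n : ℝ) ^ θ₀ + (E n).re))‖ ≤
        B * Real.exp (-(4 * (Real.log X) ^ β))

lemma natCast_mem_Hp {R : ℝ} {n : ℕ} (h : R < n) : (n : ℂ) ∈ Hp R := by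
  show R < (n : ℂ).re
  simpa using h

/-- sums of the first type -/
lemma type_one {f : ℝ → ℝ} {D : ℕ} {θ₀ θ₁ R C c : ℝ} {G : ℝ[X]} {E : ℂ → ℂ}
    (hd : Dat f D θ₀ θ₁ R C c G E) {δ β : ℝ} {X : ℕ} (hX : 2 ≤ X)
    (hb : Blk D θ₀ θ₁ R (C / |c| + 2 * C / (|c| * θ₀)) (θ₀ / 4) δ β X) (hRX : R < X)
    {lam : ℝ} (hlow : (X : ℝ) ^ (θ₀ / 4) ≤ |lam| * (|c| * (X : ℝ) ^ θ₀))
    (hup : |lam| * (|c| * (2 * X : ℝ) ^ θ₀) ≤ Real.exp (2 * (Real.log X) ^ (1 + δ)))
    {X' : ℕ} (hX' : X' ≤ 2 * X) {m : ℕ} (hm : 1 ≤ m) (hmX : m * m ≤ X) {b : ℕ} (hbm : b ≤ X' / m) :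
    ‖∑ l ∈ Finset.Ioc (X / m) b, e (lam * f ((m * l : ℕ) : ℝ))‖ ≤
      (2 * X / m : ℝ) * Real.exp (-(4 * (Real.log X) ^ β)) := by
  have hm0 : 0 < m := by omega
  have hmR : (1 : ℝ) ≤ m := by exact_mod_cast hm
  have hXR : (2 : ℝ) ≤ X := by exact_mod_cast hX
  rcases Nat.lt_or_ge (X / m) b with hlt | hge
  swap
  · rw [Finset.Ioc_eq_empty (by omega), Finset.sum_empty, norm_zero]
    positivity
  have hθ0 := hd.hθ0
  have hc0 : 0 < |c| := abs_pos.2 hd.hc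
  have hC := hd.hC
  have hb2 : b * m ≤ X' := (Nat.le_div_iff_mul_le hm0).1 hbm
  have hbm2 : (m : ℝ) * b ≤ 2 * X := by
    have : m * b ≤ 2 * X := by
      rw [mul_comm]
      omega
    exact_mod_cast this
  have hXb : X < (X / m + 1) * m := by
    rw [mul_comm]
    exact Nat.lt_mul_div_succ X hm0
  have hXb2 : X < b * m := lt_of_lt_of_le hXb (Nat.mul_le_mul_right m hlt)
  have hXbR : (X : ℝ) ≤ m * b := by
    have : X ≤ m * b := by
      rw [mul_comm]
      omega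
    exact_mod_cast this
  have hXmX : m ≤ X / m := (Nat.le_div_iff_mul_le hm0).2 hmX
  have key := hb (X / m) b (by
      have h1 : X' / m ≤ (2 * X) / m := Nat.div_le_div_right hX'
      have h2 : (2 * X) / m < 2 * (X / m) + 2 := by
        rw [Nat.div_lt_iff_lt_mul hm0]
        calc 2 * X < 2 * ((X / m + 1) * m) := by omega
          _ = (2 * (X / m) + 2) * m := by ring
      omega) hlt.le (by
      have h1 : (X : ℝ) ^ ((1 : ℝ) / 2) ≤ b := by
        have h2 : (X : ℝ) ≤ (b : ℝ) ^ 2 := by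
          have : m * b ≤ b ^ 2 := by
            rw [pow_two]
            exact Nat.mul_le_mul_right b (by omega)
          have h3 : ((m * b : ℕ) : ℝ) ≤ ((b ^ 2 : ℕ) : ℝ) := by exact_mod_cast this
          push_cast at h3
          linarith
        rw [← Real.sqrt_eq_rpow]
        exact Real.sqrt_le_iff.2 ⟨Nat.cast_nonneg _, h2⟩
      refine le_trans ?_ h1
      apply Real.rpow_le_rpow_of_exponent_le (by linarith) (by norm_num)) (by
      calc b ≤ b * m := Nat.le_mul_of_pos_right _ hm0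
        _ ≤ X' := hb2
        _ ≤ 2 * X := hX') (c * (m : ℝ) ^ θ₀) lam (by
      refine hlow.trans ?_
      rw [abs_mul, abs_of_nonneg (by positivity : (0 : ℝ) ≤ (m : ℝ) ^ θ₀), mul_assoc |c|,
        ← Real.mul_rpow (by positivity) (by positivity)]
      gcongr) (by
      refine le_trans ?_ hup
      rw [abs_mul, abs_of_nonneg (by positivity : (0 : ℝ) ≤ (m : ℝ) ^ θ₀), mul_assoc |c|,
        ← Real.mul_rpow (by positivity) (by positivity)]
      gcongr) (G.comp (Polynomial.C (m : ℝ) * Polynomial.X)) (by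
      refine (natDegree_comp_le).trans ?_
      refine (Nat.mul_le_mul_left _ ((natDegree_C_mul_le _ _).trans natDegree_X_le)).trans ?_
      rw [mul_one]
      exact hd.hG) (fun z => E ((m : ℂ) * z)) (by
      refine hd.hE.1.comp (by fun_prop) fun z hz => ?_
      show R < ((m : ℂ) * z).re
      have h1 : ((m : ℂ) * z).re = m * z.re := by
        rw [← Complex.ofReal_natCast, Complex.re_ofReal_mul]
      rw [h1]
      have h2 : R < z.re := hz
      have := hd.hR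
      nlinarith) (by
      intro z hz
      have h2 : R < z.re := hz
      have hR1 := hd.hR
      have hmem : (m : ℂ) * z ∈ Hp R := by
        show R < ((m : ℂ) * z).re
        have h1 : ((m : ℂ) * z).re = m * z.re := by
          rw [← Complex.ofReal_natCast, Complex.re_ofReal_mul]
        rw [h1]
        nlinarith
      refine (hd.hE.2.1 _ hmem).trans ?_
      rw [norm_mul, Complex.norm_natCast, Real.mul_rpow (by positivity) (norm_nonneg _), abs_mul,
        abs_of_nonneg (by positivity : (0 : ℝ) ≤ (m : ℝ) ^ θ₀)]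
      have h3 : (m : ℝ) ^ θ₁ ≤ (m : ℝ) ^ θ₀ := Real.rpow_le_rpow_of_exponent_le hmR hd.hθ.le
      have h4 : C ≤ |c| * (C / |c| + 2 * C / (|c| * θ₀)) := by
        have : |c| * (C / |c| + 2 * C / (|c| * θ₀)) = C + 2 * C / θ₀ := by field_simp
        rw [this]
        have : 0 ≤ 2 * C / θ₀ := by positivity
        linarith
      calc C * ((m : ℝ) ^ θ₁ * ‖z‖ ^ θ₁) ≤ (|c| * (C / |c| + 2 * C / (|c| * θ₀))) *
            ((m : ℝ) ^ θ₀ * ‖z‖ ^ θ₁) := by gcongr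
        _ = _ := by ring)
  have hsum : ∑ l ∈ Finset.Ioc (X / m) b, e (lam * f ((m * l : ℕ) : ℝ)) =
      ∑ l ∈ Finset.Ioc (X / m) b, e (lam * ((G.comp (Polynomial.C (m : ℝ) * Polynomial.X)).eval (l : ℝ) +
        c * (m : ℝ) ^ θ₀ * (l : ℝ) ^ θ₀ + (E ((m : ℂ) * (l : ℂ))).re)) := by
    refine Finset.sum_congr rfl fun l hl => ?_
    rw [Finset.mem_Ioc] at hl
    have hml : X < m * l := by
      calc X < (X / m + 1) * m := hXb
        _ ≤ l * m := Nat.mul_le_mul_right m hl.1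
        _ = m * l := mul_comm _ _
    have hmlR : R < ((m * l : ℕ) : ℝ) := by
      have : (X : ℝ) < ((m * l : ℕ) : ℝ) := by exact_mod_cast hml
      linarith
    rw [hd.hf _ hmlR, eval_comp, eval_mul, eval_C, eval_X]
    push_cast
    rw [Real.mul_rpow (by positivity) (by positivity)]
    ring_nf
  rw [hsum]
  refine key.trans ?_
  refine mul_le_mul_of_nonneg_right ?_ (Real.exp_pos _).le
  rw [le_div_iff₀ (by linarith)]
  linarith

end Pool.Agent.J6H93.Fam
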