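import Pool.Agent.J6H93.Fam.Vp3

/-!
# Values at primes: sums of the second type
-/

set_option autoImplicit false

namespace Pool.Agent.J6H93.Fam

open Finset Filter Topology Polynomial
open Pool.Agent.N586.RT (logpow log_ge)
open Pool.Agent.Y933.KD (e norm_e e_add e_neg)
open Pool.Agent.H373R2.T3 (bilin harm)
open Pool.Agent.H373R2.T7 (vaughan_gen)

/-- the kernel -/
noncomputable def ker (f : ℝ → ℝ) (lam : ℝ) (X X' m l : ℕ) : ℂ :=
  if X < m * l ∧ m * l ≤ X' then e (lam * f ((m * l : ℕ) : ℝ)) else 0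

lemma ker_le (f : ℝ → ℝ) (lam : ℝ) (X X' m l : ℕ) : ‖ker f lam X X' m l‖ ≤ 1 := by
  unfold ker
  split_ifs
  · rw [norm_e]
  · rw [norm_zero]
    exact zero_le_one

/-- two distant frequencies -/
lemma pair_far {f : ℝ → ℝ} {D : ℕ} {θ₀ θ₁ R C c : ℝ} {G : ℝ[X]} {E : ℂ → ℂ}
    (hd : Dat f D θ₀ θ₁ R C c G E) {δ β : ℝ} {X : ℕ} (hX : 2 ≤ X)
    (hb : Blk D θ₀ θ₁ R (C / |c| + 2 * C / (|c| * θ₀)) (θ₀ / 4) δ β X) (hRX : R < X)
    {lam : ℝ} (hlow : (X : ℝ) ^ (θ₀ / 4) ≤ |lam| * (|c| * (θ₀ / 8) * (X : ℝ) ^ (θ₀ / 2)))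
    (hup : |lam| * (|c| * (2 * X : ℝ) ^ θ₀) ≤ Real.exp (2 * (Real.log X) ^ (1 + δ)))
    {X' : ℕ} (hX' : X' ≤ 2 * X) {M Q : ℕ} (hM : (X : ℝ) ^ ((1 : ℝ) / 5) ≤ M)
    {l l' : ℕ} (hl' : l' ∈ Finset.Ioc Q (2 * Q)) (hl : l ∈ Finset.Ioc Q (2 * Q)) (hll : l' < l)
    (hfar : Q * (X : ℝ) ^ (-(θ₀ / 2)) ≤ l - l') :
    ‖∑ m ∈ Finset.Ioc M (2 * M), ker f lam X X' m l * (starRingEnd ℂ) (ker f lam X X' m l')‖ ≤
      (2 * M : ℝ) * Real.exp (-(4 * (Real.log X) ^ β)) := by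
  rw [Finset.mem_Ioc] at hl hl'
  have hl'0 : 0 < l' := by omega
  have hl0 : 0 < l := by omega
  have hXR : (2 : ℝ) ≤ X := by exact_mod_cast hX
  have hX0 : (0 : ℝ) < X := by linarith
  have hθ0 := hd.hθ0
  have hc0 : 0 < |c| := abs_pos.2 hd.hc
  have hC := hd.hC
  have hl'1 : (1 : ℝ) ≤ l' := by exact_mod_cast hl'0
  have hllR : (l' : ℝ) ≤ l := by exact_mod_cast hll.le
  have hl2 : (l : ℝ) ≤ 2 * l' := by
    have : l ≤ 2 * l' := by omega
    exact_mod_cast this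
  obtain ⟨A, hA⟩ : ∃ A : ℕ, A = max M (X / l') := ⟨_, rfl⟩
  obtain ⟨B, hB⟩ : ∃ B : ℕ, B = min (2 * M) (X' / l) := ⟨_, rfl⟩
  have hsum : ∑ m ∈ Finset.Ioc M (2 * M), ker f lam X X' m l *
      (starRingEnd ℂ) (ker f lam X X' m l') = ∑ m ∈ Finset.Ioc A B,
        e (lam * (f ((m * l : ℕ) : ℝ) - f ((m * l' : ℕ) : ℝ))) := by
    symm
    have hsub : Finset.Ioc A B ⊆ Finset.Ioc M (2 * M) := by
      intro m hm
      rw [Finset.mem_Ioc] at hm ⊢
      rw [hA, hB] at hm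
      exact ⟨lt_of_le_of_lt (le_max_left _ _) hm.1, hm.2.trans (min_le_left _ _)⟩
    apply Finset.sum_subset_zero_on_sdiff hsub
    · intro m hm
      rw [Finset.mem_sdiff, Finset.mem_Ioc, Finset.mem_Ioc] at hm
      obtain ⟨⟨h1, h2⟩, h3⟩ := hm
      by_contra hne
      apply h3
      have h4 := left_ne_zero_of_mul hne
      have h5 := right_ne_zero_of_mul hne
      have h6 : ker f lam X X' m l' ≠ 0 := by
        intro h
        rw [h, map_zero] at h5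
        exact h5 rfl
      unfold ker at h4 h6
      have h7 : X < m * l ∧ m * l ≤ X' := by
        by_contra h
        rw [if_neg h] at h4
        exact h4 rfl
      have h8 : X < m * l' ∧ m * l' ≤ X' := by
        by_contra h
        rw [if_neg h] at h6
        exact h6 rfl
      rw [hA, hB, max_lt_iff, le_min_iff, Nat.div_lt_iff_lt_mul hl'0, Nat.le_div_iff_mul_le hl0]
      exact ⟨⟨h1, h8.1⟩, h2, h7.2⟩
    · intro m hm
      rw [Finset.mem_Ioc, hA, hB, max_lt_iff, le_min_iff, Nat.div_lt_iff_lt_mul hl'0,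
        Nat.le_div_iff_mul_le hl0] at hm
      obtain ⟨⟨h1, h2⟩, h3, h4⟩ := hm
      have h5 : m * l' ≤ m * l := Nat.mul_le_mul_left m hll.le
      unfold ker
      rw [if_pos ⟨by omega, h4⟩, if_pos ⟨h2, by omega⟩, ← e_neg, ← e_add]
      congr 1
      ring
  rw [hsum]
  rcases Nat.lt_or_ge A B with hlt | hge
  swap
  · rw [Finset.Ioc_eq_empty (by omega), Finset.sum_empty, norm_zero]
    positivity
  have hMA : M ≤ A := by rw [hA]; exact le_max_left _ _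
  have hXA : X / l' ≤ A := by rw [hA]; exact le_max_right _ _
  have hBM : B ≤ 2 * M := by rw [hB]; exact min_le_left _ _
  have hBX : B ≤ X' / l := by rw [hB]; exact min_le_right _ _
  have hlB : B * l ≤ X' := (Nat.le_div_iff_mul_le hl0).1 hBX
  have hXl' : X < B * l' := by
    rw [← Nat.div_lt_iff_lt_mul hl'0]
    omega
  have hXl'R : (X : ℝ) ≤ l' * B := by
    have : X ≤ l' * B := by
      rw [mul_comm]
      exact hXl'.le
    exact_mod_cast this
  have hlBR : (l : ℝ) * B ≤ 2 * X := by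
    have : l * B ≤ 2 * X := by
      rw [mul_comm]
      omega
    exact_mod_cast this
  have hB0 : (0 : ℝ) < B := by
    have : 0 < B := by omega
    exact_mod_cast this
  have hMR0 : (0 : ℝ) ≤ M := Nat.cast_nonneg _
  have hBMR : (B : ℝ) ≤ 2 * M := by exact_mod_cast hBM
  -- the leading coefficient
  have hpow : 0 ≤ (l : ℝ) ^ θ₀ - (l' : ℝ) ^ θ₀ := by
    have : (l' : ℝ) ^ θ₀ ≤ (l : ℝ) ^ θ₀ := Real.rpow_le_rpow (by linarith) hllR hθ0.le
    linarith
  have hcabs : |c * ((l : ℝ) ^ θ₀ - (l' : ℝ) ^ θ₀)| = |c| * ((l : ℝ) ^ θ₀ - (l' : ℝ) ^ θ₀) := by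
    rw [abs_mul, abs_of_nonneg hpow]
  have hscale : ((l : ℝ) ^ θ₀ - (l' : ℝ) ^ θ₀) * (B : ℝ) ^ θ₀ = (l * B : ℝ) ^ θ₀ -
      (l' * B : ℝ) ^ θ₀ := by
    rw [Real.mul_rpow (by positivity) hB0.le, Real.mul_rpow (by positivity) hB0.le]
    ring
  have hlow' : θ₀ / 8 * (X : ℝ) ^ (θ₀ / 2) ≤ (l * B : ℝ) ^ θ₀ - (l' * B : ℝ) ^ θ₀ := by
    have h1 := rpow_sub_ge hθ0 (s := l * B) (s' := l' * B) (by linarith) (by gcongr) (by nlinarith)
    refine le_trans ?_ h1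
    have h2 : (X : ℝ) ^ (θ₀ - 1) / 2 ≤ ((l' : ℝ) * B) ^ (θ₀ - 1) := by
      have h3 : (l' : ℝ) * B ≤ 2 * X := le_trans (by gcongr) hlBR
      rcases le_or_gt 0 (θ₀ - 1) with hp | hp
      · have h4 : (X : ℝ) ^ (θ₀ - 1) ≤ ((l' : ℝ) * B) ^ (θ₀ - 1) :=
          Real.rpow_le_rpow hX0.le hXl'R hp
        have h5 : 0 ≤ (X : ℝ) ^ (θ₀ - 1) := by positivity
        linarith
      · calc (X : ℝ) ^ (θ₀ - 1) / 2 = 2 ^ (-1 : ℝ) * (X : ℝ) ^ (θ₀ - 1) := by
              rw [Real.rpow_neg_one]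
              ring
          _ ≤ 2 ^ (θ₀ - 1) * (X : ℝ) ^ (θ₀ - 1) := by
              refine mul_le_mul_of_nonneg_right ?_ (by positivity)
              exact Real.rpow_le_rpow_of_exponent_le (by norm_num) (by linarith)
          _ = (2 * X : ℝ) ^ (θ₀ - 1) := (Real.mul_rpow (by norm_num) hX0.le).symm
          _ ≤ _ := Real.rpow_le_rpow_of_nonpos (by linarith) h3 hp.le
    have h6 : (X : ℝ) / 2 * (X : ℝ) ^ (-(θ₀ / 2)) ≤ l * B - l' * B := by
      have h7 : (l' : ℝ) ≤ 2 * Q := by exact_mod_cast hl'.2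
      have h8 : (X : ℝ) / 2 ≤ Q * B := by nlinarith
      calc (X : ℝ) / 2 * (X : ℝ) ^ (-(θ₀ / 2)) ≤ Q * B * (X : ℝ) ^ (-(θ₀ / 2)) := by gcongr
        _ = Q * (X : ℝ) ^ (-(θ₀ / 2)) * B := by ring
        _ ≤ (l - l') * B := by gcongr
        _ = _ := by ring
    calc θ₀ / 8 * (X : ℝ) ^ (θ₀ / 2) = θ₀ / 2 * ((X : ℝ) / 2 * (X : ℝ) ^ (-(θ₀ / 2)) *
          ((X : ℝ) ^ (θ₀ - 1) / 2)) := by
          have h9 : (X : ℝ) ^ (θ₀ / 2) = X * (X : ℝ) ^ (-(θ₀ / 2)) * (X : ℝ) ^ (θ₀ - 1) := by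
            nth_rw 2 [← Real.rpow_one (X : ℝ)]
            rw [← Real.rpow_add hX0, ← Real.rpow_add hX0]
            congr 1
            ring
          rw [h9]
          ring
      _ ≤ θ₀ / 2 * ((l * B - l' * B) * ((l' : ℝ) * B) ^ (θ₀ - 1)) := by
          have h10 : 0 ≤ (X : ℝ) / 2 * (X : ℝ) ^ (-(θ₀ / 2)) := by positivity
          gcongr
          · linarith
  have key := hb A B (by omega) hlt.le (hM.trans (by
      have : M ≤ B := by omega
      exact_mod_cast this)) (by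
      calc B ≤ B * l := Nat.le_mul_of_pos_right _ hl0
        _ ≤ X' := hlB
        _ ≤ 2 * X := hX') (c * ((l : ℝ) ^ θ₀ - (l' : ℝ) ^ θ₀)) lam (by
      refine hlow.trans ?_
      rw [hcabs, mul_assoc |c| ((l : ℝ) ^ θ₀ - (l' : ℝ) ^ θ₀), hscale, mul_assoc |c|]
      gcongr) (by
      refine le_trans ?_ hup
      rw [hcabs, mul_assoc |c| ((l : ℝ) ^ θ₀ - (l' : ℝ) ^ θ₀), hscale]
      have h1 : (l * B : ℝ) ^ θ₀ - (l' * B : ℝ) ^ θ₀ ≤ (2 * X : ℝ) ^ θ₀ := by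
        have h2 : (l * B : ℝ) ^ θ₀ ≤ (2 * X : ℝ) ^ θ₀ := Real.rpow_le_rpow (by positivity) hlBR hθ0.le
        have h3 : 0 ≤ (l' * B : ℝ) ^ θ₀ := by positivity
        linarith
      gcongr) (G.comp (Polynomial.C (l : ℝ) * Polynomial.X) -
        G.comp (Polynomial.C (l' : ℝ) * Polynomial.X)) (by
      refine (natDegree_sub_le _ _).trans (max_le ?_ ?_)
      · refine (natDegree_comp_le).trans ?_
        refine (Nat.mul_le_mul_left _ ((natDegree_C_mul_le _ _).trans natDegree_X_le)).trans ?_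
        rw [mul_one]
        exact hd.hG
      · refine (natDegree_comp_le).trans ?_
        refine (Nat.mul_le_mul_left _ ((natDegree_C_mul_le _ _).trans natDegree_X_le)).trans ?_
        rw [mul_one]
        exact hd.hG) (fun z => E ((l : ℂ) * z) - E ((l' : ℂ) * z)) (by
      have hcomp : ∀ k : ℕ, 0 < k → DifferentiableOn ℂ (fun z => E ((k : ℂ) * z)) (Hp R) := by
        intro k hk
        refine hd.hE.1.comp (by fun_prop) fun z hz => ?_
        show R < ((k : ℂ) * z).re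
        have h1 : ((k : ℂ) * z).re = k * z.re := by
          rw [← Complex.ofReal_natCast, Complex.re_ofReal_mul]
        rw [h1]
        have h2 : R < z.re := hz
        have h3 : (1 : ℝ) ≤ k := by exact_mod_cast hk
        have := hd.hR
        nlinarith
      exact (hcomp l hl0).sub (hcomp l' hl'0)) (by
      intro z hz
      have h1 := hd.hE.2.2 z hz l l' hl'1 hllR hl2
      rw [Complex.ofReal_natCast, Complex.ofReal_natCast] at h1
      refine h1.trans ?_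
      refine mul_le_mul_of_nonneg_right ?_ (by positivity)
      rw [hcabs]
      have h2 := rpow_sub_ge hθ0 hl'1 hllR hl2
      have h3 : (l' : ℝ) ^ (θ₁ - 1) ≤ (l' : ℝ) ^ (θ₀ - 1) :=
        Real.rpow_le_rpow_of_exponent_le hl'1 (by linarith [hd.hθ])
      have hsub0 : 0 ≤ (l : ℝ) - l' := by linarith
      have h4 : C ≤ |c| * (C / |c| + 2 * C / (|c| * θ₀)) * (θ₀ / 2) := by
        have : |c| * (C / |c| + 2 * C / (|c| * θ₀)) * (θ₀ / 2) = C * θ₀ / 2 + C := by field_simp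
        rw [this]
        have : 0 ≤ C * θ₀ / 2 := by positivity
        linarith
      calc C * (((l : ℝ) - l') * (l' : ℝ) ^ (θ₁ - 1)) ≤
          (|c| * (C / |c| + 2 * C / (|c| * θ₀)) * (θ₀ / 2)) *
            (((l : ℝ) - l') * (l' : ℝ) ^ (θ₀ - 1)) := by gcongr
        _ = |c| * (C / |c| + 2 * C / (|c| * θ₀)) * (θ₀ / 2 *
            (((l : ℝ) - l') * (l' : ℝ) ^ (θ₀ - 1))) := by ring
        _ ≤ |c| * (C / |c| + 2 * C / (|c| * θ₀)) * ((l : ℝ) ^ θ₀ - (l' : ℝ) ^ θ₀) := by gcongr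
        _ = _ := by ring)
  have hsum2 : ∑ m ∈ Finset.Ioc A B, e (lam * (f ((m * l : ℕ) : ℝ) - f ((m * l' : ℕ) : ℝ))) =
      ∑ m ∈ Finset.Ioc A B, e (lam * ((G.comp (Polynomial.C (l : ℝ) * Polynomial.X) -
        G.comp (Polynomial.C (l' : ℝ) * Polynomial.X)).eval (m : ℝ) +
        c * ((l : ℝ) ^ θ₀ - (l' : ℝ) ^ θ₀) * (m : ℝ) ^ θ₀ +
          (E ((l : ℂ) * (m : ℂ)) - E ((l' : ℂ) * (m : ℂ))).re)) := by
    refine Finset.sum_congr rfl fun m hm => ?_
    rw [Finset.mem_Ioc] at hm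
    have hml' : X < m * l' := by
      have h1 : X / l' < m := lt_of_le_of_lt hXA hm.1
      rw [Nat.div_lt_iff_lt_mul hl'0] at h1
      exact h1
    have hml : X < m * l := lt_of_lt_of_le hml' (Nat.mul_le_mul_left m hll.le)
    have hmlR' : R < ((m * l' : ℕ) : ℝ) := by
      have : (X : ℝ) < ((m * l' : ℕ) : ℝ) := by exact_mod_cast hml'
      linarith
    have hmlR : R < ((m * l : ℕ) : ℝ) := by
      have : (X : ℝ) < ((m * l : ℕ) : ℝ) := by exact_mod_cast hml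
      linarith
    rw [hd.hf _ hmlR, hd.hf _ hmlR', eval_sub, eval_comp, eval_mul, eval_C, eval_X, eval_comp,
      eval_mul, eval_C, eval_X, Complex.sub_re]
    push_cast
    rw [Real.mul_rpow (by positivity) (by positivity), Real.mul_rpow (by positivity)
      (by positivity)]
    ring_nf
  rw [hsum2]
  exact key.trans (mul_le_mul_of_nonneg_right hBMR (Real.exp_pos _).le)

end Pool.Agent.J6H93.Fam
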