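import Pool.Agent.J6H93.Fam.Vp4

/-!
# Values at primes: sums with the von Mangoldt function
-/

set_option autoImplicit false

namespace Pool.Agent.J6H93.Fam

open Finset Filter Topology Polynomial
open Pool.Agent.N586.RT (logpow log_ge)
open Pool.Agent.Y933.KD (e norm_e e_add e_neg)
open Pool.Agent.H373R2.T3 (bilin harm)
open Pool.Agent.H373R2.T7 (vaughan_gen)

/-- sums of the second type -/
lemma type_two {f : ℝ → ℝ} {D : ℕ} {θ₀ θ₁ R C c : ℝ} {G : ℝ[X]} {E : ℂ → ℂ}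
    (hd : Dat f D θ₀ θ₁ R C c G E) {δ β : ℝ} {X : ℕ} (hX : 2 ≤ X)
    (hb : Blk D θ₀ θ₁ R (C / |c| + 2 * C / (|c| * θ₀)) (θ₀ / 4) δ β X) (hRX : R < X)
    {lam : ℝ} (hlow : (X : ℝ) ^ (θ₀ / 4) ≤ |lam| * (|c| * (θ₀ / 8) * (X : ℝ) ^ (θ₀ / 2)))
    (hup : |lam| * (|c| * (2 * X : ℝ) ^ θ₀) ≤ Real.exp (2 * (Real.log X) ^ (1 + δ)))
    {X' : ℕ} (hX' : X' ≤ 2 * X) {M Q : ℕ} (hM : (X : ℝ) ^ ((1 : ℝ) / 5) ≤ M) (hQ1 : 1 ≤ Q)
    (hMQ : M * Q ≤ X')
    (hη1 : (X : ℝ) ^ (-(θ₀ / 2)) ≤ Real.exp (-(4 * (Real.log X) ^ β)) / 2)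
    (hη2 : 1 / (Q : ℝ) ≤ Real.exp (-(4 * (Real.log X) ^ β)))
    (a b : ℕ → ℂ) (A₂ B₂ : ℝ) (hA₂ : 0 ≤ A₂) (hB₂ : 0 ≤ B₂)
    (ha : ∑ m ∈ Finset.Ioc M (2 * M), ‖a m‖ ^ 2 ≤ A₂ * M)
    (hbb : ∑ l ∈ Finset.Ioc Q (2 * Q), ‖b l‖ ^ 2 ≤ B₂ * Q) :
    ‖∑ m ∈ Finset.Ioc M (2 * M), ∑ l ∈ Finset.Ioc Q (2 * Q), a m * b l * ker f lam X X' m l‖ ^ 2 ≤
      A₂ * B₂ * (4 * X * Real.exp (-(2 * (Real.log X) ^ β))) ^ 2 := by
  have hX0 : (0 : ℝ) < X := by exact_mod_cast (by omega : 0 < X)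
  have hQ0 : (0 : ℝ) < Q := by exact_mod_cast hQ1
  have hM0 : (0 : ℝ) ≤ M := Nat.cast_nonneg _
  obtain ⟨η, hη⟩ : ∃ η : ℝ, η = Real.exp (-(4 * (Real.log X) ^ β)) := ⟨_, rfl⟩
  have hη0 : 0 < η := by rw [hη]; exact Real.exp_pos _
  rw [← hη] at hη1 hη2
  obtain ⟨τ, hτ⟩ : ∃ τ : ℝ, τ = Q * (X : ℝ) ^ (-(θ₀ / 2)) := ⟨_, rfl⟩
  have hτ0 : 0 < τ := by rw [hτ]; positivity
  have hone : ∀ l l', ‖∑ m ∈ Finset.Ioc M (2 * M), ker f lam X X' m l *
      (starRingEnd ℂ) (ker f lam X X' m l')‖ ≤ M := by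
    intro l l'
    refine (norm_sum_le _ _).trans ?_
    calc ∑ m ∈ Finset.Ioc M (2 * M), ‖ker f lam X X' m l * (starRingEnd ℂ) (ker f lam X X' m l')‖ ≤
        ∑ _m ∈ Finset.Ioc M (2 * M), (1 : ℝ) := by
          refine Finset.sum_le_sum fun m _ => ?_
          rw [norm_mul, Complex.norm_conj]
          exact mul_le_one₀ (ker_le _ _ _ _ _ _) (norm_nonneg _) (ker_le _ _ _ _ _ _)
      _ = M := by
          rw [Finset.sum_const, Nat.card_Ioc, nsmul_eq_mul, mul_one]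
          congr 1
          omega
  have hfar : ∀ l ∈ Finset.Ioc Q (2 * Q), ∀ l' ∈ Finset.Ioc Q (2 * Q), ¬ (|(l : ℝ) - l'| < τ) →
      ‖∑ m ∈ Finset.Ioc M (2 * M), ker f lam X X' m l *
        (starRingEnd ℂ) (ker f lam X X' m l')‖ ≤ 2 * M * η := by
    intro l hl l' hl' hfar
    push Not at hfar
    rcases lt_trichotomy l' l with h | h | h
    · rw [hη]
      have h1 : (l' : ℝ) ≤ l := by exact_mod_cast h.le
      rw [abs_of_nonneg (by linarith), hτ] at hfar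
      exact pair_far hd hX hb hRX hlow hup hX' hM hl' hl h hfar
    · rw [h, sub_self, abs_zero] at hfar
      linarith
    · have e1 : ∑ m ∈ Finset.Ioc M (2 * M), ker f lam X X' m l *
          (starRingEnd ℂ) (ker f lam X X' m l') = (starRingEnd ℂ) (∑ m ∈ Finset.Ioc M (2 * M),
            ker f lam X X' m l' * (starRingEnd ℂ) (ker f lam X X' m l)) := by
        rw [map_sum]
        refine Finset.sum_congr rfl fun m _ => ?_
        rw [map_mul, Complex.conj_conj, mul_comm]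
      rw [e1, Complex.norm_conj, hη]
      have h1 : (l : ℝ) ≤ l' := by exact_mod_cast h.le
      rw [abs_sub_comm, abs_of_nonneg (by linarith), hτ] at hfar
      exact pair_far hd hX hb hRX hlow hup hX' hM hl hl' h hfar
  obtain ⟨T, hT⟩ : ∃ T : ℝ, T = M * (2 * τ + 1) + Q * (2 * M * η) := ⟨_, rfl⟩
  have hTle : ∀ l ∈ Finset.Ioc Q (2 * Q), ∑ l' ∈ Finset.Ioc Q (2 * Q),
      ‖∑ m ∈ Finset.Ioc M (2 * M), ker f lam X X' m l *
        (starRingEnd ℂ) (ker f lam X X' m l')‖ ≤ T := by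
    intro l hl
    rw [← Finset.sum_filter_add_sum_filter_not (Finset.Ioc Q (2 * Q))
      (fun l' : ℕ => |(l : ℝ) - l'| < τ), hT]
    refine add_le_add ?_ ?_
    · calc _ ≤ ∑ _l' ∈ (Finset.Ioc Q (2 * Q)).filter (fun l' : ℕ => |(l : ℝ) - l'| < τ), (M : ℝ) :=
            Finset.sum_le_sum fun l' _ => hone l l'
        _ = (((Finset.Ioc Q (2 * Q)).filter (fun l' : ℕ => |(l : ℝ) - l'| < τ)).card : ℝ) * M := by
            rw [Finset.sum_const, nsmul_eq_mul]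
        _ ≤ (2 * τ + 1) * M := by
            refine mul_le_mul_of_nonneg_right (card_near' l Q hτ0.le) hM0
        _ = _ := mul_comm _ _
    · calc _ ≤ ∑ _l' ∈ (Finset.Ioc Q (2 * Q)).filter (fun l' : ℕ => ¬ |(l : ℝ) - l'| < τ),
              (2 * M * η : ℝ) := Finset.sum_le_sum fun l' hl' => by
            rw [Finset.mem_filter] at hl'
            exact hfar l hl l' hl'.1 hl'.2
        _ = (((Finset.Ioc Q (2 * Q)).filter (fun l' : ℕ => ¬ |(l : ℝ) - l'| < τ)).card : ℝ) *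
              (2 * M * η) := by rw [Finset.sum_const, nsmul_eq_mul]
        _ ≤ Q * (2 * M * η) := by
            refine mul_le_mul_of_nonneg_right ?_ (by positivity)
            have h1 := Finset.card_filter_le (Finset.Ioc Q (2 * Q))
              (fun l' : ℕ => ¬ |(l : ℝ) - l'| < τ)
            rw [Nat.card_Ioc] at h1
            have h2 : ((Finset.Ioc Q (2 * Q)).filter (fun l' : ℕ => ¬ |(l : ℝ) - l'| < τ)).card ≤
                Q := by omega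
            exact_mod_cast h2
  have h1 := bilin (Finset.Ioc M (2 * M)) (Finset.Ioc Q (2 * Q)) a b (ker f lam X X') T hTle
  refine h1.trans ?_
  have hT0 : 0 ≤ T := by rw [hT]; positivity
  have hMQR : (M : ℝ) * Q ≤ 2 * X := by
    have : M * Q ≤ 2 * X := hMQ.trans hX'
    exact_mod_cast this
  have hkey : M * (Q * T) ≤ (4 * X * Real.exp (-(2 * (Real.log X) ^ β))) ^ 2 := by
    have e1 : (4 * X * Real.exp (-(2 * (Real.log X) ^ β))) ^ 2 = (2 * X : ℝ) ^ 2 * (4 * η) := by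
      rw [mul_pow, ← Real.exp_nat_mul, hη]
      push_cast
      ring_nf
    rw [e1]
    have e2 : (M : ℝ) * (Q * T) = (M * Q : ℝ) ^ 2 * (2 * (X : ℝ) ^ (-(θ₀ / 2)) + 1 / Q + 2 * η) := by
      rw [hT, hτ]
      field_simp
    rw [e2]
    have e3 : 2 * (X : ℝ) ^ (-(θ₀ / 2)) + 1 / Q + 2 * η ≤ 4 * η := by linarith
    have e4 : 0 ≤ 2 * (X : ℝ) ^ (-(θ₀ / 2)) + 1 / Q + 2 * η := by positivity
    gcongr
  calc (∑ m ∈ Finset.Ioc M (2 * M), ‖a m‖ ^ 2) * ((∑ l ∈ Finset.Ioc Q (2 * Q), ‖b l‖ ^ 2) * T) ≤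
      (A₂ * M) * ((B₂ * Q) * T) := by gcongr
    _ = A₂ * B₂ * (M * (Q * T)) := by ring
    _ ≤ _ := by gcongr

/-- **sums with the von Mangoldt function over dyadic intervals** -/
theorem es_lam {f : ℝ → ℝ} {D : ℕ} {θ₀ θ₁ R C c : ℝ} {G : ℝ[X]} {E : ℂ → ℂ}
    (hd : Dat f D θ₀ θ₁ R C c G E) (δ β : ℝ) (hδ : 0 < δ) (hβ : 0 < β) (hδβ : 2 * δ + β < 1) :
    ∃ X₀ : ℕ, ∀ X : ℕ, X₀ ≤ X → ∀ X' : ℕ, X ≤ X' → X' ≤ 2 * X → ∀ lam : ℝ,
      Real.exp (-(Real.log X) ^ β) ≤ |lam| → |lam| ≤ Real.exp ((Real.log X) ^ (1 + δ)) →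
      ‖∑ n ∈ Finset.Ioc X X', ((ArithmeticFunction.vonMangoldt n : ℝ) : ℂ) * e (lam * f (n : ℝ))‖ ≤
        X * Real.exp (-(Real.log X) ^ β) := by
  have hθ0 := hd.hθ0
  have hc0 : 0 < |c| := abs_pos.2 hd.hc
  have hC := hd.hC
  have hR := hd.hR
  obtain ⟨K₀, hK₀⟩ : ∃ K₀ : ℝ, K₀ = C / |c| + 2 * C / (|c| * θ₀) := ⟨_, rfl⟩
  have hK₀0 : 0 ≤ K₀ := by rw [hK₀]; positivity
  obtain ⟨X1, hX1⟩ := blk D hd.hθn hd.hθ (by linarith : 0 ≤ R) K₀ (θ₀ / 4) hK₀0 (by linarith) δ β hδ hβ hδβ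
  have hβ1 : β < 1 := by linarith
  obtain ⟨k1, hk1⟩ : ∃ k1 : ℝ, k1 = |Real.log (|c| * (θ₀ / 8))| := ⟨_, rfl⟩
  obtain ⟨k2, hk2⟩ : ∃ k2 : ℝ, k2 = |Real.log (|c|)| := ⟨_, rfl⟩
  have hk10 : 0 ≤ k1 := by rw [hk1]; exact abs_nonneg _
  have hk20 : 0 ≤ k2 := by rw [hk2]; exact abs_nonneg _
  obtain ⟨X2, hX2⟩ := eventually_atTop.1 ((loglog_le hβ 12).and ((logpow hβ 20).and
    ((logpow hβ1 20).and ((logpow hβ1 (10 / θ₀)).and ((logpow hβ1 ((1 + k1) * (4 / θ₀))).and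
    ((logpow hβ1 ((1 + k2) * (4 / θ₀))).and ((log_ge (max 20 (Real.log R + 1))).and
    (logpow (by linarith : 1 < 1 + δ) (k2 + 2 * θ₀)))))))))
  refine ⟨max X1 (max X2 16), fun X hX X' hXX' hX' lam hl1 hl2 => ?_⟩
  have hblk : Blk D θ₀ θ₁ R K₀ (θ₀ / 4) δ β X := hX1 X (le_of_max_le_left hX)
  rw [hK₀] at hblk
  obtain ⟨h1, h2, h3, h4, h5, h6, h7, h8⟩ := hX2 X (le_of_max_le_left (le_of_max_le_right hX))
  have hX16 : 16 ≤ X := le_of_max_le_right (le_of_max_le_right hX)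
  have hX2' : 2 ≤ X := by omega
  have hXR : (16 : ℝ) ≤ X := by exact_mod_cast hX16
  have hX0 : (0 : ℝ) < X := by linarith
  have hX1' : (1 : ℝ) ≤ X := by linarith
  obtain ⟨L, hL⟩ : ∃ L : ℝ, L = Real.log X := ⟨_, rfl⟩
  have hXe : (X : ℝ) = Real.exp L := by rw [hL, Real.exp_log hX0]
  have hXpow : ∀ x : ℝ, (X : ℝ) ^ x = Real.exp (x * L) := by
    intro x
    rw [hXe, ← Real.exp_mul]
    ring_nf
  obtain ⟨v, hv⟩ : ∃ v : ℝ, v = L ^ β := ⟨_, rfl⟩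
  rw [← hL] at h1 h2 h3 h4 h5 h6 h7 h8 hl1 hl2 ⊢
  rw [← hv] at h1 h2 h3 h4 h5 h6 hl1 ⊢
  rw [Real.rpow_zero, mul_one] at h2
  rw [Real.rpow_one] at h3 h4 h5 h6 h8
  have hL20 : 20 ≤ L := (le_max_left _ _).trans h7
  have hLR : Real.log R + 1 ≤ L := (le_max_right _ _).trans h7
  have hL0 : 0 < L := by linarith
  have hRX : R < X := by
    rw [hXe, ← Real.log_lt_iff_lt_exp (by linarith)]
    linarith
  have hv1 : 1 ≤ v := by linarith
  have hlog4 : Real.log (4 * X) ≤ L + 2 := by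
    rw [Real.log_mul (by norm_num) hX0.ne', ← hL]
    have : Real.log 4 ≤ 2 := by
      rw [show (4 : ℝ) = 2 ^ 2 by norm_num, Real.log_pow]
      have := Real.log_two_lt_d9
      push_cast
      linarith
    linarith
  have hlog2 : Real.log (2 * X) ≤ 2 * L := by
    rw [Real.log_mul (by norm_num) hX0.ne', ← hL]
    have := Real.log_two_lt_d9
    linarith
  -- bounds for the frequency
  have hlowII : (X : ℝ) ^ (θ₀ / 4) ≤ |lam| * (|c| * (θ₀ / 8) * (X : ℝ) ^ (θ₀ / 2)) := by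
    have e1 : (1 + k1) * v ≤ θ₀ / 4 * L := by
      have : (1 + k1) * v = θ₀ / 4 * ((1 + k1) * (4 / θ₀) * v) := by field_simp
      rw [this]
      gcongr
    have e2 : v + k1 ≤ (1 + k1) * v := by nlinarith
    have e3 : Real.exp (-k1) ≤ |c| * (θ₀ / 8) := by
      rw [← Real.le_log_iff_exp_le (by positivity), hk1]
      exact neg_abs_le _
    calc (X : ℝ) ^ (θ₀ / 4) = Real.exp (θ₀ / 4 * L) := hXpow _
      _ ≤ Real.exp (-v + (-k1 + θ₀ / 2 * L)) := Real.exp_le_exp.2 (by linarith)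
      _ = Real.exp (-v) * (Real.exp (-k1) * (X : ℝ) ^ (θ₀ / 2)) := by
        rw [Real.exp_add, Real.exp_add, hXpow]
      _ ≤ _ := by gcongr
  have hlowI : (X : ℝ) ^ (θ₀ / 4) ≤ |lam| * (|c| * (X : ℝ) ^ θ₀) := by
    have e1 : (1 + k2) * v ≤ θ₀ / 4 * L := by
      have : (1 + k2) * v = θ₀ / 4 * ((1 + k2) * (4 / θ₀) * v) := by field_simp
      rw [this]
      gcongr
    have e2 : v + k2 ≤ (1 + k2) * v := by nlinarith
    have e3 : Real.exp (-k2) ≤ |c| := by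
      rw [← Real.le_log_iff_exp_le hc0, hk2]
      exact neg_abs_le _
    have e4 : 0 ≤ θ₀ * L := by positivity
    calc (X : ℝ) ^ (θ₀ / 4) = Real.exp (θ₀ / 4 * L) := hXpow _
      _ ≤ Real.exp (-v + (-k2 + θ₀ * L)) := Real.exp_le_exp.2 (by linarith)
      _ = Real.exp (-v) * (Real.exp (-k2) * (X : ℝ) ^ θ₀) := by
        rw [Real.exp_add, Real.exp_add, hXpow]
      _ ≤ _ := by gcongr
  have hup : |lam| * (|c| * (2 * X : ℝ) ^ θ₀) ≤ Real.exp (2 * (Real.log X) ^ (1 + δ)) := by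
    rw [← hL]
    have e3 : |c| ≤ Real.exp k2 := by
      rw [← Real.log_le_iff_le_exp hc0, hk2]
      exact le_abs_self _
    have e4 : (2 * X : ℝ) ^ θ₀ ≤ Real.exp (2 * θ₀ * L) := by
      rw [Real.rpow_def_of_pos (by positivity), Real.exp_le_exp]
      nlinarith
    calc |lam| * (|c| * (2 * X : ℝ) ^ θ₀) ≤ Real.exp (L ^ (1 + δ)) * (Real.exp k2 *
          Real.exp (2 * θ₀ * L)) := by gcongr
      _ = Real.exp (L ^ (1 + δ) + (k2 + 2 * θ₀ * L)) := by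
        rw [Real.exp_add, Real.exp_add]
      _ ≤ _ := by
        rw [Real.exp_le_exp]
        have : k2 ≤ k2 * L := le_mul_of_one_le_right hk20 (by linarith)
        nlinarith
  -- the parameter
  obtain ⟨U, hU⟩ : ∃ U : ℕ, U = Nat.sqrt (Nat.sqrt X) := ⟨_, rfl⟩
  have hU1 : U * U ≤ Nat.sqrt X := by rw [hU]; exact Nat.sqrt_le _
  have hU2 : Nat.sqrt X * Nat.sqrt X ≤ X := Nat.sqrt_le _
  have hU3 : X < (U + 1) ^ 4 := by
    have e1 : Nat.sqrt X < (U + 1) * (U + 1) := by rw [hU]; exact Nat.lt_succ_sqrt _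
    have e2 : X < (Nat.sqrt X + 1) * (Nat.sqrt X + 1) := Nat.lt_succ_sqrt _
    calc X < (Nat.sqrt X + 1) * (Nat.sqrt X + 1) := e2
      _ ≤ ((U + 1) * (U + 1)) * ((U + 1) * (U + 1)) := Nat.mul_le_mul e1 e1
      _ = (U + 1) ^ 4 := by ring
  have hUpos : 1 ≤ U := by
    by_contra hcon
    have : U = 0 := by omega
    rw [this] at hU3
    omega
  have hUUX : U * U ≤ X := hU1.trans (Nat.sqrt_le_self X)
  have hquarter : ∀ Y : ℕ, U < 2 * Y → (X : ℝ) ^ ((1 : ℝ) / 4) ≤ 2 * Y := by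
    intro Y hY
    have e1 : X ≤ (2 * Y) ^ 4 := by
      have : (U + 1) ^ 4 ≤ (2 * Y) ^ 4 := Nat.pow_le_pow_left hY 4
      omega
    have e2 : (X : ℝ) ≤ (2 * Y : ℝ) ^ (4 : ℝ) := by
      have : (X : ℝ) ≤ ((2 * Y : ℕ) : ℝ) ^ 4 := by exact_mod_cast e1
      rw [show (4 : ℝ) = ((4 : ℕ) : ℝ) by norm_num, Real.rpow_natCast]
      push_cast at this
      exact this
    calc (X : ℝ) ^ ((1 : ℝ) / 4) ≤ ((2 * Y : ℝ) ^ (4 : ℝ)) ^ ((1 : ℝ) / 4) :=
          Real.rpow_le_rpow hX0.le e2 (by norm_num)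
      _ = 2 * Y := by
          rw [← Real.rpow_mul (by positivity)]
          norm_num
  have hvL4 : 4 * v + 1 ≤ L / 4 := by linarith
  have hfifth : ∀ Y : ℕ, U < 2 * Y → (X : ℝ) ^ ((1 : ℝ) / 5) ≤ Y := by
    intro Y hY
    have e1 := hquarter Y hY
    have e2 : (X : ℝ) ^ ((1 : ℝ) / 5) * 2 ≤ (X : ℝ) ^ ((1 : ℝ) / 4) := by
      rw [hXpow, hXpow]
      have : (2 : ℝ) ≤ Real.exp 1 := by linarith [Real.exp_one_gt_d9]
      calc Real.exp (1 / 5 * L) * 2 ≤ Real.exp (1 / 5 * L) * Real.exp 1 := by gcongr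
        _ = Real.exp (1 / 5 * L + 1) := (Real.exp_add _ _).symm
        _ ≤ _ := Real.exp_le_exp.2 (by linarith)
    linarith
  have hη2 : ∀ Y : ℕ, U < 2 * Y → 1 / (Y : ℝ) ≤ Real.exp (-(4 * v)) := by
    intro Y hY
    have e1 := hquarter Y hY
    have e0 : (0 : ℝ) < Y := by
      have : 0 < Y := by omega
      exact_mod_cast this
    rw [div_le_iff₀ e0]
    have e2 : (1 : ℝ) ≤ Real.exp (-(4 * v)) * ((X : ℝ) ^ ((1 : ℝ) / 4) / 2) := by
      have : (2 : ℝ) ≤ Real.exp 1 := by linarith [Real.exp_one_gt_d9]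
      rw [hXpow]
      have e3 : Real.exp 1 ≤ Real.exp (-(4 * v)) * Real.exp (1 / 4 * L) := by
        rw [← Real.exp_add, Real.exp_le_exp]
        linarith
      linarith
    have e4 : Real.exp (-(4 * v)) * ((X : ℝ) ^ ((1 : ℝ) / 4) / 2) ≤ Real.exp (-(4 * v)) * Y := by
      gcongr
      linarith
    linarith
  have hη1 : (X : ℝ) ^ (-(θ₀ / 2)) ≤ Real.exp (-(4 * v)) / 2 := by
    rw [hXpow, le_div_iff₀ (by norm_num)]
    have e1 : 5 * v ≤ θ₀ / 2 * L := by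
      have : 5 * v = θ₀ / 2 * (10 / θ₀ * v) := by field_simp; ring
      rw [this]
      gcongr
    have : (2 : ℝ) ≤ Real.exp 1 := by linarith [Real.exp_one_gt_d9]
    calc Real.exp (-(θ₀ / 2) * L) * 2 ≤ Real.exp (-(θ₀ / 2) * L) * Real.exp 1 := by gcongr
      _ = Real.exp (-(θ₀ / 2) * L + 1) := (Real.exp_add _ _).symm
      _ ≤ _ := Real.exp_le_exp.2 (by linarith)
  have hvg := vaughan_gen (fun n : ℕ => e (lam * f (n : ℝ))) X X' U (by omega) hXX' hX' hUpos hUUX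
    (fun m : ℕ => (2 * X / m : ℝ) * Real.exp (-(4 * v))) (4 * X * Real.exp (-(2 * v)))
    (by positivity) (fun m => by positivity)
    (by
      intro m hm b hbm
      rw [Finset.mem_Icc] at hm
      have e1 : m * m ≤ X := by
        have : m ≤ Nat.sqrt X := hm.2.trans hU1
        exact (Nat.mul_le_mul this this).trans hU2
      have := type_one hd hX2' hblk hRX hlowI hup hX' hm.1 e1 hbm
      rw [← hL, ← hv] at this
      exact this)
    (by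
      intro a b A₂ B₂ hA₂ hB₂ M Q hM1 hQ1 hM2 hQ2 hMQ ha hb
      have := type_two hd hX2' hblk hRX hlowII hup hX' (hfifth M hM2) hQ1 hMQ (by
        rw [← hL, ← hv]
        exact hη1) (by
        rw [← hL, ← hv]
        exact hη2 Q hQ2) a b A₂ B₂ hA₂ hB₂ ha hb
      rw [← hL, ← hv] at this
      exact this)
  refine hvg.trans ?_
  have hlg : 1 + Real.log (4 * X) ≤ 3 * L := by linarith
  have hlg0 : 0 ≤ 1 + Real.log (4 * X) := by
    have := Real.log_nonneg (by linarith : (1 : ℝ) ≤ 4 * X)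
    linarith
  have hY : ∑ m ∈ Finset.Icc 1 (U * U), (2 * X / m : ℝ) * Real.exp (-(4 * v)) ≤
      2 * X * Real.exp (-(4 * v)) * (3 * L) := by
    have e1 : ∑ m ∈ Finset.Icc 1 (U * U), (2 * X / m : ℝ) * Real.exp (-(4 * v)) =
        2 * X * Real.exp (-(4 * v)) * ∑ m ∈ Finset.Icc 1 (U * U), (1 : ℝ) / m := by
      rw [Finset.mul_sum]
      refine Finset.sum_congr rfl fun m _ => ?_
      ring
    rw [e1]
    refine mul_le_mul_of_nonneg_left ?_ (by positivity)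
    refine (harm (U * U)).trans ?_
    have e2 : Real.log (((U * U : ℕ) : ℝ) + 1) ≤ Real.log (2 * X) := by
      apply Real.log_le_log (by positivity)
      have : ((U * U : ℕ) : ℝ) ≤ X := by exact_mod_cast hUUX
      linarith
    linarith
  obtain ⟨ll, hll⟩ : ∃ ll : ℝ, ll = Real.log L := ⟨_, rfl⟩
  rw [← hll] at h1
  have hLe : L = Real.exp ll := by rw [hll, Real.exp_log hL0]
  have hbig : 10000 * L ^ 6 ≤ Real.exp v := by
    have e1 : (10000 : ℝ) ≤ Real.exp 10 := by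
      have h9 : (2.7 : ℝ) ≤ Real.exp 1 := by linarith [Real.exp_one_gt_d9]
      have h10 : Real.exp 10 = Real.exp 1 ^ 10 := by
        rw [← Real.exp_nat_mul]
        norm_num
      rw [h10]
      calc (10000 : ℝ) ≤ 2.7 ^ 10 := by norm_num
        _ ≤ _ := by gcongr
    have e2 : L ^ 6 = Real.exp (6 * ll) := by
      rw [hLe, ← Real.exp_nat_mul]
      norm_num
    calc 10000 * L ^ 6 ≤ Real.exp 10 * Real.exp (6 * ll) := by
          rw [e2]
          gcongr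
      _ = Real.exp (10 + 6 * ll) := (Real.exp_add _ _).symm
      _ ≤ _ := Real.exp_le_exp.2 (by linarith)
  have hev : Real.exp (-v) * (10000 * L ^ 6) ≤ 1 := by
    calc Real.exp (-v) * (10000 * L ^ 6) ≤ Real.exp (-v) * Real.exp v := by gcongr
      _ = 1 := by rw [← Real.exp_add]; simp
  have hE2 : Real.exp (-(2 * v)) = Real.exp (-v) * Real.exp (-v) := by
    rw [← Real.exp_add]
    congr 1
    ring
  have hE4 : Real.exp (-(4 * v)) ≤ Real.exp (-v) * Real.exp (-v) := by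
    rw [← Real.exp_add]
    exact Real.exp_le_exp.2 (by linarith)
  have hev0 : 0 < Real.exp (-v) := Real.exp_pos _
  calc 8 * (1 + Real.log (4 * X)) ^ 5 * (4 * X * Real.exp (-(2 * v))) +
      3 * (1 + Real.log (4 * X)) * ∑ m ∈ Finset.Icc 1 (U * U), (2 * X / m : ℝ) * Real.exp (-(4 * v)) ≤
      8 * (3 * L) ^ 5 * (4 * X * Real.exp (-(2 * v))) +
      3 * (3 * L) * (2 * X * Real.exp (-(4 * v)) * (3 * L)) := by
        gcongr
    _ ≤ 8 * (3 * L) ^ 5 * (4 * X * (Real.exp (-v) * Real.exp (-v))) +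
      3 * (3 * L) * (2 * X * (Real.exp (-v) * Real.exp (-v)) * (3 * L)) := by
        rw [hE2]
        gcongr
    _ = X * Real.exp (-v) * (Real.exp (-v) * (7776 * L ^ 5 + 54 * L ^ 2)) := by ring
    _ ≤ X * Real.exp (-v) * (Real.exp (-v) * (10000 * L ^ 6)) := by
        have e1 : 7776 * L ^ 5 + 54 * L ^ 2 ≤ 10000 * L ^ 6 := by
          have hL1 : 1 ≤ L := by linarith
          have e2 : L ^ 5 ≤ L ^ 6 := pow_le_pow_right₀ hL1 (by norm_num)
          have e3 : L ^ 2 ≤ L ^ 6 := pow_le_pow_right₀ hL1 (by norm_num)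
          nlinarith
        gcongr
    _ ≤ X * Real.exp (-v) * 1 := by gcongr
    _ = _ := mul_one _

end Pool.Agent.J6H93.Fam
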