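import Pool.Agent.J6H93.Fam.Vp5
import Mathlib.NumberTheory.Chebyshev

/-!
# Values at primes: sums over primes
-/

set_option autoImplicit false

namespace Pool.Agent.J6H93.Fam

open Finset Filter Topology Polynomial
open Pool.Agent.N586.RT (logpow log_ge)
open Pool.Agent.Y933.KD (e norm_e e_add e_neg)
open Pool.Agent.H373R2.T3 (abel_Ioc)

/-- algebraic functions which are not close to polynomials -/
theorem dat_ex {f : ℝ → ℝ} (hf : AlgFun f) (hunb : Unb f) :
    ∃ (D : ℕ) (θ₀ θ₁ R C c : ℝ) (G : ℝ[X]) (E : ℂ → ℂ), Dat f D θ₀ θ₁ R C c G E := by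
  classical
  obtain ⟨q, p, Φ, hq, hΦ, halg, hre, hv, hex⟩ := alg_ex (r := 1) (f := fun _ => f) (fun _ => hf)
  obtain ⟨R, C, E, hR, hC, hE⟩ := hex p
  obtain ⟨R', C', E', hR', hC', hE'⟩ := hex (p + q)
  have hq0 : (0 : ℝ) < q := by exact_mod_cast hq
  obtain ⟨φ, hφ⟩ : ∃ φ : ℕ → ℝ, φ = fun k => (tc k (Φ 0)).re := ⟨_, rfl⟩
  have hE0 : Ex q p p R C f φ (E 0) := by rw [hφ]; exact hE 0
  have hE0' : Ex q p (p + q) R' C' f φ (E' 0) := by rw [hφ]; exact hE' 0
  have hlead : ∃ k, k ≤ p ∧ NP q p k ∧ φ k ≠ 0 := by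
    obtain ⟨k, h1, h2, _, h4⟩ := unb_lead hq hR hC hE0 hunb
    exact ⟨k, h1, h2, h4⟩
  obtain ⟨k₁, hk₁, hnp₁, hpos₁, hne₁⟩ := unb_lead hq hR hC hE0 hunb
  obtain ⟨k, hkd⟩ : ∃ k, k = Nat.find hlead := ⟨_, rfl⟩
  obtain ⟨hkp, hnp, hne⟩ := Nat.find_spec hlead
  rw [← hkd] at hkp hnp hne
  have hmin : ∀ k' < k, NP q p k' → φ k' = 0 := by
    intro k' hk' hnp'
    by_contra h
    rw [hkd] at hk'
    exact Nat.find_min hlead hk' ⟨by omega, hnp', h⟩
  have hkk : k ≤ k₁ := by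
    rw [hkd]
    exact Nat.find_min' hlead ⟨hk₁, hnp₁, hne₁⟩
  obtain ⟨G, E₁, C₁, hG, hC₁, hrem, hf1⟩ := rem_split hq hR' hC' hE0' hkp hnp hmin
  refine ⟨p, ((p : ℝ) - k) / q, ((p : ℝ) - k - 1) / q, 2 * R', C₁, φ k, G, E₁, hG, np_ne hq hnp, ?_,
    div_lt_div_of_pos_right (by linarith) hq0, by linarith, hC₁, hrem, hne, hf1⟩
  refine lt_of_lt_of_le hpos₁ (div_le_div_of_nonneg_right ?_ hq0.le)
  have : (k : ℝ) ≤ k₁ := by exact_mod_cast hkk
  linarith

/-- sums over longer intervals from dyadic ones -/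
lemma dyadic_ind {A M : ℕ} (hA : 1 ≤ A) {η : ℝ} (hη : 0 ≤ η) {z : ℕ → ℂ}
    (h : ∀ X X' : ℕ, A ≤ X → X ≤ X' → X' ≤ 2 * X → X' ≤ M → ‖∑ n ∈ Finset.Ioc X X', z n‖ ≤ X * η) :
    ∀ x : ℕ, A ≤ x → x ≤ M → ‖∑ n ∈ Finset.Ioc A x, z n‖ ≤ 2 * x * η := by
  intro x
  induction x using Nat.strong_induction_on with
  | _ x ih =>
    intro hAx hxM
    rcases Nat.lt_or_ge (2 * A) x with hx | hx
    · obtain ⟨y, hy⟩ : ∃ y : ℕ, y = (x + 1) / 2 := ⟨_, rfl⟩
      have h1 : y < x := by omega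
      have h2 : A ≤ y := by omega
      have h3 : x ≤ 2 * y := by omega
      have h4 : 3 * y ≤ 2 * x := by omega
      rw [← Finset.sum_Ioc_consecutive z h2 h1.le]
      have h5 := ih y h1 h2 (by omega)
      have h6 := h y x h2 h1.le h3 hxM
      have h7 : (3 : ℝ) * y ≤ 2 * x := by exact_mod_cast h4
      calc ‖∑ n ∈ Finset.Ioc A y, z n + ∑ n ∈ Finset.Ioc y x, z n‖ ≤ 2 * y * η + y * η :=
            (norm_add_le _ _).trans (add_le_add h5 h6)
        _ = 3 * y * η := by ring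
        _ ≤ _ := by gcongr
    · refine (h A x le_rfl hAx hx hxM).trans ?_
      have : (A : ℝ) ≤ x := by exact_mod_cast hAx
      have hA0 : (0 : ℝ) ≤ A := Nat.cast_nonneg _
      gcongr
      linarith

/-- from the von Mangoldt function to primes -/
lemma to_primes {A M : ℕ} (hA : 3 ≤ A) (hAM : A ≤ M) {B : ℝ} {z : ℕ → ℂ} (hz : ∀ n, ‖z n‖ ≤ 1)
    (h : ∀ x : ℕ, A ≤ x → x ≤ M →
      ‖∑ n ∈ Finset.Ioc A x, ((ArithmeticFunction.vonMangoldt n : ℝ) : ℂ) * z n‖ ≤ B) :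
    ‖∑ n ∈ (Finset.Ioc A M).filter Nat.Prime, z n‖ ≤ 3 * (B + 2 * √M * Real.log M) := by
  have hM1 : (1 : ℝ) ≤ M := by exact_mod_cast (by omega : 1 ≤ M)
  have hB0 : 0 ≤ B := (norm_nonneg _).trans (h A le_rfl hAM)
  obtain ⟨B₁, hB₁⟩ : ∃ B₁ : ℝ, B₁ = B + 2 * √M * Real.log M := ⟨_, rfl⟩
  have hB₁0 : 0 ≤ B₁ := by
    rw [hB₁]
    have := Real.log_nonneg hM1
    positivity
  -- the primes with logarithms
  have h1 : ∀ x : ℕ, A ≤ x → x ≤ M →
      ‖∑ n ∈ Finset.Ioc A x, (if n.Prime then ((Real.log n : ℝ) : ℂ) * z n else 0)‖ ≤ B₁ := by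
    intro x hx hxM
    have e1 : ∑ n ∈ Finset.Ioc A x, (if n.Prime then ((Real.log n : ℝ) : ℂ) * z n else 0) =
        ∑ n ∈ Finset.Ioc A x, ((ArithmeticFunction.vonMangoldt n : ℝ) : ℂ) * z n -
        ∑ n ∈ (Finset.Ioc A x).filter (fun n => ¬ n.Prime),
          ((ArithmeticFunction.vonMangoldt n : ℝ) : ℂ) * z n := by
      rw [Finset.sum_filter, ← Finset.sum_sub_distrib]
      refine Finset.sum_congr rfl fun n _ => ?_
      by_cases hn : n.Prime
      · rw [if_pos hn, if_neg (not_not.2 hn), sub_zero,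
          ArithmeticFunction.vonMangoldt_apply_prime hn]
      · rw [if_neg hn, if_pos hn, sub_self]
    rw [e1]
    refine (norm_sub_le _ _).trans ?_
    rw [hB₁]
    refine add_le_add (h x hx hxM) ?_
    calc ‖∑ n ∈ (Finset.Ioc A x).filter (fun n => ¬ n.Prime),
          ((ArithmeticFunction.vonMangoldt n : ℝ) : ℂ) * z n‖ ≤
        ∑ n ∈ (Finset.Ioc A x).filter (fun n => ¬ n.Prime), ArithmeticFunction.vonMangoldt n := by
          refine (norm_sum_le _ _).trans (Finset.sum_le_sum fun n _ => ?_)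
          rw [norm_mul, Complex.norm_real, Real.norm_eq_abs,
            abs_of_nonneg ArithmeticFunction.vonMangoldt_nonneg]
          exact mul_le_of_le_one_right ArithmeticFunction.vonMangoldt_nonneg (hz n)
      _ ≤ ∑ n ∈ (Finset.Ioc 0 M).filter (fun n => ¬ n.Prime), ArithmeticFunction.vonMangoldt n := by
          refine Finset.sum_le_sum_of_subset_of_nonneg (Finset.filter_subset_filter _ ?_)
            fun n _ _ => ArithmeticFunction.vonMangoldt_nonneg
          intro n hn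
          rw [Finset.mem_Ioc] at hn ⊢
          exact ⟨by omega, by omega⟩
      _ = Chebyshev.psi M - Chebyshev.theta M := by
          rw [Chebyshev.psi_sub_theta_eq_sum_not_prime, Nat.floor_natCast]
      _ ≤ _ := Chebyshev.psi_sub_theta_le hM1
  -- partial summation
  have hA0 : (0 : ℝ) < A := by exact_mod_cast (by omega : 0 < A)
  have hlogA : 1 ≤ Real.log A := by
    rw [Real.le_log_iff_exp_le hA0]
    have e1 : (3 : ℝ) ≤ A := by exact_mod_cast hA
    have := Real.exp_one_lt_d9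
    linarith
  obtain ⟨w, hw⟩ : ∃ w : ℕ → ℝ, w = fun n => (Real.log A)⁻¹ - (Real.log (max n A : ℕ))⁻¹ := ⟨_, rfl⟩
  have hmax : ∀ n : ℕ, Real.log A ≤ Real.log (max n A : ℕ) := by
    intro n
    apply Real.log_le_log hA0
    exact_mod_cast le_max_right _ _
  have hwmono : Monotone w := by
    intro a b hab
    rw [hw]
    simp only
    have e1 : Real.log (max a A : ℕ) ≤ Real.log (max b A : ℕ) := by
      apply Real.log_le_log
      · exact_mod_cast lt_of_lt_of_le (by omega : 0 < A) (le_max_right _ _)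
      · exact_mod_cast max_le_max_right A hab
    have e2 : (Real.log (max b A : ℕ))⁻¹ ≤ (Real.log (max a A : ℕ))⁻¹ :=
      inv_anti₀ (by linarith [hmax a]) e1
    linarith
  have hw0 : ∀ n, 0 ≤ w n := by
    intro n
    rw [hw]
    simp only
    have e2 : (Real.log (max n A : ℕ))⁻¹ ≤ (Real.log A)⁻¹ := inv_anti₀ (by linarith) (hmax n)
    linarith
  have hw1 : ∀ n, w n ≤ 1 := by
    intro n
    rw [hw]
    simp only
    have e1 : (Real.log A)⁻¹ ≤ 1 := inv_le_one_of_one_le₀ hlogA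
    have e2 : 0 ≤ (Real.log (max n A : ℕ))⁻¹ := inv_nonneg.2 (by linarith [hmax n])
    linarith
  have h2 := abel_Ioc A M hAM w (fun n => if n.Prime then ((Real.log n : ℝ) : ℂ) * z n else 0) B₁
    hwmono hw0 (fun x hx => by
      rcases Nat.lt_or_ge x A with hxA | hxA
      · rw [Finset.Ioc_eq_empty (by omega), Finset.sum_empty, norm_zero]
        exact hB₁0
      · exact h1 x hxA hx)
  have h3 : ∑ n ∈ (Finset.Ioc A M).filter Nat.Prime, z n =
      (((Real.log A)⁻¹ : ℝ) : ℂ) * ∑ n ∈ Finset.Ioc A M,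
        (if n.Prime then ((Real.log n : ℝ) : ℂ) * z n else 0) -
      ∑ n ∈ Finset.Ioc A M, (w n : ℂ) *
        (if n.Prime then ((Real.log n : ℝ) : ℂ) * z n else 0) := by
    rw [Finset.mul_sum, ← Finset.sum_sub_distrib, Finset.sum_filter]
    refine Finset.sum_congr rfl fun n hn => ?_
    rw [Finset.mem_Ioc] at hn
    by_cases hp : n.Prime
    · rw [if_pos hp, if_pos hp, hw]
      simp only
      rw [max_eq_left (by omega : A ≤ n), ← sub_mul, ← Complex.ofReal_sub, sub_sub_cancel,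
        ← mul_assoc, ← Complex.ofReal_mul, inv_mul_cancel₀, Complex.ofReal_one, one_mul]
      have e1 := hmax n
      rw [max_eq_left (by omega : A ≤ n)] at e1
      linarith
    · rw [if_neg hp, if_neg hp]
      simp
  rw [h3, ← hB₁]
  refine (norm_sub_le _ _).trans ?_
  have h4 : ‖(((Real.log A)⁻¹ : ℝ) : ℂ) * ∑ n ∈ Finset.Ioc A M,
        (if n.Prime then ((Real.log n : ℝ) : ℂ) * z n else 0)‖ ≤ 1 * B₁ := by
    rw [norm_mul, Complex.norm_real, Real.norm_eq_abs, abs_of_nonneg (by positivity)]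
    exact mul_le_mul (inv_le_one_of_one_le₀ hlogA) (h1 M hAM le_rfl) (norm_nonneg _) zero_le_one
  have h5 : 2 * w M * B₁ ≤ 2 * 1 * B₁ := by
    have := hw1 M
    gcongr
  linarith

/-- **sums over primes** -/
theorem es_prime {f : ℝ → ℝ} (hf : AlgFun f) (hunb : Unb f) (δ β : ℝ) (hδ : 0 < δ) (hβ : 0 < β)
    (hδβ : 2 * δ + β < 1) :
    ∃ M₀ : ℕ, ∀ M : ℕ, M₀ ≤ M → ∀ A : ℕ, (M : ℝ) ^ ((1 : ℝ) / 2) ≤ A → A ≤ M → ∀ lam : ℝ,
      Real.exp (-(Real.log M) ^ β) ≤ |lam| → |lam| ≤ Real.exp ((Real.log M) ^ (1 + δ)) →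
      ‖∑ n ∈ (Finset.Ioc A M).filter Nat.Prime, e (lam * f (n : ℝ))‖ ≤
        M * Real.exp (-(Real.log M) ^ β) := by
  obtain ⟨D, θ₀, θ₁, R, C, c, G, E, hd⟩ := dat_ex hf hunb
  obtain ⟨β', hβ'⟩ : ∃ β' : ℝ, β' = β + (1 - 2 * δ - β) / 4 := ⟨_, rfl⟩
  obtain ⟨δ', hδ'⟩ : ∃ δ' : ℝ, δ' = δ + (1 - 2 * δ - β) / 4 := ⟨_, rfl⟩
  have hδδ : δ < δ' := by linarith
  have hββ : β < β' := by linarith
  have hβ'1 : β' < 1 := by linarith
  have hδ'1 : δ' < 1 := by linarith
  have hβ1 : β < 1 := by linarith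
  obtain ⟨X₀, hX₀⟩ := es_lam hd δ' β' (by linarith) (by linarith) (by linarith)
  obtain ⟨M1, hM1⟩ := eventually_atTop.1 ((logpow (by linarith : 1 + δ < 1 + δ') 4).and
    ((logpow hββ 8).and ((logpow hβ1 4).and ((logpow hβ 4).and
    (log_ge (max 400 (2 * Real.log (X₀ + 1))))))))
  refine ⟨max M1 2, fun M hM A hA hAM lam hl1 hl2 => ?_⟩
  obtain ⟨h1, h2, h3, h4, h5⟩ := hM1 M (le_of_max_le_left hM)
  have hM2 : 2 ≤ M := le_of_max_le_right hM
  have hMR : (2 : ℝ) ≤ M := by exact_mod_cast hM2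
  have hM0 : (0 : ℝ) < M := by linarith
  obtain ⟨L, hL⟩ : ∃ L : ℝ, L = Real.log M := ⟨_, rfl⟩
  rw [← hL] at h1 h2 h3 h4 h5 hl1 hl2 ⊢
  obtain ⟨v, hv⟩ : ∃ v : ℝ, v = L ^ β := ⟨_, rfl⟩
  rw [← hv] at h2 h3 h4 hl1 ⊢
  rw [Real.rpow_one] at h3
  rw [Real.rpow_zero, mul_one] at h4
  have hL400 : 400 ≤ L := (le_max_left _ _).trans h5
  have hLX : 2 * Real.log (X₀ + 1) ≤ L := (le_max_right _ _).trans h5
  have hL0 : 0 < L := by linarith
  have hMe : (M : ℝ) = Real.exp L := by rw [hL, Real.exp_log hM0]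
  have hsq : (M : ℝ) ^ ((1 : ℝ) / 2) = Real.exp (L / 2) := by
    rw [hMe, ← Real.exp_mul]
    ring_nf
  rw [hsq] at hA
  have hA0 : (0 : ℝ) < A := lt_of_lt_of_le (Real.exp_pos _) hA
  have hA3 : 3 ≤ A := by
    have e1 : (3 : ℝ) ≤ Real.exp (L / 2) := by
      have := Real.add_one_le_exp (L / 2)
      linarith
    have : (3 : ℝ) ≤ A := by linarith
    exact_mod_cast this
  have hX₀A : X₀ ≤ A := by
    have e1 : ((X₀ : ℝ) + 1) ≤ Real.exp (L / 2) := by
      rw [← Real.log_le_iff_le_exp (by positivity)]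
      linarith
    have : (X₀ : ℝ) ≤ A := by linarith
    exact_mod_cast this
  obtain ⟨w, hw⟩ : ∃ w : ℝ, w = (L / 2) ^ β' := ⟨_, rfl⟩
  have hw1 : 4 * v ≤ w := by
    have e1 : L ^ β' / 2 ≤ w := by
      rw [hw, Real.div_rpow hL0.le (by norm_num)]
      apply div_le_div_of_nonneg_left (by positivity) (by positivity)
      calc (2 : ℝ) ^ β' ≤ 2 ^ (1 : ℝ) := Real.rpow_le_rpow_of_exponent_le (by norm_num) hβ'1.le
        _ = 2 := Real.rpow_one _
    linarith
  have hdy := dyadic_ind (A := A) (M := M) (by omega) (η := Real.exp (-w)) (Real.exp_pos _).le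
    (z := fun n => ((ArithmeticFunction.vonMangoldt n : ℝ) : ℂ) * e (lam * f (n : ℝ))) (by
      intro X X' hAX hXX' hX' hXM
      have hXA : (A : ℝ) ≤ X := by exact_mod_cast hAX
      have hX0 : (0 : ℝ) < X := by linarith
      have hlX : L / 2 ≤ Real.log X := by
        rw [Real.le_log_iff_exp_le hX0]
        linarith
      have hww : w ≤ (Real.log X) ^ β' := by
        rw [hw]
        exact Real.rpow_le_rpow (by positivity) hlX (by linarith)
      have hup : L ^ (1 + δ) ≤ (Real.log X) ^ (1 + δ') := by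
        calc L ^ (1 + δ) ≤ L ^ (1 + δ') / 4 := by linarith
          _ ≤ L ^ (1 + δ') / 2 ^ (1 + δ') := by
            apply div_le_div_of_nonneg_left (by positivity) (by positivity)
            calc (2 : ℝ) ^ (1 + δ') ≤ 2 ^ (2 : ℝ) :=
                  Real.rpow_le_rpow_of_exponent_le (by norm_num) (by linarith)
              _ = 4 := by norm_num
          _ = (L / 2) ^ (1 + δ') := (Real.div_rpow hL0.le (by norm_num) _).symm
          _ ≤ _ := Real.rpow_le_rpow (by positivity) hlX (by linarith)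
      refine (hX₀ X (hX₀A.trans hAX) X' hXX' hX' lam ?_ ?_).trans ?_
      · exact (Real.exp_le_exp.2 (by linarith)).trans hl1
      · exact hl2.trans (Real.exp_le_exp.2 hup)
      · have : Real.exp (-(Real.log X) ^ β') ≤ Real.exp (-w) := Real.exp_le_exp.2 (by linarith)
        gcongr)
  have hp := to_primes (A := A) (M := M) hA3 hAM (B := 2 * M * Real.exp (-w))
    (z := fun n => e (lam * f (n : ℝ))) (fun n => (norm_e _).le) (fun x hx hxM => by
      refine (hdy x hx hxM).trans ?_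
      have : (x : ℝ) ≤ M := by exact_mod_cast hxM
      gcongr)
  refine hp.trans ?_
  rw [← hL]
  have hsqrt : √(M : ℝ) = Real.exp (L / 2) := by
    rw [Real.sqrt_eq_rpow, hsq]
  rw [hsqrt]
  have e1 : Real.exp (-w) ≤ Real.exp (-v) * Real.exp (-3) := by
    rw [← Real.exp_add]
    exact Real.exp_le_exp.2 (by linarith)
  have e2 : Real.exp (-3 : ℝ) ≤ 1 / 12 := by
    rw [Real.exp_neg, ← one_div]
    apply one_div_le_one_div_of_le (by norm_num)
    have h10 : Real.exp 3 = Real.exp 1 ^ 3 := by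
      rw [← Real.exp_nat_mul]
      norm_num
    have h9 : (2.7 : ℝ) ≤ Real.exp 1 := by linarith [Real.exp_one_gt_d9]
    rw [h10]
    calc (12 : ℝ) ≤ 2.7 ^ 3 := by norm_num
      _ ≤ _ := by gcongr
  have e3 : 12 * L * Real.exp (L / 2) ≤ M * Real.exp (-v) := by
    have e4 : 12 * L ≤ Real.exp (L / 4) := by
      have := Real.quadratic_le_exp_of_nonneg (by positivity : 0 ≤ L / 4)
      nlinarith
    calc 12 * L * Real.exp (L / 2) ≤ Real.exp (L / 4) * Real.exp (L / 2) := by gcongr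
      _ = Real.exp (L + -(L / 4)) := by
        rw [← Real.exp_add]
        congr 1
        ring
      _ = M * Real.exp (-(L / 4)) := by rw [Real.exp_add, ← hMe]
      _ ≤ _ := by
        have : Real.exp (-(L / 4)) ≤ Real.exp (-v) := Real.exp_le_exp.2 (by linarith)
        gcongr
  have hev0 : 0 < Real.exp (-v) := Real.exp_pos _
  have e5 : Real.exp (-w) ≤ Real.exp (-v) * (1 / 12) := e1.trans (by gcongr)
  calc 3 * (2 * M * Real.exp (-w) + 2 * Real.exp (L / 2) * L) =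
      6 * M * Real.exp (-w) + (12 * L * Real.exp (L / 2)) / 2 := by ring
    _ ≤ 6 * M * (Real.exp (-v) * (1 / 12)) + (M * Real.exp (-v)) / 2 := by gcongr
    _ = _ := by ring

end Pool.Agent.J6H93.Fam
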